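import Pool.Agent.NH99.KT_Count

set_option autoImplicit false
set_option linter.unusedSectionVars false
set_option linter.unusedSimpArgs false

open MeasureTheory ProbabilityTheory Finset

namespace Pool.Agent.NH99.KT

/-- adjacency in the Kikuchi graph -/
abbrev adj (n ℓ h : ℕ) (I K : VV n ℓ) : Prop := (symmDiff I.1 K.1).card = 2 * h

/-- the label of a step -/
abbrev lab (n ℓ : ℕ) (I K : VV n ℓ) : Finset (Fin n) := symmDiff I.1 K.1

theorem TT_bound (n ℓ h N : ℕ) (hℓ : 1 ≤ ℓ) (hh : 1 ≤ h) (κ α β : ℝ)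
    (hκ : ∀ X : ℕ, 1 + (X : ℝ) / ℓ ≤ κ ^ X) (hκ1 : 1 ≤ κ) (hα : 0 < α) (hβ : 0 < β)
    (hα2 : (ℓ.choose h : ℝ) * (n + (2 * h * N : ℕ) * κ ^ (2 * N)) ^ h ≤ α ^ 2)
    (hβ2 : (ℓ : ℝ) / h ≤ β ^ 2) (m : ℕ) :
    ∀ (I J : VV n ℓ) (O : Finset (Fin n) → ℕ), (∀ s, O s ≠ 0 → s.card = 2 * h) →
      ∑ s, O s + m ≤ N →
      TT (adj n ℓ h) (lab n ℓ) m I J O ≤
        (2 * α * β) ^ m * (β / α) ^ (∑ s, O s) * κ ^ (m * ex I.1 O) := by
  have hκ0 : 0 ≤ κ := by linarith
  have hℓ0 : (0 : ℝ) < ℓ := by exact_mod_cast hℓ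
  have hh0 : (0 : ℝ) < h := by exact_mod_cast hh
  induction m with
  | zero =>
    intro I J O hO hN
    rw [TT_zero]
    split_ifs with hc
    · obtain ⟨_, rfl⟩ := hc
      simp
    · positivity
  | succ m ih =>
    intro I J O hO hN
    rw [TT_succ]
    obtain ⟨q, hq⟩ : ∃ q, q = ∑ s, O s := ⟨_, rfl⟩
    obtain ⟨X, hX⟩ : ∃ X, X = ex I.1 O := ⟨_, rfl⟩
    obtain ⟨D, hD⟩ : ∃ D : Finset (Fin n), D = Finset.univ.filter fun i => 1 ≤ dg O i := ⟨_, rfl⟩
    rw [← hq, ← hX]
    rw [← hq] at hN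
    have hopen : ∀ K : VV n ℓ, adj n ℓ h I K →
        TT (adj n ℓ h) (lab n ℓ) m K J (O + Pi.single (lab n ℓ I K) 1) ≤
          (2 * α * β) ^ m * (β / α) ^ (q + 1) * κ ^ (m * X) *
            (κ ^ (2 * N)) ^ ((K.1 \ I.1).filter fun i => i ∈ D).card := by
      intro K hK
      have hO' : ∀ s, (O + Pi.single (lab n ℓ I K) 1 : Finset (Fin n) → ℕ) s ≠ 0 →
          s.card = 2 * h := by
        intro s hs
        by_cases hsl : s = lab n ℓ I K
        · rw [hsl]; exact hK
        · refine hO s ?_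
          simpa [hsl] using hs
      have h1 := ih K J (O + Pi.single (lab n ℓ I K) 1) hO' (by rw [tot_add]; omega)
      rw [tot_add, ← hq] at h1
      refine h1.trans ?_
      have h2 : κ ^ (m * ex K.1 (O + Pi.single (lab n ℓ I K) 1)) ≤
          κ ^ (m * X) * (κ ^ (2 * N)) ^ ((K.1 \ I.1).filter fun i => i ∈ D).card := by
        rw [← pow_mul, ← pow_add]
        refine pow_le_pow_right₀ hκ1 ?_
        have h3 := ex_open I.1 K.1 O
        rw [← hX] at h3
        have h4 : ((K.1 \ I.1).filter fun i => 1 ≤ dg O i) =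
            ((K.1 \ I.1).filter fun i => i ∈ D) := by
          ext i; simp [hD]
        rw [h4] at h3
        calc m * ex K.1 (O + Pi.single (lab n ℓ I K) 1) ≤
            m * (X + 2 * ((K.1 \ I.1).filter fun i => i ∈ D).card) := Nat.mul_le_mul_left _ h3
          _ = m * X + 2 * m * ((K.1 \ I.1).filter fun i => i ∈ D).card := by ring
          _ ≤ m * X + 2 * N * ((K.1 \ I.1).filter fun i => i ∈ D).card := by
              gcongr; omega
      calc _ ≤ (2 * α * β) ^ m * (β / α) ^ (q + 1) *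
            (κ ^ (m * X) * (κ ^ (2 * N)) ^ ((K.1 \ I.1).filter fun i => i ∈ D).card) :=
            mul_le_mul_of_nonneg_left h2 (by positivity)
        _ = _ := by ring
    have hclose : ∀ K : VV n ℓ, adj n ℓ h I K →
        (O (lab n ℓ I K) : ℝ) * TT (adj n ℓ h) (lab n ℓ) m K J (O - Pi.single (lab n ℓ I K) 1) ≤
          (O (lab n ℓ I K) : ℝ) * ((2 * α * β) ^ m * (β / α) ^ (q - 1) * κ ^ (m * X)) := by
      intro K hK
      by_cases h0 : O (lab n ℓ I K) = 0
      · simp [h0]
      refine mul_le_mul_of_nonneg_left ?_ (by positivity)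
      have hO' : ∀ s, (O - Pi.single (lab n ℓ I K) 1 : Finset (Fin n) → ℕ) s ≠ 0 →
          s.card = 2 * h := by
        intro s hs
        refine hO s ?_
        intro hs0
        apply hs
        simp [hs0]
      have ht := tot_sub O _ h0
      have h1 := ih K J (O - Pi.single (lab n ℓ I K) 1) hO' (by omega)
      have hq1 : ∑ t, (O - Pi.single (lab n ℓ I K) 1 : Finset (Fin n) → ℕ) t = q - 1 := by
        omega
      rw [hq1] at h1
      refine h1.trans ?_
      have h2 : κ ^ (m * ex K.1 (O - Pi.single (lab n ℓ I K) 1)) ≤ κ ^ (m * X) := by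
        refine pow_le_pow_right₀ hκ1 (Nat.mul_le_mul_left _ ?_)
        rw [hX]
        exact ex_close I.1 K.1 O h0
      exact mul_le_mul_of_nonneg_left h2 (by positivity)
    have hsum : ∑ K, (if adj n ℓ h I K then
        (TT (adj n ℓ h) (lab n ℓ) m K J (O + Pi.single (lab n ℓ I K) 1) +
          (O (lab n ℓ I K) : ℝ) *
            TT (adj n ℓ h) (lab n ℓ) m K J (O - Pi.single (lab n ℓ I K) 1)) else 0) ≤
        (2 * α * β) ^ m * (β / α) ^ (q + 1) * κ ^ (m * X) *
          (∑ K : VV n ℓ, if (symmDiff I.1 K.1).card = 2 * h then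
            (κ ^ (2 * N)) ^ ((K.1 \ I.1).filter fun i => i ∈ D).card else 0) +
        (2 * α * β) ^ m * (β / α) ^ (q - 1) * κ ^ (m * X) *
          (∑ K : VV n ℓ, if (symmDiff I.1 K.1).card = 2 * h then
            (O (symmDiff I.1 K.1) : ℝ) else 0) := by
      rw [Finset.mul_sum, Finset.mul_sum, ← Finset.sum_add_distrib]
      refine Finset.sum_le_sum fun K _ => ?_
      by_cases hK : adj n ℓ h I K
      · have hK' : (symmDiff I.1 K.1).card = 2 * h := hK
        rw [if_pos hK, if_pos hK', if_pos hK']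
        have h1 := hopen K hK
        have h2 := hclose K hK
        calc _ ≤ _ := add_le_add h1 h2
          _ = _ := by ring
      · have hK' : ¬ (symmDiff I.1 K.1).card = 2 * h := hK
        rw [if_neg hK, if_neg hK', if_neg hK']
        simp
    refine hsum.trans ?_
    have hDc : (D.card : ℝ) ≤ (2 * h * N : ℕ) := by
      have h1 := card_dg_pos O (2 * h) hO
      rw [← hD, ← hq] at h1
      exact_mod_cast h1.trans (Nat.mul_le_mul_left _ (by omega))
    have hκN : 1 ≤ κ ^ (2 * N) := one_le_pow₀ hκ1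
    have ho : (∑ K : VV n ℓ, if (symmDiff I.1 K.1).card = 2 * h then
            (κ ^ (2 * N)) ^ ((K.1 \ I.1).filter fun i => i ∈ D).card else 0) ≤ α ^ 2 := by
      refine (open_count I D (κ ^ (2 * N)) hκN).trans (le_trans ?_ hα2)
      gcongr
    have hc : (β / α) ^ (q - 1) * (∑ K : VV n ℓ, if (symmDiff I.1 K.1).card = 2 * h then
            (O (symmDiff I.1 K.1) : ℝ) else 0) ≤ (β / α) ^ q * (α / β) * (β ^ 2 * κ ^ X) := by
      have hcl := close_count (h := h) I O
      rw [← hX] at hcl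
      have hcl' : (∑ K : VV n ℓ, if (symmDiff I.1 K.1).card = 2 * h then
            (O (symmDiff I.1 K.1) : ℝ) else 0) * h ≤ ℓ + X := by
        have := (Nat.cast_le (α := ℝ)).2 hcl
        push_cast at this
        exact this
      have hcl2 : (∑ K : VV n ℓ, if (symmDiff I.1 K.1).card = 2 * h then
            (O (symmDiff I.1 K.1) : ℝ) else 0) ≤ β ^ 2 * κ ^ X := by
        have h1 : (∑ K : VV n ℓ, if (symmDiff I.1 K.1).card = 2 * h then
            (O (symmDiff I.1 K.1) : ℝ) else 0) ≤ ((ℓ : ℝ) + X) / h := by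
          rw [le_div_iff₀ hh0]; exact hcl'
        refine h1.trans ?_
        have h2 : ((ℓ : ℝ) + X) / h = (ℓ / h) * (1 + (X : ℝ) / ℓ) := by
          field_simp
        rw [h2]
        exact mul_le_mul hβ2 (hκ X) (by positivity) (by positivity)
      rcases Nat.eq_zero_or_pos q with hq0 | hq0
      · have : (∑ K : VV n ℓ, if (symmDiff I.1 K.1).card = 2 * h then
            (O (symmDiff I.1 K.1) : ℝ) else 0) = 0 := by
          refine Finset.sum_eq_zero fun K _ => ?_
          have hz : ∀ s, O s = 0 := by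
            rw [hq0] at hq
            intro s
            exact (Finset.sum_eq_zero_iff.1 hq.symm) s (Finset.mem_univ s)
          simp [hz]
        rw [this, mul_zero]
        positivity
      · have e : (β / α) ^ q * (α / β) = (β / α) ^ (q - 1) := by
          obtain ⟨q', rfl⟩ : ∃ q', q = q' + 1 := ⟨q - 1, by omega⟩
          rw [Nat.add_sub_cancel, pow_succ]
          field_simp
        rw [e]
        exact mul_le_mul_of_nonneg_left hcl2 (by positivity)
    have t1 : (2 * α * β) ^ m * (β / α) ^ (q + 1) * κ ^ (m * X) *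
          (∑ K : VV n ℓ, if (symmDiff I.1 K.1).card = 2 * h then
            (κ ^ (2 * N)) ^ ((K.1 \ I.1).filter fun i => i ∈ D).card else 0) ≤
        (2 * α * β) ^ m * (β / α) ^ q * κ ^ ((m + 1) * X) * (α * β) := by
      have h1 : (2 * α * β) ^ m * (β / α) ^ (q + 1) * κ ^ (m * X) *
          (∑ K : VV n ℓ, if (symmDiff I.1 K.1).card = 2 * h then
            (κ ^ (2 * N)) ^ ((K.1 \ I.1).filter fun i => i ∈ D).card else 0) ≤
          (2 * α * β) ^ m * (β / α) ^ (q + 1) * κ ^ (m * X) * α ^ 2 :=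
        mul_le_mul_of_nonneg_left ho (by positivity)
      refine h1.trans ?_
      have h2 : κ ^ (m * X) ≤ κ ^ ((m + 1) * X) := pow_le_pow_right₀ hκ1 (by gcongr; omega)
      calc (2 * α * β) ^ m * (β / α) ^ (q + 1) * κ ^ (m * X) * α ^ 2 =
          (2 * α * β) ^ m * (β / α) ^ q * κ ^ (m * X) * (α * β) := by
            rw [pow_succ (β / α) q]; field_simp
        _ ≤ _ := by gcongr
    have t2 : (2 * α * β) ^ m * (β / α) ^ (q - 1) * κ ^ (m * X) *
          (∑ K : VV n ℓ, if (symmDiff I.1 K.1).card = 2 * h then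
            (O (symmDiff I.1 K.1) : ℝ) else 0) ≤
        (2 * α * β) ^ m * (β / α) ^ q * κ ^ ((m + 1) * X) * (α * β) := by
      calc (2 * α * β) ^ m * (β / α) ^ (q - 1) * κ ^ (m * X) *
          (∑ K : VV n ℓ, if (symmDiff I.1 K.1).card = 2 * h then
            (O (symmDiff I.1 K.1) : ℝ) else 0) =
          (2 * α * β) ^ m * κ ^ (m * X) * ((β / α) ^ (q - 1) *
          (∑ K : VV n ℓ, if (symmDiff I.1 K.1).card = 2 * h then
            (O (symmDiff I.1 K.1) : ℝ) else 0)) := by ring
        _ ≤ (2 * α * β) ^ m * κ ^ (m * X) * ((β / α) ^ q * (α / β) * (β ^ 2 * κ ^ X)) :=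
            mul_le_mul_of_nonneg_left hc (by positivity)
        _ = _ := by
            rw [show (m + 1) * X = m * X + X by ring, pow_add]
            field_simp
    calc _ ≤ _ := add_le_add t1 t2
      _ = _ := by rw [pow_succ (2 * α * β) m]; ring

end Pool.Agent.NH99.KT
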