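import Pool.Agent.NH99.KT_Up

set_option autoImplicit false
set_option linter.unusedSectionVars false
set_option linter.unusedSimpArgs false

open MeasureTheory ProbabilityTheory Finset Matrix

namespace Pool.Agent.NH99.KT

theorem deg_ge (n ℓ h : ℕ) (I : VV n ℓ) :
    ℓ.choose h * (n - ℓ).choose h ≤
      (Finset.univ.filter fun K : VV n ℓ => adj n ℓ h I K).card := by
  have h1 : (I.1.powersetCard h ×ˢ (I.1ᶜ).powersetCard h).card = ℓ.choose h * (n - ℓ).choose h := by
    rw [Finset.card_product, Finset.card_powersetCard, Finset.card_powersetCard, I.2,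
      Finset.card_compl, I.2, Fintype.card_fin]
  rw [← h1]
  have hsub : I.1.powersetCard h ×ˢ (I.1ᶜ).powersetCard h ⊆
      (Finset.univ.filter fun K : VV n ℓ => adj n ℓ h I K).image
        (fun K => (I.1 \ K.1, K.1 \ I.1)) := by
    rintro ⟨B, A⟩ hp
    rw [Finset.mem_product, Finset.mem_powersetCard, Finset.mem_powersetCard] at hp
    obtain ⟨⟨hB, hBc⟩, hA, hAc⟩ := hp
    simp only at hB hBc hA hAc
    have hA' : ∀ i ∈ A, i ∉ I.1 := fun i hi => by simpa using hA hi
    have hd : Disjoint (I.1 \ B) A := by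
      rw [Finset.disjoint_left]
      intro i hi hiA
      exact hA' i hiA (Finset.mem_sdiff.1 hi).1
    have hcard : ((I.1 \ B) ∪ A).card = ℓ := by
      rw [Finset.card_union_of_disjoint hd, Finset.card_sdiff_of_subset hB, I.2, hBc, hAc]
      have := Finset.card_le_card hB
      rw [I.2, hBc] at this
      omega
    have e1 : I.1 \ ((I.1 \ B) ∪ A) = B := by
      ext i
      have := @hB i
      have := hA' i
      simp only [Finset.mem_sdiff, Finset.mem_union]
      tauto
    have e2 : ((I.1 \ B) ∪ A) \ I.1 = A := by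
      ext i
      have := hA' i
      simp only [Finset.mem_sdiff, Finset.mem_union]
      tauto
    rw [Finset.mem_image]
    refine ⟨⟨(I.1 \ B) ∪ A, hcard⟩, ?_, ?_⟩
    · rw [Finset.mem_filter]
      refine ⟨Finset.mem_univ _, ?_⟩
      show (symmDiff I.1 ((I.1 \ B) ∪ A)).card = 2 * h
      rw [symmDiff_def, Finset.sup_eq_union, Finset.card_union_of_disjoint disjoint_sdiff_sdiff,
        e1, e2, hBc, hAc]
      ring
    · simp only [e1, e2]
  exact (Finset.card_le_card hsub).trans Finset.card_image_le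

theorem VV_nonempty (n ℓ : ℕ) (hn : ℓ ≤ n) : Nonempty (VV n ℓ) := by
  obtain ⟨K, hK, hK2⟩ := Finset.exists_subset_card_eq (s := (Finset.univ : Finset (Fin n)))
    (n := ℓ) (by simpa using hn)
  exact ⟨⟨K, hK2⟩⟩

theorem El_ge (n ℓ h : ℕ) (hn : ℓ ≤ n) (lam : ℝ) (hlam : 0 ≤ lam) :
    lam * ((ℓ.choose h : ℝ) * ((n - ℓ).choose h : ℝ)) ≤ El n (2 * h) ℓ lam := by
  have hne := VV_nonempty n ℓ hn
  obtain ⟨d, hd⟩ : ∃ d : ℕ, d = Fintype.card (VV n ℓ) := ⟨_, rfl⟩
  have hd0 : (0 : ℝ) < d := by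
    rw [hd]
    exact_mod_cast Fintype.card_pos
  have h1 : ∀ Z : Finset (Fin n) → ℝ,
      ∑ I : VV n ℓ, ∑ J : VV n ℓ, (1 / (d : ℝ)) * kik n (2 * h) ℓ lam Z I J ≤
        lmax (kik n (2 * h) ℓ lam Z) := by
    intro Z
    have h2 := ray_le_lmax (kik n (2 * h) ℓ lam Z) (fun _ => 1 / √(d : ℝ)) (by
      simp only [dotProduct, Finset.sum_const, Finset.card_univ, nsmul_eq_mul]
      rw [← hd, div_mul_div_comm, Real.mul_self_sqrt hd0.le]
      field_simp)
    refine le_trans (le_of_eq ?_) h2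
    simp only [dotProduct, Matrix.mulVec]
    refine Finset.sum_congr rfl fun I _ => ?_
    rw [Finset.mul_sum]
    refine Finset.sum_congr rfl fun J _ => ?_
    have : (1 / √(d : ℝ)) * (1 / √(d : ℝ)) = 1 / d := by
      rw [div_mul_div_comm, Real.mul_self_sqrt hd0.le, one_mul]
    rw [← this]
    ring
  have hint : ∀ I J : VV n ℓ, Integrable (fun Z => kik n (2 * h) ℓ lam Z I J)
      (gam (Finset (Fin n))) := by
    intro I J
    simp only [kik, Matrix.of_apply]
    split_ifs
    · exact (integrable_const lam).add (Z_int _)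
    · simp
  have hval : ∀ I J : VV n ℓ, ∫ Z, kik n (2 * h) ℓ lam Z I J ∂(gam (Finset (Fin n))) =
      if adj n ℓ h I J then lam else 0 := by
    intro I J
    simp only [kik, Matrix.of_apply]
    split_ifs with hc
    · rw [integral_add (integrable_const lam) (Z_int _), Z_integral]
      simp
    · simp
  have h3 : ∫ Z, ∑ I : VV n ℓ, ∑ J : VV n ℓ, (1 / (d : ℝ)) * kik n (2 * h) ℓ lam Z I J
      ∂(gam (Finset (Fin n))) ≤ El n (2 * h) ℓ lam := by
    unfold El
    refine integral_mono ?_ (lmax_kik_int n (2 * h) ℓ lam) h1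
    exact integrable_finsetSum _ fun I _ => integrable_finsetSum _ fun J _ =>
      (hint I J).const_mul _
  refine le_trans ?_ h3
  rw [integral_finsetSum _ fun I _ => integrable_finsetSum _ fun J _ => (hint I J).const_mul _]
  have h4 : ∀ I : VV n ℓ, ∫ Z, ∑ J : VV n ℓ, (1 / (d : ℝ)) * kik n (2 * h) ℓ lam Z I J
      ∂(gam (Finset (Fin n))) =
      (1 / (d : ℝ)) * (lam * ((Finset.univ.filter fun K : VV n ℓ => adj n ℓ h I K).card : ℝ)) := by
    intro I
    rw [integral_finsetSum _ fun J _ => (hint I J).const_mul _]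
    simp_rw [integral_const_mul, hval]
    rw [← Finset.mul_sum, ← Finset.sum_filter, Finset.sum_const, nsmul_eq_mul]
    ring
  simp_rw [h4]
  have h5 : ∀ I : VV n ℓ, (1 / (d : ℝ)) * (lam * ((ℓ.choose h : ℝ) * ((n - ℓ).choose h : ℝ))) ≤
      (1 / (d : ℝ)) * (lam * ((Finset.univ.filter fun K : VV n ℓ => adj n ℓ h I K).card : ℝ)) := by
    intro I
    refine mul_le_mul_of_nonneg_left (mul_le_mul_of_nonneg_left ?_ hlam) (by positivity)
    exact_mod_cast deg_ge n ℓ h I
  refine le_trans (le_of_eq ?_) (Finset.sum_le_sum fun I _ => h5 I)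
  rw [Finset.sum_const, Finset.card_univ, ← hd, nsmul_eq_mul]
  field_simp

/-- a pair of adjacent vertices gives the absolute value of its label -/
theorem lmax_ge_abs (n ℓ h : ℕ) (hh : 1 ≤ h) (Z : Finset (Fin n) → ℝ) (I J : VV n ℓ)
    (hIJ : adj n ℓ h I J) : |Z (symmDiff I.1 J.1)| ≤ lmax (kik n (2 * h) ℓ 0 Z) := by
  have hne : I ≠ J := by
    rintro rfl
    simp [adj] at hIJ
    omega
  have hII : kik n (2 * h) ℓ 0 Z I I = 0 := by
    have : ¬ (0 : ℕ) = 2 * h := by omega
    simp [kik, this]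
  have hJJ : kik n (2 * h) ℓ 0 Z J J = 0 := by
    have : ¬ (0 : ℕ) = 2 * h := by omega
    simp [kik, this]
  have hIJ' : kik n (2 * h) ℓ 0 Z I J = Z (symmDiff I.1 J.1) := by
    have : (symmDiff I.1 J.1).card = 2 * h := hIJ
    simp [kik, this]
  have hJI' : kik n (2 * h) ℓ 0 Z J I = Z (symmDiff I.1 J.1) := by
    rw [(kik_symm n (2 * h) ℓ 0 Z).apply, hIJ']
  have key : ∀ ε : ℝ, ε ^ 2 = 1 → ε * Z (symmDiff I.1 J.1) ≤ lmax (kik n (2 * h) ℓ 0 Z) := by
    intro ε hε
    have hs : (√2)⁻¹ * (√2)⁻¹ = (1 : ℝ) / 2 := by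
      rw [← mul_inv, Real.mul_self_sqrt (by norm_num)]; norm_num
    obtain ⟨v, hv⟩ : ∃ v : VV n ℓ → ℝ, v = Pi.single I (√2)⁻¹ + Pi.single J (ε * (√2)⁻¹) :=
      ⟨_, rfl⟩
    have h1 : v ⬝ᵥ v = 1 := by
      rw [hv]
      simp only [dotProduct_add, add_dotProduct, single_dotProduct, dotProduct_single,
        Pi.add_apply,
        Pi.single_eq_same, Pi.single_eq_of_ne hne, Pi.single_eq_of_ne hne.symm, mul_zero, zero_mul]
      linear_combination (1 + ε ^ 2) * hs + (1 / 2) * hε
    have h2 := ray_le_lmax (kik n (2 * h) ℓ 0 Z) v h1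
    refine le_trans (le_of_eq ?_) h2
    have h3 : (kik n (2 * h) ℓ 0 Z) *ᵥ v =
        fun K => kik n (2 * h) ℓ 0 Z K I * (√2)⁻¹ + kik n (2 * h) ℓ 0 Z K J * (ε * (√2)⁻¹) := by
      rw [hv, Matrix.mulVec_add]
      funext K
      simp [Matrix.mulVec, dotProduct_single]
    rw [h3, hv, add_dotProduct, single_dotProduct, single_dotProduct, hII, hIJ', hJI', hJJ]
    linear_combination (-2 * ε * Z (symmDiff I.1 J.1)) * hs
  rcases abs_cases (Z (symmDiff I.1 J.1)) with ⟨h1, _⟩ | ⟨h1, _⟩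
  · rw [h1]; simpa using key 1 (by norm_num)
  · rw [h1]; simpa using key (-1) (by norm_num)

theorem gauss_lt_one (K : ℝ) : (gaussianReal 0 1) {x : ℝ | |x| < K} < 1 := by
  have hm : MeasurableSet {x : ℝ | |x| < K} := by measurability
  by_contra hc
  push Not at hc
  have h1 : (gaussianReal 0 1) {x : ℝ | |x| < K} = 1 := le_antisymm prob_le_one hc
  have h2 : (gaussianReal 0 1) {x : ℝ | |x| < K}ᶜ = 0 := by
    rw [prob_compl_eq_zero_iff hm]; exact h1
  have h3 : volume {x : ℝ | |x| < K}ᶜ = 0 :=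
    (gaussianReal_absolutelyContinuous' 0 (by norm_num : (1 : NNReal) ≠ 0)) h2
  have h4 : Set.Ioo |K| (|K| + 1) ⊆ {x : ℝ | |x| < K}ᶜ := by
    intro x hx
    simp only [Set.mem_compl_iff, Set.mem_ofPred_eq, not_lt]
    have := le_abs_self K
    have := le_abs_self x
    linarith [hx.1]
  have h5 := measure_mono_null h4 h3
  rw [Real.volume_Ioo] at h5
  norm_num at h5

theorem El_large (ℓ h : ℕ) (hh : 1 ≤ h) (hℓ : h ≤ ℓ) (K : ℝ) (hK : 0 < K) :
    ∀ᶠ n : ℕ in Filter.atTop, K / 2 ≤ El n (2 * h) ℓ 0 := by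
  obtain ⟨p, hp⟩ : ∃ p, p = (gaussianReal 0 1) {x : ℝ | |x| < K} := ⟨_, rfl⟩
  have hp1 : p < 1 := hp ▸ gauss_lt_one K
  have hp0 : p.toReal < 1 := by
    have := (ENNReal.toReal_lt_toReal (hp1.trans ENNReal.one_lt_top).ne ENNReal.one_ne_top).2 hp1
    simpa using this
  have htend : Filter.Tendsto (fun m : ℕ => p.toReal ^ m) Filter.atTop (nhds 0) :=
    tendsto_pow_atTop_nhds_zero_of_lt_one ENNReal.toReal_nonneg hp0
  obtain ⟨m0, hm0⟩ := Filter.eventually_atTop.1 (htend.eventually_le_const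
    (show (0 : ℝ) < 1 / 2 by norm_num))
  filter_upwards [Filter.eventually_ge_atTop (ℓ + m0 + h)] with n hn
  have hne := VV_nonempty n ℓ (by omega)
  obtain ⟨I⟩ := hne
  obtain ⟨T, hT⟩ : ∃ T : Finset (Finset (Fin n)), T =
    (Finset.univ.filter fun J : VV n ℓ => adj n ℓ h I J).image (fun J => symmDiff I.1 J.1) :=
    ⟨_, rfl⟩
  have hTc : m0 ≤ T.card := by
    rw [hT, Finset.card_image_of_injective _ (fun J J' hJ =>
      Subtype.ext (symmDiff_right_injective _ hJ))]
    refine le_trans ?_ (deg_ge n ℓ h I)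
    have h1 : 1 ≤ ℓ.choose h := Nat.choose_pos hℓ
    have h2 : m0 ≤ (n - ℓ).choose h := by
      have h3 := Nat.choose_le_choose h (show m0 + h ≤ n - ℓ by omega)
      refine le_trans ?_ h3
      rcases Nat.eq_zero_or_pos m0 with h0 | h0
      · omega
      · have h4 : (m0 + h).choose h = (m0 + h).choose m0 := by
          rw [← Nat.choose_symm_of_eq_add rfl]
        obtain ⟨h', rfl⟩ : ∃ h', h = h' + 1 := ⟨h - 1, by omega⟩
        calc m0 ≤ (m0 + 1).choose 1 := by simp
          _ = (m0 + 1).choose m0 := by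
            rw [Nat.choose_symm_add]
          _ ≤ (m0 + (h' + 1)).choose m0 := Nat.choose_le_choose m0 (by omega)
          _ = _ := h4.symm
    nlinarith
  obtain ⟨E, hE⟩ : ∃ E : Set (Finset (Fin n) → ℝ),
    E = Set.univ.pi fun s => if s ∈ T then {x : ℝ | |x| < K} else Set.univ := ⟨_, rfl⟩
  have hEm : MeasurableSet E := by
    rw [hE]
    refine MeasurableSet.univ_pi fun s => ?_
    split_ifs
    · measurability
    · exact MeasurableSet.univ
  have hEp : (gam (Finset (Fin n))) E = p ^ T.card := by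
    rw [hE, Measure.pi_pi]
    have : ∀ s : Finset (Fin n), (gaussianReal 0 1) (if s ∈ T then {x : ℝ | |x| < K} else Set.univ) =
        if s ∈ T then p else 1 := by
      intro s
      split_ifs
      · rw [hp]
      · simp
    simp_rw [this]
    rw [Finset.prod_ite_mem, Finset.univ_inter, Finset.prod_const]
  have hErl : (gam (Finset (Fin n))).real E ≤ 1 / 2 := by
    rw [measureReal_def, hEp, ENNReal.toReal_pow]
    exact hm0 _ hTc
  have hlow : ∀ Z : Finset (Fin n) → ℝ, Eᶜ.indicator (fun _ => K) Z ≤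
      lmax (kik n (2 * h) ℓ 0 Z) := by
    intro Z
    by_cases hZ : Z ∈ E
    · rw [Set.indicator_of_notMem (by simpa using hZ)]
      exact lmax_kik_nonneg n (2 * h) ℓ (by omega) Z
    · rw [Set.indicator_of_mem (by simpa using hZ)]
      rw [hE, Set.mem_univ_pi] at hZ
      push Not at hZ
      obtain ⟨s, hs⟩ := hZ
      by_cases hsT : s ∈ T
      · rw [if_pos hsT, Set.mem_ofPred_eq, not_lt] at hs
        rw [hT, Finset.mem_image] at hsT
        obtain ⟨J, hJ, rfl⟩ := hsT
        exact hs.trans (lmax_ge_abs n ℓ h hh Z I J (Finset.mem_filter.1 hJ).2)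
      · rw [if_neg hsT] at hs
        exact absurd (Set.mem_univ _) hs
  have hint : Integrable (Eᶜ.indicator fun _ => K) (gam (Finset (Fin n))) :=
    (integrable_const K).indicator hEm.compl
  have h1 := integral_mono hint (lmax_kik_int n (2 * h) ℓ 0) hlow
  rw [integral_indicator_const _ hEm.compl] at h1
  have h2 : (gam (Finset (Fin n))).real Eᶜ = 1 - (gam (Finset (Fin n))).real E := by
    rw [probReal_compl_eq_one_sub hEm]
  rw [h2, smul_eq_mul] at h1
  unfold El
  nlinarith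

end Pool.Agent.NH99.KT
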