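import Pool.Agent.NH99.KT_LR
import Pool.Agent.NH99.KT_Low

set_option autoImplicit false
set_option linter.unusedSectionVars false
set_option linter.unusedSimpArgs false

open MeasureTheory ProbabilityTheory Finset Matrix
open scoped RealInnerProductSpace ENNReal NNReal Topology

namespace Pool.Agent.NH99.KT

variable {n : ℕ}

/-- character of a sign vector -/
def chi (x : Fin n → ℤˣ) (s : Finset (Fin n)) : ℝ := ∏ i ∈ s, (((x i : ℤˣ) : ℤ) : ℝ)

theorem unit_sq (u : ℤˣ) : ((u : ℤ) : ℝ) * ((u : ℤ) : ℝ) = 1 := by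
  rcases Int.units_eq_one_or u with h | h <;> simp [h]

theorem chi_sq (x : Fin n → ℤˣ) (s : Finset (Fin n)) : chi x s * chi x s = 1 := by
  unfold chi
  rw [← Finset.prod_mul_distrib]
  exact Finset.prod_eq_one fun i _ => unit_sq _

theorem chi_mul (x y : Fin n → ℤˣ) (s : Finset (Fin n)) : chi (x * y) s = chi x s * chi y s := by
  unfold chi
  rw [← Finset.prod_mul_distrib]
  refine Finset.prod_congr rfl fun i _ => ?_
  simp

theorem chi_symmDiff (x : Fin n → ℤˣ) (I J : Finset (Fin n)) :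
    chi x (symmDiff I J) = chi x I * chi x J := by
  have h1 : chi x I = chi x (I \ J) * chi x (I ∩ J) := by
    unfold chi
    rw [← Finset.prod_union (Finset.disjoint_sdiff_inter I J), Finset.sdiff_union_inter]
  have h2 : chi x J = chi x (J \ I) * chi x (I ∩ J) := by
    unfold chi
    rw [Finset.inter_comm, ← Finset.prod_union (Finset.disjoint_sdiff_inter J I),
      Finset.sdiff_union_inter]
  have h3 : chi x (symmDiff I J) = chi x (I \ J) * chi x (J \ I) := by
    unfold chi
    rw [symmDiff_def, Finset.sup_eq_union, Finset.prod_union disjoint_sdiff_sdiff]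
  rw [h1, h2, h3]
  linear_combination (-chi x (I \ J) * chi x (J \ I)) * chi_sq x (I ∩ J)

/-- the shift of a sign vector -/
def shf (r : ℕ) (lam : ℝ) (x : Fin n → ℤˣ) (s : Finset (Fin n)) : ℝ :=
  if s.card = r then lam * chi x s else 0

theorem lmax_conj (r ℓ : ℕ) (lam : ℝ) (x : Fin n → ℤˣ) (Z : Finset (Fin n) → ℝ) :
    lmax (kik n r ℓ lam Z) ≤ lmax (kik n r ℓ 0 fun s => chi x s * Z s + shf r lam x s) := by
  rcases isEmpty_or_nonempty (VV n ℓ) with hV | hV
  · rw [lmax_empty, lmax_empty]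
  refine lmax_le _ _ fun v hv => ?_
  have h1 := ray_le_lmax (kik n r ℓ 0 fun s => chi x s * Z s + shf r lam x s)
    (fun I => chi x I.1 * v I) (by
      rw [← hv]
      unfold dotProduct
      refine Finset.sum_congr rfl fun I _ => ?_
      linear_combination (v I * v I) * chi_sq x I.1)
  refine le_trans (le_of_eq ?_) h1
  simp only [dotProduct, Matrix.mulVec]
  refine Finset.sum_congr rfl fun I _ => ?_
  rw [mul_assoc, Finset.mul_sum, Finset.mul_sum, Finset.mul_sum]
  refine Finset.sum_congr rfl fun J _ => ?_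
  simp only [kik, Matrix.of_apply, shf]
  split_ifs with hc
  · have h2 := chi_sq x I.1
    have h3 := chi_sq x J.1
    rw [chi_symmDiff]
    have : chi x I.1 * (v I * ((0 + (chi x I.1 * chi x J.1 * Z (symmDiff I.1 J.1) +
        lam * (chi x I.1 * chi x J.1))) * (chi x J.1 * v J))) =
        (chi x I.1 * chi x I.1) * (chi x J.1 * chi x J.1) *
          (v I * ((lam + Z (symmDiff I.1 J.1)) * v J)) := by ring
    rw [this, h2, h3]
    ring
  · ring

theorem chi_cases (x : Fin n → ℤˣ) (s : Finset (Fin n)) : chi x s = 1 ∨ chi x s = -1 := by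
  have h := chi_sq x s
  have h2 : (chi x s - 1) * (chi x s + 1) = 0 := by linear_combination h
  rcases mul_eq_zero.1 h2 with h3 | h3
  · left; linarith
  · right; linarith

theorem chi_mp (x : Fin n → ℤˣ) : MeasurePreserving
    (fun Z : Finset (Fin n) → ℝ => fun s => chi x s * Z s)
    (gam (Finset (Fin n))) (gam (Finset (Fin n))) := by
  refine measurePreserving_pi (μ := fun _ => gaussianReal 0 1) (ν := fun _ => gaussianReal 0 1)
    (fun s => ?_)
  refine ⟨by fun_prop, ?_⟩
  have h := gaussianReal_map_const_mul (μ := 0) (v := 1) (chi x s)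
  rw [h]
  congr 1
  · ring
  · ext
    simp [pow_two, chi_sq]

/-- the lower integral of the largest eigenvalue in the shifted model -/
theorem shift_le (r ℓ : ℕ) (lam : ℝ) (x : Fin n → ℤˣ) :
    ∫⁻ Z, ENNReal.ofReal (lmax (kik n r ℓ lam Z)) ∂(gam (Finset (Fin n))) ≤
      ∫⁻ Z, ENNReal.ofReal (lmax (kik n r ℓ 0 fun s => Z s + shf r lam x s))
        ∂(gam (Finset (Fin n))) := by
  have hc : Continuous fun Z : Finset (Fin n) → ℝ =>
      lmax (kik n r ℓ 0 fun s => Z s + shf r lam x s) :=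
    (lmax_kik_cont n r ℓ 0).comp (by fun_prop)
  have h1 := (chi_mp x).lintegral_comp (hc.measurable.ennreal_ofReal)
  rw [← h1]
  refine lintegral_mono fun Z => ENNReal.ofReal_le_ofReal ?_
  exact lmax_conj r ℓ lam x Z

/-- twice the second elementary symmetric function is at most the square of the sum -/
theorem e2_le {α : Type} [DecidableEq α] (y : α → ℝ) (U : Finset α) :
    2 * ∑ A ∈ U.powersetCard 2, ∏ i ∈ A, y i ≤ (∑ i ∈ U, y i) ^ 2 := by
  induction U using Finset.induction_on with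
  | empty =>
    rw [Finset.powersetCard_eq_empty.2 (by simp)]
    simp
  | insert x U hx ih =>
    rw [Finset.powersetCard_succ_insert hx, Finset.sum_union]
    · rw [Finset.sum_image]
      · have h1 : ∑ A ∈ U.powersetCard 1, ∏ i ∈ insert x A, y i = y x * ∑ i ∈ U, y i := by
          rw [Finset.powersetCard_one, Finset.sum_map, Finset.mul_sum]
          refine Finset.sum_congr rfl fun i hi => ?_
          have hxi : x ≠ i := fun h => hx (h ▸ hi)
          simp [Finset.prod_pair hxi]
        rw [h1, Finset.sum_insert hx]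
        nlinarith [sq_nonneg (y x)]
      · intro A hA B hB hAB
        have hA' : x ∉ A := fun hxA => hx ((Finset.mem_powersetCard.1 hA).1 hxA)
        have hB' : x ∉ B := fun hxB => hx ((Finset.mem_powersetCard.1 hB).1 hxB)
        have := congrArg (fun C => C.erase x) hAB
        simpa [Finset.erase_insert hA', Finset.erase_insert hB'] using this
    · rw [Finset.disjoint_left]
      intro A hA hA'
      rw [Finset.mem_image] at hA'
      obtain ⟨B, _, rfl⟩ := hA'
      exact hx ((Finset.mem_powersetCard.1 hA).1 (Finset.mem_insert_self _ _))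

/-- exponential moment of a sign vector -/
theorem sign_mgf (t : ℝ) : ∑ y : Fin n → ℤˣ, Real.exp (t * ∑ i, (((y i : ℤˣ) : ℤ) : ℝ)) =
    (2 * Real.cosh t) ^ n := by
  have h1 : ∀ y : Fin n → ℤˣ, Real.exp (t * ∑ i, (((y i : ℤˣ) : ℤ) : ℝ)) =
      ∏ i, Real.exp (t * (((y i : ℤˣ) : ℤ) : ℝ)) := by
    intro y
    rw [Finset.mul_sum, Real.exp_sum]
  simp_rw [h1]
  rw [← Fintype.piFinset_univ, ← Finset.prod_univ_sum (fun _ => Finset.univ)
    (fun (_ : Fin n) (u : ℤˣ) => Real.exp (t * ((u : ℤ) : ℝ)))]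
  have h2 : ∑ u : ℤˣ, Real.exp (t * ((u : ℤ) : ℝ)) = 2 * Real.cosh t := by
    have : (Finset.univ : Finset ℤˣ) = {1, -1} := rfl
    rw [this, Finset.sum_pair (by decide)]
    simp [Real.cosh_eq]
    ring
  simp_rw [h2]
  simp

/-- uniform bound for the second moment of the likelihood ratio -/
theorem exp_bound (μ : ℝ) (hμ0 : 0 ≤ μ) (hμ : μ < 1) : ∃ C : ℝ, 0 ≤ C ∧ ∀ (n : ℕ) (lam : ℝ),
    lam ^ 2 * n ≤ μ ^ 2 →
    (2 ^ n : ℝ)⁻¹ * ∑ y : Fin n → ℤˣ, Real.exp (lam ^ 2 * (∑ i, (((y i : ℤˣ) : ℤ) : ℝ)) ^ 2 / 2) ≤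
      C := by
  have hint : Integrable (fun x : ℝ => Real.exp (μ ^ 2 * x ^ 2 / 2)) (gaussianReal 0 1) := by
    rw [gaussianReal_of_var_ne_zero _ (by norm_num : (1 : NNReal) ≠ 0),
      integrable_withDensity_iff (by fun_prop)
        (Filter.Eventually.of_forall fun x => by simp [gaussianPDF])]
    have h1 : Integrable (fun x : ℝ => (√(2 * Real.pi))⁻¹ *
        Real.exp (-((1 - μ ^ 2) / 2) * x ^ 2)) volume :=
      (integrable_exp_neg_mul_sq (by nlinarith)).const_mul _
    refine h1.congr (Filter.Eventually.of_forall fun x => ?_)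
    simp only [toReal_gaussianPDF]
    simp only [gaussianPDFReal, NNReal.coe_one, mul_one, sub_zero]
    rw [mul_left_comm, ← Real.exp_add]
    congr 2
    ring
  refine ⟨∫ x, Real.exp (μ ^ 2 * x ^ 2 / 2) ∂(gaussianReal 0 1), ?_, ?_⟩
  · exact integral_nonneg fun x => (Real.exp_pos _).le
  · intro n lam hlam
    have hmgf : ∀ t : ℝ, Real.exp (t ^ 2 / 2) = ∫ x, Real.exp (t * x) ∂(gaussianReal 0 1) := by
      intro t
      have h := mgf_gaussianReal (p := (volume : Measure ℝ)) (X := fun x : ℝ => x) (μ := 0) (v := 1)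
      have h2 := mgf_id_gaussianReal (μ := 0) (v := 1)
      have h3 := congrFun h2 t
      simp only [mgf, id] at h3
      rw [h3]
      congr 1
      simp
    have hi : ∀ t : ℝ, Integrable (fun x : ℝ => Real.exp (t * x)) (gaussianReal 0 1) :=
      fun t => integrable_exp_mul_gaussianReal t
    have h1 : ∀ y : Fin n → ℤˣ, Real.exp (lam ^ 2 * (∑ i, (((y i : ℤˣ) : ℤ) : ℝ)) ^ 2 / 2) =
        ∫ x, Real.exp ((lam * ∑ i, (((y i : ℤˣ) : ℤ) : ℝ)) * x) ∂(gaussianReal 0 1) := by
      intro y
      rw [← hmgf, mul_pow]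
    simp_rw [h1]
    rw [← integral_finsetSum _ fun y _ => hi _, ← integral_const_mul]
    refine integral_mono ((integrable_finsetSum _ fun y _ => hi _).const_mul _) hint fun x => ?_
    have h2 : ∑ y : Fin n → ℤˣ, Real.exp ((lam * ∑ i, (((y i : ℤˣ) : ℤ) : ℝ)) * x) =
        (2 * Real.cosh (lam * x)) ^ n := by
      rw [← sign_mgf (n := n) (lam * x)]
      refine Finset.sum_congr rfl fun y _ => ?_
      congr 1
      ring
    show (2 ^ n : ℝ)⁻¹ * ∑ y : Fin n → ℤˣ, Real.exp ((lam * ∑ i, (((y i : ℤˣ) : ℤ) : ℝ)) * x) ≤ _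
    rw [h2, mul_pow, ← mul_assoc, inv_mul_cancel₀ (by positivity), one_mul]
    have h3 := Real.cosh_le_exp_half_sq (lam * x)
    calc Real.cosh (lam * x) ^ n ≤ (Real.exp ((lam * x) ^ 2 / 2)) ^ n :=
          pow_le_pow_left₀ (Real.cosh_pos _).le h3 n
      _ = Real.exp (lam ^ 2 * n * x ^ 2 / 2) := by
          rw [← Real.exp_nat_mul]; congr 1; ring
      _ ≤ _ := by
          refine Real.exp_le_exp.2 ?_
          nlinarith [sq_nonneg x]

end Pool.Agent.NH99.KT
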