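import Pool.Agent.NH99.KT_Rec

set_option autoImplicit false
set_option linter.unusedSectionVars false
set_option linter.unusedSimpArgs false

open MeasureTheory ProbabilityTheory Finset

namespace Pool.Agent.NH99.KT

section

variable {n : ℕ}

/-- number of open steps containing `i` -/
def dg (O : Finset (Fin n) → ℕ) (i : Fin n) : ℕ := ∑ s, if i ∈ s then O s else 0

/-- the excess of a state -/
def ex (I : Finset (Fin n)) (O : Finset (Fin n) → ℕ) : ℕ :=
  ∑ i, if i ∈ I then dg O i - 1 else dg O i - 2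

theorem dg_add (O : Finset (Fin n) → ℕ) (s : Finset (Fin n)) (i : Fin n) :
    dg (O + Pi.single s 1) i = dg O i + if i ∈ s then 1 else 0 := by
  unfold dg
  simp only [Pi.add_apply]
  rw [← Finset.sum_filter, ← Finset.sum_filter, Finset.sum_add_distrib]
  congr 1
  split_ifs with h
  · rw [Finset.sum_eq_single_of_mem s (by simpa using h)]
    · simp
    · intro b _ hb; simp [hb]
  · refine Finset.sum_eq_zero fun b hb => ?_
    have : b ≠ s := by
      rintro rfl
      exact h (by simpa using hb)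
    simp [this]

theorem sub_add_single (O : Finset (Fin n) → ℕ) (s : Finset (Fin n)) (h : O s ≠ 0) :
    (O - Pi.single s 1) + Pi.single s 1 = O := by
  funext t
  by_cases hts : t = s
  · subst hts
    simp only [Pi.add_apply, Pi.sub_apply, Pi.single_eq_same]
    omega
  · simp [hts]

theorem dg_sub (O : Finset (Fin n) → ℕ) (s : Finset (Fin n)) (h : O s ≠ 0) (i : Fin n) :
    dg O i = dg (O - Pi.single s 1) i + if i ∈ s then 1 else 0 := by
  conv_lhs => rw [← sub_add_single O s h]
  exact dg_add _ _ _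

theorem tot_add (O : Finset (Fin n) → ℕ) (s : Finset (Fin n)) :
    ∑ t, (O + Pi.single s 1 : Finset (Fin n) → ℕ) t = ∑ t, O t + 1 := by
  simp [Finset.sum_add_distrib]

theorem tot_sub (O : Finset (Fin n) → ℕ) (s : Finset (Fin n)) (h : O s ≠ 0) :
    ∑ t, O t = ∑ t, (O - Pi.single s 1 : Finset (Fin n) → ℕ) t + 1 := by
  conv_lhs => rw [← sub_add_single O s h]
  exact tot_add _ _

theorem ex_open (I K : Finset (Fin n)) (O : Finset (Fin n) → ℕ) :
    ex K (O + Pi.single (symmDiff I K) 1) ≤
      ex I O + 2 * ((K \ I).filter fun i => 1 ≤ dg O i).card := by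
  unfold ex
  have h1 : 2 * ((K \ I).filter fun i => 1 ≤ dg O i).card =
      ∑ i, if (i ∈ K ∧ i ∉ I) ∧ 1 ≤ dg O i then 2 else 0 := by
    rw [← Finset.sum_filter, Finset.sum_const, smul_eq_mul, mul_comm]
    congr 2
    ext i
    simp
  rw [h1, ← Finset.sum_add_distrib]
  refine Finset.sum_le_sum fun i _ => ?_
  rw [dg_add]
  by_cases hI : i ∈ I <;> by_cases hK : i ∈ K <;> simp only [hI, hK, Finset.mem_symmDiff, not_true,
    not_false_iff, and_true, and_false, true_and, false_and, or_true, or_false, if_true, if_false] <;>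
    (try split_ifs) <;> omega

theorem ex_close (I K : Finset (Fin n)) (O : Finset (Fin n) → ℕ) (h : O (symmDiff I K) ≠ 0) :
    ex K (O - Pi.single (symmDiff I K) 1) ≤ ex I O := by
  unfold ex
  refine Finset.sum_le_sum fun i _ => ?_
  rw [dg_sub O _ h i]
  by_cases hI : i ∈ I <;> by_cases hK : i ∈ K <;> simp only [hI, hK, Finset.mem_symmDiff, not_true,
    not_false_iff, and_true, and_false, true_and, false_and, or_true, or_false, if_true, if_false] <;>
    omega

theorem card_half {ℓ h : ℕ} (I K : Finset (Fin n)) (hI : I.card = ℓ) (hK : K.card = ℓ)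
    (hs : (symmDiff I K).card = 2 * h) : (I \ K).card = h ∧ (K \ I).card = h := by
  have h1 : (symmDiff I K).card = (I \ K).card + (K \ I).card := by
    rw [symmDiff_def, Finset.sup_eq_union, Finset.card_union_of_disjoint]
    exact disjoint_sdiff_sdiff
  have h2 := Finset.card_sdiff_add_card_inter I K
  have h3 := Finset.card_sdiff_add_card_inter K I
  rw [Finset.inter_comm] at h3
  omega

theorem symmDiff_inter_left (I K : Finset (Fin n)) : symmDiff I K ∩ I = I \ K := by
  ext i; simp [Finset.mem_symmDiff]; tauto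

theorem sum_dg (O : Finset (Fin n) → ℕ) (I : Finset (Fin n)) :
    ∑ i ∈ I, dg O i = ∑ s, O s * (s ∩ I).card := by
  unfold dg
  rw [Finset.sum_comm]
  refine Finset.sum_congr rfl fun s _ => ?_
  rw [← Finset.sum_filter, Finset.sum_const, smul_eq_mul, mul_comm]
  congr 2
  ext i
  simp [and_comm]

variable {ℓ h : ℕ}

abbrev VV (n ℓ : ℕ) := {K : Finset (Fin n) // K.card = ℓ}

theorem close_count (I : VV n ℓ) (O : Finset (Fin n) → ℕ) :
    (∑ K : VV n ℓ, if (symmDiff I.1 K.1).card = 2 * h then O (symmDiff I.1 K.1) else 0) * h ≤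
      ℓ + ex I.1 O := by
  have h1 : ∑ i ∈ I.1, dg O i ≤ ℓ + ex I.1 O := by
    unfold ex
    have h2 : ∑ i ∈ I.1, dg O i ≤ ∑ i ∈ I.1, (1 + (dg O i - 1)) :=
      Finset.sum_le_sum fun i _ => by omega
    refine h2.trans ?_
    rw [Finset.sum_add_distrib, Finset.sum_const, smul_eq_mul, mul_one, I.2]
    refine Nat.add_le_add_left ?_ _
    calc ∑ x ∈ I.1, (dg O x - 1) = ∑ x ∈ I.1, (if x ∈ I.1 then dg O x - 1 else dg O x - 2) :=
          Finset.sum_congr rfl fun x hx => by simp [hx]
      _ ≤ ∑ x, (if x ∈ I.1 then dg O x - 1 else dg O x - 2) :=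
          Finset.sum_le_sum_of_subset (Finset.subset_univ _)
  refine le_trans ?_ h1
  rw [sum_dg, Finset.sum_mul]
  have h3 : ∑ K : VV n ℓ, (if (symmDiff I.1 K.1).card = 2 * h then O (symmDiff I.1 K.1) else 0) * h ≤
      ∑ K : VV n ℓ, O (symmDiff I.1 K.1) * (symmDiff I.1 K.1 ∩ I.1).card := by
    refine Finset.sum_le_sum fun K _ => ?_
    split_ifs with hc
    · rw [symmDiff_inter_left, (card_half I.1 K.1 I.2 K.2 hc).1]
    · simp
  refine h3.trans ?_
  have hinj : Function.Injective fun K : VV n ℓ => symmDiff I.1 K.1 := by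
    intro K K' hKK
    exact Subtype.ext (symmDiff_right_injective _ hKK)
  rw [← Finset.sum_image (s := Finset.univ) (g := fun K : VV n ℓ => symmDiff I.1 K.1)
    (f := fun s => O s * (s ∩ I.1).card) (fun a _ b _ hab => hinj hab)]
  exact Finset.sum_le_sum_of_subset (Finset.subset_univ _)

theorem esymm_le {α : Type} [DecidableEq α] (w : α → ℝ) (hw : ∀ i, 0 ≤ w i) (U : Finset α) (h : ℕ) :
    ∑ A ∈ U.powersetCard h, ∏ i ∈ A, w i ≤ (∑ i ∈ U, w i) ^ h := by
  induction U using Finset.induction_on generalizing h with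
  | empty =>
    cases h with
    | zero => simp
    | succ h =>
      rw [Finset.powersetCard_eq_empty.2 (by simp)]
      simp
  | insert x U hx ih =>
    cases h with
    | zero => simp
    | succ h =>
      rw [Finset.powersetCard_succ_insert hx, Finset.sum_union]
      · rw [Finset.sum_image]
        · have h1 : ∑ A ∈ U.powersetCard h, ∏ i ∈ insert x A, w i =
              w x * ∑ A ∈ U.powersetCard h, ∏ i ∈ A, w i := by
            rw [Finset.mul_sum]
            refine Finset.sum_congr rfl fun A hA => ?_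
            rw [Finset.prod_insert]
            intro hxA
            exact hx ((Finset.mem_powersetCard.1 hA).1 hxA)
          rw [h1, Finset.sum_insert hx]
          have h2 := ih (h + 1)
          have h3 := ih h
          have hS : 0 ≤ ∑ i ∈ U, w i := Finset.sum_nonneg fun i _ => hw i
          have h4 : (∑ i ∈ U, w i) ^ h ≤ (w x + ∑ i ∈ U, w i) ^ h :=
            pow_le_pow_left₀ hS (by linarith [hw x]) h
          calc _ ≤ (∑ i ∈ U, w i) ^ (h + 1) + w x * (∑ i ∈ U, w i) ^ h :=
                add_le_add h2 (mul_le_mul_of_nonneg_left h3 (hw x))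
            _ = (w x + ∑ i ∈ U, w i) * (∑ i ∈ U, w i) ^ h := by ring
            _ ≤ (w x + ∑ i ∈ U, w i) * (w x + ∑ i ∈ U, w i) ^ h :=
                mul_le_mul_of_nonneg_left h4 (add_nonneg (hw x) hS)
            _ = _ := by ring
        · intro A hA B hB hAB
          have hA' : x ∉ A := fun hxA => hx ((Finset.mem_powersetCard.1 hA).1 hxA)
          have hB' : x ∉ B := fun hxB => hx ((Finset.mem_powersetCard.1 hB).1 hxB)
          have := congrArg (fun C => C.erase x) hAB
          simpa [Finset.erase_insert hA', Finset.erase_insert hB'] using this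
      · rw [Finset.disjoint_left]
        intro A hA hA'
        rw [Finset.mem_image] at hA'
        obtain ⟨B, _, rfl⟩ := hA'
        exact hx ((Finset.mem_powersetCard.1 hA).1 (Finset.mem_insert_self _ _))

theorem open_count (I : VV n ℓ) (D : Finset (Fin n)) (θ : ℝ) (hθ : 1 ≤ θ) :
    ∑ K : VV n ℓ, (if (symmDiff I.1 K.1).card = 2 * h then
        θ ^ ((K.1 \ I.1).filter fun i => i ∈ D).card else 0) ≤
      (ℓ.choose h : ℝ) * (n + D.card * θ) ^ h := by
  classical
  obtain ⟨w, hw⟩ : ∃ w : Fin n → ℝ, w = fun i => if i ∈ D then θ else 1 := ⟨_, rfl⟩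
  have hw0 : ∀ i, 0 ≤ w i := by
    intro i; rw [hw]; dsimp only; split_ifs <;> linarith
  have hprod : ∀ A : Finset (Fin n), θ ^ (A.filter fun i => i ∈ D).card = ∏ i ∈ A, w i := by
    intro A
    rw [hw, Finset.prod_ite]
    simp
  have h1 : ∑ K : VV n ℓ, (if (symmDiff I.1 K.1).card = 2 * h then
        θ ^ ((K.1 \ I.1).filter fun i => i ∈ D).card else 0) =
      ∑ K ∈ Finset.univ.filter (fun K : VV n ℓ => (symmDiff I.1 K.1).card = 2 * h),
        (fun p : Finset (Fin n) × Finset (Fin n) => ∏ i ∈ p.2, w i) (I.1 \ K.1, K.1 \ I.1) := by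
    rw [Finset.sum_filter]
    refine Finset.sum_congr rfl fun K _ => ?_
    rw [hprod]
  rw [h1]
  have hinj : Function.Injective (fun K : VV n ℓ => (I.1 \ K.1, K.1 \ I.1)) := by
    intro K K' hKK
    simp only [Prod.mk.injEq] at hKK
    apply Subtype.ext
    ext i
    have e1 := Finset.ext_iff.1 hKK.1 i
    have e2 := Finset.ext_iff.1 hKK.2 i
    simp only [Finset.mem_sdiff] at e1 e2
    tauto
  rw [← Finset.sum_image (f := fun p : Finset (Fin n) × Finset (Fin n) => ∏ i ∈ p.2, w i)
    (g := fun K : VV n ℓ => (I.1 \ K.1, K.1 \ I.1)) (fun a _ b _ hab => hinj hab)]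
  have hsub : (Finset.univ.filter (fun K : VV n ℓ => (symmDiff I.1 K.1).card = 2 * h)).image
      (fun K : VV n ℓ => (I.1 \ K.1, K.1 \ I.1)) ⊆
      I.1.powersetCard h ×ˢ (Finset.univ : Finset (Fin n)).powersetCard h := by
    intro p hp
    simp only [Finset.mem_image, Finset.mem_filter, Finset.mem_univ, true_and] at hp
    obtain ⟨K, hK, rfl⟩ := hp
    have := card_half I.1 K.1 I.2 K.2 hK
    rw [Finset.mem_product, Finset.mem_powersetCard, Finset.mem_powersetCard]
    exact ⟨⟨Finset.sdiff_subset, this.1⟩, Finset.subset_univ _, this.2⟩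
  refine (Finset.sum_le_sum_of_subset_of_nonneg hsub fun p _ _ =>
    Finset.prod_nonneg fun i _ => hw0 i).trans ?_
  rw [Finset.sum_product]
  have hcst : ∑ x ∈ I.1.powersetCard h, ∑ y ∈ (Finset.univ : Finset (Fin n)).powersetCard h,
      ∏ i ∈ (x, y).2, w i =
      (ℓ.choose h : ℝ) * ∑ y ∈ (Finset.univ : Finset (Fin n)).powersetCard h, ∏ i ∈ y, w i := by
    simp only
    rw [Finset.sum_const, Finset.card_powersetCard, I.2, nsmul_eq_mul]
  rw [hcst]
  refine mul_le_mul_of_nonneg_left ?_ (by positivity)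
  refine (esymm_le w hw0 Finset.univ h).trans ?_
  refine pow_le_pow_left₀ (Finset.sum_nonneg fun i _ => hw0 i) ?_ h
  have h3 : ∀ i, w i ≤ 1 + (if i ∈ D then θ else 0) := by
    intro i; rw [hw]; dsimp only; split_ifs <;> linarith
  refine (Finset.sum_le_sum fun i _ => h3 i).trans ?_
  rw [Finset.sum_add_distrib]
  simp

theorem card_dg_pos (O : Finset (Fin n) → ℕ) (r : ℕ) (hO : ∀ s, O s ≠ 0 → s.card = r) :
    (Finset.univ.filter fun i => 1 ≤ dg O i).card ≤ r * ∑ s, O s := by
  have h1 : (Finset.univ.filter fun i => 1 ≤ dg O i).card ≤ ∑ i, dg O i := by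
    rw [Finset.card_filter]
    refine Finset.sum_le_sum fun i _ => ?_
    split_ifs with h
    · exact h
    · exact Nat.zero_le _
  refine h1.trans ?_
  rw [sum_dg O Finset.univ, Finset.mul_sum]
  refine Finset.sum_le_sum fun s _ => ?_
  by_cases hs : O s = 0
  · simp [hs]
  · rw [Finset.inter_univ, hO s hs, mul_comm]

end

end Pool.Agent.NH99.KT
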