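import Pool.Agent.NH99.KT_Two

set_option autoImplicit false
set_option linter.unusedSectionVars false
set_option linter.unusedSimpArgs false

open MeasureTheory ProbabilityTheory Finset Matrix
open scoped RealInnerProductSpace ENNReal NNReal Topology

namespace Pool.Agent.NH99.KT

theorem lam_sq (n h : ℕ) (hn : 1 ≤ n) (μ : ℝ) :
    (μ * (n : ℝ) ^ (-((2 * h : ℕ) : ℝ) / 4)) ^ 2 * (n : ℝ) ^ h = μ ^ 2 := by
  have hn0 : (0 : ℝ) < n := by exact_mod_cast hn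
  rw [mul_pow, ← Real.rpow_natCast ((n : ℝ) ^ (-((2 * h : ℕ) : ℝ) / 4)) 2, ← Real.rpow_mul hn0.le,
    mul_assoc, ← Real.rpow_natCast (n : ℝ) h, ← Real.rpow_add hn0]
  have : -((2 * h : ℕ) : ℝ) / 4 * ((2 : ℕ) : ℝ) + (h : ℝ) = 0 := by push_cast; ring
  rw [this, Real.rpow_zero, mul_one]

/-- `r = 2`: below signal `1` the ratio of expectations tends to at most `1` -/
theorem ratio_two (ℓ : ℕ) (hℓ : 1 ≤ ℓ) (μ : ℝ) (hμ0 : 0 ≤ μ) (hμ : μ < 1) (ε : ℝ) (hε : 0 < ε) :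
    ∀ᶠ n : ℕ in Filter.atTop,
      El n 2 ℓ (μ * (n : ℝ) ^ (-((2 : ℕ) : ℝ) / 4)) / El n 2 ℓ 0 ≤ 1 + ε := by
  obtain ⟨C, hC0, hC⟩ := two_bound ℓ μ hμ0 hμ
  have h1 := El_large ℓ 1 (le_refl 1) hℓ (2 * (C + 1) / ε) (by positivity)
  filter_upwards [h1, Filter.eventually_ge_atTop 1] with n hn hn1
  have h2 := hC n (μ * (n : ℝ) ^ (-((2 : ℕ) : ℝ) / 4)) (by
    have := lam_sq n 1 hn1 μ
    simp only [mul_one, pow_one] at this
    exact this.le)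
  have h3 : (C + 1) / ε ≤ El n 2 ℓ 0 := by
    refine le_trans (le_of_eq ?_) hn
    ring
  have hpos : 0 < El n 2 ℓ 0 := lt_of_lt_of_le (by positivity) h3
  rw [div_le_iff₀ hpos]
  have h4 : C ≤ ε * El n 2 ℓ 0 := by
    rw [div_le_iff₀ hε] at h3
    nlinarith
  linarith

/-- lower bound for the ratio for general `r = 2 h` -/
theorem ratio_ge (ℓ h : ℕ) (hh : 1 ≤ h) (hℓ : h ≤ ℓ) (μ : ℝ) (hμ : 0 < μ) :
    ∀ᶠ n : ℕ in Filter.atTop,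
      μ * (√(ℓ.choose h : ℝ) / √((ℓ : ℝ) / h)) /
        (4 * Real.exp 8 * √(2 ^ h : ℝ) * (2 ^ h * h.factorial)) ≤
      El n (2 * h) ℓ (μ * (n : ℝ) ^ (-((2 * h : ℕ) : ℝ) / 4)) / El n (2 * h) ℓ 0 := by
  have hℓ1 : 1 ≤ ℓ := hh.trans hℓ
  have hℓ0 : (0 : ℝ) < ℓ := by exact_mod_cast hℓ1
  have hh0 : (0 : ℝ) < h := by exact_mod_cast hh
  have hch : (0 : ℝ) < ℓ.choose h := by exact_mod_cast Nat.choose_pos hℓ
  filter_upwards [El_le ℓ h hh hℓ, El_large ℓ h hh hℓ 2 (by norm_num),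
    Filter.eventually_ge_atTop (2 * (ℓ + h))] with n h1 h2 hn
  have hn1 : 1 ≤ n := by omega
  have hn0 : (0 : ℝ) < n := by exact_mod_cast hn1
  have hpos : 0 < El n (2 * h) ℓ 0 := by linarith
  obtain ⟨lam, hlam⟩ : ∃ lam, lam = μ * (n : ℝ) ^ (-((2 * h : ℕ) : ℝ) / 4) := ⟨_, rfl⟩
  have hlam0 : 0 < lam := by rw [hlam]; positivity
  have hls : lam ^ 2 * (n : ℝ) ^ h = μ ^ 2 := by rw [hlam]; exact lam_sq n h hn1 μ
  rw [← hlam]
  have h3 := El_ge n ℓ h (by omega) lam hlam0.le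
  obtain ⟨w, hw⟩ : ∃ w, w = √((n : ℝ) ^ h) := ⟨_, rfl⟩
  have hw0 : 0 < w := by rw [hw]; positivity
  have hw2 : w ^ 2 = (n : ℝ) ^ h := by rw [hw, Real.sq_sqrt (by positivity)]
  have hlw : lam * w = μ := by
    have : (lam * w) ^ 2 = μ ^ 2 := by rw [mul_pow, hw2, hls]
    exact (pow_left_inj₀ (by positivity) hμ.le (by norm_num)).1 this
  have hchn : w ^ 2 / (2 ^ h * h.factorial) ≤ ((n - ℓ).choose h : ℝ) := by
    have h4 := Nat.pow_le_choose (α := ℝ) h (n - ℓ)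
    refine le_trans ?_ h4
    rw [hw2, div_mul_eq_div_div, ← div_pow]
    have h5 : (n : ℝ) / 2 ≤ ((n - ℓ + 1 - h : ℕ) : ℝ) := by
      rw [div_le_iff₀ (by norm_num)]
      exact_mod_cast (by omega : n ≤ (n - ℓ + 1 - h) * 2)
    gcongr
  rw [le_div_iff₀ hpos]
  refine le_trans ?_ h3
  have hsq : √((ℓ.choose h : ℝ) * (2 * n) ^ h) = √(ℓ.choose h : ℝ) * (√(2 ^ h : ℝ) * w) := by
    rw [mul_pow, Real.sqrt_mul hch.le, Real.sqrt_mul (by positivity), hw]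
  rw [hsq] at h1
  have hs1 : √(ℓ.choose h : ℝ) * √(ℓ.choose h : ℝ) = (ℓ.choose h : ℝ) :=
    Real.mul_self_sqrt hch.le
  have hb : 0 < √((ℓ : ℝ) / h) := by positivity
  have hc : 0 < √(2 ^ h : ℝ) := by positivity
  have hf : (0 : ℝ) < 2 ^ h * h.factorial := by positivity
  calc μ * (√(ℓ.choose h : ℝ) / √((ℓ : ℝ) / h)) /
        (4 * Real.exp 8 * √(2 ^ h : ℝ) * (2 ^ h * h.factorial)) * El n (2 * h) ℓ 0
      ≤ μ * (√(ℓ.choose h : ℝ) / √((ℓ : ℝ) / h)) /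
        (4 * Real.exp 8 * √(2 ^ h : ℝ) * (2 ^ h * h.factorial)) * (4 * Real.exp 8 *
      (√(ℓ.choose h : ℝ) * (√(2 ^ h : ℝ) * w) * √((ℓ : ℝ) / h))) :=
        mul_le_mul_of_nonneg_left h1 (by positivity)
    _ = μ * w * ((√(ℓ.choose h : ℝ) * √(ℓ.choose h : ℝ)) / (2 ^ h * h.factorial)) := by
        field_simp
    _ = lam * ((ℓ.choose h : ℝ) * (w ^ 2 / (2 ^ h * h.factorial))) := by
        rw [hs1, ← hlw]; ring
    _ ≤ lam * ((ℓ.choose h : ℝ) * ((n - ℓ).choose h : ℝ)) := by gcongr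

theorem choose_ge (ℓ h : ℕ) (hh : 1 ≤ h) (hℓ : h ≤ ℓ) :
    ((ℓ : ℝ) / h) ^ h / h.factorial ≤ (ℓ.choose h : ℝ) := by
  have h4 := Nat.pow_le_choose (α := ℝ) h ℓ
  refine le_trans ?_ h4
  have hh0 : (0 : ℝ) < h := by exact_mod_cast hh
  have h5 : (ℓ : ℝ) / h ≤ ((ℓ + 1 - h : ℕ) : ℝ) := by
    rw [div_le_iff₀ hh0]
    have : ℓ ≤ (ℓ + 1 - h) * h := by
      obtain ⟨a, rfl⟩ : ∃ a, ℓ = h + a := ⟨ℓ - h, by omega⟩
      obtain ⟨b, rfl⟩ : ∃ b, h = b + 1 := ⟨h - 1, by omega⟩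
      have : b + 1 + a + 1 - (b + 1) = a + 1 := by omega
      rw [this]
      nlinarith
    exact_mod_cast this
  gcongr

end Pool.Agent.NH99.KT
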