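import Mathlib

set_option autoImplicit false
set_option linter.unusedSectionVars false

open MeasureTheory ProbabilityTheory

namespace Pool.Agent.NH99.KT

/-- probabilists' Hermite polynomials, as functions -/
noncomputable def He : ℕ → ℝ → ℝ
  | 0, _ => 1
  | 1, x => x
  | (k + 2), x => x * He (k + 1) x - (k + 1) * He k x

theorem He_zero (x : ℝ) : He 0 x = 1 := rfl
theorem He_one (x : ℝ) : He 1 x = x := rfl
theorem He_ss (k : ℕ) (x : ℝ) : He (k + 2) x = x * He (k + 1) x - (k + 1) * He k x := rfl

theorem He_mul (k : ℕ) (x : ℝ) : x * He k x = He (k + 1) x + k * He (k - 1) x := by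
  cases k with
  | zero => simp [He_zero, He_one]
  | succ k =>
    rw [He_ss]
    simp

theorem He_deriv (k : ℕ) (x : ℝ) : HasDerivAt (He k) (k * He (k - 1) x) x := by
  induction k using Nat.strong_induction_on with
  | _ k ih =>
    match k, ih with
    | 0, _ =>
      have : He 0 = fun _ => (1 : ℝ) := by funext y; rfl
      rw [this]
      simpa using hasDerivAt_const x (1 : ℝ)
    | 1, _ =>
      have : He 1 = fun y => y := by funext y; rfl
      rw [this]
      have h := hasDerivAt_id' x
      simpa [He_zero] using h
    | (k + 2), ih =>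
      have h1 := ih (k + 1) (by omega)
      have h0 := ih k (by omega)
      have : He (k + 2) = fun y => y * He (k + 1) y - (k + 1) * He k y := by funext y; rfl
      rw [this]
      have h := ((hasDerivAt_id x).mul h1).sub (h0.const_mul ((k : ℝ) + 1))
      refine h.congr_deriv ?_
      have e1 : (k + 1 : ℕ) - 1 = k := by omega
      have e2 : (k + 2 : ℕ) - 1 = k + 1 := by omega
      simp only [e1, e2, id, one_mul]
      push_cast
      have := He_mul k x
      linear_combination ((k : ℝ) + 1) * this

theorem He_cont (k : ℕ) : Continuous (He k) :=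
  continuous_iff_continuousAt.2 fun x => (He_deriv k x).continuousAt

theorem pow_int (k : ℕ) : Integrable (fun x : ℝ => x ^ k) (gaussianReal 0 1) := by
  rcases k with _ | k
  · simp
  have h := (memLp_id_gaussianReal (μ := 0) (v := 1) ((k + 1 : ℕ) : NNReal))
  have h2 := h.integrable_norm_pow (p := k + 1) (by omega)
  refine h2.mono' (by fun_prop) (Filter.Eventually.of_forall fun x => ?_)
  simp

theorem He_pow_int (k j : ℕ) : Integrable (fun x : ℝ => x ^ j * He k x) (gaussianReal 0 1) := by
  induction k using Nat.strong_induction_on generalizing j with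
  | _ k ih =>
    match k, ih with
    | 0, _ => simpa [He_zero] using pow_int j
    | 1, _ =>
      have : (fun x : ℝ => x ^ j * He 1 x) = fun x => x ^ (j + 1) := by
        funext x; rw [He_one, pow_succ]
      rw [this]; exact pow_int _
    | (k + 2), ih =>
      have h1 := ih (k + 1) (by omega) (j + 1)
      have h0 := ih k (by omega) j
      have : (fun x : ℝ => x ^ j * He (k + 2) x) =
          fun x => x ^ (j + 1) * He (k + 1) x - ((k : ℝ) + 1) * (x ^ j * He k x) := by
        funext x; rw [He_ss]; ring
      rw [this]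
      exact h1.sub (h0.const_mul _)

theorem He_int (k : ℕ) : Integrable (He k) (gaussianReal 0 1) := by
  simpa using He_pow_int k 0

theorem He_integral_succ (k : ℕ) : ∫ x, He (k + 1) x ∂(gaussianReal 0 1) = 0 := by
  have hpdf : ∀ x, gaussianPDFReal 0 1 x = (√(2 * Real.pi))⁻¹ * Real.exp (-x ^ 2 / 2) := by
    intro x; simp [gaussianPDFReal]
  have key : ∀ j, Integrable (fun x => He j x * gaussianPDFReal 0 1 x) := by
    intro j
    have h := He_int j
    rw [gaussianReal_of_var_ne_zero _ (by norm_num : (1 : NNReal) ≠ 0),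
      integrable_withDensity_iff (by fun_prop)
        (Filter.Eventually.of_forall fun x => by simp [gaussianPDF])] at h
    refine h.congr (Filter.Eventually.of_forall fun x => ?_)
    simp only [toReal_gaussianPDF]
  have hd : ∀ x, HasDerivAt (fun x => He k x * gaussianPDFReal 0 1 x)
      (-(He (k + 1) x * gaussianPDFReal 0 1 x)) x := by
    intro x
    have h1 := He_deriv k x
    have h2 : HasDerivAt (gaussianPDFReal 0 1) (-x * gaussianPDFReal 0 1 x) x := by
      have : gaussianPDFReal 0 1 = fun x => (√(2 * Real.pi))⁻¹ * Real.exp (-x ^ 2 / 2) := by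
        funext x; exact hpdf x
      rw [this]
      have h3 : HasDerivAt (fun y : ℝ => -y ^ 2 / 2) (-x) x := by
        have := ((hasDerivAt_pow 2 x).neg).div_const 2
        refine this.congr_deriv ?_
        norm_num
        ring
      have h4 := (h3.exp).const_mul ((√(2 * Real.pi))⁻¹)
      refine h4.congr_deriv ?_
      ring
    refine (h1.mul h2).congr_deriv ?_
    have := He_mul k x
    linear_combination (-gaussianPDFReal 0 1 x) * this
  have h0 := integral_eq_zero_of_hasDerivAt_of_integrable hd (key (k + 1)).neg (key k)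
  rw [integral_gaussianReal_eq_integral_smul (by norm_num : (1 : NNReal) ≠ 0)]
  rw [integral_neg] at h0
  have h5 : ∫ x, He (k + 1) x * gaussianPDFReal 0 1 x = 0 := by linarith
  refine Eq.trans ?_ h5
  refine integral_congr_ae (Filter.Eventually.of_forall fun x => ?_)
  simp only [smul_eq_mul]
  ring

theorem He_integral (k : ℕ) : ∫ x, He k x ∂(gaussianReal 0 1) = if k = 0 then 1 else 0 := by
  rcases k with _ | k
  · simp [He_zero]
  · simp [He_integral_succ]

section prod

variable {ι : Type} [Fintype ι] [DecidableEq ι]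

/-- the standard Gaussian product measure -/
noncomputable abbrev gam (ι : Type) [Fintype ι] : Measure (ι → ℝ) :=
  Measure.pi fun _ : ι => gaussianReal 0 1

noncomputable def HH (O : ι → ℕ) (Z : ι → ℝ) : ℝ := ∏ s, He (O s) (Z s)

theorem HH_int (O : ι → ℕ) : Integrable (HH O) (gam ι) := by
  unfold HH
  exact Integrable.fintype_prod (f := fun s x => He (O s) x) (fun s => He_int (O s))

theorem HH_integral (O : ι → ℕ) : ∫ Z, HH O Z ∂(gam ι) = if O = 0 then 1 else 0 := by
  unfold HH
  rw [integral_fintype_prod_eq_prod (fun s x => He (O s) x)]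
  simp_rw [He_integral]
  split_ifs with h
  · subst h; simp
  · obtain ⟨s, hs⟩ : ∃ s, O s ≠ 0 := by
      by_contra hc
      push Not at hc
      exact h (funext hc)
    exact Finset.prod_eq_zero (Finset.mem_univ s) (by simp [hs])

theorem HH_mul (O : ι → ℕ) (s : ι) (Z : ι → ℝ) :
    Z s * HH O Z = HH (O + Pi.single s 1) Z + O s * HH (O - Pi.single s 1) Z := by
  unfold HH
  rw [← Finset.mul_prod_erase _ _ (Finset.mem_univ s), ← Finset.mul_prod_erase _ _ (Finset.mem_univ s),
    ← Finset.mul_prod_erase _ _ (Finset.mem_univ s)]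
  have h1 : ∏ x ∈ Finset.univ.erase s, He ((O + Pi.single s 1 : ι → ℕ) x) (Z x) =
      ∏ x ∈ Finset.univ.erase s, He (O x) (Z x) := by
    refine Finset.prod_congr rfl fun x hx => ?_
    have : x ≠ s := Finset.ne_of_mem_erase hx
    simp [this]
  have h2 : ∏ x ∈ Finset.univ.erase s, He ((O - Pi.single s 1 : ι → ℕ) x) (Z x) =
      ∏ x ∈ Finset.univ.erase s, He (O x) (Z x) := by
    refine Finset.prod_congr rfl fun x hx => ?_
    have : x ≠ s := Finset.ne_of_mem_erase hx
    simp [this]
  rw [h1, h2]
  have h3 := He_mul (O s) (Z s)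
  simp only [Pi.add_apply, Pi.single_eq_same, Pi.sub_apply]
  rw [← mul_assoc, h3]
  ring

end prod

end Pool.Agent.NH99.KT
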