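import Pool.Agent.NH99.KT_Poi

set_option autoImplicit false
set_option linter.unusedSectionVars false
set_option linter.unusedSimpArgs false

open MeasureTheory ProbabilityTheory Finset
open scoped RealInnerProductSpace ENNReal NNReal Topology

namespace Pool.Agent.NH99.KT

open Pool.Agent.Helper38.FE

variable {I : Type} [Fintype I] [DecidableEq I]

theorem gk_shift (y a : EuclideanSpace ℝ I) :
    gk 1 (y - a) = gk 1 y * Real.exp (⟪y, a⟫ - ‖a‖ ^ 2 / 2) := by
  unfold gk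
  rw [mul_assoc ((2 * Real.pi * 1) ^ (-(Fintype.card I : ℝ) / 2)), ← Real.exp_add]
  congr 2
  rw [norm_sub_sq_real]
  ring

/-- Cameron-Martin -/
theorem cm (h : EuclideanSpace ℝ I → ℝ≥0∞) (hh : Measurable h) (a : EuclideanSpace ℝ I) :
    ∫⁻ z, h (z + a) ∂(stdGaussian (EuclideanSpace ℝ I)) =
      ∫⁻ z, h z * ENNReal.ofReal (Real.exp (⟪z, a⟫ - ‖a‖ ^ 2 / 2))
        ∂(stdGaussian (EuclideanSpace ℝ I)) := by
  have hmeas : Measurable (fun z : EuclideanSpace ℝ I =>
      ENNReal.ofReal (Real.exp (⟪z, a⟫ - ‖a‖ ^ 2 / 2))) := by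
    apply Measurable.ennreal_ofReal
    apply Continuous.measurable
    fun_prop
  have h1 := gauss_shift (I := I) 1 one_pos a h hh
  have h2 := gauss_shift (I := I) 1 one_pos 0
    (fun z => h z * ENNReal.ofReal (Real.exp (⟪z, a⟫ - ‖a‖ ^ 2 / 2))) (hh.mul hmeas)
  simp only [Real.sqrt_one, one_smul, zero_add, sub_zero] at h1 h2
  rw [h2]
  have h3 : ∀ z : EuclideanSpace ℝ I, h (z + a) = h (a + z) := fun z => by rw [add_comm]
  simp_rw [h3]
  rw [h1]
  refine lintegral_congr fun y => ?_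
  rw [gk_shift, ENNReal.ofReal_mul (((gk_basic (J := I) 1 one_pos).2.1 y).le)]
  ring

variable {X : Type} [Fintype X] [Nonempty X]

/-- averaged likelihood ratio -/
noncomputable def LL (a : X → EuclideanSpace ℝ I) (z : EuclideanSpace ℝ I) : ℝ :=
  (Fintype.card X : ℝ)⁻¹ * ∑ x, Real.exp (⟪z, a x⟫ - ‖a x‖ ^ 2 / 2)

theorem LL_nonneg (a : X → EuclideanSpace ℝ I) (z : EuclideanSpace ℝ I) : 0 ≤ LL a z := by
  unfold LL; positivity

theorem LL_cont (a : X → EuclideanSpace ℝ I) : Continuous (LL a) := by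
  unfold LL; fun_prop

theorem LL_ofReal (a : X → EuclideanSpace ℝ I) (z : EuclideanSpace ℝ I) :
    ENNReal.ofReal (LL a z) = ENNReal.ofReal ((Fintype.card X : ℝ)⁻¹) *
      ∑ x, ENNReal.ofReal (Real.exp (⟪z, a x⟫ - ‖a x‖ ^ 2 / 2)) := by
  unfold LL
  rw [ENNReal.ofReal_mul (by positivity), ENNReal.ofReal_sum_of_nonneg fun x _ => by positivity]

theorem card_inv_mul : ENNReal.ofReal ((Fintype.card X : ℝ)⁻¹) * (Fintype.card X : ℝ≥0∞) = 1 := by
  have h0 : (0 : ℝ) < Fintype.card X := by exact_mod_cast Fintype.card_pos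
  have : (Fintype.card X : ℝ≥0∞) = ENNReal.ofReal (Fintype.card X : ℝ) := by simp
  rw [this, ← ENNReal.ofReal_mul (by positivity), inv_mul_cancel₀ h0.ne', ENNReal.ofReal_one]

theorem LL_one (a : X → EuclideanSpace ℝ I) :
    ∫⁻ z, ENNReal.ofReal (LL a z) ∂(stdGaussian (EuclideanSpace ℝ I)) = 1 := by
  simp_rw [LL_ofReal]
  rw [lintegral_const_mul _ (by
    refine Finset.measurable_sum _ fun x _ => ?_
    apply Measurable.ennreal_ofReal
    apply Continuous.measurable
    fun_prop), lintegral_finsetSum _ (fun x _ => by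
    apply Measurable.ennreal_ofReal
    apply Continuous.measurable
    fun_prop)]
  simp_rw [gexp]
  rw [Finset.sum_const, nsmul_eq_mul, mul_one, Finset.card_univ, card_inv_mul]

theorem LL_sq (a : X → EuclideanSpace ℝ I) :
    ∫⁻ z, ENNReal.ofReal (LL a z ^ 2) ∂(stdGaussian (EuclideanSpace ℝ I)) =
      ENNReal.ofReal (((Fintype.card X : ℝ)⁻¹) ^ 2 *
        ∑ x, ∑ y, Real.exp ⟪a x, a y⟫) := by
  have h1 : ∀ z, LL a z ^ 2 = ((Fintype.card X : ℝ)⁻¹) ^ 2 *
      ∑ x, ∑ y, (Real.exp ⟪a x, a y⟫ *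
        Real.exp (⟪z, a x + a y⟫ - ‖a x + a y‖ ^ 2 / 2)) := by
    intro z
    unfold LL
    rw [mul_pow]
    congr 1
    rw [pow_two, Finset.sum_mul_sum]
    refine Finset.sum_congr rfl fun x _ => Finset.sum_congr rfl fun y _ => ?_
    rw [← Real.exp_add, ← Real.exp_add]
    congr 1
    rw [norm_add_sq_real, inner_add_right]
    ring
  simp_rw [h1]
  have h2 : ∀ z : EuclideanSpace ℝ I, ENNReal.ofReal (((Fintype.card X : ℝ)⁻¹) ^ 2 *
      ∑ x, ∑ y, (Real.exp ⟪a x, a y⟫ *
        Real.exp (⟪z, a x + a y⟫ - ‖a x + a y‖ ^ 2 / 2))) =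
      ENNReal.ofReal (((Fintype.card X : ℝ)⁻¹) ^ 2) * ∑ x, ∑ y, (ENNReal.ofReal (Real.exp ⟪a x, a y⟫) *
        ENNReal.ofReal (Real.exp (⟪z, a x + a y⟫ - ‖a x + a y‖ ^ 2 / 2))) := by
    intro z
    rw [ENNReal.ofReal_mul (by positivity),
      ENNReal.ofReal_sum_of_nonneg fun x _ => by positivity]
    congr 1
    refine Finset.sum_congr rfl fun x _ => ?_
    rw [ENNReal.ofReal_sum_of_nonneg fun x _ => by positivity]
    refine Finset.sum_congr rfl fun y _ => ?_
    rw [ENNReal.ofReal_mul (by positivity)]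
  simp_rw [h2]
  have hm : ∀ x y, Measurable fun z : EuclideanSpace ℝ I => (ENNReal.ofReal (Real.exp ⟪a x, a y⟫) *
        ENNReal.ofReal (Real.exp (⟪z, a x + a y⟫ - ‖a x + a y‖ ^ 2 / 2))) := by
    intro x y
    refine Measurable.const_mul ?_ _
    apply Measurable.ennreal_ofReal
    apply Continuous.measurable
    fun_prop
  rw [lintegral_const_mul _ (Finset.measurable_sum _ fun x _ =>
    Finset.measurable_sum _ fun y _ => hm x y), lintegral_finsetSum _ (fun x _ =>
    Finset.measurable_sum _ fun y _ => hm x y)]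
  have h3 : ∀ x, ∫⁻ z : EuclideanSpace ℝ I, ∑ y, (ENNReal.ofReal (Real.exp ⟪a x, a y⟫) *
        ENNReal.ofReal (Real.exp (⟪z, a x + a y⟫ - ‖a x + a y‖ ^ 2 / 2)))
        ∂(stdGaussian (EuclideanSpace ℝ I)) = ∑ y, ENNReal.ofReal (Real.exp ⟪a x, a y⟫) := by
    intro x
    rw [lintegral_finsetSum _ fun y _ => hm x y]
    refine Finset.sum_congr rfl fun y _ => ?_
    rw [lintegral_const_mul' _ _ (by simp), gexp, mul_one]
  simp_rw [h3]
  rw [ENNReal.ofReal_mul (by positivity), ENNReal.ofReal_sum_of_nonneg fun x _ => by positivity]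
  congr 1
  refine Finset.sum_congr rfl fun x _ => ?_
  rw [ENNReal.ofReal_sum_of_nonneg fun x _ => by positivity]

/-- comparison of a shifted model with the null model -/
theorem compare (a : X → EuclideanSpace ℝ I) (g : EuclideanSpace ℝ I → ℝ) (hg0 : ∀ z, 0 ≤ g z)
    (K : ℝ≥0) (hg : LipschitzWith K g) (A : ℝ≥0∞)
    (hA : ∀ x, A ≤ ∫⁻ z, ENNReal.ofReal (g (z + a x)) ∂(stdGaussian (EuclideanSpace ℝ I))) :
    A ≤ ∫⁻ z, ENNReal.ofReal (g z) ∂(stdGaussian (EuclideanSpace ℝ I)) +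
      ENNReal.ofReal (((Fintype.card X : ℝ)⁻¹) ^ 2 * ∑ x, ∑ y, Real.exp ⟪a x, a y⟫) +
      ENNReal.ofReal (16 * (K : ℝ) ^ 2) := by
  have hgm : Measurable fun z => ENNReal.ofReal (g z) :=
    hg.continuous.measurable.ennreal_ofReal
  have hLm : Measurable fun z => ENNReal.ofReal (LL a z) :=
    (LL_cont a).measurable.ennreal_ofReal
  have h1 : A ≤ ∫⁻ z, ENNReal.ofReal (g z) * ENNReal.ofReal (LL a z)
      ∂(stdGaussian (EuclideanSpace ℝ I)) := by
    have h2 : A = ENNReal.ofReal ((Fintype.card X : ℝ)⁻¹) * ∑ _x : X, A := by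
      rw [Finset.sum_const, nsmul_eq_mul, Finset.card_univ, ← mul_assoc, card_inv_mul, one_mul]
    have h3 : ENNReal.ofReal ((Fintype.card X : ℝ)⁻¹) * ∑ _x : X, A ≤
        ENNReal.ofReal ((Fintype.card X : ℝ)⁻¹) *
        ∑ x : X, ∫⁻ z, ENNReal.ofReal (g z) * ENNReal.ofReal (Real.exp (⟪z, a x⟫ - ‖a x‖ ^ 2 / 2))
        ∂(stdGaussian (EuclideanSpace ℝ I)) := by
      gcongr with x _
      rw [← cm _ hgm]
      exact hA x
    rw [h2]
    refine h3.trans (le_of_eq ?_)
    have hm : ∀ x, Measurable fun z : EuclideanSpace ℝ I => ENNReal.ofReal (g z) *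
        ENNReal.ofReal (Real.exp (⟪z, a x⟫ - ‖a x‖ ^ 2 / 2)) := by
      intro x
      refine hgm.mul ?_
      apply Measurable.ennreal_ofReal
      apply Continuous.measurable
      fun_prop
    rw [← lintegral_finsetSum _ fun x _ => hm x,
      ← lintegral_const_mul _ (Finset.measurable_sum _ fun x _ => hm x)]
    refine lintegral_congr fun z => ?_
    rw [LL_ofReal, ← Finset.mul_sum]
    ring
  refine h1.trans ?_
  have h4 : ∫⁻ z, ENNReal.ofReal (g z) * ENNReal.ofReal (LL a z)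
      ∂(stdGaussian (EuclideanSpace ℝ I)) =
      ∫⁻ p : EuclideanSpace ℝ I × EuclideanSpace ℝ I,
        ENNReal.ofReal (g p.1) * ENNReal.ofReal (LL a p.1)
      ∂((stdGaussian (EuclideanSpace ℝ I)).prod (stdGaussian (EuclideanSpace ℝ I))) := by
    rw [lintegral_prod _ (by
      exact ((hgm.comp measurable_fst).mul (hLm.comp measurable_fst)).aemeasurable)]
    simp
  rw [h4]
  have h5 : ∀ p : EuclideanSpace ℝ I × EuclideanSpace ℝ I,
      ENNReal.ofReal (g p.1) * ENNReal.ofReal (LL a p.1) ≤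
      ENNReal.ofReal (LL a p.1) * ENNReal.ofReal (g p.2) + ENNReal.ofReal (LL a p.1 ^ 2) +
        ENNReal.ofReal ((g p.2 - g p.1) ^ 2) := by
    intro p
    rw [← ENNReal.ofReal_mul (hg0 _), ← ENNReal.ofReal_mul (LL_nonneg _ _),
      ← ENNReal.ofReal_add (mul_nonneg (LL_nonneg _ _) (hg0 _)) (sq_nonneg _),
      ← ENNReal.ofReal_add (add_nonneg (mul_nonneg (LL_nonneg _ _) (hg0 _)) (sq_nonneg _))
        (sq_nonneg _)]
    refine ENNReal.ofReal_le_ofReal ?_
    nlinarith [sq_nonneg (LL a p.1 + (g p.2 - g p.1)), sq_nonneg (LL a p.1),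
      sq_nonneg (g p.2 - g p.1)]
  refine (lintegral_mono h5).trans ?_
  have hd : Measurable fun p : EuclideanSpace ℝ I × EuclideanSpace ℝ I =>
      ENNReal.ofReal ((g p.2 - g p.1) ^ 2) := by
    apply Measurable.ennreal_ofReal
    apply Continuous.measurable
    exact ((hg.continuous.comp continuous_snd).sub (hg.continuous.comp continuous_fst)).pow 2
  have hL2 : Measurable fun p : EuclideanSpace ℝ I × EuclideanSpace ℝ I =>
      ENNReal.ofReal (LL a p.1 ^ 2) := by
    apply Measurable.ennreal_ofReal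
    apply Continuous.measurable
    exact ((LL_cont a).comp continuous_fst).pow 2
  rw [lintegral_add_right _ hd, lintegral_add_right _ hL2]
  refine add_le_add (add_le_add ?_ ?_) (lip_poincare g K hg)
  · rw [lintegral_prod_mul hLm.aemeasurable hgm.aemeasurable, LL_one, one_mul]
  · rw [lintegral_prod _ hL2.aemeasurable]
    simp only [lintegral_const, measure_univ, mul_one]
    exact le_of_eq (LL_sq a)

end Pool.Agent.NH99.KT
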