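import Pool.Agent.NH99.KT_Chi

set_option autoImplicit false
set_option linter.unusedSectionVars false
set_option linter.unusedSimpArgs false

open MeasureTheory ProbabilityTheory Finset Matrix
open scoped RealInnerProductSpace ENNReal NNReal Topology

namespace Pool.Agent.NH99.KT

variable {n ℓ : ℕ}

/-- weight of the vertex `i` -/
noncomputable def wt (v : VV n ℓ → ℝ) (i : Fin n) : ℝ := ∑ I : VV n ℓ, if i ∈ I.1 then v I ^ 2 else 0

theorem wt_nonneg (v : VV n ℓ → ℝ) (i : Fin n) : 0 ≤ wt v i := by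
  unfold wt
  refine Finset.sum_nonneg fun I _ => ?_
  split_ifs <;> positivity

theorem wt_sum (v : VV n ℓ → ℝ) (hv : v ⬝ᵥ v = 1) : ∑ i, wt v i = ℓ := by
  unfold wt
  rw [Finset.sum_comm]
  have h1 : ∀ I : VV n ℓ, ∑ i : Fin n, (if i ∈ I.1 then v I ^ 2 else 0) = ℓ * v I ^ 2 := by
    intro I
    rw [← Finset.sum_filter, Finset.sum_const, Finset.filter_mem_eq_inter, Finset.univ_inter, I.2,
      nsmul_eq_mul]
  simp_rw [h1]
  rw [← Finset.mul_sum]
  have h2 : ∑ I, v I ^ 2 = v ⬝ᵥ v := by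
    unfold dotProduct
    exact Finset.sum_congr rfl fun I _ => by ring
  rw [h2, hv, mul_one]

/-- for fixed `i, j`, the pairs `I, J` with `I Δ J = {i, j}` -/
theorem pair_le (v : VV n ℓ → ℝ) (i j : Fin n) :
    ∑ I : VV n ℓ, ∑ J : VV n ℓ, (if i ∈ I.1 ∧ j ∈ J.1 ∧ symmDiff I.1 J.1 = {i, j} then
      |v I| * |v J| else 0) ≤ √(wt v i) * √(wt v j) := by
  classical
  have h1 : ∑ I : VV n ℓ, ∑ J : VV n ℓ, (if i ∈ I.1 ∧ j ∈ J.1 ∧ symmDiff I.1 J.1 = {i, j} then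
      |v I| * |v J| else 0) =
      ∑ p ∈ (Finset.univ : Finset (VV n ℓ × VV n ℓ)).filter (fun p =>
        i ∈ p.1.1 ∧ j ∈ p.2.1 ∧ symmDiff p.1.1 p.2.1 = {i, j}), |v p.1| * |v p.2| := by
    rw [Finset.sum_filter, ← Finset.univ_product_univ, Finset.sum_product]
  rw [h1]
  have hle : ∀ (f : VV n ℓ × VV n ℓ → VV n ℓ) (k : Fin n)
      (_ : ∀ p : VV n ℓ × VV n ℓ, i ∈ p.1.1 ∧ j ∈ p.2.1 ∧ symmDiff p.1.1 p.2.1 = {i, j} →
        k ∈ (f p).1)
      (_ : ∀ p q : VV n ℓ × VV n ℓ, symmDiff p.1.1 p.2.1 = {i, j} →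
        symmDiff q.1.1 q.2.1 = {i, j} → f p = f q → p = q),
      ∑ p ∈ (Finset.univ : Finset (VV n ℓ × VV n ℓ)).filter (fun p =>
        i ∈ p.1.1 ∧ j ∈ p.2.1 ∧ symmDiff p.1.1 p.2.1 = {i, j}), |v (f p)| ^ 2 ≤ wt v k := by
    intro f k hk hinj
    rw [← Finset.sum_image (g := f) (f := fun I => |v I| ^ 2)]
    · unfold wt
      rw [← Finset.sum_filter]
      refine (Finset.sum_le_sum_of_subset_of_nonneg (t := Finset.univ.filter fun I : VV n ℓ =>
        k ∈ I.1) ?_ fun _ _ _ => by positivity).trans (le_of_eq ?_)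
      · intro I hI
        rw [Finset.mem_image] at hI
        obtain ⟨p, hp, rfl⟩ := hI
        exact Finset.mem_filter.2 ⟨Finset.mem_univ _, hk p (Finset.mem_filter.1 hp).2⟩
      · exact Finset.sum_congr rfl fun I _ => sq_abs _
    · intro p hp q hq hpq
      exact hinj p q (Finset.mem_filter.1 hp).2.2.2 (Finset.mem_filter.1 hq).2.2.2 hpq
  have h2 := hle Prod.fst i (fun p hp => hp.1) (by
    rintro ⟨a, b⟩ ⟨c, d⟩ h1 h2 h3
    simp only at h1 h2 h3
    subst h3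
    have : b.1 = d.1 := symmDiff_right_injective _ (h1.trans h2.symm)
    rw [Subtype.ext this])
  have h3 := hle Prod.snd j (fun p hp => hp.2.1) (by
    rintro ⟨a, b⟩ ⟨c, d⟩ h1 h2 h3
    simp only at h1 h2 h3
    subst h3
    have : a.1 = c.1 := symmDiff_left_injective _ (h1.trans h2.symm)
    rw [Subtype.ext this])
  have h4 := Finset.sum_mul_sq_le_sq_mul_sq ((Finset.univ : Finset (VV n ℓ × VV n ℓ)).filter
    (fun p => i ∈ p.1.1 ∧ j ∈ p.2.1 ∧ symmDiff p.1.1 p.2.1 = {i, j}))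
    (fun p => |v p.1|) (fun p => |v p.2|)
  rw [← Real.sqrt_mul (wt_nonneg v i)]
  refine Real.le_sqrt_of_sq_le (h4.trans ?_)
  exact mul_le_mul h2 h3 (Finset.sum_nonneg fun _ _ => by positivity) (wt_nonneg v i)

theorem quad_le (v : VV n ℓ → ℝ) (hv : v ⬝ᵥ v = 1) (D : Finset (Fin n) → ℝ) :
    v ⬝ᵥ ((kik n 2 ℓ 0 D) *ᵥ v) ≤ 2 * ℓ * √(∑ s, D s ^ 2) := by
  classical
  obtain ⟨Q, hQ⟩ : ∃ Q, Q = √(∑ s, D s ^ 2) := ⟨_, rfl⟩
  have hQ0 : 0 ≤ Q := hQ ▸ Real.sqrt_nonneg _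
  have hQ2 : Q ^ 2 = ∑ s, D s ^ 2 := by
    rw [hQ, Real.sq_sqrt (Finset.sum_nonneg fun s _ => sq_nonneg _)]
  -- step 1: sum over ordered pairs
  have h1 : v ⬝ᵥ ((kik n 2 ℓ 0 D) *ᵥ v) ≤ ∑ I : VV n ℓ, ∑ J : VV n ℓ, ∑ i : Fin n, ∑ j : Fin n,
      (if i ∈ I.1 ∧ j ∈ J.1 ∧ symmDiff I.1 J.1 = {i, j} ∧ i ≠ j then
        |D {i, j}| * (|v I| * |v J|) else 0) := by
    simp only [dotProduct, Matrix.mulVec]
    refine Finset.sum_le_sum fun I _ => ?_
    rw [Finset.mul_sum]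
    refine Finset.sum_le_sum fun J _ => ?_
    simp only [kik, Matrix.of_apply]
    have hnn : ∀ i j : Fin n, 0 ≤ (if i ∈ I.1 ∧ j ∈ J.1 ∧ symmDiff I.1 J.1 = {i, j} ∧ i ≠ j then
        |D {i, j}| * (|v I| * |v J|) else 0) := by
      intro i j; split_ifs <;> positivity
    by_cases hc : (symmDiff I.1 J.1).card = 2
    · rw [if_pos hc]
      have hh := card_half (h := 1) I.1 J.1 I.2 J.2 (by simpa using hc)
      obtain ⟨i, hi⟩ := Finset.card_eq_one.1 hh.1
      obtain ⟨j, hj⟩ := Finset.card_eq_one.1 hh.2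
      have hiI : i ∈ I.1 \ J.1 := by rw [hi]; simp
      have hjJ : j ∈ J.1 \ I.1 := by rw [hj]; simp
      rw [Finset.mem_sdiff] at hiI hjJ
      have hs : symmDiff I.1 J.1 = {i, j} := by
        rw [symmDiff_def, hi, hj]; rfl
      have hij : i ≠ j := fun h => hjJ.2 (h ▸ hiI.1)
      have h2 : v I * ((0 + D (symmDiff I.1 J.1)) * v J) ≤ |D {i, j}| * (|v I| * |v J|) := by
        rw [hs, zero_add]
        refine (le_abs_self _).trans (le_of_eq ?_)
        rw [abs_mul, abs_mul]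
        ring
      refine h2.trans ?_
      have h3 : |D {i, j}| * (|v I| * |v J|) =
          (if i ∈ I.1 ∧ j ∈ J.1 ∧ symmDiff I.1 J.1 = {i, j} ∧ i ≠ j then
            |D {i, j}| * (|v I| * |v J|) else 0) := by
        rw [if_pos ⟨hiI.1, hjJ.1, hs, hij⟩]
      rw [h3]
      refine le_trans ?_ (Finset.single_le_sum (f := fun i => ∑ j, (if i ∈ I.1 ∧ j ∈ J.1 ∧
        symmDiff I.1 J.1 = {i, j} ∧ i ≠ j then |D {i, j}| * (|v I| * |v J|) else 0))
        (fun i _ => Finset.sum_nonneg fun j _ => hnn i j) (Finset.mem_univ i))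
      exact Finset.single_le_sum (f := fun j => (if i ∈ I.1 ∧ j ∈ J.1 ∧
        symmDiff I.1 J.1 = {i, j} ∧ i ≠ j then |D {i, j}| * (|v I| * |v J|) else 0))
        (fun j _ => hnn i j) (Finset.mem_univ j)
    · rw [if_neg hc, zero_mul, mul_zero]
      exact Finset.sum_nonneg fun i _ => Finset.sum_nonneg fun j _ => hnn i j
  refine h1.trans ?_
  -- step 2: exchange
  have h2 : ∑ I : VV n ℓ, ∑ J : VV n ℓ, ∑ i : Fin n, ∑ j : Fin n,
      (if i ∈ I.1 ∧ j ∈ J.1 ∧ symmDiff I.1 J.1 = {i, j} ∧ i ≠ j then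
        |D {i, j}| * (|v I| * |v J|) else 0) =
      ∑ i : Fin n, ∑ j : Fin n, ((if i ≠ j then |D {i, j}| else 0) *
        ∑ I : VV n ℓ, ∑ J : VV n ℓ, (if i ∈ I.1 ∧ j ∈ J.1 ∧ symmDiff I.1 J.1 = {i, j} then
      |v I| * |v J| else 0)) := by
    have e1 : ∀ I : VV n ℓ, ∑ J : VV n ℓ, ∑ i : Fin n, ∑ j : Fin n,
      (if i ∈ I.1 ∧ j ∈ J.1 ∧ symmDiff I.1 J.1 = {i, j} ∧ i ≠ j then
        |D {i, j}| * (|v I| * |v J|) else 0) = ∑ i : Fin n, ∑ j : Fin n, ∑ J : VV n ℓ,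
      (if i ∈ I.1 ∧ j ∈ J.1 ∧ symmDiff I.1 J.1 = {i, j} ∧ i ≠ j then
        |D {i, j}| * (|v I| * |v J|) else 0) := by
      intro I
      rw [Finset.sum_comm]
      refine Finset.sum_congr rfl fun i _ => ?_
      rw [Finset.sum_comm]
    simp_rw [e1]
    rw [Finset.sum_comm]
    refine Finset.sum_congr rfl fun i _ => ?_
    rw [Finset.sum_comm]
    refine Finset.sum_congr rfl fun j _ => ?_
    rw [Finset.mul_sum]
    refine Finset.sum_congr rfl fun I _ => ?_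
    rw [Finset.mul_sum]
    refine Finset.sum_congr rfl fun J _ => ?_
    by_cases hij : i = j
    · simp [hij]
    · by_cases h1 : i ∈ I.1 ∧ j ∈ J.1 ∧ symmDiff I.1 J.1 = {i, j}
      · rw [if_pos ⟨h1.1, h1.2.1, h1.2.2, hij⟩, if_pos hij, if_pos h1]
      · rw [if_neg (fun h => h1 ⟨h.1, h.2.1, h.2.2.1⟩), if_neg h1, mul_zero]
  rw [h2]
  have h3 : ∑ i : Fin n, ∑ j : Fin n, ((if i ≠ j then |D {i, j}| else 0) *
        ∑ I : VV n ℓ, ∑ J : VV n ℓ, (if i ∈ I.1 ∧ j ∈ J.1 ∧ symmDiff I.1 J.1 = {i, j} then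
      |v I| * |v J| else 0)) ≤
      ∑ p ∈ (Finset.univ : Finset (Fin n × Fin n)), (if p.1 ≠ p.2 then |D {p.1, p.2}| else 0) *
        (√(wt v p.1) * √(wt v p.2)) := by
    rw [← Finset.univ_product_univ, Finset.sum_product]
    refine Finset.sum_le_sum fun i _ => Finset.sum_le_sum fun j _ => ?_
    refine mul_le_mul_of_nonneg_left (pair_le v i j) ?_
    split_ifs <;> positivity
  refine h3.trans ?_
  have h4 := Finset.sum_mul_sq_le_sq_mul_sq (Finset.univ : Finset (Fin n × Fin n))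
    (fun p => (if p.1 ≠ p.2 then |D {p.1, p.2}| else 0)) (fun p => (√(wt v p.1) * √(wt v p.2)))
  have h5 : ∑ p : Fin n × Fin n, (√(wt v p.1) * √(wt v p.2)) ^ 2 = (ℓ : ℝ) ^ 2 := by
    rw [← Finset.univ_product_univ, Finset.sum_product]
    have : ∀ i j : Fin n, (√(wt v i) * √(wt v j)) ^ 2 = wt v i * wt v j := by
      intro i j
      rw [mul_pow, Real.sq_sqrt (wt_nonneg v i), Real.sq_sqrt (wt_nonneg v j)]
    simp_rw [this]
    rw [← Finset.sum_mul_sum, wt_sum v hv, pow_two]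
  have h6 : ∑ p : Fin n × Fin n, (if p.1 ≠ p.2 then |D {p.1, p.2}| else 0) ^ 2 ≤ 4 * Q ^ 2 := by
    have e1 : ∀ p : Fin n × Fin n, (if p.1 ≠ p.2 then |D {p.1, p.2}| else 0) ^ 2 =
        ∑ s : Finset (Fin n), if p.1 ≠ p.2 ∧ s = {p.1, p.2} then D s ^ 2 else 0 := by
      intro p
      by_cases hp : p.1 = p.2
      · simp [hp]
      · have : ∀ s : Finset (Fin n), (if p.1 ≠ p.2 ∧ s = {p.1, p.2} then D s ^ 2 else 0) =
            if s = {p.1, p.2} then D s ^ 2 else 0 := by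
          intro s
          by_cases hs : s = {p.1, p.2} <;> simp [hs, hp]
        simp_rw [this]
        rw [Finset.sum_ite_eq' Finset.univ _ _]
        simp [hp]
    simp_rw [e1]
    rw [Finset.sum_comm, hQ2, Finset.mul_sum]
    refine Finset.sum_le_sum fun s _ => ?_
    rw [← Finset.sum_filter, Finset.sum_const, nsmul_eq_mul]
    refine mul_le_mul_of_nonneg_right ?_ (sq_nonneg _)
    have hcard : (Finset.univ.filter fun p : Fin n × Fin n => p.1 ≠ p.2 ∧ s = {p.1, p.2}).card ≤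
        4 := by
      by_cases hs : s.card = 2
      · have hsub : (Finset.univ.filter fun p : Fin n × Fin n => p.1 ≠ p.2 ∧ s = {p.1, p.2}) ⊆
            s ×ˢ s := by
          intro p hp
          have hp2 := (Finset.mem_filter.1 hp).2.2
          rw [Finset.mem_product, hp2]
          simp
        have := Finset.card_le_card hsub
        rw [Finset.card_product, hs] at this
        exact this
      · have : (Finset.univ.filter fun p : Fin n × Fin n => p.1 ≠ p.2 ∧ s = {p.1, p.2}) = ∅ := by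
          rw [Finset.filter_eq_empty_iff]
          rintro p _ ⟨h1, h2⟩
          exact hs (by rw [h2, Finset.card_pair h1])
        rw [this]; simp
    exact_mod_cast hcard
  rw [h5] at h4
  have h7 : (∑ p : Fin n × Fin n, (if p.1 ≠ p.2 then |D {p.1, p.2}| else 0) *
      (√(wt v p.1) * √(wt v p.2))) ^ 2 ≤ (2 * ℓ * Q) ^ 2 := by
    refine h4.trans ?_
    calc _ ≤ 4 * Q ^ 2 * (ℓ : ℝ) ^ 2 := mul_le_mul_of_nonneg_right h6 (by positivity)
      _ = (2 * ℓ * Q) ^ 2 := by ring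
  exact abs_le_of_sq_le_sq' h7 (by positivity) |>.2 |> fun h => by simpa [hQ] using h

/-- the largest eigenvalue is a Lipschitz function of the noise, uniformly in `n` -/
theorem lip (n ℓ : ℕ) : LipschitzWith (2 * ℓ : ℝ≥0)
    fun z : EuclideanSpace ℝ (Finset (Fin n)) => lmax (kik n 2 ℓ 0 z.ofLp) := by
  refine LipschitzWith.of_dist_le_mul fun z w => ?_
  have key : ∀ z w : EuclideanSpace ℝ (Finset (Fin n)),
      lmax (kik n 2 ℓ 0 z.ofLp) ≤ lmax (kik n 2 ℓ 0 w.ofLp) + 2 * ℓ * ‖z - w‖ := by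
    intro z w
    refine lmax_sub_le _ _ _ (by positivity) fun v hv => ?_
    have h1 := quad_le v hv (z - w).ofLp
    have h2 : kik n 2 ℓ 0 z.ofLp - kik n 2 ℓ 0 w.ofLp = kik n 2 ℓ 0 (z - w).ofLp := by
      ext I J
      simp only [Matrix.sub_apply, kik, Matrix.of_apply]
      split_ifs <;> simp
    rw [h2]
    refine h1.trans (le_of_eq ?_)
    rw [EuclideanSpace.norm_eq]
    congr 2
    refine Finset.sum_congr rfl fun s _ => ?_
    rw [Real.norm_eq_abs, sq_abs]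
  rw [Real.dist_eq, dist_eq_norm]
  push_cast
  rw [abs_sub_le_iff]
  constructor
  · linarith [key z w]
  · have := key w z
    rw [norm_sub_rev] at this
    linarith

end Pool.Agent.NH99.KT
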