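import Pool.Agent.NH99.KT_Bound

set_option autoImplicit false
set_option linter.unusedSectionVars false
set_option linter.unusedSimpArgs false

open MeasureTheory ProbabilityTheory Finset Matrix

namespace Pool.Agent.NH99.KT

section

variable {V : Type} [Fintype V] [DecidableEq V]

/-- the set of Rayleigh quotients -/
def rset (M : Matrix V V ℝ) : Set ℝ :=
  {t : ℝ | ∃ v : V → ℝ, dotProduct v v = 1 ∧ t = dotProduct v (Matrix.mulVec M v)}

/-- the largest eigenvalue of a real symmetric matrix, as largest Rayleigh quotient -/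
noncomputable def lmax (M : Matrix V V ℝ) : ℝ := sSup (rset M)

theorem cs_dot (v w : V → ℝ) : (v ⬝ᵥ w) ^ 2 ≤ (v ⬝ᵥ v) * (w ⬝ᵥ w) := by
  have := Finset.sum_mul_sq_le_sq_mul_sq Finset.univ v w
  simpa [dotProduct, pow_two] using this

theorem ray_sq (M : Matrix V V ℝ) (hM : M.IsSymm) (v : V → ℝ) (hv : v ⬝ᵥ v = 1) :
    (v ⬝ᵥ (M *ᵥ v)) ^ 2 ≤ v ⬝ᵥ ((M ^ 2) *ᵥ v) := by
  have h1 := cs_dot v (M *ᵥ v)
  rw [hv, one_mul] at h1
  refine h1.trans (le_of_eq ?_)
  rw [pow_two, ← Matrix.mulVec_mulVec, Matrix.dotProduct_mulVec v M, ← Matrix.mulVec_transpose,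
    hM.eq]

theorem isSymm_pow (M : Matrix V V ℝ) (hM : M.IsSymm) (k : ℕ) : (M ^ k).IsSymm := by
  unfold Matrix.IsSymm
  rw [Matrix.transpose_pow, hM.eq]

theorem ray_pow (M : Matrix V V ℝ) (hM : M.IsSymm) (v : V → ℝ) (hv : v ⬝ᵥ v = 1) (k : ℕ) :
    (v ⬝ᵥ (M *ᵥ v)) ^ (2 ^ (k + 1)) ≤ v ⬝ᵥ ((M ^ (2 ^ (k + 1))) *ᵥ v) := by
  induction k with
  | zero => simpa using ray_sq M hM v hv
  | succ k ih =>
    have h0 : 0 ≤ (v ⬝ᵥ (M *ᵥ v)) ^ (2 ^ (k + 1)) :=
      (Even.pow_nonneg ⟨2 ^ k, by ring⟩ _)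
    have h1 := ray_sq (M ^ (2 ^ (k + 1))) (isSymm_pow M hM _) v hv
    rw [← pow_mul, ← pow_succ] at h1
    refine le_trans ?_ h1
    rw [show (2 : ℕ) ^ (k + 1 + 1) = 2 ^ (k + 1) * 2 by ring, pow_mul]
    exact pow_le_pow_left₀ h0 ih 2

theorem ray_trace (M : Matrix V V ℝ) (hM : M.IsSymm) (v : V → ℝ) (hv : v ⬝ᵥ v = 1) :
    v ⬝ᵥ ((M ^ 2) *ᵥ v) ≤ (M ^ 2).trace := by
  have h1 : v ⬝ᵥ ((M ^ 2) *ᵥ v) = (M *ᵥ v) ⬝ᵥ (M *ᵥ v) := by
    rw [pow_two, ← Matrix.mulVec_mulVec, Matrix.dotProduct_mulVec v M, ← Matrix.mulVec_transpose,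
      hM.eq]
  have h2 : (M ^ 2).trace = ∑ i, ∑ j, M i j ^ 2 := by
    unfold Matrix.trace
    refine Finset.sum_congr rfl fun i _ => ?_
    rw [Matrix.diag_apply, pow_two, Matrix.mul_apply]
    refine Finset.sum_congr rfl fun j _ => ?_
    rw [pow_two, hM.apply]
  rw [h1, h2]
  unfold dotProduct
  refine Finset.sum_le_sum fun i _ => ?_
  have h3 := cs_dot (M i) v
  rw [hv, mul_one] at h3
  have h4 : (M *ᵥ v) i = M i ⬝ᵥ v := rfl
  rw [h4, ← pow_two]
  refine h3.trans (le_of_eq ?_)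
  unfold dotProduct
  exact Finset.sum_congr rfl fun j _ => by ring

theorem ray_pow_trace (M : Matrix V V ℝ) (hM : M.IsSymm) (v : V → ℝ) (hv : v ⬝ᵥ v = 1) (k : ℕ) :
    (v ⬝ᵥ (M *ᵥ v)) ^ (2 ^ (k + 1)) ≤ (M ^ (2 ^ (k + 1))).trace := by
  refine (ray_pow M hM v hv k).trans ?_
  have := ray_trace (M ^ (2 ^ k)) (isSymm_pow M hM _) v hv
  rw [← pow_mul, ← pow_succ] at this
  exact this

/-- entries bound for Rayleigh quotients -/
theorem ray_abs (M : Matrix V V ℝ) (v : V → ℝ) (hv : v ⬝ᵥ v = 1) :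
    |v ⬝ᵥ (M *ᵥ v)| ≤ ∑ i, ∑ j, |M i j| := by
  have h1 : ∀ i, |v i| ≤ 1 := by
    intro i
    have h2 : v i * v i ≤ 1 := by
      rw [← hv]
      exact Finset.single_le_sum (f := fun i => v i * v i) (fun j _ => mul_self_nonneg (v j))
        (Finset.mem_univ i)
    rw [abs_le]
    constructor <;> nlinarith
  unfold dotProduct Matrix.mulVec
  refine (Finset.abs_sum_le_sum_abs _ _).trans (Finset.sum_le_sum fun i _ => ?_)
  rw [abs_mul]
  unfold dotProduct
  calc |v i| * |∑ j, M i j * v j| ≤ 1 * |∑ j, M i j * v j| :=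
        mul_le_mul_of_nonneg_right (h1 i) (abs_nonneg _)
    _ = |∑ j, M i j * v j| := one_mul _
    _ ≤ ∑ j, |M i j * v j| := Finset.abs_sum_le_sum_abs _ _
    _ ≤ ∑ j, |M i j| := Finset.sum_le_sum fun j _ => by
        rw [abs_mul]
        exact mul_le_of_le_one_right (abs_nonneg _) (h1 j)

theorem rset_bdd (M : Matrix V V ℝ) : BddAbove (rset M) := by
  refine ⟨∑ i, ∑ j, |M i j|, ?_⟩
  rintro t ⟨v, hv, rfl⟩
  exact (le_abs_self _).trans (ray_abs M v hv)

theorem ray_le_lmax (M : Matrix V V ℝ) (v : V → ℝ) (hv : v ⬝ᵥ v = 1) :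
    v ⬝ᵥ (M *ᵥ v) ≤ lmax M := le_csSup (rset_bdd M) ⟨v, hv, rfl⟩

theorem rset_nonempty [Nonempty V] (M : Matrix V V ℝ) : (rset M).Nonempty := by
  obtain ⟨i⟩ := ‹Nonempty V›
  refine ⟨_, Pi.single i 1, ?_, rfl⟩
  simp

theorem lmax_le [Nonempty V] (M : Matrix V V ℝ) (c : ℝ)
    (h : ∀ v : V → ℝ, v ⬝ᵥ v = 1 → v ⬝ᵥ (M *ᵥ v) ≤ c) : lmax M ≤ c := by
  refine csSup_le (rset_nonempty M) ?_
  rintro t ⟨v, hv, rfl⟩
  exact h v hv

theorem lmax_empty [IsEmpty V] (M : Matrix V V ℝ) : lmax M = 0 := by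
  have : rset M = ∅ := by
    ext t
    simp only [rset, Set.mem_ofPred_eq, Set.mem_empty_iff_false, iff_false]
    rintro ⟨v, hv, _⟩
    simp [dotProduct] at hv
  rw [lmax, this, Real.sSup_empty]

theorem lmax_sub_le (M M' : Matrix V V ℝ) (c : ℝ) (hc : 0 ≤ c)
    (h : ∀ v : V → ℝ, v ⬝ᵥ v = 1 → v ⬝ᵥ ((M - M') *ᵥ v) ≤ c) : lmax M ≤ lmax M' + c := by
  rcases isEmpty_or_nonempty V with hV | hV
  · rw [lmax_empty, lmax_empty]; linarith
  · refine lmax_le M _ fun v hv => ?_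
    have h1 := h v hv
    rw [Matrix.sub_mulVec, dotProduct_sub] at h1
    have h2 := ray_le_lmax M' v hv
    linarith

theorem lmax_lip (M M' : Matrix V V ℝ) : |lmax M - lmax M'| ≤ ∑ i, ∑ j, |M i j - M' i j| := by
  rw [abs_sub_le_iff]
  have hnn : 0 ≤ ∑ i, ∑ j, |M i j - M' i j| :=
    Finset.sum_nonneg fun i _ => Finset.sum_nonneg fun j _ => abs_nonneg _
  constructor
  · have := lmax_sub_le M M' (∑ i, ∑ j, |M i j - M' i j|) hnn fun v hv =>
      (le_abs_self _).trans (by simpa using ray_abs (M - M') v hv)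
    linarith
  · have := lmax_sub_le M' M (∑ i, ∑ j, |M i j - M' i j|) hnn fun v hv =>
      (le_abs_self _).trans (by
        have := ray_abs (M' - M) v hv
        refine this.trans (le_of_eq ?_)
        refine Finset.sum_congr rfl fun i _ => Finset.sum_congr rfl fun j _ => ?_
        rw [Matrix.sub_apply, abs_sub_comm])
    linarith

theorem lmax_trace [Nonempty V] (M : Matrix V V ℝ) (hM : M.IsSymm) (k : ℕ) (c : ℝ) (hc : 0 < c) :
    lmax M ≤ c + c * ((M ^ (2 ^ (k + 1))).trace / c ^ (2 ^ (k + 1))) := by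
  refine lmax_le M _ fun v hv => ?_
  obtain ⟨x, hx⟩ : ∃ x, x = v ⬝ᵥ (M *ᵥ v) := ⟨_, rfl⟩
  have h1 := ray_pow_trace M hM v hv k
  rw [← hx] at h1 ⊢
  have h0 : 0 ≤ x ^ (2 ^ (k + 1)) := Even.pow_nonneg ⟨2 ^ k, by ring⟩ _
  have htr : 0 ≤ (M ^ (2 ^ (k + 1))).trace := h0.trans h1
  by_cases hxc : x ≤ c
  · have : 0 ≤ c * ((M ^ (2 ^ (k + 1))).trace / c ^ (2 ^ (k + 1))) := by positivity
    linarith
  · push Not at hxc
    have h2 : x ≤ c * (x / c) ^ (2 ^ (k + 1)) := by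
      have h3 : 1 ≤ x / c := by rw [le_div_iff₀ hc]; linarith
      have h4 : x / c ≤ (x / c) ^ (2 ^ (k + 1)) :=
        le_self_pow₀ h3 (by positivity)
      calc x = c * (x / c) := by field_simp
        _ ≤ _ := mul_le_mul_of_nonneg_left h4 hc.le
    have h5 : c * (x / c) ^ (2 ^ (k + 1)) ≤ c * ((M ^ (2 ^ (k + 1))).trace / c ^ (2 ^ (k + 1))) := by
      rw [div_pow]
      gcongr
    linarith

end

section kik

/-- The Kikuchi matrix. -/
def kik (n r ℓ : ℕ) (lam : ℝ) (Z : Finset (Fin n) → ℝ) :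
    Matrix {K : Finset (Fin n) // K.card = ℓ} {K : Finset (Fin n) // K.card = ℓ} ℝ :=
  Matrix.of fun I J => if (symmDiff I.1 J.1).card = r then lam + Z (symmDiff I.1 J.1) else 0

theorem kik_symm (n r ℓ : ℕ) (lam : ℝ) (Z : Finset (Fin n) → ℝ) : (kik n r ℓ lam Z).IsSymm := by
  ext I J
  simp only [Matrix.transpose_apply, kik, Matrix.of_apply, symmDiff_comm]

theorem kik_eq_MM (n ℓ h : ℕ) (Z : Finset (Fin n) → ℝ) :
    kik n (2 * h) ℓ 0 Z = MM (adj n ℓ h) (lab n ℓ) Z := by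
  ext I J
  simp [kik, MM]

/-- expected largest eigenvalue -/
noncomputable def El (n r ℓ : ℕ) (lam : ℝ) : ℝ :=
  ∫ Z, lmax (kik n r ℓ lam Z) ∂(Measure.pi fun _ : Finset (Fin n) => gaussianReal 0 1)

theorem lmax_kik_cont (n r ℓ : ℕ) (lam : ℝ) : Continuous fun Z => lmax (kik n r ℓ lam Z) := by
  have hc : ∀ I J, Continuous fun Z : Finset (Fin n) → ℝ => kik n r ℓ lam Z I J := by
    intro I J
    simp only [kik, Matrix.of_apply]
    split_ifs
    · fun_prop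
    · fun_prop
  rw [continuous_iff_continuousAt]
  intro Z0
  have h1 : Filter.Tendsto (fun Z => ∑ I, ∑ J, |kik n r ℓ lam Z I J - kik n r ℓ lam Z0 I J|)
      (nhds Z0) (nhds 0) := by
    have h2 : Continuous fun Z => ∑ I, ∑ J, |kik n r ℓ lam Z I J - kik n r ℓ lam Z0 I J| := by
      refine continuous_finsetSum _ fun I _ => continuous_finsetSum _ fun J _ => ?_
      exact ((hc I J).sub continuous_const).abs
    have h3 := h2.tendsto Z0
    simpa using h3
  rw [ContinuousAt, tendsto_iff_norm_sub_tendsto_zero]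
  refine squeeze_zero (fun _ => norm_nonneg _) (fun Z => ?_) h1
  rw [Real.norm_eq_abs]
  exact lmax_lip _ _

theorem gauss_abs_int : Integrable (fun x : ℝ => |x|) (gaussianReal 0 1) := by
  have := (pow_int 1).abs
  simpa using this

theorem Z_int {ι : Type} [Fintype ι] (s : ι) : Integrable (fun Z : ι → ℝ => Z s) (gam ι) := by
  have h : Integrable (fun x : ℝ => x) (gaussianReal 0 1) := by simpa using pow_int 1
  exact integrable_comp_eval (μ := fun _ : ι => gaussianReal 0 1) (i := s) h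

theorem Z_integral {ι : Type} [Fintype ι] (s : ι) : ∫ Z : ι → ℝ, Z s ∂(gam ι) = 0 := by
  have h := integral_comp_eval (μ := fun _ : ι => gaussianReal 0 1) (i := s)
    (f := fun x : ℝ => x) (by fun_prop)
  rw [h]
  simp [integral_id_gaussianReal]

theorem lmax_kik_int (n r ℓ : ℕ) (lam : ℝ) :
    Integrable (fun Z => lmax (kik n r ℓ lam Z)) (gam (Finset (Fin n))) := by
  have hb : Integrable (fun Z : Finset (Fin n) → ℝ => ∑ I : VV n ℓ, ∑ J : VV n ℓ,
      |kik n r ℓ lam Z I J|) (gam (Finset (Fin n))) := by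
    refine integrable_finsetSum _ fun I _ => integrable_finsetSum _ fun J _ => ?_
    simp only [kik, Matrix.of_apply]
    split_ifs
    · exact ((integrable_const lam).add (Z_int _)).abs
    · simp
  refine hb.mono' (lmax_kik_cont n r ℓ lam).aestronglyMeasurable
    (Filter.Eventually.of_forall fun Z => ?_)
  have := lmax_lip (kik n r ℓ lam Z) 0
  have h0 : lmax (0 : Matrix (VV n ℓ) (VV n ℓ) ℝ) = 0 := by
    rcases isEmpty_or_nonempty (VV n ℓ) with hV | hV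
    · exact lmax_empty _
    · apply le_antisymm
      · exact lmax_le _ _ fun v hv => by simp
      · obtain ⟨t, v, hv, rfl⟩ := rset_nonempty (0 : Matrix (VV n ℓ) (VV n ℓ) ℝ)
        have := ray_le_lmax (0 : Matrix (VV n ℓ) (VV n ℓ) ℝ) v hv
        simpa using this
  rw [h0, sub_zero] at this
  simpa using this

end kik

end Pool.Agent.NH99.KT
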