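import Pool.Agent.Helper38.FE.ClsB

set_option autoImplicit false
set_option linter.unusedSectionVars false
set_option linter.unusedSimpArgs false

open MeasureTheory ProbabilityTheory Finset
open scoped RealInnerProductSpace ENNReal NNReal Topology Convolution

namespace Pool.Agent.NH99.KT

open Pool.Agent.Helper38.FE

variable {I : Type} [Fintype I] [DecidableEq I]

/-- the isometry `ℝ → EuclideanSpace ℝ Unit` -/
noncomputable def toU : ℝ →L[ℝ] EuclideanSpace ℝ Unit :=
  (ContinuousLinearMap.id ℝ ℝ).smulRight (EuclideanSpace.single () (1 : ℝ))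

theorem toU_norm (x : ℝ) : ‖toU x‖ = |x| := by
  simp [toU, norm_smul]

theorem sum_sq_le (f : EuclideanSpace ℝ I →L[ℝ] ℝ) (K : ℝ) (hf : ‖f‖ ≤ K) :
    ∑ i, (f (EuclideanSpace.single i 1)) ^ 2 ≤ K ^ 2 := by
  have hK : 0 ≤ K := (norm_nonneg _).trans hf
  obtain ⟨w, hw⟩ : ∃ w : EuclideanSpace ℝ I,
    w = ∑ i, (f (EuclideanSpace.single i 1)) • EuclideanSpace.single i (1 : ℝ) := ⟨_, rfl⟩
  have h1 : f w = ∑ i, (f (EuclideanSpace.single i 1)) ^ 2 := by
    rw [hw, map_sum]
    refine Finset.sum_congr rfl fun i _ => ?_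
    rw [map_smul, smul_eq_mul, pow_two]
  have hwi : ∀ i, w i = f (EuclideanSpace.single i 1) := by
    intro i
    rw [hw]
    simp [Finset.sum_apply, Pi.single_apply]
  have h2 : ‖w‖ ^ 2 = ∑ i, (f (EuclideanSpace.single i 1)) ^ 2 := by
    rw [EuclideanSpace.real_norm_sq_eq]
    refine Finset.sum_congr rfl fun i _ => ?_
    rw [hwi]
  have h3 : f w ≤ K * ‖w‖ := by
    refine (le_abs_self _).trans ?_
    rw [← Real.norm_eq_abs]
    exact (f.le_opNorm w).trans (mul_le_mul_of_nonneg_right hf (norm_nonneg _))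
  rw [h1, ← h2] at h3
  rw [← h2]
  rcases eq_or_lt_of_le (norm_nonneg w) with h0 | h0
  · rw [← h0]; simpa using sq_nonneg K
  · have h4 : ‖w‖ ≤ K := by
      have : ‖w‖ * ‖w‖ ≤ K * ‖w‖ := by rw [← pow_two]; exact h3
      exact le_of_mul_le_mul_right this h0
    exact pow_le_pow_left₀ h0.le h4 2

theorem smooth_poincare (g : EuclideanSpace ℝ I → ℝ) (K : ℝ≥0) (hg : LipschitzWith K g)
    (hc : ContDiff ℝ 1 g) :
    ∫⁻ p, ENNReal.ofReal ((g p.2 - g p.1) ^ 2)
      ∂((stdGaussian (EuclideanSpace ℝ I)).prod (stdGaussian (EuclideanSpace ℝ I))) ≤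
      ENNReal.ofReal (4 * (K : ℝ) ^ 2) := by
  obtain ⟨G, hG⟩ : ∃ G : EuclideanSpace ℝ I → EuclideanSpace ℝ Unit, G = fun x => toU (g x) :=
    ⟨_, rfl⟩
  have hGc : ContDiff ℝ 1 G := by
    rw [hG]
    exact toU.contDiff.comp hc
  have hfd : ∀ x, fderiv ℝ G x = toU.comp (fderiv ℝ g x) := by
    intro x
    have h1 : HasFDerivAt g (fderiv ℝ g x) x := (hc.differentiable one_ne_zero x).hasFDerivAt
    have h2 : HasFDerivAt (fun y => toU (g y)) (toU.comp (fderiv ℝ g x)) x :=
      toU.hasFDerivAt.comp x h1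
    rw [hG]
    exact h2.fderiv
  have hgn : ∀ x, ‖fderiv ℝ g x‖ ≤ K := fun x => norm_fderiv_le_of_lipschitz ℝ hg
  have hGn : ∀ x, ‖fderiv ℝ G x‖ ≤ K := by
    intro x
    rw [hfd]
    refine ContinuousLinearMap.opNorm_le_bound _ K.2 fun y => ?_
    rw [ContinuousLinearMap.comp_apply, toU_norm, ← Real.norm_eq_abs]
    exact ((fderiv ℝ g x).le_opNorm y).trans (mul_le_mul_of_nonneg_right (hgn x) (norm_nonneg _))
  have hhs : ∀ x, hs (fderiv ℝ G x) ≤ (K : ℝ) ^ 2 := by
    intro x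
    unfold hs
    refine le_trans (le_of_eq ?_) (sum_sq_le (fderiv ℝ g x) K (hgn x))
    refine Finset.sum_congr rfl fun i _ => ?_
    rw [hfd, ContinuousLinearMap.comp_apply, toU_norm, sq_abs]
  have hrot := rotpath G hGc K hGn (Real.pi / 2) (by positivity)
  rw [Real.cos_pi_div_two, Real.sin_pi_div_two] at hrot
  simp only [zero_smul, one_smul, zero_add] at hrot
  have hnorm : ∀ p : EuclideanSpace ℝ I × EuclideanSpace ℝ I,
      ‖G p.2 - G p.1‖ ^ 2 = (g p.2 - g p.1) ^ 2 := by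
    intro p
    rw [hG]
    simp only
    rw [← map_sub, toU_norm, sq_abs]
  simp_rw [hnorm] at hrot
  have hmom := (moments (I := I) (J := Unit))
  have hm2 : Integrable (fun z : EuclideanSpace ℝ I => ‖z‖ ^ 2)
    (stdGaussian (EuclideanSpace ℝ I)) := hmom.2.1
  have hint : Integrable (fun p : EuclideanSpace ℝ I × EuclideanSpace ℝ I =>
      (g p.2 - g p.1) ^ 2)
      ((stdGaussian (EuclideanSpace ℝ I)).prod (stdGaussian (EuclideanSpace ℝ I))) := by
    have hb : Integrable (fun p : EuclideanSpace ℝ I × EuclideanSpace ℝ I =>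
        2 * (K : ℝ) ^ 2 * (‖p.1‖ ^ 2 + ‖p.2‖ ^ 2))
        ((stdGaussian (EuclideanSpace ℝ I)).prod (stdGaussian (EuclideanSpace ℝ I))) :=
      ((hm2.comp_fst _).add (hm2.comp_snd _)).const_mul _
    have hcont : Continuous fun p : EuclideanSpace ℝ I × EuclideanSpace ℝ I =>
        (g p.2 - g p.1) ^ 2 :=
      ((hg.continuous.comp continuous_snd).sub (hg.continuous.comp continuous_fst)).pow 2
    refine hb.mono' hcont.aestronglyMeasurable (Filter.Eventually.of_forall fun p => ?_)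
    rw [Real.norm_eq_abs, abs_of_nonneg (sq_nonneg _)]
    have h1 : |g p.2 - g p.1| ≤ K * ‖p.2 - p.1‖ := by
      have := hg.dist_le_mul p.2 p.1
      rwa [Real.dist_eq, dist_eq_norm] at this
    have h2 : ‖p.2 - p.1‖ ≤ ‖p.2‖ + ‖p.1‖ := norm_sub_le _ _
    have h3 : |g p.2 - g p.1| ≤ K * (‖p.2‖ + ‖p.1‖) :=
      h1.trans (mul_le_mul_of_nonneg_left h2 K.2)
    rw [← sq_abs]
    have h4 := pow_le_pow_left₀ (abs_nonneg _) h3 2
    refine h4.trans ?_
    have hK2 : (0 : ℝ) ≤ (K : ℝ) ^ 2 := sq_nonneg _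
    rw [mul_pow]
    nlinarith [mul_nonneg hK2 (sq_nonneg (‖p.2‖ - ‖p.1‖))]
  rw [← ofReal_integral_eq_lintegral_ofReal hint (Filter.Eventually.of_forall fun p => sq_nonneg _)]
  refine ENNReal.ofReal_le_ofReal (hrot.trans ?_)
  have h5 : ∫ x, hs (fderiv ℝ G x) ∂(stdGaussian (EuclideanSpace ℝ I)) ≤ (K : ℝ) ^ 2 := by
    have h6 : ∫ x, hs (fderiv ℝ G x) ∂(stdGaussian (EuclideanSpace ℝ I)) ≤
        ∫ _, (K : ℝ) ^ 2 ∂(stdGaussian (EuclideanSpace ℝ I)) := by
      refine integral_mono_of_nonneg (Filter.Eventually.of_forall fun x => ?_)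
        (integrable_const _) (Filter.Eventually.of_forall hhs)
      unfold hs
      positivity
    simpa using h6
  have hpi : (Real.pi / 2) ^ 2 ≤ 4 := by
    have := Real.pi_le_four
    have := Real.pi_pos
    nlinarith
  have hnn : 0 ≤ ∫ x, hs (fderiv ℝ G x) ∂(stdGaussian (EuclideanSpace ℝ I)) := by
    refine integral_nonneg fun x => ?_
    unfold hs
    positivity
  nlinarith [sq_nonneg (K : ℝ)]

theorem lip_poincare (g : EuclideanSpace ℝ I → ℝ) (K : ℝ≥0) (hg : LipschitzWith K g) :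
    ∫⁻ p, ENNReal.ofReal ((g p.2 - g p.1) ^ 2)
      ∂((stdGaussian (EuclideanSpace ℝ I)).prod (stdGaussian (EuclideanSpace ℝ I))) ≤
      ENNReal.ofReal (16 * (K : ℝ) ^ 2) := by
  let φ : ContDiffBump (0 : EuclideanSpace ℝ I) := ⟨1 / 2, 1, by norm_num, by norm_num⟩
  obtain ⟨g1, hg1⟩ : ∃ g1 : EuclideanSpace ℝ I → ℝ,
    g1 = (φ.normed volume ⋆[ContinuousLinearMap.lsmul ℝ ℝ, volume] g) := ⟨_, rfl⟩
  have hcont : ContDiff ℝ 1 g1 := by
    rw [hg1]
    exact φ.hasCompactSupport_normed.contDiff_convolution_left _ φ.contDiff_normed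
      hg.continuous.locallyIntegrable
  have hφi : Integrable (φ.normed (volume : Measure (EuclideanSpace ℝ I))) volume :=
    (φ.contDiff_normed.continuous (n := 0)).integrable_of_hasCompactSupport
      φ.hasCompactSupport_normed
  have hφ1 : ∫ t, φ.normed (volume : Measure (EuclideanSpace ℝ I)) t = 1 := φ.integral_normed
  have hφ0 : ∀ t, 0 ≤ φ.normed (volume : Measure (EuclideanSpace ℝ I)) t := φ.nonneg_normed
  have hval : ∀ x, g1 x = ∫ t, φ.normed (volume : Measure (EuclideanSpace ℝ I)) t * g (x - t) := by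
    intro x
    rw [hg1]
    rfl
  have hii : ∀ x, Integrable (fun t => φ.normed (volume : Measure (EuclideanSpace ℝ I)) t *
      g (x - t)) volume := by
    intro x
    have hc : Continuous fun t => φ.normed (volume : Measure (EuclideanSpace ℝ I)) t *
      g (x - t) := (φ.contDiff_normed.continuous (n := 0)).mul
        (hg.continuous.comp (continuous_const.sub continuous_id))
    refine hc.integrable_of_hasCompactSupport ?_
    exact φ.hasCompactSupport_normed.mul_right
  have hlip : LipschitzWith K g1 := by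
    refine LipschitzWith.of_dist_le_mul fun x y => ?_
    rw [Real.dist_eq, hval, hval, ← integral_sub (hii x) (hii y)]
    refine (abs_integral_le_integral_abs).trans ?_
    have h1 : ∀ t, |φ.normed (volume : Measure (EuclideanSpace ℝ I)) t * g (x - t) -
        φ.normed volume t * g (y - t)| ≤
        φ.normed (volume : Measure (EuclideanSpace ℝ I)) t * (K * dist x y) := by
      intro t
      rw [← mul_sub, abs_mul, abs_of_nonneg (hφ0 t)]
      refine mul_le_mul_of_nonneg_left ?_ (hφ0 t)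
      have := hg.dist_le_mul (x - t) (y - t)
      rwa [Real.dist_eq, dist_sub_right] at this
    refine (integral_mono_of_nonneg (Filter.Eventually.of_forall fun t => abs_nonneg _)
      (hφi.mul_const _) (Filter.Eventually.of_forall h1)).trans (le_of_eq ?_)
    rw [integral_mul_const, hφ1, one_mul]
  have hclose : ∀ x, |g1 x - g x| ≤ K := by
    intro x
    rw [← Real.dist_eq, hg1]
    refine φ.dist_normed_convolution_le hg.continuous.aestronglyMeasurable fun y hy => ?_
    refine (hg.dist_le_mul y x).trans ?_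
    have h1 : dist y x ≤ 1 := le_of_lt (by simpa using hy)
    calc (K : ℝ) * dist y x ≤ K * 1 := mul_le_mul_of_nonneg_left h1 K.2
      _ = K := mul_one _
  have h4 := smooth_poincare g1 K hlip hcont
  have hpt : ∀ p : EuclideanSpace ℝ I × EuclideanSpace ℝ I,
      ENNReal.ofReal ((g p.2 - g p.1) ^ 2) ≤
        2 * ENNReal.ofReal ((g1 p.2 - g1 p.1) ^ 2) + ENNReal.ofReal (8 * (K : ℝ) ^ 2) := by
    intro p
    rw [show (2 : ℝ≥0∞) = ENNReal.ofReal 2 by simp, ← ENNReal.ofReal_mul (by norm_num),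
      ← ENNReal.ofReal_add (by positivity) (by positivity)]
    refine ENNReal.ofReal_le_ofReal ?_
    have h1 := abs_le.1 (hclose p.1)
    have h2 := abs_le.1 (hclose p.2)
    obtain ⟨a, ha⟩ : ∃ a, a = (g p.2 - g p.1) - (g1 p.2 - g1 p.1) := ⟨_, rfl⟩
    have h3 : a ^ 2 ≤ (2 * (K : ℝ)) ^ 2 := by
      rw [sq_le_sq, abs_of_nonneg (by positivity : 0 ≤ 2 * (K : ℝ)), abs_le]
      constructor <;> linarith [h1.1, h1.2, h2.1, h2.2]
    have h5 : g p.2 - g p.1 = a + (g1 p.2 - g1 p.1) := by linarith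
    rw [h5]
    nlinarith [sq_nonneg (a - (g1 p.2 - g1 p.1))]
  refine (lintegral_mono hpt).trans ?_
  rw [lintegral_add_right _ measurable_const, lintegral_const_mul' _ _ (by simp), lintegral_const]
  simp only [measure_univ, mul_one]
  calc 2 * ∫⁻ p, ENNReal.ofReal ((g1 p.2 - g1 p.1) ^ 2)
        ∂((stdGaussian (EuclideanSpace ℝ I)).prod (stdGaussian (EuclideanSpace ℝ I))) +
        ENNReal.ofReal (8 * (K : ℝ) ^ 2)
      ≤ 2 * ENNReal.ofReal (4 * (K : ℝ) ^ 2) + ENNReal.ofReal (8 * (K : ℝ) ^ 2) := by gcongr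
    _ = ENNReal.ofReal (16 * (K : ℝ) ^ 2) := by
      rw [show (2 : ℝ≥0∞) = ENNReal.ofReal 2 by simp, ← ENNReal.ofReal_mul (by norm_num),
        ← ENNReal.ofReal_add (by positivity) (by positivity)]
      congr 1
      ring

end Pool.Agent.NH99.KT
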