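import Pool.Agent.NH99.KT_Herm

set_option autoImplicit false
set_option linter.unusedSectionVars false

open MeasureTheory ProbabilityTheory

namespace Pool.Agent.NH99.KT

section

variable {ι V : Type} [Fintype ι] [DecidableEq ι] [Fintype V] [DecidableEq V]
  (A : V → V → Prop) [DecidableRel A] (s : V → V → ι)

/-- the matrix with entries `Z (s I J)` on adjacent pairs -/
noncomputable def MM (Z : ι → ℝ) : Matrix V V ℝ :=
  Matrix.of fun I J => if A I J then Z (s I J) else 0

theorem MM_step (m : ℕ) (I J : V) (O : ι → ℕ) (Z : ι → ℝ) :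
    (MM A s Z ^ (m + 1)) I J * HH O Z =
      ∑ K, if A I K then ((MM A s Z ^ m) K J * HH (O + Pi.single (s I K) 1) Z +
        O (s I K) * ((MM A s Z ^ m) K J * HH (O - Pi.single (s I K) 1) Z)) else 0 := by
  rw [pow_succ', Matrix.mul_apply, Finset.sum_mul]
  refine Finset.sum_congr rfl fun K _ => ?_
  unfold MM
  rw [Matrix.of_apply]
  split_ifs with h
  · have := HH_mul O (s I K) Z
    linear_combination ((Matrix.of fun I J => if A I J then Z (s I J) else 0) ^ m) K J * this
  · simp

theorem MM_int (m : ℕ) (I J : V) (O : ι → ℕ) :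
    Integrable (fun Z => (MM A s Z ^ m) I J * HH O Z) (gam ι) := by
  induction m generalizing I O with
  | zero =>
    simp only [pow_zero]
    exact (HH_int O).const_mul _
  | succ m ih =>
    simp only [MM_step]
    refine integrable_finsetSum _ fun K _ => ?_
    split_ifs with h
    · exact (ih _ _).add ((ih _ _).const_mul _)
    · exact integrable_zero _ _ _

noncomputable def TT (m : ℕ) (I J : V) (O : ι → ℕ) : ℝ :=
  ∫ Z, (MM A s Z ^ m) I J * HH O Z ∂(gam ι)

theorem TT_zero (I J : V) (O : ι → ℕ) : TT A s 0 I J O = if I = J ∧ O = 0 then 1 else 0 := by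
  unfold TT
  simp only [pow_zero]
  rw [integral_const_mul, HH_integral, Matrix.one_apply]
  by_cases h1 : I = J <;> by_cases h2 : O = 0 <;> simp [h1, h2]

theorem TT_succ (m : ℕ) (I J : V) (O : ι → ℕ) : TT A s (m + 1) I J O =
    ∑ K, if A I K then (TT A s m K J (O + Pi.single (s I K) 1) +
        O (s I K) * TT A s m K J (O - Pi.single (s I K) 1)) else 0 := by
  unfold TT
  simp only [MM_step]
  rw [integral_finsetSum]
  · refine Finset.sum_congr rfl fun K _ => ?_
    split_ifs with h
    · rw [integral_add (MM_int A s _ _ _ _) ((MM_int A s _ _ _ _).const_mul _),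
        integral_const_mul]
    · simp
  · intro K _
    split_ifs with h
    · exact (MM_int A s _ _ _ _).add ((MM_int A s _ _ _ _).const_mul _)
    · exact integrable_zero _ _ _

theorem trace_integral (m : ℕ) : ∫ Z, (MM A s Z ^ m).trace ∂(gam ι) = ∑ I, TT A s m I I 0 := by
  have h : ∀ Z : ι → ℝ, HH 0 Z = 1 := by
    intro Z; simp [HH, He_zero]
  unfold Matrix.trace TT
  rw [integral_finsetSum]
  · refine Finset.sum_congr rfl fun I _ => ?_
    simp [h]
  · intro I _
    have := MM_int A s m I I 0
    simpa [h] using this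

theorem trace_integrable (m : ℕ) : Integrable (fun Z => (MM A s Z ^ m).trace) (gam ι) := by
  have h : ∀ Z : ι → ℝ, HH 0 Z = 1 := by
    intro Z; simp [HH, He_zero]
  unfold Matrix.trace
  refine integrable_finsetSum _ fun I _ => ?_
  have := MM_int A s m I I 0
  simpa [h] using this

end

end Pool.Agent.NH99.KT
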