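import Pool.Agent.NH99.KT_Fin

set_option autoImplicit false

open MeasureTheory ProbabilityTheory Filter
open scoped Topology

namespace Pool.Agent.Results.MP_d47e08_pr.KikuchiThreshold

/-- The Kikuchi matrix of order `r` at level `ℓ` and signal `lam`, driven by the noise `Z`. -/
def kikuchi (n r ℓ : ℕ) (lam : ℝ) (Z : Finset (Fin n) → ℝ) :
    Matrix {K : Finset (Fin n) // K.card = ℓ} {K : Finset (Fin n) // K.card = ℓ} ℝ :=
  Matrix.of fun I J => if (symmDiff I.1 J.1).card = r then lam + Z (symmDiff I.1 J.1) else 0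

/-- The largest eigenvalue of the symmetric matrix `M`: the supremum of its Rayleigh quotients. -/
noncomputable def lamMax {V : Type} [Fintype V] (M : Matrix V V ℝ) : ℝ :=
  sSup {t : ℝ | ∃ v : V → ℝ, dotProduct v v = 1 ∧ t = dotProduct v (Matrix.mulVec M v)}

/-- The expected largest eigenvalue, the noise being independent standard Gaussians. -/
noncomputable def expLamMax (n r ℓ : ℕ) (lam : ℝ) : ℝ :=
  ∫ Z, lamMax (kikuchi n r ℓ lam Z) ∂(Measure.pi fun _ : Finset (Fin n) => gaussianReal 0 1)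

/-- `ρ_{r,ℓ}(μ)`, the lower limit of the ratios of expected largest eigenvalues. -/
noncomputable def rho (r ℓ : ℕ) (μ : ℝ) : EReal :=
  liminf (fun n : ℕ => ((expLamMax n r ℓ (μ * (n : ℝ) ^ (-(r : ℝ) / 4)) /
    expLamMax n r ℓ 0 : ℝ) : EReal)) atTop

/-- `μ♮_{r,ℓ}`, the infimum in `[0, ∞]` of the `μ ≥ 0` with `ρ_{r,ℓ}(μ) > 1`. -/
noncomputable def threshold (r ℓ : ℕ) : EReal :=
  sInf {m : EReal | ∃ μ : ℝ, 0 ≤ μ ∧ 1 < rho r ℓ μ ∧ m = (μ : EReal)}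

theorem expLamMax_eq (n r ℓ : ℕ) (lam : ℝ) :
    expLamMax n r ℓ lam = Pool.Agent.NH99.KT.El n r ℓ lam := rfl

theorem threshold_nonneg (r ℓ : ℕ) : 0 ≤ threshold r ℓ := by
  refine le_sInf ?_
  rintro m ⟨μ, hμ, _, rfl⟩
  exact_mod_cast hμ

theorem threshold_two (ℓ : ℕ) (hℓ : 1 ≤ ℓ) : 1 ≤ threshold 2 ℓ := by
  refine le_sInf ?_
  rintro m ⟨μ, hμ, hρ, rfl⟩
  by_contra hc
  push Not at hc
  have hμ1 : μ < 1 := by exact_mod_cast hc
  have hle : ∀ ε : ℝ, 0 < ε → rho 2 ℓ μ ≤ ((1 + ε : ℝ) : EReal) := by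
    intro ε hε
    have h2 := Pool.Agent.NH99.KT.ratio_two ℓ hℓ μ hμ hμ1 ε hε
    unfold rho
    refine liminf_le_of_frequently_le' (Eventually.frequently ?_)
    filter_upwards [h2] with n hn
    exact EReal.coe_le_coe_iff.2 hn
  obtain ⟨x, hx1, hx2⟩ := EReal.lt_iff_exists_real_btwn.1 hρ
  have hx1' : 1 < x := by exact_mod_cast hx1
  have h3 := hle (x - 1) (by linarith)
  have h4 : ((1 + (x - 1) : ℝ) : EReal) = (x : EReal) := by
    congr 1; ring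
  rw [h4] at h3
  exact absurd (lt_of_lt_of_le hx2 h3) (lt_irrefl _)

theorem threshold_le (ℓ h : ℕ) (hh : 1 ≤ h) (hℓ : h ≤ ℓ) :
    threshold (2 * h) ℓ ≤ (((4 * Real.exp 8 * √(2 ^ h : ℝ) * (2 ^ h * h.factorial)) *
      (√((ℓ : ℝ) / h) / √(ℓ.choose h : ℝ)) : ℝ) : EReal) := by
  obtain ⟨b, hb⟩ : ∃ b, b = (4 * Real.exp 8 * √(2 ^ h : ℝ) * (2 ^ h * h.factorial)) *
      (√((ℓ : ℝ) / h) / √(ℓ.choose h : ℝ)) := ⟨_, rfl⟩
  have hℓ1 : 1 ≤ ℓ := hh.trans hℓ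
  have hℓ0 : (0 : ℝ) < ℓ := by exact_mod_cast hℓ1
  have hh0 : (0 : ℝ) < h := by exact_mod_cast hh
  have hch : (0 : ℝ) < ℓ.choose h := by exact_mod_cast Nat.choose_pos hℓ
  have hb0 : 0 < b := by rw [hb]; positivity
  rw [← hb]
  by_contra hc
  push Not at hc
  obtain ⟨x, hx1, hx2⟩ := EReal.lt_iff_exists_real_btwn.1 hc
  have hx1' : b < x := by exact_mod_cast hx1
  have h1 := Pool.Agent.NH99.KT.ratio_ge ℓ h hh hℓ x (hb0.trans hx1')
  have h2 : 1 < rho (2 * h) ℓ x := by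
    have h3 : ((x * (√(ℓ.choose h : ℝ) / √((ℓ : ℝ) / h)) /
        (4 * Real.exp 8 * √(2 ^ h : ℝ) * (2 ^ h * h.factorial)) : ℝ) : EReal) ≤
        rho (2 * h) ℓ x := by
      unfold rho
      refine le_liminf_of_le (by isBoundedDefault) ?_
      filter_upwards [h1] with n hn
      exact EReal.coe_le_coe_iff.2 hn
    refine lt_of_lt_of_le ?_ h3
    have h4 : (1 : ℝ) < x * (√(ℓ.choose h : ℝ) / √((ℓ : ℝ) / h)) /
        (4 * Real.exp 8 * √(2 ^ h : ℝ) * (2 ^ h * h.factorial)) := by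
      have e : x * (√(ℓ.choose h : ℝ) / √((ℓ : ℝ) / h)) /
        (4 * Real.exp 8 * √(2 ^ h : ℝ) * (2 ^ h * h.factorial)) = x / b := by
        rw [hb]
        field_simp
      rw [e, lt_div_iff₀ hb0]
      linarith
    exact_mod_cast h4
  have h5 : threshold (2 * h) ℓ ≤ (x : EReal) :=
    sInf_le ⟨x, (hb0.trans hx1').le, h2, rfl⟩
  exact absurd (lt_of_lt_of_le hx2 h5) (lt_irrefl _)

theorem threshold_rate (h : ℕ) (hh : 1 ≤ h) : ∃ C : ℝ, ∀ ℓ : ℕ, h ≤ ℓ →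
    threshold (2 * h) ℓ ≤ ((C * (ℓ : ℝ) ^ (-(((2 * h : ℕ) : ℝ) - 2) / 4) : ℝ) : EReal) := by
  have hh0 : (0 : ℝ) < h := by exact_mod_cast hh
  refine ⟨(4 * Real.exp 8 * √(2 ^ h : ℝ) * (2 ^ h * h.factorial)) *
    √((h : ℝ) ^ h * h.factorial / h), fun ℓ hℓ => ?_⟩
  have hℓ1 : 1 ≤ ℓ := hh.trans hℓ
  have hℓ0 : (0 : ℝ) < ℓ := by exact_mod_cast hℓ1
  have hch : (0 : ℝ) < ℓ.choose h := by exact_mod_cast Nat.choose_pos hℓ
  refine (threshold_le ℓ h hh hℓ).trans (EReal.coe_le_coe_iff.2 ?_)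
  obtain ⟨A, hA⟩ : ∃ A : ℝ, A = 4 * Real.exp 8 * √(2 ^ h : ℝ) * (2 ^ h * h.factorial) := ⟨_, rfl⟩
  have hA0 : 0 ≤ A := by rw [hA]; positivity
  rw [← hA, mul_assoc]
  refine mul_le_mul_of_nonneg_left ?_ hA0
  have hcg := Pool.Agent.NH99.KT.choose_ge ℓ h hh hℓ
  have h1 : (ℓ : ℝ) ^ (-(((2 * h : ℕ) : ℝ) - 2) / 4) = √((ℓ : ℝ) / (ℓ : ℝ) ^ h) := by
    rw [Real.sqrt_eq_rpow, Real.div_rpow hℓ0.le (by positivity), ← Real.rpow_natCast (ℓ : ℝ) h,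
      ← Real.rpow_mul hℓ0.le, ← Real.rpow_sub hℓ0]
    congr 1
    push_cast
    ring
  have e1 : √((ℓ : ℝ) / h) / √(ℓ.choose h : ℝ) = √((ℓ : ℝ) / h / (ℓ.choose h : ℝ)) :=
    (Real.sqrt_div' _ hch.le).symm
  have e2 : √((h : ℝ) ^ h * h.factorial / h) * √((ℓ : ℝ) / (ℓ : ℝ) ^ h) =
      √((h : ℝ) ^ h * h.factorial / h * ((ℓ : ℝ) / (ℓ : ℝ) ^ h)) :=
    (Real.sqrt_mul (by positivity) _).symm
  rw [h1, e1, e2]
  refine Real.sqrt_le_sqrt ?_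
  rw [div_le_iff₀ hch]
  have h2 : (h : ℝ) ^ h * h.factorial / h * ((ℓ : ℝ) / (ℓ : ℝ) ^ h) *
      (((ℓ : ℝ) / h) ^ h / h.factorial) = (ℓ : ℝ) / h := by
    rw [div_pow]
    have : (h.factorial : ℝ) ≠ 0 := by positivity
    field_simp
  rw [← h2]
  exact mul_le_mul_of_nonneg_left hcg (by positivity)

/-- Wein, El Alaoui and Moore's conjecture on the spectral threshold of the Kikuchi matrix: the
rescaled threshold `μ♮_{r,ℓ}` tends to `0` as `ℓ → ∞` for every even `r ≥ 4`, at rate at least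
`ℓ^{-(r-2)/4}`, and does not for `r = 2`, where it is at least `1` for every `ℓ`. -/
theorem result :
    (∀ r : ℕ, 2 ≤ r → Even r → (Tendsto (fun ℓ : ℕ => threshold r ℓ) atTop (𝓝 0) ↔ 4 ≤ r)) ∧
    (∀ r : ℕ, 4 ≤ r → Even r → ∃ C : ℝ, ∀ ℓ : ℕ, r ≤ 2 * ℓ →
      threshold r ℓ ≤ ((C * (ℓ : ℝ) ^ (-((r : ℝ) - 2) / 4) : ℝ) : EReal)) ∧
    (∀ ℓ : ℕ, 1 ≤ ℓ → 1 ≤ threshold 2 ℓ) := by
  have hrate : ∀ r : ℕ, 4 ≤ r → Even r → ∃ C : ℝ, ∀ ℓ : ℕ, r ≤ 2 * ℓ →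
      threshold r ℓ ≤ ((C * (ℓ : ℝ) ^ (-((r : ℝ) - 2) / 4) : ℝ) : EReal) := by
    intro r hr he
    obtain ⟨h, rfl⟩ : ∃ h, r = 2 * h := by
      obtain ⟨k, hk⟩ := he
      exact ⟨k, by omega⟩
    obtain ⟨C, hC⟩ := threshold_rate h (by omega)
    exact ⟨C, fun ℓ hℓ => hC ℓ (by omega)⟩
  refine ⟨?_, hrate, threshold_two⟩
  intro r hr he
  constructor
  · intro ht
    by_contra hc
    have hr2 : r = 2 := by
      obtain ⟨k, hk⟩ := he
      omega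
    subst hr2
    have h1 : (1 : EReal) ≤ 0 := ge_of_tendsto ht (by
      filter_upwards [eventually_ge_atTop 1] with ℓ hℓ
      exact threshold_two ℓ hℓ)
    exact absurd h1 (by norm_num)
  · intro h4
    obtain ⟨C, hC⟩ := hrate r h4 he
    have h1 : Tendsto (fun ℓ : ℕ => (C * (ℓ : ℝ) ^ (-((r : ℝ) - 2) / 4) : ℝ)) atTop (𝓝 0) := by
      have hr4 : (4 : ℝ) ≤ r := by exact_mod_cast h4
      have h2 := (tendsto_rpow_neg_atTop (y := ((r : ℝ) - 2) / 4) (by linarith)).comp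
        (tendsto_natCast_atTop_atTop (R := ℝ))
      have h3 := h2.const_mul C
      rw [mul_zero] at h3
      refine h3.congr fun ℓ => ?_
      simp only [Function.comp_apply]
      congr 2
      ring
    have h2 : Tendsto (fun ℓ : ℕ => ((C * (ℓ : ℝ) ^ (-((r : ℝ) - 2) / 4) : ℝ) : EReal)) atTop
        (𝓝 0) := by
      exact (continuous_coe_real_ereal.tendsto (0 : ℝ)).comp h1
    refine tendsto_of_tendsto_of_tendsto_of_le_of_le' tendsto_const_nhds h2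
      (Eventually.of_forall fun ℓ => threshold_nonneg r ℓ) ?_
    filter_upwards [eventually_ge_atTop r] with ℓ hℓ
    exact hC ℓ (by omega)

end Pool.Agent.Results.MP_d47e08_pr.KikuchiThreshold
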