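import Pool.Agent.NH99.KT_Lip

set_option autoImplicit false
set_option linter.unusedSectionVars false
set_option linter.unusedSimpArgs false

open MeasureTheory ProbabilityTheory Finset Matrix
open scoped RealInnerProductSpace ENNReal NNReal Topology

namespace Pool.Agent.NH99.KT

theorem lmax_nonneg (n r ℓ : ℕ) (hr : 0 < r) (lam : ℝ) (Z : Finset (Fin n) → ℝ) :
    0 ≤ lmax (kik n r ℓ lam Z) := by
  rcases isEmpty_or_nonempty (VV n ℓ) with hV | hV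
  · rw [lmax_empty]
  · obtain ⟨I⟩ := hV
    have h := ray_le_lmax (kik n r ℓ lam Z) (Pi.single I 1) (by simp)
    refine le_trans (le_of_eq ?_) h
    simp [kik, hr.ne]

theorem lint_transfer (n : ℕ) (F : (Finset (Fin n) → ℝ) → ℝ) (hF : Continuous F) :
    ∫⁻ Z, ENNReal.ofReal (F Z) ∂(gam (Finset (Fin n))) =
      ∫⁻ z, ENNReal.ofReal (F z.ofLp) ∂(stdGaussian (EuclideanSpace ℝ (Finset (Fin n)))) := by
  rw [← map_pi_eq_stdGaussian, lintegral_map]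
  · apply Measurable.ennreal_ofReal
    exact (hF.comp (PiLp.continuous_ofLp 2 _)).measurable
  · fun_prop

theorem inner_shf (n : ℕ) (lam : ℝ) (x y : Fin n → ℤˣ) :
    ⟪(WithLp.toLp 2 (shf 2 lam x) : EuclideanSpace ℝ (Finset (Fin n))),
      WithLp.toLp 2 (shf 2 lam y)⟫ ≤
      lam ^ 2 * (∑ i, ((((x * y) i : ℤˣ) : ℤ) : ℝ)) ^ 2 / 2 := by
  have h1 : ⟪(WithLp.toLp 2 (shf 2 lam x) : EuclideanSpace ℝ (Finset (Fin n))),
      WithLp.toLp 2 (shf 2 lam y)⟫ = ∑ s : Finset (Fin n), shf 2 lam x s * shf 2 lam y s := by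
    simp [PiLp.inner_apply, mul_comm]
  rw [h1]
  have h2 : ∀ s : Finset (Fin n), shf 2 lam x s * shf 2 lam y s =
      if s.card = 2 then lam ^ 2 * chi (x * y) s else 0 := by
    intro s
    unfold shf
    split_ifs
    · rw [chi_mul]; ring
    · ring
  simp_rw [h2]
  rw [← Finset.sum_filter, ← Finset.mul_sum]
  have h3 : (Finset.univ.filter fun s : Finset (Fin n) => s.card = 2) =
      (Finset.univ : Finset (Fin n)).powersetCard 2 := by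
    ext s
    simp [Finset.mem_powersetCard]
  rw [h3]
  have h4 := e2_le (fun i => ((((x * y) i : ℤˣ) : ℤ) : ℝ)) (Finset.univ : Finset (Fin n))
  unfold chi
  nlinarith [sq_nonneg lam, mul_le_mul_of_nonneg_left h4 (sq_nonneg lam)]

theorem avg_le (n : ℕ) (lam : ℝ) :
    ((Fintype.card (Fin n → ℤˣ) : ℝ)⁻¹) ^ 2 * ∑ x : Fin n → ℤˣ, ∑ y : Fin n → ℤˣ,
      Real.exp ⟪(WithLp.toLp 2 (shf 2 lam x) : EuclideanSpace ℝ (Finset (Fin n))),
      WithLp.toLp 2 (shf 2 lam y)⟫ ≤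
    (2 ^ n : ℝ)⁻¹ * ∑ y : Fin n → ℤˣ,
      Real.exp (lam ^ 2 * (∑ i, (((y i : ℤˣ) : ℤ) : ℝ)) ^ 2 / 2) := by
  have hcard : (Fintype.card (Fin n → ℤˣ) : ℝ) = 2 ^ n := by
    rw [Fintype.card_fun, Fintype.card_fin]
    simp
  have h1 : ∑ x : Fin n → ℤˣ, ∑ y : Fin n → ℤˣ,
      Real.exp ⟪(WithLp.toLp 2 (shf 2 lam x) : EuclideanSpace ℝ (Finset (Fin n))),
      WithLp.toLp 2 (shf 2 lam y)⟫ ≤ ∑ x : Fin n → ℤˣ, ∑ y : Fin n → ℤˣ,
      Real.exp (lam ^ 2 * (∑ i, (((y i : ℤˣ) : ℤ) : ℝ)) ^ 2 / 2) := by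
    refine Finset.sum_le_sum fun x _ => ?_
    refine (Finset.sum_le_sum fun y _ => Real.exp_le_exp.2 (inner_shf n lam x y)).trans
      (le_of_eq ?_)
    exact Fintype.sum_equiv (Equiv.mulLeft x) _ _ fun y => rfl
  rw [Finset.sum_const, nsmul_eq_mul, Finset.card_univ] at h1
  rw [hcard] at h1 ⊢
  calc _ ≤ ((2 ^ n : ℝ)⁻¹) ^ 2 * (2 ^ n * ∑ y : Fin n → ℤˣ,
        Real.exp (lam ^ 2 * (∑ i, (((y i : ℤˣ) : ℤ) : ℝ)) ^ 2 / 2)) :=
        mul_le_mul_of_nonneg_left h1 (by positivity)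
    _ = _ := by
        have : (2 ^ n : ℝ) ≠ 0 := by positivity
        field_simp

theorem two_bound (ℓ : ℕ) (μ : ℝ) (hμ0 : 0 ≤ μ) (hμ : μ < 1) : ∃ C : ℝ, 0 ≤ C ∧
    ∀ (n : ℕ) (lam : ℝ), lam ^ 2 * n ≤ μ ^ 2 → El n 2 ℓ lam ≤ El n 2 ℓ 0 + C := by
  obtain ⟨C, hC0, hC⟩ := exp_bound μ hμ0 hμ
  refine ⟨C + 16 * (2 * (ℓ : ℝ)) ^ 2, by positivity, ?_⟩
  intro n lam hlam
  have hcmp := compare (fun x : Fin n → ℤˣ =>
      (WithLp.toLp 2 (shf 2 lam x) : EuclideanSpace ℝ (Finset (Fin n))))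
    (fun z => lmax (kik n 2 ℓ 0 z.ofLp)) (fun z => lmax_nonneg n 2 ℓ (by norm_num) 0 _)
    (2 * ℓ : ℝ≥0) (lip n ℓ)
    (∫⁻ Z, ENNReal.ofReal (lmax (kik n 2 ℓ lam Z)) ∂(gam (Finset (Fin n)))) (by
      intro x
      refine (shift_le 2 ℓ lam x).trans (le_of_eq ?_)
      rw [lint_transfer n (fun Z => lmax (kik n 2 ℓ 0 fun s => Z s + shf 2 lam x s))
        ((lmax_kik_cont n 2 ℓ 0).comp (by fun_prop))]
      rfl)
  have hE : ∀ lam : ℝ, ∫⁻ Z, ENNReal.ofReal (lmax (kik n 2 ℓ lam Z)) ∂(gam (Finset (Fin n))) =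
      ENNReal.ofReal (El n 2 ℓ lam) := by
    intro lam
    unfold El
    rw [ofReal_integral_eq_lintegral_ofReal (lmax_kik_int n 2 ℓ lam)
      (Filter.Eventually.of_forall fun Z => lmax_nonneg n 2 ℓ (by norm_num) lam Z)]
  have hEn : ∀ lam : ℝ, 0 ≤ El n 2 ℓ lam := fun lam =>
    integral_nonneg fun Z => lmax_nonneg n 2 ℓ (by norm_num) lam Z
  rw [← lint_transfer n (fun Z => lmax (kik n 2 ℓ 0 Z)) (lmax_kik_cont n 2 ℓ 0), hE, hE] at hcmp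
  have havg := (avg_le n lam).trans (hC n lam hlam)
  have h1 : ENNReal.ofReal (El n 2 ℓ lam) ≤ ENNReal.ofReal (El n 2 ℓ 0 + (C +
      16 * (2 * (ℓ : ℝ)) ^ 2)) := by
    refine hcmp.trans ?_
    rw [ENNReal.ofReal_add (hEn 0) (by positivity), ENNReal.ofReal_add hC0 (by positivity),
      add_assoc]
    gcongr
    · push_cast
      exact le_refl _
  exact (ENNReal.ofReal_le_ofReal_iff (by have := hEn 0; positivity)).1 h1

end Pool.Agent.NH99.KT
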