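import Pool.Agent.NH99.KT_Lmax

set_option autoImplicit false
set_option linter.unusedSectionVars false
set_option linter.unusedSimpArgs false

open MeasureTheory ProbabilityTheory Finset Matrix

namespace Pool.Agent.NH99.KT

theorem lmax_kik_nonneg (n r ℓ : ℕ) (hr : 0 < r) (Z : Finset (Fin n) → ℝ) :
    0 ≤ lmax (kik n r ℓ 0 Z) := by
  rcases isEmpty_or_nonempty (VV n ℓ) with hV | hV
  · rw [lmax_empty]
  · obtain ⟨I⟩ := hV
    have h := ray_le_lmax (kik n r ℓ 0 Z) (Pi.single I 1) (by simp)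
    refine le_trans (le_of_eq ?_) h
    simp [kik, hr.ne]

theorem El_le_of (n ℓ h k : ℕ) (hℓ : 1 ≤ ℓ) (hh : 1 ≤ h) (hn : ℓ ≤ n) (κ α β c : ℝ)
    (hκ : ∀ X : ℕ, 1 + (X : ℝ) / ℓ ≤ κ ^ X) (hκ1 : 1 ≤ κ) (hα : 0 < α) (hβ : 0 < β) (hc : 0 < c)
    (hα2 : (ℓ.choose h : ℝ) * (n + (2 * h * 2 ^ (k + 1) : ℕ) * κ ^ (2 * 2 ^ (k + 1))) ^ h ≤ α ^ 2)
    (hβ2 : (ℓ : ℝ) / h ≤ β ^ 2)
    (hcc : (n : ℝ) ^ ℓ * (2 * α * β) ^ (2 ^ (k + 1)) ≤ c ^ (2 ^ (k + 1))) :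
    El n (2 * h) ℓ 0 ≤ 2 * c := by
  have hne : Nonempty (VV n ℓ) := by
    obtain ⟨K, hK, hK2⟩ := Finset.exists_subset_card_eq (s := (Finset.univ : Finset (Fin n)))
      (n := ℓ) (by simpa using hn)
    exact ⟨⟨K, hK2⟩⟩
  unfold El
  have hti := trace_integrable (adj n ℓ h) (lab n ℓ) (2 ^ (k + 1))
  have h1 : ∫ Z, lmax (kik n (2 * h) ℓ 0 Z) ∂(Measure.pi fun _ : Finset (Fin n) => gaussianReal 0 1) ≤
      ∫ Z, (c + c * ((MM (adj n ℓ h) (lab n ℓ) Z ^ (2 ^ (k + 1))).trace / c ^ (2 ^ (k + 1))))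
        ∂(gam (Finset (Fin n))) := by
    refine integral_mono (lmax_kik_int n (2 * h) ℓ 0) ?_ fun Z => ?_
    · exact (integrable_const c).add ((hti.div_const _).const_mul c)
    · have h2 := lmax_trace (kik n (2 * h) ℓ 0 Z) (kik_symm n (2 * h) ℓ 0 Z) k c hc
      rw [kik_eq_MM] at h2
      simpa [kik_eq_MM] using h2
  refine h1.trans ?_
  rw [integral_add (integrable_const c) ((hti.div_const _).const_mul c), integral_const_mul,
    integral_div, trace_integral]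
  have h3 : ∑ I : VV n ℓ, TT (adj n ℓ h) (lab n ℓ) (2 ^ (k + 1)) I I 0 ≤
      (n : ℝ) ^ ℓ * (2 * α * β) ^ (2 ^ (k + 1)) := by
    have h4 : ∀ I : VV n ℓ, TT (adj n ℓ h) (lab n ℓ) (2 ^ (k + 1)) I I 0 ≤
        (2 * α * β) ^ (2 ^ (k + 1)) := by
      intro I
      have h5 := TT_bound n ℓ h (2 ^ (k + 1)) hℓ hh κ α β hκ hκ1 hα hβ hα2 hβ2 (2 ^ (k + 1)) I I 0
        (fun s hs => absurd rfl hs) (by simp)
      have h6 : ex I.1 (0 : Finset (Fin n) → ℕ) = 0 := by simp [ex, dg]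
      rw [h6] at h5
      simpa using h5
    refine (Finset.sum_le_sum fun I _ => h4 I).trans ?_
    rw [Finset.sum_const, nsmul_eq_mul]
    refine mul_le_mul_of_nonneg_right ?_ (by positivity)
    have h7 : (Finset.univ : Finset (VV n ℓ)).card = n.choose ℓ := by
      rw [Finset.card_univ, Fintype.card_finset_len, Fintype.card_fin]
    rw [h7]
    exact_mod_cast Nat.choose_le_pow n ℓ
  have h8 : (∑ I : VV n ℓ, TT (adj n ℓ h) (lab n ℓ) (2 ^ (k + 1)) I I 0) / c ^ (2 ^ (k + 1)) ≤ 1 := by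
    rw [div_le_one (by positivity)]
    exact h3.trans hcc
  have h9 : ∫ _ : Finset (Fin n) → ℝ, c ∂(gam (Finset (Fin n))) = c := by simp
  rw [h9]
  nlinarith

theorem exists_pow_near (y : ℝ) (hy : 2 ≤ y) : ∃ k : ℕ, ((2 ^ (k + 1) : ℕ) : ℝ) ≤ y ∧
    y < 2 * ((2 ^ (k + 1) : ℕ) : ℝ) := by
  obtain ⟨k, hk1, hk2⟩ := exists_nat_pow_near (x := y / 2) (y := (2 : ℝ)) (by linarith) (by norm_num)
  refine ⟨k, ?_, ?_⟩
  · push_cast
    rw [pow_succ]; linarith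
  · push_cast
    linarith

theorem El_le (ℓ h : ℕ) (hh : 1 ≤ h) (hℓ : h ≤ ℓ) : ∀ᶠ n : ℕ in Filter.atTop,
    El n (2 * h) ℓ 0 ≤ 4 * Real.exp 8 *
      (√((ℓ.choose h : ℝ) * (2 * n) ^ h) * √((ℓ : ℝ) / h)) := by
  have hℓ1 : 1 ≤ ℓ := hh.trans hℓ
  have hℓ0 : (0 : ℝ) < ℓ := by exact_mod_cast hℓ1
  have hh0 : (0 : ℝ) < h := by exact_mod_cast hh
  have hlog : Filter.Tendsto (fun n : ℕ => Real.log n) Filter.atTop Filter.atTop :=
    Real.tendsto_log_atTop.comp tendsto_natCast_atTop_atTop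
  have e1 : ∀ᶠ n : ℕ in Filter.atTop, 2 ≤ (ℓ : ℝ) / 4 * Real.log n :=
    (hlog.const_mul_atTop (by positivity)).eventually_ge_atTop 2
  have e2 : ∀ᶠ n : ℕ in Filter.atTop, 2 * (h : ℝ) * ((ℓ : ℝ) / 4 * Real.log n) ≤ √(n : ℝ) := by
    have h1 : (fun x : ℝ => Real.log x) =o[Filter.atTop] fun x => x ^ ((1 : ℝ) / 2) :=
      isLittleO_log_rpow_atTop (by norm_num)
    have h2 := h1.comp_tendsto (tendsto_natCast_atTop_atTop (R := ℝ))
    have h3 := h2.def (c := (2 * (h : ℝ) * ((ℓ : ℝ) / 4))⁻¹) (by positivity)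
    filter_upwards [h3, Filter.eventually_ge_atTop 1] with n hn hn1
    have hn1' : (1 : ℝ) ≤ n := by exact_mod_cast hn1
    simp only [Function.comp_apply, Real.norm_eq_abs] at hn
    rw [abs_of_nonneg (Real.log_nonneg hn1'), ← Real.sqrt_eq_rpow,
      abs_of_nonneg (Real.sqrt_nonneg _)] at hn
    calc 2 * (h : ℝ) * ((ℓ : ℝ) / 4 * Real.log n) = (2 * (h : ℝ) * ((ℓ : ℝ) / 4)) * Real.log n := by
          ring
      _ ≤ (2 * (h : ℝ) * ((ℓ : ℝ) / 4)) * ((2 * (h : ℝ) * ((ℓ : ℝ) / 4))⁻¹ * √(n : ℝ)) :=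
          mul_le_mul_of_nonneg_left hn (by positivity)
      _ = √(n : ℝ) := by field_simp
  filter_upwards [e1, e2, Filter.eventually_ge_atTop (max ℓ 1)] with n h1 h2 hn
  have hnℓ : ℓ ≤ n := (le_max_left _ _).trans hn
  have hn1 : 1 ≤ n := (le_max_right _ _).trans hn
  have hn0 : (0 : ℝ) < n := by exact_mod_cast hn1
  obtain ⟨k, hk1, hk2⟩ := exists_pow_near _ h1
  obtain ⟨N, hN⟩ : ∃ N : ℕ, N = 2 ^ (k + 1) := ⟨_, rfl⟩
  rw [← hN] at hk1 hk2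
  obtain ⟨α, hα⟩ : ∃ α, α = √((ℓ.choose h : ℝ) * (2 * n) ^ h) := ⟨_, rfl⟩
  obtain ⟨β, hβ⟩ : ∃ β, β = √((ℓ : ℝ) / h) := ⟨_, rfl⟩
  rw [← hα, ← hβ]
  have hch : (0 : ℝ) < ℓ.choose h := by exact_mod_cast Nat.choose_pos hℓ
  have hα0 : 0 < α := by rw [hα]; positivity
  have hβ0 : 0 < β := by rw [hβ]; positivity
  have hα2 : α ^ 2 = (ℓ.choose h : ℝ) * (2 * n) ^ h := by
    rw [hα, Real.sq_sqrt (by positivity)]
  have hβ2 : β ^ 2 = (ℓ : ℝ) / h := by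
    rw [hβ, Real.sq_sqrt (by positivity)]
  have hexp : ∀ j : ℕ, Real.exp (1 / ℓ) ^ j = Real.exp ((j : ℝ) / ℓ) := by
    intro j
    rw [← Real.exp_nat_mul]
    congr 1
    ring
  have main := El_le_of n ℓ h k hℓ1 hh hnℓ (Real.exp (1 / ℓ)) α β (Real.exp 8 * (2 * α * β))
    (fun X => by
      rw [hexp]
      have := Real.add_one_le_exp ((X : ℝ) / ℓ)
      linarith)
    (Real.one_le_exp (by positivity)) hα0 hβ0 (by positivity) ?_ (le_of_eq hβ2.symm) ?_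
  · refine main.trans (le_of_eq ?_)
    ring
  · rw [hα2, ← hN, hexp]
    refine mul_le_mul_of_nonneg_left (pow_le_pow_left₀ (by positivity) ?_ h) hch.le
    have h3 : Real.exp (((2 * N : ℕ) : ℝ) / ℓ) ≤ √(n : ℝ) := by
      have h4 : ((2 * N : ℕ) : ℝ) / ℓ ≤ Real.log n / 2 := by
        rw [div_le_iff₀ hℓ0]
        push_cast
        nlinarith
      calc Real.exp (((2 * N : ℕ) : ℝ) / ℓ) ≤ Real.exp (Real.log n / 2) := Real.exp_le_exp.2 h4
        _ = √(n : ℝ) := by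
          rw [Real.sqrt_eq_rpow, Real.rpow_def_of_pos hn0]
          congr 1
          ring
    have h5 : ((2 * h * N : ℕ) : ℝ) ≤ √(n : ℝ) := by
      push_cast
      refine le_trans ?_ h2
      exact mul_le_mul_of_nonneg_left hk1 (by positivity)
    have h6 : ((2 * h * N : ℕ) : ℝ) * Real.exp (((2 * N : ℕ) : ℝ) / ℓ) ≤ √(n : ℝ) * √(n : ℝ) :=
      mul_le_mul h5 h3 (Real.exp_pos _).le (Real.sqrt_nonneg _)
    rw [Real.mul_self_sqrt hn0.le] at h6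
    linarith
  · rw [← hN, mul_pow (Real.exp 8), ← Real.exp_nat_mul]
    refine mul_le_mul_of_nonneg_right ?_ (by positivity)
    have h7 : (n : ℝ) ^ ℓ = Real.exp (ℓ * Real.log n) := by
      rw [Real.exp_nat_mul, Real.exp_log hn0]
    rw [h7]
    refine Real.exp_le_exp.2 ?_
    linarith

end Pool.Agent.NH99.KT
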