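import Mathlib

/-!
Vertex-critical graphs: the core of a clique.  `G` is not `(p+1)`-colourable but becomes so after
the deletion of any vertex.  For a clique `t 0, …, t p` all colourings of the graphs `G - x` are
normalised so that `t i` has colour `i`; the core consists of the vertices which have the same
colour in all of them.
-/

namespace Pool.Agent.NH99.VC

open Finset

open scoped Classical

variable {V : Type*} [Fintype V] (G : SimpleGraph V)

/-- The number of neighbours of `v` in `W`. -/
noncomputable def dg (W : Finset V) (v : V) : ℕ := (W.filter (fun u => G.Adj v u)).card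

variable {G}

/-- A family of normalised colourings. -/
structure Norm (G : SimpleGraph V) (p : ℕ) (t : Fin (p + 1) → V) where
  ψ : V → V → Fin (p + 1)
  proper : ∀ x, (∀ i, x ≠ t i) → ∀ u v, u ≠ x → v ≠ x → G.Adj u v → ψ x u ≠ ψ x v
  norm : ∀ x, (∀ i, x ≠ t i) → ∀ i, ψ x (t i) = i
  nb : V → Fin (p + 1) → V
  nb_adj : ∀ x, (∀ i, x ≠ t i) → ∀ i, G.Adj x (nb x i)
  nb_col : ∀ x, (∀ i, x ≠ t i) → ∀ i, ψ x (nb x i) = i

theorem exists_norm (p : ℕ) (t : Fin (p + 1) → V) (ht : ∀ i j, i ≠ j → G.Adj (t i) (t j))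
    (hnot : ¬ G.Colorable (p + 1)) (hcol : ∀ x, (G.induce {x}ᶜ).Colorable (p + 1)) :
    Nonempty (Norm G p t) := by
  have key : ∀ x : V, (∀ i, x ≠ t i) → ∃ f : V → Fin (p + 1),
      (∀ u v, u ≠ x → v ≠ x → G.Adj u v → f u ≠ f v) ∧ (∀ i, f (t i) = i) ∧
      ∀ i, ∃ y, G.Adj x y ∧ f y = i := by
    intro x hx
    obtain ⟨c⟩ := hcol x
    let c' : V → Fin (p + 1) := fun u => if h : u ≠ x then c ⟨u, by simpa using h⟩ else 0
    have hc' : ∀ u v, u ≠ x → v ≠ x → G.Adj u v → c' u ≠ c' v := by
      intro u v hu hv huv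
      simp only [c', dif_pos hu, dif_pos hv]
      exact c.valid (by simpa using huv)
    have hinj : Function.Injective (fun i => c' (t i)) := by
      intro i j hij
      by_contra hne
      exact hc' (t i) (t j) (hx i).symm (hx j).symm (ht i j hne) hij
    let σ : Fin (p + 1) ≃ Fin (p + 1) :=
      Equiv.ofBijective _ (Finite.injective_iff_bijective.1 hinj)
    have hσ : ∀ i, σ i = c' (t i) := fun i => rfl
    refine ⟨fun u => σ.symm (c' u), ?_, ?_, ?_⟩
    · intro u v hu hv huv h
      exact hc' u v hu hv huv (σ.symm.injective h)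
    · intro i
      show σ.symm (c' (t i)) = i
      rw [← hσ, Equiv.symm_apply_apply]
    · intro i
      by_contra hno
      push Not at hno
      apply hnot
      refine ⟨SimpleGraph.Coloring.mk (fun u => if u = x then i else σ.symm (c' u)) ?_⟩
      intro u v huv
      by_cases hu : u = x
      · subst hu
        have hv : v ≠ u := huv.ne'
        simp only [if_true, if_neg hv]
        exact (hno v huv).symm
      · by_cases hv : v = x
        · subst hv
          simp only [if_true, if_neg hu]
          exact hno u huv.symm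
        · simp only [if_neg hu, if_neg hv]
          intro h
          exact hc' u v hu hv huv (σ.symm.injective h)
  choose! f hf using key
  have key2 : ∀ x : V, (∀ i, x ≠ t i) → ∀ i, ∃ y, G.Adj x y ∧ f x y = i :=
    fun x hx => (hf x hx).2.2
  choose! nb hnb using key2
  exact ⟨⟨f, fun x hx => (hf x hx).1, fun x hx => (hf x hx).2.1, nb,
    fun x hx i => (hnb x hx i).1, fun x hx i => (hnb x hx i).2⟩⟩

variable {p : ℕ} {t : Fin (p + 1) → V}

namespace Norm

variable (N : Norm G p t)

/-- The colour class `i` of the core. -/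
noncomputable def K (i : Fin (p + 1)) : Finset V :=
  univ.filter (fun u => ∀ x, (∀ j, x ≠ t j) → x ≠ u → N.ψ x u = i)

lemma mem_K {i : Fin (p + 1)} {u : V} :
    u ∈ N.K i ↔ ∀ x, (∀ j, x ≠ t j) → x ≠ u → N.ψ x u = i := by
  simp [K]

lemma t_mem_K (i : Fin (p + 1)) : t i ∈ N.K i := by
  rw [mem_K]
  intro x hx _
  exact N.norm x hx i

/-- There is a vertex off the clique and off a small set. -/
lemma exists_off (t : Fin (p + 1) → V) (B : Finset V) (hB : p + 1 + B.card < Fintype.card V) :
    ∃ x, (∀ j, x ≠ t j) ∧ x ∉ B := by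
  have h : ((univ.image t) ∪ B).card < (univ : Finset V).card := by
    refine lt_of_le_of_lt (card_union_le _ _) ?_
    have : (univ.image t).card ≤ p + 1 := by
      simpa using (card_image_le : (univ.image t).card ≤ (univ : Finset (Fin (p + 1))).card)
    rw [card_univ]
    omega
  obtain ⟨x, -, hx⟩ := exists_mem_notMem_of_card_lt_card h
  refine ⟨x, fun j hj => hx ?_, fun hxB => hx (mem_union_right _ hxB)⟩
  exact mem_union_left _ (mem_image.2 ⟨j, mem_univ _, hj.symm⟩)

variable (hn : 2 * (p + 1) + 2 ≤ Fintype.card V)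
include hn

lemma K_disj {i j : Fin (p + 1)} {u : V} (hi : u ∈ N.K i) (hj : u ∈ N.K j) : i = j := by
  obtain ⟨x, hx, hxu⟩ := exists_off t {u} (by rw [card_singleton]; omega)
  rw [mem_singleton] at hxu
  rw [← N.mem_K.1 hi x hx hxu, ← N.mem_K.1 hj x hx hxu]

lemma K_indep {i : Fin (p + 1)} {u v : V} (hu : u ∈ N.K i) (hv : v ∈ N.K i) : ¬ G.Adj u v := by
  intro h
  obtain ⟨x, hx, hxu⟩ := exists_off t {u, v} (by
    have := card_le_two (a := u) (b := v)
    omega)
  simp only [mem_insert, mem_singleton, not_or] at hxu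
  refine N.proper x hx u v (Ne.symm hxu.1) (Ne.symm hxu.2) h ?_
  rw [N.mem_K.1 hu x hx hxu.1, N.mem_K.1 hv x hx hxu.2]

omit hn in
/-- The special neighbour of `v` sees no other vertex of the class of `v`. -/
lemma nb_not_adj {i : Fin (p + 1)} {v w : V} (hv : ∀ j, v ≠ t j) (hw : w ∈ N.K i)
    (hvw : v ≠ w) : ¬ G.Adj (N.nb v i) w := by
  intro h
  refine N.proper v hv (N.nb v i) w (N.nb_adj v hv i).ne' hvw.symm h ?_
  rw [N.nb_col v hv i, N.mem_K.1 hw v hv hvw]

lemma nb_notMem {i j : Fin (p + 1)} {v : V} (hv : ∀ j, v ≠ t j) (hvK : v ∈ N.K i) :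
    N.nb v i ∉ N.K j := by
  intro h
  have h1 := N.mem_K.1 h v hv (N.nb_adj v hv i).ne
  rw [N.nb_col v hv i] at h1
  subst h1
  exact N.K_indep hn hvK h (N.nb_adj v hv i)

/-- The colours `i` for which `x` is the special neighbour of a core vertex of colour `i`. -/
noncomputable def I (x : V) : Finset (Fin (p + 1)) :=
  univ.filter (fun i => ∃ v, v ∈ N.K i ∧ (∀ j, v ≠ t j) ∧ N.nb v i = x)

/-- The neighbours of `x` in the clique. -/
noncomputable def J (_ : Norm G p t) (x : V) : Finset (Fin (p + 1)) :=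
  univ.filter (fun j => G.Adj x (t j))

lemma IJ_card (x : V) : (N.I x).card + (N.J x).card ≤ p := by
  have hdisj : Disjoint (N.I x) (N.J x) := by
    rw [Finset.disjoint_left]
    intro i hi hj
    simp only [I, J, mem_filter, mem_univ, true_and] at hi hj
    obtain ⟨v, hv, hvt, rfl⟩ := hi
    exact N.nb_not_adj hvt (N.t_mem_K i) (hvt i) hj
  rw [← card_union_of_disjoint hdisj]
  by_contra hlt
  have hU : N.I x ∪ N.J x = univ := by
    apply eq_univ_of_card
    rw [Fintype.card_fin]
    apply le_antisymm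
    · simpa using card_le_univ (N.I x ∪ N.J x)
    · omega
  have hch : ∀ i, ∃ v, i ∈ N.I x → (v ∈ N.K i ∧ (∀ j, v ≠ t j) ∧ N.nb v i = x) := by
    intro i
    by_cases hi : i ∈ N.I x
    · obtain ⟨v, hv⟩ := (mem_filter.1 hi).2
      exact ⟨v, fun _ => hv⟩
    · exact ⟨x, fun h => absurd h hi⟩
  choose w hw using hch
  obtain ⟨u, hu, huB⟩ := exists_off t (insert x (univ.image w)) (by
    have h1 := card_insert_le x (univ.image w)
    have h2 : (univ.image w).card ≤ p + 1 := by
      simpa using (card_image_le : (univ.image w).card ≤ (univ : Finset (Fin (p + 1))).card)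
    omega)
  simp only [mem_insert, mem_image, mem_univ, true_and, not_or, not_exists] at huB
  have hcase : N.ψ u x ∈ N.I x ∪ N.J x := by rw [hU]; exact mem_univ _
  rw [mem_union] at hcase
  rcases hcase with h | h
  · obtain ⟨h1, h2, h3⟩ := hw _ h
    have h4 : G.Adj (w (N.ψ u x)) x := by
      have := N.nb_adj _ h2 (N.ψ u x)
      rwa [h3] at this
    refine N.proper u hu _ _ (fun e => huB.2 _ e) (Ne.symm huB.1) h4 ?_
    exact N.mem_K.1 h1 u hu (fun e => huB.2 _ e.symm)
  · have h4 : G.Adj x (t (N.ψ u x)) := (mem_filter.1 h).2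
    exact N.proper u hu _ _ (Ne.symm huB.1) (hu _).symm h4 (N.norm u hu _).symm

lemma J_card_core {i : Fin (p + 1)} {y : V} (hy : y ∈ N.K i) : (N.J y).card ≤ p := by
  have h : N.J y ⊆ univ.erase i := by
    intro j hj
    rw [mem_erase]
    refine ⟨fun hji => ?_, mem_univ _⟩
    subst hji
    exact N.K_indep hn hy (N.t_mem_K j) (mem_filter.1 hj).2
  refine (card_le_card h).trans ?_
  simp

omit hn in
lemma J_card_off {y : V} (hp : 1 ≤ p) (hy : ∀ i, y ∉ N.K i) : (N.J y).card ≤ p - 1 := by
  by_contra hlt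
  have h1 : (univ \ N.J y).card ≤ 1 := by
    have := card_sdiff_add_card_inter (univ : Finset (Fin (p + 1))) (N.J y)
    rw [univ_inter] at this
    simp only [card_univ, Fintype.card_fin] at this
    omega
  have h2 : ∃ i : Fin (p + 1), ∀ j, j ≠ i → j ∈ N.J y := by
    rcases (univ \ N.J y).eq_empty_or_nonempty with h | ⟨i, hi⟩
    · refine ⟨0, fun j _ => ?_⟩
      by_contra hj
      have : j ∈ univ \ N.J y := by simp [hj]
      rw [h] at this
      simp at this
    · refine ⟨i, fun j hji => ?_⟩
      by_contra hj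
      have h3 : j ∈ univ \ N.J y := by simp [hj]
      exact hji (card_le_one.1 h1 j h3 i hi)
  obtain ⟨i, hi⟩ := h2
  apply hy i
  rw [mem_K]
  intro x hx hxy
  by_contra hne
  have h3 := (mem_filter.1 (hi _ hne)).2
  exact N.proper x hx _ _ (Ne.symm hxy) (hx _).symm h3 (N.norm x hx _).symm

/-- Few core vertices have their special neighbour in the part anchored by `S`. -/
lemma anchored_card (S : Finset V) (i : Fin (p + 1)) :
    ((N.K i).filter (fun v => (∀ j, v ≠ t j) ∧ v ∉ S ∧
      ∃ a : Fin p → V, (∀ j, a j ∈ S) ∧ (∀ j, G.Adj (N.nb v i) (a j)) ∧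
        ∀ j j', j ≠ j' → G.Adj (a j) (a j'))).card ≤ (p + 1) ^ S.card := by
  have hinj : Set.InjOn (fun v => fun s : S => N.ψ v s)
      ((N.K i).filter (fun v => (∀ j, v ≠ t j) ∧ v ∉ S ∧
      ∃ a : Fin p → V, (∀ j, a j ∈ S) ∧ (∀ j, G.Adj (N.nb v i) (a j)) ∧
        ∀ j j', j ≠ j' → G.Adj (a j) (a j')) : Finset V) := by
    intro v hv w hw hvw
    simp only [coe_filter, Set.mem_ofPred_eq] at hv hw
    by_contra hne
    obtain ⟨hvK, hvt, hvS, a, haS, hadj, hcl⟩ := hv
    obtain ⟨hwK, hwt, hwS, -⟩ := hw
    have hst : ∀ s ∈ S, N.ψ v s = N.ψ w s := fun s hs => congrFun hvw ⟨s, hs⟩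
    set x := N.nb v i with hx
    have hxw : x ≠ w := by
      intro h
      exact N.nb_notMem hn hvt hvK (j := i) (by rw [← hx, h]; exact hwK)
    have hxv : x ≠ v := (N.nb_adj v hvt i).ne'
    -- the colour of `x` under `ψ w`
    have hcol : N.ψ w x = i := by
      by_contra hc
      -- colours of the `a j`
      have hcinj : Function.Injective (fun j => N.ψ v (a j)) := by
        intro j j' hjj
        by_contra hne'
        refine N.proper v hvt _ _ ?_ ?_ (hcl j j' hne') hjj
        · intro e; exact hvS (e ▸ haS j)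
        · intro e; exact hvS (e ▸ haS j')
      have h1 : ∀ j, N.ψ v (a j) ≠ i := by
        intro j hj
        refine N.proper v hvt x (a j) hxv ?_ (hadj j) ?_
        · intro e; exact hvS (e ▸ haS j)
        · rw [hj]; exact N.nb_col v hvt i
      have h2 : ∀ j, N.ψ v (a j) ≠ N.ψ w x := by
        intro j hj
        refine N.proper w hwt x (a j) hxw ?_ (hadj j) ?_
        · intro e; exact hwS (e ▸ haS j)
        · rw [← hj, hst _ (haS j)]
      have h3 : (univ.image (fun j => N.ψ v (a j))).card = p := by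
        rw [card_image_of_injective _ hcinj, card_univ, Fintype.card_fin]
      have h4 : (univ.image (fun j => N.ψ v (a j))) ⊆ (univ.erase i).erase (N.ψ w x) := by
        intro c hc'
        obtain ⟨j, -, rfl⟩ := mem_image.1 hc'
        exact mem_erase.2 ⟨h2 j, mem_erase.2 ⟨h1 j, mem_univ _⟩⟩
      have h5 := card_le_card h4
      rw [h3, card_erase_of_mem (mem_erase.2 ⟨hc, mem_univ _⟩),
        card_erase_of_mem (mem_univ _), card_univ, Fintype.card_fin] at h5
      have h6 : 1 ≤ p := by
        by_contra hp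
        have hp0 : p = 0 := by omega
        subst hp0
        exact hc (Fin.ext (by omega))
      omega
    refine N.proper w hwt v x (fun e => hne (e ▸ rfl)) hxw (N.nb_adj v hvt i) ?_
    rw [hcol]
    exact N.mem_K.1 hvK w hwt (Ne.symm hne)
  calc _ = (((N.K i).filter (fun v => (∀ j, v ≠ t j) ∧ v ∉ S ∧
      ∃ a : Fin p → V, (∀ j, a j ∈ S) ∧ (∀ j, G.Adj (N.nb v i) (a j)) ∧
        ∀ j j', j ≠ j' → G.Adj (a j) (a j'))).image (fun v => fun s : S => N.ψ v s)).card :=
        (card_image_of_injOn hinj).symm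
    _ ≤ Fintype.card (S → Fin (p + 1)) := card_le_univ _
    _ = _ := by simp

include N in
/-- **The core inequality.** -/
theorem core_ineq (hp : 1 ≤ p) (S U : Finset V)
    (hU : ∀ x, x ∉ U → ∃ a : Fin p → V, (∀ j, a j ∈ S) ∧ (∀ j, G.Adj x (a j)) ∧
        ∀ j j', j ≠ j' → G.Adj (a j) (a j')) :
    2 * (∑ i, dg G U (t i)) + U.card ≤
      (p + 1) * ((p + 1) + S.card + (p + 1) ^ S.card) + 2 * p * U.card := by
  set C : Finset V := U.filter (fun y => ∃ i, y ∈ N.K i) with hC
  set O : Finset V := U.filter (fun y => ¬ ∃ i, y ∈ N.K i) with hO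
  have hCO : C.card + O.card = U.card := card_filter_add_card_filter_not _
  set A : ℕ := ∑ y ∈ O, (N.J y).card with hA
  -- sum of the degrees
  have hdeg : ∑ i, dg G U (t i) = ∑ y ∈ U, (N.J y).card := by
    unfold dg J
    simp_rw [card_filter]
    rw [sum_comm]
    refine sum_congr rfl fun y _ => sum_congr rfl fun i _ => ?_
    simp only [G.adj_comm]
  have hsplit : ∑ y ∈ U, (N.J y).card = ∑ y ∈ C, (N.J y).card + A := by
    rw [hA, hC, hO, sum_filter_add_sum_filter_not]
  have h1 : ∑ y ∈ C, (N.J y).card ≤ p * C.card := by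
    rw [mul_comm, ← smul_eq_mul]
    apply sum_le_card_nsmul
    intro y hy
    obtain ⟨i, hi⟩ := (mem_filter.1 hy).2
    exact N.J_card_core hn hi
  have h2 : A ≤ (p - 1) * O.card := by
    rw [mul_comm, ← smul_eq_mul]
    apply sum_le_card_nsmul
    intro y hy
    have := (mem_filter.1 hy).2
    push Not at this
    exact N.J_card_off hp this
  -- the number of core vertices
  have h3 : C.card + A ≤ (p + 1) * ((p + 1) + S.card + (p + 1) ^ S.card) + p * O.card := by
    have hCsub : C ⊆ univ.biUnion (fun i => (N.K i) ∩ U) := by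
      intro y hy
      obtain ⟨hyU, i, hi⟩ := mem_filter.1 hy
      exact mem_biUnion.2 ⟨i, mem_univ _, mem_inter.2 ⟨hi, hyU⟩⟩
    have hKi : ∀ i, ((N.K i) ∩ U).card ≤ ((p + 1) + S.card + (p + 1) ^ S.card) +
        (O.filter (fun x => i ∈ N.I x)).card := by
      intro i
      set M1 := (N.K i).filter (fun v => (∀ j, v ≠ t j) ∧ v ∉ S ∧
        ∃ a : Fin p → V, (∀ j, a j ∈ S) ∧ (∀ j, G.Adj (N.nb v i) (a j)) ∧
          ∀ j j', j ≠ j' → G.Adj (a j) (a j')) with hM1
      set M2 := (N.K i).filter (fun v => (∀ j, v ≠ t j) ∧ N.nb v i ∈ U) with hM2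
      have hsub : (N.K i) ∩ U ⊆ ((univ.image t ∪ S) ∪ M1) ∪ M2 := by
        intro v hv
        rw [mem_inter] at hv
        by_cases hvt : ∀ j, v ≠ t j
        · by_cases hvS : v ∈ S
          · simp [hvS]
          · by_cases hx : N.nb v i ∈ U
            · apply mem_union_right
              exact mem_filter.2 ⟨hv.1, hvt, hx⟩
            · apply mem_union_left
              apply mem_union_right
              exact mem_filter.2 ⟨hv.1, hvt, hvS, hU _ hx⟩
        · push Not at hvt
          obtain ⟨j, rfl⟩ := hvt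
          apply mem_union_left
          apply mem_union_left
          apply mem_union_left
          exact mem_image.2 ⟨j, mem_univ _, rfl⟩
      have hM2c : M2.card ≤ (O.filter (fun x => i ∈ N.I x)).card := by
        apply card_le_card_of_injOn (fun v => N.nb v i)
        · intro v hv
          rw [mem_coe, mem_filter] at hv
          obtain ⟨hvK, hvt, hvU⟩ := hv
          rw [mem_coe, mem_filter]
          refine ⟨mem_filter.2 ⟨hvU, ?_⟩, mem_filter.2 ⟨mem_univ _, v, hvK, hvt, rfl⟩⟩
          rintro ⟨j, hj⟩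
          exact N.nb_notMem hn hvt hvK hj
        · intro v hv w hw hvw
          rw [mem_coe, mem_filter] at hv hw
          by_contra hne
          refine N.nb_not_adj hv.2.1 hw.1 hne ?_
          have h := N.nb_adj w hw.2.1 i
          simp only at hvw
          rw [← hvw] at h
          exact h.symm
      have hM1c : M1.card ≤ (p + 1) ^ S.card := N.anchored_card hn S i
      have himg : (univ.image t).card ≤ p + 1 := by
        simpa using (card_image_le : (univ.image t).card ≤ (univ : Finset (Fin (p + 1))).card)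
      calc _ ≤ (((univ.image t ∪ S) ∪ M1) ∪ M2).card := card_le_card hsub
        _ ≤ ((univ.image t).card + S.card + M1.card) + M2.card := by
            refine (card_union_le _ _).trans ?_
            have := card_union_le (univ.image t ∪ S) M1
            have := card_union_le (univ.image t) S
            omega
        _ ≤ _ := by omega
    have hsum : ∑ i : Fin (p + 1), (O.filter (fun x => i ∈ N.I x)).card =
        ∑ x ∈ O, (N.I x).card := by
      simp_rw [card_filter]
      rw [sum_comm]
      refine sum_congr rfl fun x _ => ?_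
      rw [← card_filter]
      congr 1
      ext i
      simp
    have hIJ : ∑ x ∈ O, (N.I x).card + A ≤ p * O.card := by
      rw [hA, ← sum_add_distrib, mul_comm, ← smul_eq_mul]
      apply sum_le_card_nsmul
      intro x _
      exact N.IJ_card hn x
    have hCc : C.card ≤ (p + 1) * ((p + 1) + S.card + (p + 1) ^ S.card) +
        ∑ x ∈ O, (N.I x).card := by
      calc C.card ≤ (univ.biUnion (fun i => (N.K i) ∩ U)).card := card_le_card hCsub
        _ ≤ ∑ i : Fin (p + 1), ((N.K i) ∩ U).card := card_biUnion_le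
        _ ≤ ∑ i : Fin (p + 1), (((p + 1) + S.card + (p + 1) ^ S.card) +
              (O.filter (fun x => i ∈ N.I x)).card) := sum_le_sum fun i _ => hKi i
        _ = _ := by
            rw [sum_add_distrib, hsum, sum_const, card_univ, Fintype.card_fin, smul_eq_mul]
    omega
  rw [hdeg, hsplit]
  obtain ⟨q, rfl⟩ : ∃ q, p = q + 1 := ⟨p - 1, by omega⟩
  simp only [Nat.add_sub_cancel] at h2
  nlinarith

end Norm

end Pool.Agent.NH99.VC
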