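import Pool.Agent.NH99.VC_Core

/-!
Counting ordered cliques, deletion of vertices of small degree, and the choice of an anchor set.
-/

namespace Pool.Agent.NH99.VC

open Finset

open scoped Classical

variable {V : Type*} [Fintype V] (G : SimpleGraph V)

/-- The number of ordered adjacent pairs in `W`. -/
noncomputable def pr (W : Finset V) : ℕ := ∑ v ∈ W, dg G W v

omit [Fintype V] in
lemma dg_erase {W : Finset V} {v : V} (hv : v ∈ W) (u : V) :
    dg G W u = dg G (W.erase v) u + (if G.Adj u v then 1 else 0) := by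
  unfold dg
  rw [filter_erase]
  by_cases h : G.Adj u v
  · rw [if_pos h, card_erase_add_one]
    exact mem_filter.2 ⟨hv, h⟩
  · rw [if_neg h, add_zero, erase_eq_of_notMem]
    intro h'
    exact h (mem_filter.1 h').2

lemma pr_erase {W : Finset V} {v : V} (hv : v ∈ W) :
    pr G W = pr G (W.erase v) + 2 * dg G W v := by
  have h1 : pr G W = dg G W v + ∑ u ∈ W.erase v, dg G W u := by
    unfold pr
    rw [← add_sum_erase _ _ hv]
  have h2 : ∑ u ∈ W.erase v, dg G W u = pr G (W.erase v) +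
      ∑ u ∈ W.erase v, (if G.Adj u v then 1 else 0) := by
    unfold pr
    rw [← sum_add_distrib]
    exact sum_congr rfl fun u _ => dg_erase G hv u
  have h3 : ∑ u ∈ W.erase v, (if G.Adj u v then 1 else 0) = dg G W v := by
    rw [← card_filter]
    unfold dg
    congr 1
    ext u
    simp only [mem_filter, mem_erase]
    constructor
    · rintro ⟨⟨_, h⟩, h'⟩
      exact ⟨h, h'.symm⟩
    · rintro ⟨h, h'⟩
      exact ⟨⟨h'.ne', h⟩, h'.symm⟩
  rw [h1, h2, h3]
  ring

omit [Fintype V] in
lemma pr_le (W : Finset V) : pr G W ≤ W.card ^ 2 := by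
  unfold pr
  calc _ ≤ ∑ _v ∈ W, W.card := sum_le_sum fun v _ => card_le_card (filter_subset _ _)
    _ = _ := by rw [sum_const, smul_eq_mul, sq]

lemma exists_core (θ : ℝ) (F U : Finset V) (hFU : F ⊆ U) : ∃ W : Finset V, F ⊆ W ∧ W ⊆ U ∧
    (pr G U : ℝ) - θ * (U.card : ℝ) ^ 2 ≤ (pr G W : ℝ) - θ * (W.card : ℝ) ^ 2 ∧
    ∀ v ∈ W, v ∉ F → θ * W.card - θ / 2 ≤ dg G W v := by
  have hne : (U.powerset.filter (fun W => F ⊆ W)).Nonempty :=
    ⟨U, mem_filter.2 ⟨mem_powerset.2 (Subset.refl _), hFU⟩⟩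
  obtain ⟨W, hW, hmax⟩ := exists_max_image (U.powerset.filter (fun W => F ⊆ W))
    (fun W => (pr G W : ℝ) - θ * (W.card : ℝ) ^ 2) hne
  rw [mem_filter, mem_powerset] at hW
  refine ⟨W, hW.2, hW.1, ?_, ?_⟩
  · exact hmax U (mem_filter.2 ⟨mem_powerset.2 (Subset.refl _), hFU⟩)
  · intro v hv hvF
    have h1 := hmax (W.erase v) (mem_filter.2 ⟨mem_powerset.2 ((erase_subset _ _).trans hW.1),
      fun x hx => mem_erase.2 ⟨fun e => hvF (e ▸ hx), hW.2 hx⟩⟩)
    have h2 : (pr G W : ℝ) = pr G (W.erase v) + 2 * dg G W v := by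
      exact_mod_cast pr_erase G hv
    have h3 : ((W.erase v).card : ℝ) = W.card - 1 := by
      have := card_erase_add_one hv
      rw [← this]
      push_cast
      ring
    rw [h3, h2] at h1
    nlinarith

/-- Ordered cliques in `W`. -/
noncomputable def clq (W : Finset V) (j : ℕ) : Finset (Fin j → V) :=
  univ.filter (fun a => (∀ i, a i ∈ W) ∧ ∀ i i', i ≠ i' → G.Adj (a i) (a i'))

variable {G}

lemma mem_clq {W : Finset V} {j : ℕ} {a : Fin j → V} :
    a ∈ clq G W j ↔ (∀ i, a i ∈ W) ∧ ∀ i i', i ≠ i' → G.Adj (a i) (a i') := by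
  simp [clq]

lemma cons_mem_clq {W : Finset V} {j : ℕ} {a : Fin j → V} {x : V} :
    (Fin.cons x a : Fin (j + 1) → V) ∈ clq G W (j + 1) ↔
      a ∈ clq G W j ∧ x ∈ W ∧ ∀ i, G.Adj x (a i) := by
  rw [mem_clq, mem_clq]
  constructor
  · rintro ⟨h1, h2⟩
    refine ⟨⟨fun i => ?_, fun i i' hi => ?_⟩, ?_, fun i => ?_⟩
    · simpa using h1 i.succ
    · simpa using h2 i.succ i'.succ (fun e => hi (Fin.succ_injective _ e))
    · simpa using h1 0
    · simpa using h2 0 i.succ (Fin.succ_ne_zero i).symm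
  · rintro ⟨⟨h1, h2⟩, h3, h4⟩
    constructor
    · intro i
      refine Fin.cases ?_ (fun i => ?_) i
      · simpa using h3
      · simpa using h1 i
    · intro i i'
      refine Fin.cases ?_ (fun i => ?_) i
      · refine Fin.cases ?_ (fun i' => ?_) i'
        · intro h; exact absurd rfl h
        · intro _; simpa using h4 i'
      · refine Fin.cases ?_ (fun i' => ?_) i'
        · intro _; simpa using (h4 i).symm
        · intro h
          simpa using h2 i i' (fun e => h (by rw [e]))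

lemma clq_succ (W : Finset V) (j : ℕ) (β : ℝ)
    (h : ∀ a ∈ clq G W j, β ≤ ((W.filter (fun v => ∀ i, G.Adj v (a i))).card : ℝ)) :
    β * (clq G W j).card ≤ (clq G W (j + 1)).card := by
  have h1 : ((clq G W j).sigma (fun a => W.filter (fun v => ∀ i, G.Adj v (a i)))).card ≤
      (clq G W (j + 1)).card := by
    apply card_le_card_of_injOn (fun s => (Fin.cons s.2 s.1 : Fin (j + 1) → V))
    · rintro ⟨a, v⟩ hs
      rw [mem_coe, mem_sigma, mem_filter] at hs
      rw [mem_coe]
      exact cons_mem_clq.2 ⟨hs.1, hs.2.1, hs.2.2⟩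
    · rintro ⟨a, v⟩ _ ⟨a', v'⟩ _ heq
      simp only at heq
      have h2 := Fin.cons_injective2 heq
      rw [h2.1, h2.2]
  rw [card_sigma] at h1
  calc β * (clq G W j).card = ∑ _a ∈ clq G W j, β := by
        rw [sum_const, nsmul_eq_mul, mul_comm]
    _ ≤ ∑ a ∈ clq G W j, ((W.filter (fun v => ∀ i, G.Adj v (a i))).card : ℝ) :=
        sum_le_sum h
    _ ≤ _ := by exact_mod_cast h1

lemma ext_card (W : Finset V) (j : ℕ) (δ : ℝ) (hδ : ∀ v ∈ W, (W.card : ℝ) - δ ≤ dg G W v)
    {a : Fin j → V} (ha : a ∈ clq G W j) :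
    (W.card : ℝ) - j * δ ≤ ((W.filter (fun v => ∀ i, G.Adj v (a i))).card : ℝ) := by
  rw [mem_clq] at ha
  have h1 : W ⊆ (W.filter (fun v => ∀ i, G.Adj v (a i))) ∪
      univ.biUnion (fun i => W.filter (fun v => ¬ G.Adj (a i) v)) := by
    intro v hv
    by_cases h : ∀ i, G.Adj v (a i)
    · exact mem_union_left _ (mem_filter.2 ⟨hv, h⟩)
    · push Not at h
      obtain ⟨i, hi⟩ := h
      refine mem_union_right _ (mem_biUnion.2 ⟨i, mem_univ _, mem_filter.2 ⟨hv, ?_⟩⟩)
      exact fun h' => hi h'.symm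
  have h2 : ∀ i, (((W.filter (fun v => ¬ G.Adj (a i) v)).card : ℕ) : ℝ) ≤ δ := by
    intro i
    have h3 := card_filter_add_card_filter_not (s := W) (fun v => G.Adj (a i) v)
    have h4 := hδ (a i) (ha.1 i)
    unfold dg at h4
    have h5 : ((W.filter (fun v => G.Adj (a i) v)).card : ℝ) +
        ((W.filter (fun v => ¬ G.Adj (a i) v)).card : ℝ) = W.card := by exact_mod_cast h3
    linarith
  have h6 : (W.card : ℝ) ≤ ((W.filter (fun v => ∀ i, G.Adj v (a i))).card : ℝ) +
      ∑ i : Fin j, ((W.filter (fun v => ¬ G.Adj (a i) v)).card : ℝ) := by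
    have h7 := card_le_card h1
    have h8 := card_union_le (W.filter (fun v => ∀ i, G.Adj v (a i)))
      (univ.biUnion (fun i => W.filter (fun v => ¬ G.Adj (a i) v)))
    have h9 : (univ.biUnion (fun i => W.filter (fun v => ¬ G.Adj (a i) v))).card ≤
      ∑ i : Fin j, (W.filter (fun v => ¬ G.Adj (a i) v)).card := card_biUnion_le
    exact_mod_cast (by omega : W.card ≤ (W.filter (fun v => ∀ i, G.Adj v (a i))).card +
      ∑ i : Fin j, (W.filter (fun v => ¬ G.Adj (a i) v)).card)
  have h10 : ∑ i : Fin j, ((W.filter (fun v => ¬ G.Adj (a i) v)).card : ℝ) ≤ j * δ := by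
    calc _ ≤ ∑ _i : Fin j, δ := sum_le_sum fun i _ => h2 i
      _ = _ := by rw [sum_const, card_univ, Fintype.card_fin, nsmul_eq_mul]
  linarith

lemma clq_card_ge (W : Finset V) (p : ℕ) (δ β : ℝ) (hδ0 : 0 ≤ δ) (hβ : 0 ≤ β)
    (hδ : ∀ v ∈ W, (W.card : ℝ) - δ ≤ dg G W v) (hβδ : β ≤ W.card - p * δ) :
    ∀ j, j ≤ p + 1 → β ^ j ≤ (clq G W j).card := by
  intro j
  induction j with
  | zero =>
    intro _
    rw [pow_zero]
    have : 0 < (clq G W 0).card := by
      apply card_pos.2
      exact ⟨fun i => i.elim0, mem_clq.2 ⟨fun i => i.elim0, fun i => i.elim0⟩⟩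
    exact_mod_cast this
  | succ j ih =>
    intro hj
    have h1 := ih (by omega)
    have h2 : β * (clq G W j).card ≤ (clq G W (j + 1)).card := by
      apply clq_succ
      intro a ha
      refine le_trans ?_ (ext_card W j δ hδ ha)
      have hjp : (j : ℝ) ≤ p := by exact_mod_cast (by omega : j ≤ p)
      nlinarith
    calc β ^ (j + 1) = β * β ^ j := by ring
      _ ≤ β * (clq G W j).card := mul_le_mul_of_nonneg_left h1 hβ
      _ ≤ _ := h2

lemma bern (a b : ℝ) (ha : 0 ≤ a) (hb : 0 ≤ b) (m : ℕ) :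
    (m + 1) * (a ^ m * b) ≤ (a + b) ^ (m + 1) := by
  induction m with
  | zero => simp; linarith
  | succ m ih =>
    have h1 : a ^ (m + 1) ≤ (a + b) ^ (m + 1) := by
      apply pow_le_pow_left₀ ha; linarith
    calc ((m + 1 : ℕ) + 1 : ℝ) * (a ^ (m + 1) * b)
        = a * ((m + 1) * (a ^ m * b)) + b * a ^ (m + 1) := by push_cast; ring
      _ ≤ a * (a + b) ^ (m + 1) + b * (a + b) ^ (m + 1) :=
          add_le_add (mul_le_mul_of_nonneg_left ih ha) (mul_le_mul_of_nonneg_left h1 hb)
      _ = _ := by ring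

/-- The ordered cliques which extend `x`. -/
noncomputable def At (G : SimpleGraph V) (p : ℕ) (x : V) : Finset (Fin p → V) :=
  univ.filter (fun a => (Fin.cons x a : Fin (p + 1) → V) ∈ clq G univ (p + 1))

/-- The vertices which are not anchored by `g`. -/
noncomputable def Fr (G : SimpleGraph V) (p m : ℕ) (g : Fin m → (Fin p → V)) : Finset V :=
  univ.filter (fun x => ∀ j, g j ∉ At G p x)

lemma exists_anchor (G : SimpleGraph V) (p m : ℕ) [Nonempty V] : ∃ g : Fin m → (Fin p → V),
    ((m : ℝ) + 1) * ∑ x ∈ Fr G p m g, ((At G p x).card : ℝ) ≤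
      (Fintype.card V : ℝ) ^ (p + 1) := by
  set N : ℝ := (Fintype.card V : ℝ) ^ p with hN
  have hNc : (Fintype.card (Fin p → V) : ℝ) = N := by simp [hN]
  have hsum : ∑ g : Fin m → (Fin p → V), ((m : ℝ) + 1) * ∑ x ∈ Fr G p m g,
      ((At G p x).card : ℝ) ≤ ∑ _g : Fin m → (Fin p → V), (Fintype.card V : ℝ) ^ (p + 1) := by
    have h1 : ∀ g : Fin m → (Fin p → V), ((m : ℝ) + 1) * ∑ x ∈ Fr G p m g,
        ((At G p x).card : ℝ) = ∑ x : V, ((m : ℝ) + 1) * ((At G p x).card : ℝ) *
          (if ∀ j, g j ∉ At G p x then 1 else 0) := by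
      intro g
      unfold Fr
      rw [sum_filter, mul_sum]
      refine sum_congr rfl fun x _ => ?_
      split_ifs <;> ring
    simp_rw [h1]
    rw [sum_comm]
    have h2 : ∀ x : V, ∑ g : Fin m → (Fin p → V), ((m : ℝ) + 1) * ((At G p x).card : ℝ) *
          (if ∀ j, g j ∉ At G p x then 1 else 0) ≤ N ^ (m + 1) := by
      intro x
      rw [← mul_sum]
      have h3 : ∑ g : Fin m → (Fin p → V), (if ∀ j, g j ∉ At G p x then (1 : ℝ) else 0) =
          (N - (At G p x).card) ^ m := by
        rw [← sum_filter, sum_const, nsmul_eq_mul, mul_one]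
        have h4 : (univ.filter (fun g : Fin m → (Fin p → V) => ∀ j, g j ∉ At G p x)) =
            Fintype.piFinset (fun _ : Fin m => (At G p x)ᶜ) := by
          ext g
          simp [Fintype.mem_piFinset]
        rw [h4, Fintype.card_piFinset_const]
        have h5 : ((((At G p x)ᶜ).card : ℕ) : ℝ) = N - (At G p x).card := by
          rw [card_compl, Nat.cast_sub (card_le_univ _), hNc]
        push_cast
        rw [h5]
      rw [h3]
      have h6 : ((At G p x).card : ℝ) ≤ N := by
        rw [← hNc]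
        exact_mod_cast card_le_univ _
      have h7 := bern (N - (At G p x).card) (At G p x).card (by linarith) (Nat.cast_nonneg _) m
      rw [sub_add_cancel] at h7
      calc _ = ((m : ℝ) + 1) * ((N - (At G p x).card) ^ m * ((At G p x).card : ℝ)) := by ring
        _ ≤ _ := h7
    calc _ ≤ ∑ _x : V, N ^ (m + 1) := sum_le_sum fun x _ => h2 x
      _ = _ := by
        rw [sum_const, sum_const, card_univ, card_univ, nsmul_eq_mul, nsmul_eq_mul]
        simp only [Fintype.card_fun, Fintype.card_fin]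
        push_cast
        rw [hN]
        ring
  obtain ⟨g, -, hg⟩ := exists_le_of_sum_le (by simp : (univ : Finset (Fin m → (Fin p → V))).Nonempty)
    hsum
  exact ⟨g, hg⟩

/-- The number of ordered cliques which meet `F`. -/
lemma meet_card (p : ℕ) (F : Finset V) :
    ((clq G univ (p + 1)).filter (fun a => ∃ i, a i ∈ F)).card ≤
      (p + 1) * ∑ x ∈ F, (At G p x).card := by
  have h0 : ((clq G univ (p + 1)).filter (fun a => a 0 ∈ F)).card ≤ ∑ x ∈ F, (At G p x).card := by
    rw [← card_sigma]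
    apply card_le_card_of_injOn (fun a => (⟨a 0, Fin.tail a⟩ : (_ : V) × (Fin p → V)))
    · intro a ha
      rw [mem_coe, mem_filter] at ha
      rw [mem_coe, mem_sigma]
      refine ⟨ha.2, ?_⟩
      unfold At
      rw [mem_filter]
      refine ⟨mem_univ _, ?_⟩
      simp only [Fin.cons_self_tail]
      exact ha.1
    · intro a _ b _ hab
      simp only [Sigma.mk.injEq, heq_eq_eq] at hab
      rw [← Fin.cons_self_tail a, ← Fin.cons_self_tail b, hab.1, hab.2]
  have hi : ∀ i : Fin (p + 1), ((clq G univ (p + 1)).filter (fun a => a i ∈ F)).card ≤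
      ((clq G univ (p + 1)).filter (fun a => a 0 ∈ F)).card := by
    intro i
    apply card_le_card_of_injOn (fun a => a ∘ (Equiv.swap 0 i))
    · intro a ha
      rw [mem_coe, mem_filter, mem_clq] at ha
      rw [mem_coe, mem_filter, mem_clq]
      refine ⟨⟨fun _ => mem_univ _, fun j j' hj => ?_⟩, ?_⟩
      · exact ha.1.2 _ _ (fun e => hj ((Equiv.swap 0 i).injective e))
      · simp only [Function.comp_apply, Equiv.swap_apply_left]
        exact ha.2
    · intro a _ b _ hab
      funext j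
      have := congrFun hab (Equiv.swap 0 i j)
      simpa using this
  calc _ ≤ (univ.biUnion (fun i => (clq G univ (p + 1)).filter (fun a => a i ∈ F))).card := by
        apply card_le_card
        intro a ha
        obtain ⟨h1, i, hi⟩ := mem_filter.1 ha
        exact mem_biUnion.2 ⟨i, mem_univ _, mem_filter.2 ⟨h1, hi⟩⟩
    _ ≤ ∑ i : Fin (p + 1), ((clq G univ (p + 1)).filter (fun a => a i ∈ F)).card :=
        card_biUnion_le
    _ ≤ ∑ _i : Fin (p + 1), ∑ x ∈ F, (At G p x).card :=
        sum_le_sum fun i _ => (hi i).trans h0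
    _ = _ := by rw [sum_const, card_univ, Fintype.card_fin, smul_eq_mul]

end Pool.Agent.NH99.VC
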