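import Pool.Agent.NH99.VC_Count

/-!
The upper bound for the number of edges of a vertex-critical graph.
-/

namespace Pool.Agent.NH99.VC

open Finset

open scoped Classical

theorem upper_aux (p : ℕ) (hp : 2 ≤ p) (ε : ℝ) (hε : 0 < ε) (hε1 : ε ≤ 1) : ∃ n0 : ℕ,
    ∀ (V : Type) [Fintype V] (G : SimpleGraph V), n0 ≤ Fintype.card V →
      ¬ G.Colorable (p + 1) → (∀ x, (G.induce {x}ᶜ).Colorable (p + 1)) →
      (pr G univ : ℝ) < (1 - 1 / (p : ℝ) + ε) * (Fintype.card V : ℝ) ^ 2 := by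
  have hp0 : (0 : ℝ) < p := by exact_mod_cast (by omega : 0 < p)
  have hp2 : (2 : ℝ) ≤ p := by exact_mod_cast hp
  set c : ℝ := (ε ^ 2 / 4) ^ (p + 1) with hc
  have hc0 : 0 < c := by positivity
  obtain ⟨m, hm⟩ := exists_nat_gt (((p : ℝ) + 1) / c)
  set C : ℕ := (p + 1) * ((p + 1) + m * p + (p + 1) ^ (m * p)) with hC
  obtain ⟨n1, hn1⟩ := exists_nat_gt (4 * (p : ℝ) / ε ^ 2)
  obtain ⟨n2, hn2⟩ := exists_nat_gt ((C + ((p : ℝ) + 1) * 2) / (((p : ℝ) + 1) * ε ^ 2 / 2))
  refine ⟨max (2 * (p + 1) + 2) (max n1 n2), ?_⟩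
  intro V _ G hn hnot hcol
  have hn0 : 2 * (p + 1) + 2 ≤ Fintype.card V := (le_max_left _ _).trans hn
  have hn1' : 4 * (p : ℝ) / ε ^ 2 < Fintype.card V := by
    refine lt_of_lt_of_le hn1 ?_
    exact_mod_cast ((le_max_left _ _).trans (le_max_right _ _)).trans hn
  have hn2' : (C + ((p : ℝ) + 1) * 2) / (((p : ℝ) + 1) * ε ^ 2 / 2) < Fintype.card V := by
    refine lt_of_lt_of_le hn2 ?_
    exact_mod_cast ((le_max_right _ _).trans (le_max_right _ _)).trans hn
  set n : ℝ := (Fintype.card V : ℝ) with hndef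
  have hnpos : 0 < n := lt_of_le_of_lt (by positivity) hn1'
  have : Nonempty V := by
    rw [← Fintype.card_pos_iff]
    omega
  by_contra hlt
  push Not at hlt
  set θ : ℝ := 1 - 1 / (p : ℝ) + ε / 2 with hθ
  have hinv : 1 / (p : ℝ) ≤ 1 / 2 := by
    apply one_div_le_one_div_of_le (by norm_num) hp2
  have hinv0 : 0 < 1 / (p : ℝ) := by positivity
  have hθ0 : 0 < θ := by rw [hθ]; linarith
  have hθ2 : θ ≤ 3 / 2 := by rw [hθ]; linarith
  -- the anchor set
  obtain ⟨g, hg⟩ := exists_anchor G p m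
  set F := Fr G p m g with hF
  -- deletion of vertices outside `F`
  obtain ⟨U, hFU, -, hU1, hU2⟩ := exists_core G θ F univ (subset_univ _)
  -- deletion of all vertices of small degree
  obtain ⟨W, -, hWU, hW1, hW2⟩ := exists_core G θ ∅ U (empty_subset _)
  have hpr : (ε / 2) * n ^ 2 ≤ (pr G univ : ℝ) - θ * ((univ : Finset V).card : ℝ) ^ 2 := by
    rw [card_univ, ← hndef]
    have : (1 - 1 / (p : ℝ) + ε) * n ^ 2 = θ * n ^ 2 + ε / 2 * n ^ 2 := by rw [hθ]; ring
    linarith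
  have hUbig : ε / 2 * n ≤ (U.card : ℝ) := by
    have h1 : (pr G U : ℝ) ≤ (U.card : ℝ) ^ 2 := by exact_mod_cast pr_le G U
    have h2 : 0 ≤ θ * (U.card : ℝ) ^ 2 := by positivity
    have h3 : (ε / 2 * n) ^ 2 ≤ (U.card : ℝ) ^ 2 := by
      have : (ε / 2 * n) ^ 2 ≤ ε / 2 * n ^ 2 := by
        have : ε / 2 * n ^ 2 - (ε / 2 * n) ^ 2 = ε / 2 * (1 - ε / 2) * n ^ 2 := by ring
        have h4 : 0 ≤ ε / 2 * (1 - ε / 2) * n ^ 2 := by
          apply mul_nonneg (mul_nonneg (by linarith) (by linarith)) (by positivity)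
        linarith
      linarith
    exact (pow_le_pow_iff_left₀ (by positivity) (Nat.cast_nonneg _) (by norm_num)).1 h3
  have hWbig : ε / 2 * n ≤ (W.card : ℝ) := by
    have h1 : (pr G W : ℝ) ≤ (W.card : ℝ) ^ 2 := by exact_mod_cast pr_le G W
    have h2 : 0 ≤ θ * (W.card : ℝ) ^ 2 := by positivity
    have h3 : (ε / 2 * n) ^ 2 ≤ (W.card : ℝ) ^ 2 := by
      have : (ε / 2 * n) ^ 2 ≤ ε / 2 * n ^ 2 := by
        have : ε / 2 * n ^ 2 - (ε / 2 * n) ^ 2 = ε / 2 * (1 - ε / 2) * n ^ 2 := by ring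
        have h4 : 0 ≤ ε / 2 * (1 - ε / 2) * n ^ 2 := by
          apply mul_nonneg (mul_nonneg (by linarith) (by linarith)) (by positivity)
        linarith
      linarith
    exact (pow_le_pow_iff_left₀ (by positivity) (Nat.cast_nonneg _) (by norm_num)).1 h3
  -- many cliques
  set δ : ℝ := W.card - (θ * W.card - θ / 2) with hδ
  have hδW : ∀ v ∈ W, (W.card : ℝ) - δ ≤ dg G W v := by
    intro v hv
    have := hW2 v hv (notMem_empty _)
    rw [hδ]
    linarith
  have hWne : W.Nonempty := by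
    rw [← card_pos]
    have : (0 : ℝ) < W.card := lt_of_lt_of_le (by positivity) hWbig
    exact_mod_cast this
  have hδ0 : 0 ≤ δ := by
    obtain ⟨v, hv⟩ := hWne
    have h1 := hδW v hv
    have h2 : (dg G W v : ℝ) ≤ W.card := by
      exact_mod_cast card_le_card (filter_subset _ _)
    linarith
  have hβ : ε ^ 2 / 4 * n ≤ W.card - p * δ := by
    have h1 : (W.card : ℝ) - p * δ = W.card * (p * (ε / 2)) - p * θ / 2 := by
      rw [hδ, hθ]
      field_simp
      ring
    rw [h1]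
    have h2 : (W.card : ℝ) * ε ≤ W.card * (p * (ε / 2)) := by
      apply mul_le_mul_of_nonneg_left _ (Nat.cast_nonneg _)
      have := mul_le_mul_of_nonneg_right hp2 (by linarith : 0 ≤ ε / 2)
      linarith
    have h3 : ε / 2 * n * ε ≤ W.card * ε := mul_le_mul_of_nonneg_right hWbig hε.le
    have h4 : (p : ℝ) ≤ ε ^ 2 / 4 * n := by
      rw [div_lt_iff₀ (by positivity)] at hn1'
      linarith
    have h5 : p * θ / 2 ≤ p := by
      have := mul_le_mul_of_nonneg_left hθ2 hp0.le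
      linarith
    have h6 : ε / 2 * n * ε = 2 * (ε ^ 2 / 4 * n) := by ring
    linarith
  have hcl := clq_card_ge W p δ (ε ^ 2 / 4 * n) hδ0 (by positivity) hδW hβ (p + 1) le_rfl
  -- a clique avoiding `F`
  have hex : ∃ t ∈ clq G W (p + 1), ∀ i, t i ∉ F := by
    by_contra hno
    push Not at hno
    have h1 : clq G W (p + 1) ⊆ (clq G univ (p + 1)).filter (fun a => ∃ i, a i ∈ F) := by
      intro a ha
      refine mem_filter.2 ⟨?_, hno a ha⟩
      rw [mem_clq] at ha ⊢
      exact ⟨fun _ => mem_univ _, ha.2⟩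
    have h2 := (card_le_card h1).trans (meet_card p F)
    have h3 : ((clq G W (p + 1)).card : ℝ) ≤ ((p : ℝ) + 1) * ∑ x ∈ F, ((At G p x).card : ℝ) := by
      exact_mod_cast h2
    have h4 : c * n ^ (p + 1) ≤ (clq G W (p + 1)).card := by
      refine le_trans (le_of_eq ?_) hcl
      rw [hc, mul_pow]
    have hm' : (p : ℝ) + 1 < (m + 1) * c := by
      rw [div_lt_iff₀ hc0] at hm
      linarith
    have h5 : (m + 1 : ℝ) * (c * n ^ (p + 1)) ≤ (p + 1) * n ^ (p + 1) := by
      calc (m + 1 : ℝ) * (c * n ^ (p + 1)) ≤ (m + 1) * (((p : ℝ) + 1) *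
            ∑ x ∈ F, ((At G p x).card : ℝ)) :=
            mul_le_mul_of_nonneg_left (h4.trans h3) (by positivity)
        _ = (p + 1) * ((m + 1) * ∑ x ∈ F, ((At G p x).card : ℝ)) := by ring
        _ ≤ _ := mul_le_mul_of_nonneg_left hg (by positivity)
    have h6 : 0 < n ^ (p + 1) := by positivity
    have h7 : ((p : ℝ) + 1) * n ^ (p + 1) < ((m + 1) * c) * n ^ (p + 1) :=
      mul_lt_mul_of_pos_right hm' h6
    linarith
  obtain ⟨t, htW, htF⟩ := hex
  rw [mem_clq] at htW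
  obtain ⟨N⟩ := exists_norm p t htW.2 hnot hcol
  set S : Finset V := univ.biUnion (fun j : Fin m => univ.image (g j)) with hS
  have hScard : S.card ≤ m * p := by
    calc S.card ≤ ∑ j : Fin m, (univ.image (g j)).card := card_biUnion_le
      _ ≤ ∑ _j : Fin m, p := by
          apply sum_le_sum
          intro j _
          simpa using (card_image_le : (univ.image (g j)).card ≤ (univ : Finset (Fin p)).card)
      _ = _ := by simp
  have hcore := N.core_ineq hn0 (by omega) S U (by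
    intro x hx
    have hxF : x ∉ F := fun h => hx (hFU h)
    rw [hF] at hxF
    unfold Fr at hxF
    simp only [mem_filter, mem_univ, true_and, not_forall, not_not] at hxF
    obtain ⟨j, hj⟩ := hxF
    unfold At at hj
    rw [mem_filter, cons_mem_clq] at hj
    refine ⟨g j, fun i => ?_, hj.2.2.2, (mem_clq.1 hj.2.1).2⟩
    exact mem_biUnion.2 ⟨j, mem_univ _, mem_image.2 ⟨i, mem_univ _, rfl⟩⟩)
  have hCle : (p + 1) * ((p + 1) + S.card + (p + 1) ^ S.card) ≤ C := by
    rw [hC]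
    apply Nat.mul_le_mul_left
    have := Nat.pow_le_pow_right (by omega : 0 < p + 1) hScard
    omega
  have hcore' : 2 * ∑ i, (dg G U (t i) : ℝ) + U.card ≤ C + 2 * p * U.card := by
    have h1 : 2 * (∑ i, dg G U (t i)) + U.card ≤ C + 2 * p * U.card := hcore.trans (by omega)
    exact_mod_cast h1
  have hlow : ((p : ℝ) + 1) * (θ * U.card - θ / 2) ≤ ∑ i, (dg G U (t i) : ℝ) := by
    calc _ = ∑ _i : Fin (p + 1), (θ * U.card - θ / 2) := by
          rw [sum_const, card_univ, Fintype.card_fin, nsmul_eq_mul]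
          push_cast
          ring
      _ ≤ _ := sum_le_sum fun i _ => hU2 (t i) (hWU (htW.1 i)) (htF i)
  have hθp : ((p : ℝ) + 1) * θ = p - 1 / p + (p + 1) * ε / 2 := by
    rw [hθ]
    field_simp
    ring
  have hU0 : (0 : ℝ) ≤ U.card := Nat.cast_nonneg _
  have hfin : ((p : ℝ) + 1) * ε * U.card ≤ C + (p + 1) * 2 := by
    have e1 : 2 * (((p : ℝ) + 1) * (θ * U.card - θ / 2)) =
        2 * (p - 1 / p + (p + 1) * ε / 2) * U.card - (p + 1) * θ := by
      rw [← hθp]; ring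
    have e2 : (1 / (p : ℝ)) * U.card ≤ 1 / 2 * U.card := mul_le_mul_of_nonneg_right hinv hU0
    have e3 : 2 * (p - 1 / p + (p + 1) * ε / 2) * U.card =
      2 * p * U.card - 2 * ((1 / (p : ℝ)) * U.card) + (p + 1) * ε * U.card := by ring
    have e4 : ((p : ℝ) + 1) * θ ≤ (p + 1) * 2 :=
      mul_le_mul_of_nonneg_left (by linarith) (by linarith)
    linarith
  rw [div_lt_iff₀ (by positivity)] at hn2'
  have h8 : ((p : ℝ) + 1) * ε * (ε / 2 * n) ≤ (p + 1) * ε * U.card :=
    mul_le_mul_of_nonneg_left hUbig (by positivity)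
  have h9 : ((p : ℝ) + 1) * ε * (ε / 2 * n) = n * (((p : ℝ) + 1) * ε ^ 2 / 2) := by ring
  linarith

lemma pr_edge {V : Type*} [Fintype V] (G : SimpleGraph V) :
    pr G univ = 2 * G.edgeSet.ncard := by
  have h1 : G.edgeSet.ncard = G.edgeFinset.card := by
    rw [Set.ncard_eq_toFinset_card', SimpleGraph.edgeFinset]
  rw [h1, ← SimpleGraph.sum_degrees_eq_twice_card_edges]
  unfold pr dg
  refine sum_congr rfl fun v _ => ?_
  rw [← SimpleGraph.card_neighborFinset_eq_degree]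
  congr 1
  ext u
  simp

/-- **The upper bound.**  For `p ≥ 2` and `ε > 0`, every sufficiently large graph which is not
`(p+1)`-colourable but becomes so after the deletion of any vertex has at most
`(1/2) (1 - 1/p + ε) n ^ 2` edges. -/
theorem upper (p : ℕ) (hp : 2 ≤ p) (ε : ℝ) (hε : 0 < ε) : ∃ n0 : ℕ,
    ∀ (V : Type) [Fintype V] (G : SimpleGraph V), n0 ≤ Fintype.card V →
      ¬ G.Colorable (p + 1) → (∀ x, (G.induce {x}ᶜ).Colorable (p + 1)) →
      (G.edgeSet.ncard : ℝ) ≤ 1 / 2 * (1 - 1 / (p : ℝ) + ε) * (Fintype.card V : ℝ) ^ 2 := by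
  obtain ⟨n0, h⟩ := upper_aux p hp (min ε 1) (lt_min hε one_pos) (min_le_right _ _)
  refine ⟨n0, ?_⟩
  intro V _ G hn hnot hcol
  have h1 := h V G hn hnot hcol
  rw [pr_edge] at h1
  push_cast at h1
  have h2 : (1 - 1 / (p : ℝ) + min ε 1) * (Fintype.card V : ℝ) ^ 2 ≤
      (1 - 1 / (p : ℝ) + ε) * (Fintype.card V : ℝ) ^ 2 := by
    apply mul_le_mul_of_nonneg_right _ (by positivity)
    have := min_le_left ε 1
    linarith
  linarith

end Pool.Agent.NH99.VC
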