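import Pool.Agent.TH830.J73
import Pool.Agent.TH830.J74

/-!
# Monotone coupling of uniform spanning trees

By the Feder and Mihail domination and Hall's theorem there is an exactly measure preserving
monotone coupling between the spanning trees of `E` and those of `E' ⊆ E`.
-/

set_option autoImplicit false

namespace Pool.Agent.NH99.WU

open Finset Pool.Agent.TH968.UST Pool.Agent.TH830.UST

variable {V : Type*} [DecidableEq V]

theorem fm (E E' : Finset (Sym2 V)) (hE : E' ⊆ E)
    (g : Finset (Sym2 V) → ℝ) (hg : ∀ S T, S ⊆ T → g S ≤ g T) :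
    (∑ T ∈ trees ⊥ E, g (T ∩ E')) * ((trees ⊥ E').card : ℝ) ≤
      (∑ T ∈ trees ⊥ E', g T) * ((trees ⊥ E).card : ℝ) :=
  Pool.Agent.TH830.J74.dom (fun r r' hr E E' hE e he => Pool.Agent.TH830.J73.RM r r' hr E E' hE e he)
    ⊥ ⊥ le_rfl E E' hE g hg

/-- the monotone coupling -/
theorem coup (E E' : Finset (Sym2 V)) (hE : E' ⊆ E) :
    ∃ κ : Finset (Sym2 V) → ℕ → Finset (Sym2 V),
      (∀ S ∈ trees ⊥ E', ∀ j < (trees ⊥ E).card, κ S j ∈ trees ⊥ E ∧ κ S j ∩ E' ⊆ S) ∧
      ∀ T ∈ trees ⊥ E, (((trees ⊥ E') ×ˢ range (trees ⊥ E).card).filter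
        (fun p => κ p.1 p.2 = T)).card = (trees ⊥ E').card := by
  classical
  set A := trees (⊥ : Setoid V) E' with hA
  set B := trees (⊥ : Setoid V) E with hB
  set L := A ×ˢ range B.card with hL
  set R := B ×ˢ range A.card with hR
  let t : {x // x ∈ L} → Finset (Finset (Sym2 V) × ℕ) := fun x =>
    R.filter (fun y => y.1 ∩ E' ⊆ x.1.1)
  have hall : ∀ s : Finset {x // x ∈ L}, s.card ≤ (s.biUnion t).card := by
    intro s
    set XA : Finset (Finset (Sym2 V)) := s.image (fun x => x.1.1) with hXA
    set D : Finset (Sym2 V) → Prop := fun Y => ∃ S ∈ XA, Y ⊆ S with hD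
    have h1 : s.card ≤ XA.card * B.card := by
      have : s.card ≤ (XA ×ˢ range B.card).card := by
        refine Finset.card_le_card_of_injOn (fun x => x.1) ?_ ?_
        · intro x hx
          have hx' : x.1 ∈ L := x.2
          rw [Finset.coe_product, Set.mem_prod]
          refine ⟨?_, ?_⟩
          · exact Finset.mem_coe.2 (Finset.mem_image.2 ⟨x, hx, rfl⟩)
          · exact Finset.mem_coe.2 (Finset.mem_product.1 hx').2
        · intro x _ y _ h
          exact Subtype.ext h
      rwa [Finset.card_product, Finset.card_range] at this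
    have h2 : s.biUnion t = (B.filter (fun T => D (T ∩ E'))) ×ˢ range A.card := by
      ext ⟨T, i⟩
      simp only [Finset.mem_biUnion, Finset.mem_product, Finset.mem_filter, t, hD, hXA,
        Finset.mem_image, hR]
      constructor
      · rintro ⟨x, hx, ⟨h3, h4⟩, h5⟩
        exact ⟨⟨h3, x.1.1, ⟨x, hx, rfl⟩, h5⟩, h4⟩
      · rintro ⟨⟨h3, S, ⟨x, hx, rfl⟩, h5⟩, h4⟩
        exact ⟨x, hx, ⟨h3, h4⟩, h5⟩
    have hXAA : XA ⊆ A := by
      intro S hS
      obtain ⟨x, -, rfl⟩ := Finset.mem_image.1 hS
      exact (Finset.mem_product.1 x.2).1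
    -- Feder-Mihail for the complement of `D`
    have h3 := fm E E' hE (fun Y => if D Y then 0 else 1) (by
      intro S T hST
      by_cases hT : D T
      · have hS : D S := by
          obtain ⟨S', h, h'⟩ := hT
          exact ⟨S', h, hST.trans h'⟩
        simp [hT, hS]
      · simp only [hT, if_false]
        split_ifs <;> norm_num)
    rw [← hA, ← hB] at h3
    have e1 : ∑ T ∈ B, (if D (T ∩ E') then (0:ℝ) else 1) =
        (B.card : ℝ) - ((B.filter (fun T => D (T ∩ E'))).card : ℝ) := by
      have : ∀ T ∈ B, (if D (T ∩ E') then (0:ℝ) else 1) = 1 - if D (T ∩ E') then 1 else 0 := by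
        intro T _
        split_ifs <;> norm_num
      rw [Finset.sum_congr rfl this, Finset.sum_sub_distrib, Finset.sum_boole]
      simp
    have e2 : ∑ T ∈ A, (if D T then (0:ℝ) else 1) =
        (A.card : ℝ) - ((A.filter D).card : ℝ) := by
      have : ∀ T ∈ A, (if D T then (0:ℝ) else 1) = 1 - if D T then 1 else 0 := by
        intro T _
        split_ifs <;> norm_num
      rw [Finset.sum_congr rfl this, Finset.sum_sub_distrib, Finset.sum_boole]
      simp
    rw [e1, e2] at h3
    have h4 : XA.card ≤ (A.filter D).card := by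
      refine Finset.card_le_card ?_
      intro S hS
      exact Finset.mem_filter.2 ⟨hXAA hS, S, hS, Finset.Subset.refl _⟩
    have h5 : ((A.filter D).card : ℝ) * (B.card : ℝ) ≤
        ((B.filter (fun T => D (T ∩ E'))).card : ℝ) * (A.card : ℝ) := by nlinarith
    have h6 : (A.filter D).card * B.card ≤ (B.filter (fun T => D (T ∩ E'))).card * A.card := by
      exact_mod_cast h5
    rw [h2, Finset.card_product, Finset.card_range]
    calc s.card ≤ XA.card * B.card := h1
      _ ≤ (A.filter D).card * B.card := Nat.mul_le_mul_right _ h4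
      _ ≤ _ := h6
  obtain ⟨f, hf, hft⟩ := (Finset.all_card_le_biUnion_card_iff_exists_injective t).1 hall
  let κ : Finset (Sym2 V) → ℕ → Finset (Sym2 V) := fun S j =>
    if h : (S, j) ∈ L then (f ⟨(S, j), h⟩).1 else ∅
  have hmem : ∀ S ∈ A, ∀ j < B.card, (S, j) ∈ L := by
    intro S hS j hj
    exact Finset.mem_product.2 ⟨hS, Finset.mem_range.2 hj⟩
  refine ⟨κ, ?_, ?_⟩
  · intro S hS j hj
    have h := hft ⟨(S, j), hmem S hS j hj⟩
    simp only [t, Finset.mem_filter] at h
    have hk : κ S j = (f ⟨(S, j), hmem S hS j hj⟩).1 := by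
      simp only [κ]
      rw [dif_pos (hmem S hS j hj)]
    rw [hk]
    exact ⟨(Finset.mem_product.1 h.1).1, h.2⟩
  · intro T hT
    -- `f` is onto `R`
    have himg : (Finset.univ : Finset {x // x ∈ L}).image f = R := by
      apply Finset.eq_of_subset_of_card_le
      · intro y hy
        obtain ⟨x, -, rfl⟩ := Finset.mem_image.1 hy
        have h := hft x
        simp only [t, Finset.mem_filter] at h
        exact h.1
      · rw [Finset.card_image_of_injective _ hf, Finset.card_univ, Fintype.card_coe, hL, hR,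
          Finset.card_product, Finset.card_product, Finset.card_range, Finset.card_range,
          Nat.mul_comm]
    have hcount : (L.filter (fun p => κ p.1 p.2 = T)).card =
        (R.filter (fun y => y.1 = T)).card := by
      rw [← himg, Finset.filter_image, Finset.card_image_of_injective _ hf]
      symm
      refine Finset.card_bij (fun x _ => x.1) ?_ ?_ ?_
      · intro x hx
        have hx' := (Finset.mem_filter.1 hx).2
        refine Finset.mem_filter.2 ⟨x.2, ?_⟩
        simp only [κ]
        rw [dif_pos (show (x.1.1, x.1.2) ∈ L from x.2)]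
        exact hx'
      · intro x _ y _ h
        exact Subtype.ext h
      · intro p hp
        obtain ⟨h1, h2⟩ := Finset.mem_filter.1 hp
        refine ⟨⟨p, h1⟩, ?_, rfl⟩
        refine Finset.mem_filter.2 ⟨Finset.mem_univ _, ?_⟩
        simp only [κ] at h2
        rwa [dif_pos (show (p.1, p.2) ∈ L from h1)] at h2
    rw [hcount]
    have : R.filter (fun y => y.1 = T) = {T} ×ˢ range A.card := by
      ext ⟨a, b⟩
      simp only [Finset.mem_filter, hR, Finset.mem_product, Finset.mem_singleton]
      constructor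
      · rintro ⟨⟨-, h⟩, h'⟩
        exact ⟨h', h⟩
      · rintro ⟨rfl, h⟩
        exact ⟨⟨hT, h⟩, rfl⟩
    rw [this, Finset.card_product, Finset.card_singleton, one_mul, Finset.card_range]

end Pool.Agent.NH99.WU
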