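import Pool.Agent.NH99.WU_Tree1

/-!
# Measurability of the forests
-/

set_option autoImplicit false
set_option linter.unusedSectionVars false

namespace Pool.Agent.NH99.WU

open Finset Pool.Agent.TH968.UST Pool.Agent.TH830.UST MeasureTheory
open scoped unitInterval

/-- all level sets are measurable -/
def CM {Ω α : Type*} [MeasurableSpace Ω] (X : Ω → α) : Prop := ∀ a, MeasurableSet {ω | X ω = a}

variable {Ω : Type*} [MeasurableSpace Ω]

theorem CM.bind {α : Type*} [Countable α] {X : Ω → α} (hX : CM X) (S : α → Set Ω)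
    (hS : ∀ a, MeasurableSet (S a)) : MeasurableSet {ω | ω ∈ S (X ω)} := by
  have : {ω | ω ∈ S (X ω)} = ⋃ a, ({ω | X ω = a} ∩ S a) := by
    ext ω
    simp only [Set.mem_ofPred_eq, Set.mem_iUnion, Set.mem_inter_iff]
    constructor
    · intro h
      exact ⟨X ω, rfl, h⟩
    · rintro ⟨a, h1, h2⟩
      rw [h1]
      exact h2
  rw [this]
  exact MeasurableSet.iUnion fun a => (hX a).inter (hS a)

theorem CM.pred {α : Type*} [Countable α] {X : Ω → α} (hX : CM X) (P : α → Prop) :
    MeasurableSet {ω | P (X ω)} := by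
  classical
  refine hX.bind (fun a => {_ω : Ω | P a}) ?_
  intro a
  exact MeasurableSet.const _

theorem CM.comp {α β : Type*} [Countable α] {X : Ω → α} (hX : CM X) (f : α → β) :
    CM (fun ω => f (X ω)) := fun b => hX.pred (fun a => f a = b)

theorem CM.prod {α β : Type*} {X : Ω → α} {Y : Ω → β} (hX : CM X) (hY : CM Y) :
    CM (fun ω => (X ω, Y ω)) := by
  rintro ⟨a, b⟩
  have : {ω | (X ω, Y ω) = (a, b)} = {ω | X ω = a} ∩ {ω | Y ω = b} := by
    ext ω
    simp
  rw [this]
  exact (hX a).inter (hY b)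

theorem CM.filter {α : Type*} (s : Finset α) (p : Ω → α → Prop) [∀ ω, DecidablePred (p ω)]
    (hp : ∀ a ∈ s, MeasurableSet {ω | p ω a}) : CM (fun ω => s.filter (fun a => p ω a)) := by
  classical
  intro t
  by_cases ht : t ⊆ s
  · have : {ω | s.filter (fun a => p ω a) = t} =
        ⋂ a ∈ s, {ω | p ω a ↔ a ∈ t} := by
      ext ω
      simp only [Set.mem_ofPred_eq, Set.mem_iInter]
      constructor
      · rintro rfl a ha
        simp [ha]
      · intro h
        ext a
        rw [Finset.mem_filter]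
        constructor
        · rintro ⟨h1, h2⟩
          exact (h a h1).1 h2
        · intro h1
          exact ⟨ht h1, (h a (ht h1)).2 h1⟩
    rw [this]
    refine Finset.measurableSet_biInter s fun a ha => ?_
    by_cases hat : a ∈ t
    · have : {ω | p ω a ↔ a ∈ t} = {ω | p ω a} := by
        ext ω; simp [hat]
      rw [this]
      exact hp a ha
    · have : {ω | p ω a ↔ a ∈ t} = {ω | p ω a}ᶜ := by
        ext ω; simp [hat]
      rw [this]
      exact (hp a ha).compl
  · have : {ω | s.filter (fun a => p ω a) = t} = ∅ := by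
      ext ω
      simp only [Set.mem_ofPred_eq, Set.mem_empty_iff_false, iff_false]
      rintro rfl
      exact ht (Finset.filter_subset _ _)
    rw [this]
    exact MeasurableSet.empty

/-- reachability is measurable -/
theorem meas_reach {H : Ω → SimpleGraph ℕ} (hH : ∀ u v, MeasurableSet {ω | (H ω).Adj u v})
    (v w : ℕ) : MeasurableSet {ω | (H ω).Reachable v w} := by
  let R : ℕ → ℕ → Ω → Prop := fun n => Nat.rec (fun w _ => w = v)
    (fun _ r w ω => ∃ u, r u ω ∧ (u = w ∨ (H ω).Adj u w)) n
  have hR0 : ∀ w ω, R 0 w ω ↔ w = v := fun _ _ => Iff.rfl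
  have hRs : ∀ n w ω, R (n + 1) w ω ↔ ∃ u, R n u ω ∧ (u = w ∨ (H ω).Adj u w) :=
    fun _ _ _ => Iff.rfl
  have hm : ∀ n w, MeasurableSet {ω | R n w ω} := by
    intro n
    induction n with
    | zero =>
      intro w
      simp only [hR0]
      exact MeasurableSet.const _
    | succ n ih =>
      intro w
      have : {ω | R (n + 1) w ω} = ⋃ u, ({ω | R n u ω} ∩ ({ω | u = w} ∪ {ω | (H ω).Adj u w})) := by
        ext ω
        simp only [Set.mem_ofPred_eq, hRs, Set.mem_iUnion, Set.mem_inter_iff, Set.mem_union]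
      rw [this]
      exact MeasurableSet.iUnion fun u => (ih u).inter ((MeasurableSet.const _).union (hH u w))
  have hiff : ∀ ω, (H ω).Reachable v w ↔ ∃ n, R n w ω := by
    intro ω
    constructor
    · intro h
      rw [SimpleGraph.reachable_iff_reflTransGen] at h
      induction h with
      | refl => exact ⟨0, (hR0 v ω).2 rfl⟩
      | tail _ h2 ih =>
        obtain ⟨n, hn⟩ := ih
        exact ⟨n + 1, (hRs n _ ω).2 ⟨_, hn, Or.inr h2⟩⟩
    · rintro ⟨n, hn⟩
      induction n generalizing w with
      | zero =>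
        rw [hR0] at hn
        rw [hn]
      | succ n ih =>
        obtain ⟨u, hu, hu'⟩ := (hRs _ _ _).1 hn
        rcases hu' with rfl | hu'
        · exact ih _ hu
        · exact (ih _ hu).trans hu'.reachable
  have : {ω | (H ω).Reachable v w} = ⋃ n, {ω | R n w ω} := by
    ext ω
    simp only [Set.mem_ofPred_eq, Set.mem_iUnion, hiff]
  rw [this]
  exact MeasurableSet.iUnion fun n => hm n w

theorem cl_cm {H : Ω → SimpleGraph ℕ} (hH : ∀ u v, MeasurableSet {ω | (H ω).Adj u v}) (v : ℕ) :
    CM (fun ω => cl (H ω) v) := by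
  have hne : ∀ K : Finset ℕ, K ≠ ∅ → MeasurableSet {ω | cl (H ω) v = K} := by
    intro K hK
    have : {ω | cl (H ω) v = K} = ⋂ w, {ω | w ∈ K ↔ (H ω).Reachable v w} := by
      ext ω
      simp only [Set.mem_ofPred_eq, Set.mem_iInter]
      constructor
      · intro h w
        have hfin : {w | (H ω).Reachable v w}.Finite := by
          by_contra hc
          unfold cl at h
          rw [dif_neg hc] at h
          exact hK h.symm
        rw [← h, mem_cl hfin]
      · intro h
        have hfin : {w | (H ω).Reachable v w}.Finite := by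
          refine K.finite_toSet.subset ?_
          intro w hw
          exact (h w).2 hw
        ext w
        rw [mem_cl hfin, h w]
    rw [this]
    refine MeasurableSet.iInter fun w => ?_
    by_cases hw : w ∈ K
    · have : {ω | w ∈ K ↔ (H ω).Reachable v w} = {ω | (H ω).Reachable v w} := by
        ext ω; simp [hw]
      rw [this]
      exact meas_reach hH v w
    · have : {ω | w ∈ K ↔ (H ω).Reachable v w} = {ω | (H ω).Reachable v w}ᶜ := by
        ext ω; simp [hw]
      rw [this]
      exact (meas_reach hH v w).compl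
  intro K
  by_cases hK : K = ∅
  · have : {ω | cl (H ω) v = K} = (⋃ K' : {K' : Finset ℕ // K' ≠ ∅}, {ω | cl (H ω) v = K'})ᶜ := by
      ext ω
      simp only [Set.mem_ofPred_eq, Set.mem_compl_iff, Set.mem_iUnion, not_exists]
      constructor
      · intro h K' h'
        exact K'.2 (h'.symm.trans (h.trans hK))
      · intro h
        by_contra hc
        exact h ⟨cl (H ω) v, fun h' => hc (h'.trans hK.symm)⟩ rfl
    rw [this]
    exact (MeasurableSet.iUnion fun (K' : {K' : Finset ℕ // K' ≠ ∅}) => hne K'.1 K'.2).compl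
  · exact hne K hK

theorem idx_meas {b : Ω → ℕ → I} (hb : ∀ v, Measurable fun ω => b ω v) (O : Finset (ℕ × ℕ))
    (K : Finset ℕ) (N : ℕ) : Measurable fun ω => idx O K N (b ω) := by
  unfold idx
  refine Finset.measurable_sum K fun v _ => ?_
  split_ifs
  · refine measurable_const.min ?_
    exact (measurable_const.mul (measurable_subtype_coe.comp (hb v))).nat_floor
  · exact measurable_const

theorem ed_cm {H : Ω → SimpleGraph ℕ} (hH : ∀ u v, MeasurableSet {ω | (H ω).Adj u v})
    (K : Finset ℕ) : CM (fun ω => ed (H ω) K) := by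
  classical
  unfold ed
  refine CM.filter K.sym2 (fun ω e => e ∈ (H ω).edgeSet) ?_
  intro e _
  induction e using Sym2.ind with
  | _ a c => exact hH a c

theorem ord_cm {τ : Ω → ℕ → I} (hτ : ∀ v, Measurable fun ω => τ ω v) (K : Finset ℕ) :
    CM (fun ω => ord (τ ω) K) := by
  classical
  unfold ord
  refine CM.filter (K ×ˢ K) (fun ω p => τ ω p.1 < τ ω p.2) ?_
  intro p _
  exact measurableSet_lt (hτ p.1) (hτ p.2)

/-- the forests are measurable -/
theorem TT_meas {H : Ω → ℕ → SimpleGraph ℕ} {τ : Ω → ℕ → I} {b : Ω → ℕ × ℕ → I}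
    (hH : ∀ k u v, MeasurableSet {ω | (H ω k).Adj u v})
    (hτ : ∀ v, Measurable fun ω => τ ω v) (hb : ∀ p, Measurable fun ω => b ω p) :
    ∀ (k : ℕ) (e : Sym2 ℕ), MeasurableSet {ω | e ∈ TT (H ω) (τ ω) (b ω) k} := by
  intro k
  induction k with
  | zero =>
    intro e
    simp only [TT_zero]
    exact MeasurableSet.const _
  | succ k ih =>
    intro e
    have hpc : ∀ K : Finset ℕ, MeasurableSet {ω | e ∈ pc (H ω k) (H ω (k + 1)) (τ ω)
        (fun w => b ω (w, k)) (TT (H ω) (τ ω) (b ω) k) K} := by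
      intro K
      classical
      have h1 := ord_cm hτ K
      have h2 := ed_cm (hH k) K
      have h3 := ed_cm (hH (k + 1)) K
      have h4 : CM (fun ω => (ed (H ω k) K).filter (fun e => e ∈ TT (H ω) (τ ω) (b ω) k)) := by
        unfold ed
        simp only [Finset.filter_filter]
        refine CM.filter K.sym2 (fun ω e => e ∈ (H ω k).edgeSet ∧
          e ∈ TT (H ω) (τ ω) (b ω) k) ?_
        intro e _
        refine MeasurableSet.inter ?_ (ih e)
        induction e using Sym2.ind with
        | _ a c => exact hH k a c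
      have h := ((h1.prod h2).prod (h3.prod h4)).bind
        (fun x => {ω | e ∈ res x.1.1 x.1.2 x.2.1 x.2.2
          (idx x.1.1 K (trees (⊥ : Setoid ℕ) x.2.1).card (fun w => b ω (w, k)))}) (by
          rintro ⟨⟨x1, x2⟩, x3, x4⟩
          have hi := idx_meas (b := fun ω w => b ω (w, k)) (fun v => hb (v, k)) x1 K
            (trees (⊥ : Setoid ℕ) x3).card
          exact hi (MeasurableSet.of_discrete (s := {j : ℕ | e ∈ res x1 x2 x3 x4 j})))
      exact h
    have : {ω | e ∈ TT (H ω) (τ ω) (b ω) (k + 1)} =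
        ⋃ v, {ω | e ∈ pc (H ω k) (H ω (k + 1)) (τ ω) (fun w => b ω (w, k))
          (TT (H ω) (τ ω) (b ω) k) (cl (H ω (k + 1)) v)} := by
      ext ω
      simp only [Set.mem_ofPred_eq, Set.mem_iUnion, mem_TT_succ]
    rw [this]
    refine MeasurableSet.iUnion fun v => ?_
    exact (cl_cm (hH (k + 1)) v).bind (fun K => {ω | e ∈ pc (H ω k) (H ω (k + 1)) (τ ω)
        (fun w => b ω (w, k)) (TT (H ω) (τ ω) (b ω) k) K}) hpc

theorem tr_cm {H : Ω → ℕ → SimpleGraph ℕ} {τ : Ω → ℕ → I} {b : Ω → ℕ × ℕ → I}
    (hH : ∀ k u v, MeasurableSet {ω | (H ω k).Adj u v})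
    (hτ : ∀ v, Measurable fun ω => τ ω v) (hb : ∀ p, Measurable fun ω => b ω p) (k : ℕ)
    (K : Finset ℕ) : CM (fun ω => tr (H ω) (τ ω) (b ω) k K) := by
  classical
  unfold tr ed
  simp only [Finset.filter_filter]
  refine CM.filter K.sym2 (fun ω e => e ∈ (H ω k).edgeSet ∧ e ∈ TT (H ω) (τ ω) (b ω) k) ?_
  intro e _
  refine MeasurableSet.inter ?_ (TT_meas hH hτ hb k e)
  induction e using Sym2.ind with
  | _ a c => exact hH k a c

end Pool.Agent.NH99.WU
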