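import Pool.Agent.NH99.WU_Tree1

/-!
# Equivariance of the forests
-/

set_option autoImplicit false
set_option linter.unusedSectionVars false

namespace Pool.Agent.NH99.WU

open Finset Pool.Agent.TH968.UST Pool.Agent.TH830.UST
open scoped unitInterval

/-- an isomorphism of the labelled sequences of graphs on `C` -/
structure Eqv (H H' : ℕ → SimpleGraph ℕ) (τ τ' : ℕ → I) (b b' : ℕ × ℕ → I) (C : Set ℕ)
    (φ : ℕ → ℕ) : Prop where
  inj : ∀ u ∈ C, ∀ v ∈ C, φ u = φ v → u = v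
  closed : ∀ k u v, u ∈ C → (H k).Adj u v → v ∈ C
  adj : ∀ k u v, u ∈ C → v ∈ C → ((H k).Adj u v ↔ (H' k).Adj (φ u) (φ v))
  closed' : ∀ k u w, u ∈ C → (H' k).Adj (φ u) w → ∃ v ∈ C, φ v = w
  ties : ∀ u ∈ C, τ' (φ u) = τ u
  seeds : ∀ u ∈ C, ∀ k, b' (φ u, k) = b (u, k)

variable {H H' : ℕ → SimpleGraph ℕ} {τ τ' : ℕ → I} {b b' : ℕ × ℕ → I} {C : Set ℕ} {φ : ℕ → ℕ}

namespace Eqv

theorem reach_mem (h : Eqv H H' τ τ' b b' C φ) {k u v : ℕ} (hu : u ∈ C)
    (huv : (H k).Reachable u v) : v ∈ C := by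
  obtain ⟨p⟩ := huv
  induction p with
  | nil => exact hu
  | cons h' _ ih => exact ih (h.closed k _ _ hu h')

theorem reach (h : Eqv H H' τ τ' b b' C φ) {k u v : ℕ} (hu : u ∈ C)
    (huv : (H k).Reachable u v) : (H' k).Reachable (φ u) (φ v) := by
  obtain ⟨p⟩ := huv
  induction p with
  | nil => exact SimpleGraph.Reachable.refl _
  | cons h' _ ih =>
    have hv := h.closed k _ _ hu h'
    exact ((h.adj k _ _ hu hv).1 h').reachable.trans (ih hv)

theorem reach' (h : Eqv H H' τ τ' b b' C φ) {k w w' : ℕ} (hww : (H' k).Reachable w w') :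
    ∀ u ∈ C, φ u = w → ∃ v ∈ C, φ v = w' ∧ (H k).Reachable u v := by
  obtain ⟨p⟩ := hww
  induction p with
  | nil => exact fun u hu hw => ⟨u, hu, hw, SimpleGraph.Reachable.refl _⟩
  | cons h' _ ih =>
    intro u hu hw
    subst hw
    obtain ⟨v, hv, hvw⟩ := h.closed' k u _ hu h'
    obtain ⟨z, hz, hz', hvz⟩ := ih v hv hvw
    refine ⟨z, hz, hz', ?_⟩
    have : (H k).Adj u v := (h.adj k u v hu hv).2 (hvw ▸ h')
    exact this.reachable.trans hvz

theorem cl_eq (h : Eqv H H' τ τ' b b' C φ) (k : ℕ) {u : ℕ} (hu : u ∈ C) :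
    cl (H' k) (φ u) = (cl (H k) u).image φ := by
  classical
  have hset : {w | (H' k).Reachable (φ u) w} = φ '' {w | (H k).Reachable u w} := by
    ext w
    constructor
    · intro hw
      obtain ⟨v, hv, hvw, huv⟩ := h.reach' hw u hu rfl
      exact ⟨v, huv, hvw⟩
    · rintro ⟨v, hv, rfl⟩
      exact h.reach hu hv
  have hinj : Set.InjOn φ {w | (H k).Reachable u w} := fun a ha c hc hac =>
    h.inj a (h.reach_mem hu ha) c (h.reach_mem hu hc) hac
  by_cases hf : {w | (H k).Reachable u w}.Finite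
  · have hf' : {w | (H' k).Reachable (φ u) w}.Finite := by
      rw [hset]
      exact hf.image φ
    ext w
    rw [mem_cl hf', Finset.mem_image]
    have : w ∈ {w | (H' k).Reachable (φ u) w} ↔ ∃ v, (H k).Reachable u v ∧ φ v = w := by
      rw [hset]
      exact Iff.rfl
    constructor
    · intro hw
      obtain ⟨v, hv, hvw⟩ := this.1 hw
      exact ⟨v, (mem_cl hf).2 hv, hvw⟩
    · rintro ⟨v, hv, hvw⟩
      exact this.2 ⟨v, (mem_cl hf).1 hv, hvw⟩
  · have hf' : ¬ {w | (H' k).Reachable (φ u) w}.Finite := by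
      rw [hset, Set.finite_image_iff hinj]
      exact hf
    unfold cl
    rw [dif_neg hf, dif_neg hf']
    rfl

theorem rk_eq (h : Eqv H H' τ τ' b b' C φ) (K : Finset ℕ) (hK : ∀ v ∈ K, v ∈ C) {v : ℕ}
    (hv : v ∈ C) : rk (ord τ' (K.image φ)) (φ v) = rk (ord τ K) v := by
  classical
  unfold rk
  symm
  refine Finset.card_bij (fun p _ => (φ p.1, φ p.2)) ?_ ?_ ?_
  · intro p hp
    simp only [ord, Finset.mem_filter, Finset.mem_product] at hp
    obtain ⟨⟨⟨h1, h2⟩, h3⟩, h4⟩ := hp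
    simp only [ord, Finset.mem_filter, Finset.mem_product]
    refine ⟨⟨⟨Finset.mem_image_of_mem _ h1, Finset.mem_image_of_mem _ h2⟩, ?_⟩, ?_⟩
    · rw [h.ties _ (hK _ h1), h.ties _ (hK _ h2)]
      exact h3
    · rw [h4]
  · intro p hp q hq hpq
    simp only [ord, Finset.mem_filter, Finset.mem_product] at hp hq
    simp only [Prod.mk.injEq] at hpq
    exact Prod.ext (h.inj _ (hK _ hp.1.1.1) _ (hK _ hq.1.1.1) hpq.1)
      (h.inj _ (hK _ hp.1.1.2) _ (hK _ hq.1.1.2) hpq.2)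
  · rintro ⟨q1, q2⟩ hq
    simp only [ord, Finset.mem_filter, Finset.mem_product, Finset.mem_image] at hq
    obtain ⟨⟨⟨⟨a, ha, rfl⟩, ⟨c, hc, rfl⟩⟩, h3⟩, h4⟩ := hq
    refine ⟨(a, c), ?_, rfl⟩
    simp only [ord, Finset.mem_filter, Finset.mem_product]
    refine ⟨⟨⟨ha, hc⟩, ?_⟩, ?_⟩
    · rw [h.ties _ (hK _ ha), h.ties _ (hK _ hc)] at h3
      exact h3
    · exact h.inj c (hK c hc) v hv h4

theorem ed_eq (h : Eqv H H' τ τ' b b' C φ) (k : ℕ) (K : Finset ℕ) (hK : ∀ v ∈ K, v ∈ C) :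
    ed (H' k) (K.image φ) = (ed (H k) K).image (Sym2.map φ) := by
  classical
  ext e
  rw [Finset.mem_image]
  constructor
  · intro he
    induction e using Sym2.ind with
    | _ x y =>
      obtain ⟨⟨hx, hy⟩, hxy⟩ := mem_ed.1 he
      obtain ⟨u, hu, rfl⟩ := Finset.mem_image.1 hx
      obtain ⟨v, hv, rfl⟩ := Finset.mem_image.1 hy
      exact ⟨s(u, v), mem_ed.2 ⟨⟨hu, hv⟩, (h.adj k u v (hK u hu) (hK v hv)).2 hxy⟩, rfl⟩
  · rintro ⟨e, he, rfl⟩
    induction e using Sym2.ind with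
    | _ u v =>
      obtain ⟨⟨hu, hv⟩, huv⟩ := mem_ed.1 he
      rw [Sym2.map_mk]
      exact mem_ed.2 ⟨⟨Finset.mem_image_of_mem _ hu, Finset.mem_image_of_mem _ hv⟩,
        (h.adj k u v (hK u hu) (hK v hv)).1 huv⟩

theorem im_eq (h : Eqv H H' τ τ' b b' C φ) (K : Finset ℕ) (hK : ∀ v ∈ K, v ∈ C)
    (E : Finset (Sym2 ℕ)) (hE : ∀ e ∈ E, ∀ v ∈ e, v ∈ K) :
    (E.image (Sym2.map φ)).image (Sym2.map (rk (ord τ' (K.image φ)))) =
      E.image (Sym2.map (rk (ord τ K))) := by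
  classical
  rw [Finset.image_image]
  refine Finset.image_congr ?_
  intro e he
  induction e using Sym2.ind with
  | _ u v =>
    have hu := hK u (hE _ he u (Sym2.mem_mk_left _ _))
    have hv := hK v (hE _ he v (Sym2.mem_mk_right _ _))
    simp only [Function.comp_apply, Sym2.map_mk, h.rk_eq K hK hu, h.rk_eq K hK hv]

theorem pc_eq (h : Eqv H H' τ τ' b b' C φ) (k : ℕ) (T T' : Set (Sym2 ℕ))
    (hT : ∀ u ∈ C, ∀ v ∈ C, (s(u, v) ∈ T ↔ s(φ u, φ v) ∈ T')) (K : Finset ℕ)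
    (hK : ∀ v ∈ K, v ∈ C) {u v : ℕ} (hu : u ∈ C) (hv : v ∈ C) :
    s(u, v) ∈ pc (H k) (H (k + 1)) τ (fun w => b (w, k)) T K ↔
      s(φ u, φ v) ∈ pc (H' k) (H' (k + 1)) τ' (fun w => b' (w, k)) T' (K.image φ) := by
  classical
  have hinjK : Set.InjOn φ (K : Set ℕ) := fun a ha c hc hac => h.inj a (hK a ha) c (hK c hc) hac
  have hfil : (ed (H' k) (K.image φ)).filter (fun e => e ∈ T') =
      ((ed (H k) K).filter (fun e => e ∈ T)).image (Sym2.map φ) := by
    rw [h.ed_eq k K hK, Finset.filter_image]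
    congr 1
    ext e
    rw [Finset.mem_filter, Finset.mem_filter]
    refine and_congr_right fun he => ?_
    induction e using Sym2.ind with
    | _ x y =>
      obtain ⟨⟨hx, hy⟩, -⟩ := mem_ed.1 he
      rw [Sym2.map_mk]
      exact (hT x (hK x hx) y (hK y hy)).symm
  have hcard : (trees (⊥ : Setoid ℕ) (ed (H' (k + 1)) (K.image φ))).card =
      (trees (⊥ : Setoid ℕ) (ed (H (k + 1)) K)).card := by
    rw [h.ed_eq (k + 1) K hK]
    exact trees_im_card φ K hinjK _ (fun e he => ed_mem he)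
  have hidx : ∀ N, idx (ord τ' (K.image φ)) (K.image φ) N (fun w => b' (w, k)) =
      idx (ord τ K) K N (fun w => b (w, k)) := by
    intro N
    unfold idx
    rw [Finset.sum_image hinjK]
    refine Finset.sum_congr rfl fun w hw => ?_
    rw [h.rk_eq K hK (hK w hw)]
    simp only [h.seeds w (hK w hw) k]
  have hmem : s(φ u, φ v) ∈ ed (H' (k + 1)) (K.image φ) ↔ s(u, v) ∈ ed (H (k + 1)) K := by
    rw [mem_ed, mem_ed, h.adj (k + 1) u v hu hv]
    refine and_congr_left fun _ => and_congr ?_ ?_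
    · constructor
      · intro h'
        obtain ⟨a, ha, hau⟩ := Finset.mem_image.1 h'
        rwa [← h.inj a (hK a ha) u hu hau]
      · exact fun h' => Finset.mem_image_of_mem _ h'
    · constructor
      · intro h'
        obtain ⟨a, ha, hau⟩ := Finset.mem_image.1 h'
        rwa [← h.inj a (hK a ha) v hv hau]
      · exact fun h' => Finset.mem_image_of_mem _ h'
  unfold pc res
  rw [Finset.mem_filter, Finset.mem_filter, hmem, hcard, hidx, hfil,
    h.ed_eq (k + 1) K hK, h.ed_eq k K hK, h.im_eq K hK _ (fun e he => ed_mem he),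
    h.im_eq K hK _ (fun e he => ed_mem he),
    h.im_eq K hK _ (fun e he => ed_mem (Finset.mem_filter.1 he).1), Sym2.map_mk, Sym2.map_mk,
    h.rk_eq K hK hu, h.rk_eq K hK hv]

theorem TT_eq (h : Eqv H H' τ τ' b b' C φ) : ∀ (k : ℕ), ∀ u ∈ C, ∀ v ∈ C,
    (s(u, v) ∈ TT H τ b k ↔ s(φ u, φ v) ∈ TT H' τ' b' k) := by
  intro k
  induction k with
  | zero =>
    intro u _ v _
    rw [TT_zero, TT_zero]
    simp
  | succ k ih =>
    intro u hu v hv
    rw [mem_TT_succ, mem_TT_succ]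
    have hmemK : ∀ (G G' : SimpleGraph ℕ) (q : ℕ → I) (c : ℕ → I) (T : Set (Sym2 ℕ)) (w x y : ℕ),
        s(x, y) ∈ pc G G' q c T (cl G' w) → G'.Reachable w x := by
      intro G G' q c T w x y hxy
      have h1 : s(x, y) ∈ ed G' (cl G' w) := by
        unfold pc res at hxy
        exact (Finset.mem_filter.1 hxy).1
      have h2 : x ∈ cl G' w := (mem_ed.1 h1).1.1
      have hfin : {z | G'.Reachable w z}.Finite := by
        by_contra hc
        unfold cl at h2
        rw [dif_neg hc] at h2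
        exact absurd h2 (Finset.notMem_empty _)
      exact (mem_cl hfin).1 h2
    constructor
    · rintro ⟨w, hw⟩
      have hwu := hmemK _ _ _ _ _ _ _ _ hw
      have hwC : w ∈ C := h.reach_mem hu hwu.symm
      refine ⟨φ w, ?_⟩
      rw [h.cl_eq (k + 1) hwC]
      refine (h.pc_eq k _ _ (fun x hx y hy => ih x hx y hy) _ ?_ hu hv).1 hw
      intro z hz
      by_cases hf : {z | (H (k + 1)).Reachable w z}.Finite
      · exact h.reach_mem hwC ((mem_cl hf).1 hz)
      · unfold cl at hz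
        rw [dif_neg hf] at hz
        exact absurd hz (Finset.notMem_empty _)
    · rintro ⟨w', hw'⟩
      have hwu := hmemK _ _ _ _ _ _ _ _ hw'
      obtain ⟨w, hwC, hw, -⟩ := h.reach' hwu.symm u hu rfl
      subst hw
      refine ⟨w, ?_⟩
      rw [h.cl_eq (k + 1) hwC] at hw'
      refine (h.pc_eq k _ _ (fun x hx y hy => ih x hx y hy) _ ?_ hu hv).2 hw'
      intro z hz
      by_cases hf : {z | (H (k + 1)).Reachable w z}.Finite
      · exact h.reach_mem hwC ((mem_cl hf).1 hz)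
      · unfold cl at hz
        rw [dif_neg hf] at hz
        exact absurd hz (Finset.notMem_empty _)

end Eqv

end Pool.Agent.NH99.WU
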