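import Pool.Agent.NH99.WU_Iso
import Pool.Agent.NH99.WU_Tree4
import Pool.Agent.NH99.WU_Tree2

/-!
# The random clusters
-/

set_option autoImplicit false
set_option linter.unusedSectionVars false

namespace Pool.Agent.NH99.WU

open Finset Pool.Agent.TH968.UST MeasureTheory
open scoped unitInterval ENNReal

/-- the vertex `u` is covered by the centre `c` at level `k` -/
def cov (G : SimpleGraph ℕ) (t : ℕ → ℕ) (a : ℕ × ℕ → I) (k c u : ℕ) : Prop :=
  ENNReal.ofReal (a (c, k + 1) : ℝ) < k * (vis G c (t k) u / t k)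

/-- the cluster graph of level `k` -/
def H0 (G : SimpleGraph ℕ) (t : ℕ → ℕ) (a : ℕ × ℕ → I) (k : ℕ) : SimpleGraph ℕ where
  Adj u v := G.Adj u v ∧ (∃ c, cov G t a k c u) ∧ ∀ c, cov G t a k c u ↔ cov G t a k c v
  symm := ⟨fun u v ⟨h1, ⟨c, hc⟩, h3⟩ => ⟨h1.symm, ⟨c, (h3 c).1 hc⟩, fun c => (h3 c).symm⟩⟩
  loopless := ⟨fun u h => G.loopless.irrefl u h.1⟩

/-- the increasing sequence of cluster graphs -/
def HH (G : SimpleGraph ℕ) (t : ℕ → ℕ) (a : ℕ × ℕ → I) (k : ℕ) : SimpleGraph ℕ where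
  Adj u v := ∀ m, k ≤ m → (H0 G t a m).Adj u v
  symm := ⟨fun _ _ h m hm => (h m hm).symm⟩
  loopless := ⟨fun u h => (H0 G t a k).loopless.irrefl u (h k le_rfl)⟩

variable {G : SimpleGraph ℕ} {t : ℕ → ℕ} {a : ℕ × ℕ → I}

theorem HH_mono : Monotone (HH G t a) := fun _ _ hk _ _ h m hm => h m (hk.trans hm)

theorem HH_le (k : ℕ) : HH G t a k ≤ H0 G t a k := fun _ _ h => h k le_rfl

theorem H0_le (k : ℕ) : H0 G t a k ≤ G := fun _ _ h => h.1

theorem HH_zero : HH G t a 0 = ⊥ := by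
  ext u v
  simp only [SimpleGraph.bot_adj, iff_false]
  intro h
  obtain ⟨-, ⟨c, hc⟩, -⟩ := h 0 le_rfl
  unfold cov at hc
  simp at hc

theorem cov_reach {k c u : ℕ} (h : cov G t a k c u) : vis G c (t k) u ≠ 0 := by
  intro h0
  unfold cov at h
  rw [h0] at h
  simp at h

theorem H0_fin {x0 : ℕ} (hl : LocFin G x0) (k : ℕ) {v : ℕ} (hv : G.Reachable x0 v) :
    {w | (H0 G t a k).Reachable v w}.Finite := by
  by_cases hc : ∃ c, cov G t a k c v
  · obtain ⟨c, hc⟩ := hc
    have hcv : G.Reachable c v := vis_ne_zero c _ _ (cov_reach hc)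
    have hlc : LocFin G c := fun w hw => hl w (hv.trans (hcv.symm.trans hw))
    refine (vis_supp hlc (t k)).subset ?_
    intro w hw
    have key : ∀ {x y : ℕ}, (H0 G t a k).Reachable x y → cov G t a k c x → cov G t a k c y := by
      rintro x y ⟨p⟩
      induction p with
      | nil => exact id
      | cons h' _ ih => exact fun hx => ih ((h'.2.2 c).1 hx)
    exact cov_reach (key hw hc)
  · refine (Set.finite_singleton v).subset ?_
    rintro w ⟨p⟩
    cases p with
    | nil => rfl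
    | cons h' _ => exact absurd h'.2.1 hc

theorem reach_mono {H H' : SimpleGraph ℕ} (h : H ≤ H') {u v : ℕ} (huv : H.Reachable u v) :
    H'.Reachable u v := huv.mono h

/-- the cluster graphs are good when the labels are distinct -/
theorem good_HH {x0 : ℕ} (hl : LocFin G x0) (ha : ∀ u v, a (u, 0) = a (v, 0) → u = v) :
    Good (HH G t a) (fun v => a (v, 0)) {u | G.Reachable x0 u} where
  mono := HH_mono
  zero := HH_zero
  closed k u v hu huv := hu.trans (H0_le k (HH_le k huv)).reachable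
  fin k v hv := (H0_fin hl k hv).subset fun w hw => reach_mono (HH_le k) hw
  inj u _ v _ h := ha u v h

/-! ### equivariance -/

variable {G' : SimpleGraph ℕ} {x x' : ℕ} {φ : ℕ → ℕ} {a' : ℕ × ℕ → I}

theorem cov_iso (h : CompIso G G' x x' φ)
    (ha : ∀ u, G.Reachable x u → ∀ k, a' (φ u, k) = a (u, k)) (k : ℕ) {c u : ℕ}
    (hc : G.Reachable x c) (hu : G.Reachable x u) :
    cov G' t a' k (φ c) (φ u) ↔ cov G t a k c u := by
  unfold cov
  rw [ha c hc, h.vis_iso hc (t k) u hu]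

theorem H0_iso (h : CompIso G G' x x' φ)
    (ha : ∀ u, G.Reachable x u → ∀ k, a' (φ u, k) = a (u, k)) (k : ℕ) {u v : ℕ}
    (hu : G.Reachable x u) (hv : G.Reachable x v) :
    (H0 G t a k).Adj u v ↔ (H0 G' t a' k).Adj (φ u) (φ v) := by
  have hex : ∀ {w}, G.Reachable x w → ∀ c', cov G' t a' k c' (φ w) →
      ∃ c, G.Reachable x c ∧ φ c = c' := by
    intro w hw c' hc'
    exact (h.surj c').1 ((h.reach hw).trans (vis_ne_zero c' _ _ (cov_reach hc')).symm)
  have hex2 : ∀ {w}, G.Reachable x w → ∀ c, cov G t a k c w → G.Reachable x c :=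
    fun hw c hc => hw.trans (vis_ne_zero c _ _ (cov_reach hc)).symm
  constructor
  · rintro ⟨h1, ⟨c, hc⟩, h3⟩
    refine ⟨(h.adj u v hu hv).1 h1, ⟨φ c, (cov_iso h ha k (hex2 hu c hc) hu).2 hc⟩, ?_⟩
    intro c'
    constructor
    · intro hc'
      obtain ⟨d, hd, rfl⟩ := hex hu c' hc'
      rw [cov_iso h ha k hd hv, ← h3 d]
      exact (cov_iso h ha k hd hu).1 hc'
    · intro hc'
      obtain ⟨d, hd, rfl⟩ := hex hv c' hc'
      rw [cov_iso h ha k hd hu, h3 d]
      exact (cov_iso h ha k hd hv).1 hc'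
  · rintro ⟨h1, ⟨c', hc'⟩, h3⟩
    obtain ⟨d, hd, rfl⟩ := hex hu c' hc'
    refine ⟨(h.adj u v hu hv).2 h1, ⟨d, (cov_iso h ha k hd hu).1 hc'⟩, ?_⟩
    intro c
    constructor
    · intro hc
      have hcr := hex2 hu c hc
      rw [← cov_iso h ha k hcr hv, ← h3 (φ c)]
      exact (cov_iso h ha k hcr hu).2 hc
    · intro hc
      have hcr := hex2 hv c hc
      rw [← cov_iso h ha k hcr hu, h3 (φ c)]
      exact (cov_iso h ha k hcr hv).2 hc

/-- the isomorphism of the cluster graphs -/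
theorem eqv_HH (h : CompIso G G' x x' φ)
    (ha : ∀ u, G.Reachable x u → ∀ k, a' (φ u, k) = a (u, k)) (b b' : ℕ × ℕ → I)
    (hb : ∀ u, G.Reachable x u → ∀ k, b' (φ u, k) = b (u, k)) :
    Eqv (HH G t a) (HH G' t a') (fun v => a (v, 0)) (fun v => a' (v, 0)) b b'
      {u | G.Reachable x u} φ where
  inj u hu v hv := h.inj u v hu hv
  closed k u v hu huv := hu.trans (H0_le k (HH_le k huv)).reachable
  adj k u v hu hv := by
    constructor
    · intro h' m hm
      exact (H0_iso h ha m hu hv).1 (h' m hm)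
    · intro h' m hm
      exact (H0_iso h ha m hu hv).2 (h' m hm)
  closed' k u w hu huw := by
    have h1 : G'.Adj (φ u) w := H0_le k (HH_le k huw)
    exact (h.surj w).1 ((h.reach hu).trans h1.reachable)
  ties u hu := ha u hu 0
  seeds u hu k := hb u hu k

/-! ### measurability -/

theorem cov_meas (t : ℕ → ℕ) (k c u : ℕ) :
    MeasurableSet {p : SimpleGraph ℕ × (ℕ × ℕ → I) | cov p.1 t p.2 k c u} := by
  unfold cov
  refine measurableSet_lt ?_ ?_
  · exact ENNReal.measurable_ofReal.comp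
      (measurable_subtype_coe.comp ((measurable_pi_apply (c, k + 1)).comp measurable_snd))
  · refine measurable_const.mul (Measurable.div ?_ measurable_const)
    exact (vis_meas c (t k) u).comp measurable_fst

theorem H0_meas (t : ℕ → ℕ) (k u v : ℕ) :
    MeasurableSet {p : SimpleGraph ℕ × (ℕ × ℕ → I) | (H0 p.1 t p.2 k).Adj u v} := by
  have h1 : MeasurableSet {p : SimpleGraph ℕ × (ℕ × ℕ → I) | p.1.Adj u v} :=
    measurable_fst (meas_adj u v)
  have h2 : MeasurableSet {p : SimpleGraph ℕ × (ℕ × ℕ → I) | ∃ c, cov p.1 t p.2 k c u} := by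
    have : {p : SimpleGraph ℕ × (ℕ × ℕ → I) | ∃ c, cov p.1 t p.2 k c u} =
        ⋃ c, {p | cov p.1 t p.2 k c u} := by
      ext p
      simp
    rw [this]
    exact MeasurableSet.iUnion fun c => cov_meas t k c u
  have h3 : MeasurableSet {p : SimpleGraph ℕ × (ℕ × ℕ → I) |
      ∀ c, cov p.1 t p.2 k c u ↔ cov p.1 t p.2 k c v} := by
    have : {p : SimpleGraph ℕ × (ℕ × ℕ → I) | ∀ c, cov p.1 t p.2 k c u ↔ cov p.1 t p.2 k c v} =
        ⋂ c, (({p | cov p.1 t p.2 k c u} ∩ {p | cov p.1 t p.2 k c v}) ∪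
          ({p | cov p.1 t p.2 k c u}ᶜ ∩ {p | cov p.1 t p.2 k c v}ᶜ)) := by
      ext p
      simp only [Set.mem_ofPred_eq, Set.mem_iInter, Set.mem_union, Set.mem_inter_iff,
        Set.mem_compl_iff]
      refine forall_congr' fun c => ?_
      tauto
    rw [this]
    refine MeasurableSet.iInter fun c => ?_
    exact ((cov_meas t k c u).inter (cov_meas t k c v)).union
      ((cov_meas t k c u).compl.inter (cov_meas t k c v).compl)
  exact h1.inter (h2.inter h3)

theorem HH_meas (t : ℕ → ℕ) (k u v : ℕ) :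
    MeasurableSet {p : SimpleGraph ℕ × (ℕ × ℕ → I) | (HH p.1 t p.2 k).Adj u v} := by
  have : {p : SimpleGraph ℕ × (ℕ × ℕ → I) | (HH p.1 t p.2 k).Adj u v} =
      ⋂ m, ⋂ (_ : k ≤ m), {p | (H0 p.1 t p.2 m).Adj u v} := by
    ext p
    simp only [Set.mem_ofPred_eq, Set.mem_iInter]
    exact Iff.rfl
  rw [this]
  exact MeasurableSet.iInter fun m => MeasurableSet.iInter fun _ => H0_meas t m u v

end Pool.Agent.NH99.WU
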