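import Pool.Agent.NH99.WU_Tree2

/-!
# The law of the forests
-/

set_option autoImplicit false
set_option linter.unusedSectionVars false

namespace Pool.Agent.NH99.WU

open Finset Pool.Agent.TH968.UST Pool.Agent.TH830.UST MeasureTheory ProbabilityTheory
open scoped unitInterval ENNReal

/-- i.i.d. uniform seeds -/
noncomputable def QQ : Measure (ℕ × ℕ → I) := Measure.infinitePi fun _ => volume

instance : IsProbabilityMeasure QQ := by unfold QQ; infer_instance

/-- independence of events depending on disjoint sets of coordinates -/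
theorem QQ_indep (S S' : Finset (ℕ × ℕ)) (hS : Disjoint S S') (A B : Set (ℕ × ℕ → I))
    (hA : MeasurableSet A) (hB : MeasurableSet B)
    (hdA : ∀ b b' : ℕ × ℕ → I, (∀ p ∈ S, b p = b' p) → (b ∈ A ↔ b' ∈ A))
    (hdB : ∀ b b' : ℕ × ℕ → I, (∀ p ∈ S', b p = b' p) → (b ∈ B ↔ b' ∈ B)) :
    QQ (A ∩ B) = QQ A * QQ B := by
  classical
  have hind : iIndepFun (fun (p : ℕ × ℕ) (b : ℕ × ℕ → I) => b p) QQ :=
    iIndepFun_infinitePi (P := fun _ : ℕ × ℕ => (volume : Measure I)) (X := fun _ x => x)
      (fun _ => measurable_id)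
  have h2 := hind.indepFun_finset S S' hS (fun p => measurable_pi_apply p)
  let ext : (S : Finset (ℕ × ℕ)) → (S → I) → (ℕ × ℕ → I) := fun S x p =>
    if h : p ∈ S then x ⟨p, h⟩ else 0
  have hext : ∀ S : Finset (ℕ × ℕ), Measurable (ext S) := by
    intro S
    rw [measurable_pi_iff]
    intro p
    by_cases h : p ∈ S
    · simp only [ext, dif_pos h]
      exact measurable_pi_apply _
    · simp only [ext, dif_neg h]
      exact measurable_const
  have hpre : ∀ (S : Finset (ℕ × ℕ)) (A : Set (ℕ × ℕ → I)),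
      (∀ b b' : ℕ × ℕ → I, (∀ p ∈ S, b p = b' p) → (b ∈ A ↔ b' ∈ A)) →
      A = (fun (b : ℕ × ℕ → I) (i : S) => b i) ⁻¹' (ext S ⁻¹' A) := by
    intro S A hd
    ext b
    rw [Set.mem_preimage, Set.mem_preimage]
    refine hd _ _ fun p hp => ?_
    simp only [ext, dif_pos hp]
  have h3 := h2.measure_inter_preimage_eq_mul (ext S ⁻¹' A) (ext S' ⁻¹' B) (hext S hA) (hext S' hB)
  rwa [← hpre S A hdA, ← hpre S' B hdB] at h3

theorem vol_floor (N j : ℕ) (hj : j < N) :
    (volume : Measure I) {x | min (N - 1) ⌊(N : ℝ) * (x : ℝ)⌋₊ = j} = (N : ℝ≥0∞)⁻¹ := by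
  have hN : 0 < (N : ℝ) := by
    have : 0 < N := by omega
    exact_mod_cast this
  have hNE : (N : ℝ≥0∞)⁻¹ = ENNReal.ofReal (1 / N) := by
    rw [one_div, ENNReal.ofReal_inv_of_pos hN, ENNReal.ofReal_natCast]
  rw [unitInterval.volume_apply, hNE]
  by_cases hj' : j = N - 1
  · have : Subtype.val '' {x : I | min (N - 1) ⌊(N : ℝ) * (x : ℝ)⌋₊ = j} =
        Set.Icc ((j : ℝ) / N) 1 := by
      ext y
      simp only [Set.mem_image, Set.mem_ofPred_eq, Set.mem_Icc]
      constructor
      · rintro ⟨x, hx, rfl⟩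
        refine ⟨?_, x.2.2⟩
        have h1 : j ≤ ⌊(N : ℝ) * (x : ℝ)⌋₊ := by omega
        have h2 := (Nat.le_floor_iff (mul_nonneg hN.le x.2.1)).1 h1
        rw [div_le_iff₀ hN]
        linarith
      · rintro ⟨h1, h2⟩
        have h0 : 0 ≤ y := le_trans (by positivity) h1
        refine ⟨⟨y, h0, h2⟩, ?_, rfl⟩
        have h3 : j ≤ ⌊(N : ℝ) * y⌋₊ := by
          rw [Nat.le_floor_iff (mul_nonneg hN.le h0)]
          rw [div_le_iff₀ hN] at h1
          linarith
        show min (N - 1) ⌊(N : ℝ) * y⌋₊ = j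
        omega
    rw [this, Real.volume_Icc]
    congr 1
    have : (j : ℝ) = N - 1 := by
      rw [hj', Nat.cast_sub (by omega)]
      simp
    rw [this]
    field_simp
    ring
  · have : Subtype.val '' {x : I | min (N - 1) ⌊(N : ℝ) * (x : ℝ)⌋₊ = j} =
        Set.Ico ((j : ℝ) / N) ((j + 1) / N) := by
      ext y
      simp only [Set.mem_image, Set.mem_ofPred_eq, Set.mem_Ico]
      constructor
      · rintro ⟨x, hx, rfl⟩
        have h1 : ⌊(N : ℝ) * (x : ℝ)⌋₊ = j := by omega
        have h2 := (Nat.floor_eq_iff (mul_nonneg hN.le x.2.1)).1 h1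
        rw [div_le_iff₀ hN, lt_div_iff₀ hN]
        constructor <;> linarith [h2.1, h2.2]
      · rintro ⟨h1, h2⟩
        have h0 : 0 ≤ y := le_trans (by positivity) h1
        rw [div_le_iff₀ hN] at h1
        rw [lt_div_iff₀ hN] at h2
        have hy1 : y ≤ 1 := by
          by_contra hc
          push Not at hc
          have : (j : ℝ) + 1 ≤ N := by exact_mod_cast hj
          nlinarith
        refine ⟨⟨y, h0, hy1⟩, ?_, rfl⟩
        have h3 : ⌊(N : ℝ) * y⌋₊ = j := by
          rw [Nat.floor_eq_iff (mul_nonneg hN.le h0)]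
          constructor <;> linarith
        show min (N - 1) ⌊(N : ℝ) * y⌋₊ = j
        omega
    rw [this, Real.volume_Ico]
    congr 1
    field_simp
    ring

/-- counting the preimages of a tree in one step -/
theorem res_count {O : Finset (ℕ × ℕ)} {K : Finset ℕ} (hO : Set.InjOn (rk O) (K : Set ℕ))
    {E' E : Finset (Sym2 ℕ)} (hE : ∀ e ∈ E, ∀ v ∈ e, v ∈ K) (hEE : E' ⊆ E) {T : Finset (Sym2 ℕ)}
    (hT : T ∈ trees ⊥ E) :
    (((trees ⊥ E') ×ˢ range (trees (⊥ : Setoid ℕ) E).card).filter
      (fun p => res O E' E p.1 p.2 = T)).card = (trees (⊥ : Setoid ℕ) E').card := by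
  set m := Sym2.map (rk O) with hm
  have hE' : ∀ e ∈ E', ∀ v ∈ e, v ∈ K := fun e he => hE e (hEE he)
  have hsub : E'.image m ⊆ E.image m := Finset.image_subset_image hEE
  have hT' : T.image m ∈ trees ⊥ (E.image m) :=
    (mem_trees_im (rk O) K hO E T hE (mem_trees.1 hT).1).2 hT
  have h := (kap_spec hsub).2 _ hT'
  have hc1 : (trees (⊥ : Setoid ℕ) (E.image m)).card = (trees (⊥ : Setoid ℕ) E).card :=
    trees_im_card (rk O) K hO E hE
  have hc2 : (trees (⊥ : Setoid ℕ) (E'.image m)).card = (trees (⊥ : Setoid ℕ) E').card :=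
    trees_im_card (rk O) K hO E' hE'
  rw [hc1, hc2] at h
  rw [← h]
  have hinjE : ∀ A B : Finset (Sym2 ℕ), A ⊆ E → B ⊆ E → A.image m = B.image m → A = B := by
    intro A B hA hB hAB
    have h2 : Set.InjOn m (E : Set (Sym2 ℕ)) := (injOn_map hO).mono (fun e he => hE e he)
    apply Finset.coe_injective
    have h3 : m '' (A : Set (Sym2 ℕ)) = m '' (B : Set (Sym2 ℕ)) := by
      rw [← Finset.coe_image, ← Finset.coe_image, hAB]
    exact (h2.image_eq_image_iff (Finset.coe_subset.2 hA) (Finset.coe_subset.2 hB)).1 h3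
  refine Finset.card_bij (fun p _ => (p.1.image m, p.2)) ?_ ?_ ?_
  · intro p hp
    rw [Finset.mem_filter, Finset.mem_product] at hp
    obtain ⟨⟨hp1, hp2⟩, hp3⟩ := hp
    rw [Finset.mem_filter, Finset.mem_product]
    refine ⟨⟨?_, hp2⟩, ?_⟩
    · exact (mem_trees_im (rk O) K hO E' p.1 hE' (mem_trees.1 hp1).1).2 hp1
    · have := (res_spec hO hE hEE hp1 (Finset.mem_range.1 hp2)).1
      rw [hp3] at this
      exact this.symm
  · intro p hp q hq hpq
    rw [Finset.mem_filter, Finset.mem_product] at hp hq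
    simp only [Prod.mk.injEq] at hpq
    refine Prod.ext ?_ hpq.2
    exact hinjE _ _ ((mem_trees.1 hp.1.1).1.trans hEE) ((mem_trees.1 hq.1.1).1.trans hEE) hpq.1
  · intro q hq
    rw [Finset.mem_filter, Finset.mem_product] at hq
    obtain ⟨⟨hq1, hq2⟩, hq3⟩ := hq
    rw [hm, trees_im (rk O) K hO E' hE'] at hq1
    obtain ⟨S, hS, hSq⟩ := Finset.mem_image.1 hq1
    refine ⟨(S, q.2), ?_, Prod.ext hSq rfl⟩
    rw [Finset.mem_filter, Finset.mem_product]
    refine ⟨⟨hS, hq2⟩, ?_⟩
    have h4 := res_spec hO hE hEE hS (Finset.mem_range.1 hq2)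
    refine hinjE _ _ (mem_trees.1 h4.2.1).1 (mem_trees.1 hT).1 ?_
    rw [h4.1, hSq]
    exact hq3

variable {H : ℕ → SimpleGraph ℕ} {τ : ℕ → I} {C : Set ℕ}

theorem tr_meas (H : ℕ → SimpleGraph ℕ) (τ : ℕ → I) (k : ℕ) (K : Finset ℕ)
    (T : Finset (Sym2 ℕ)) : MeasurableSet {b : ℕ × ℕ → I | tr H τ b k K = T} :=
  tr_cm (Ω := ℕ × ℕ → I) (H := fun _ => H) (τ := fun _ => τ) (b := fun b => b)
    (fun _ _ _ => MeasurableSet.const _) (fun _ => measurable_const)
    (fun p => measurable_pi_apply p) k K T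

/-- the forest is uniformly distributed -/
theorem tr_unif (hg : Good H τ C) : ∀ (k : ℕ) (K : Finset ℕ), (∀ v ∈ K, v ∈ C) →
    Cls (H k) K → ∀ T ∈ trees (⊥ : Setoid ℕ) (ed (H k) K), QQ {b | tr H τ b k K = T} =
      ((trees (⊥ : Setoid ℕ) (ed (H k) K)).card : ℝ≥0∞)⁻¹ := by
  have hbase : ∀ (f : (ℕ × ℕ → I) → Finset (Sym2 ℕ)) (E : Finset (Sym2 ℕ)), E = ∅ →
      (∀ b, f b = ∅) → ∀ T ∈ trees (⊥ : Setoid ℕ) E, QQ {b | f b = T} =
      ((trees (⊥ : Setoid ℕ) E).card : ℝ≥0∞)⁻¹ := by
    intro f E hE hf T hT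
    subst hE
    have h1 : T = ∅ := Finset.subset_empty.1 (mem_trees.1 hT).1
    have h2 : trees (⊥ : Setoid ℕ) ∅ = {∅} := by
      ext S
      rw [Finset.mem_singleton]
      constructor
      · intro hS
        exact Finset.subset_empty.1 (mem_trees.1 hS).1
      · rintro rfl
        exact empty_mem_trees
    rw [h2, h1]
    simp [hf]
  intro k
  induction k with
  | zero =>
    intro K _ _
    refine hbase _ _ ?_ (fun b => tr_zero b K)
    ext e
    induction e using Sym2.ind with
    | _ a b' =>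
      rw [mem_ed, hg.zero]
      simp
  | succ k ih =>
    refine closed_induction hg (k + 1) (fun K => ∀ T ∈ trees (⊥ : Setoid ℕ) (ed (H (k + 1)) K),
      QQ {b | tr H τ b (k + 1) K = T} =
        ((trees (⊥ : Setoid ℕ) (ed (H (k + 1)) K)).card : ℝ≥0∞)⁻¹) ?_ ?_ ?_
    · exact hbase _ _ (ed_empty _) (fun b => tr_empty b (k + 1))
    · intro v hv T hT
      set K := cl (H (k + 1)) v with hK
      have hle : H k ≤ H (k + 1) := hg.mono (Nat.le_succ k)
      have hinj : ∀ u ∈ K, ∀ w ∈ K, τ u = τ w → u = w :=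
        fun u hu w hw => hg.inj u (cl_sub hg hv u hu) w (cl_sub hg hv w hw)
      have hKC : ∀ w ∈ K, w ∈ C := cl_sub hg hv
      have hcls : Cls (H k) K := (cls_cl hg hv).mono hle
      set E := ed (H (k + 1)) K with hE
      set E' := ed (H k) K with hE'
      set N := (trees (⊥ : Setoid ℕ) E).card with hN
      set n' := (trees (⊥ : Setoid ℕ) E').card with hn'
      set O := ord τ K with hO
      have hOinj : Set.InjOn (rk O) (K : Set ℕ) := rk_inj hinj
      have hEK : ∀ e ∈ E, ∀ v ∈ e, v ∈ K := fun e he => ed_mem he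
      have hEE : E' ⊆ E := ed_mono hle K
      obtain ⟨z, hz, hz0⟩ := rk_zero (τ := τ) ⟨v, self_cl hg (k := k + 1) hv⟩
      have hidx : ∀ b : ℕ × ℕ → I, idx O K N (fun w => b (w, k)) =
          min (N - 1) ⌊(N : ℝ) * (b (z, k) : ℝ)⌋₊ := fun b => idx_eq hOinj hz hz0 N _
      have hNpos : 0 < N := trees_pos E
      have hn'pos : 0 < n' := trees_pos E'
      set P := ((trees (⊥ : Setoid ℕ) E') ×ˢ range N).filter
        (fun p => res O E' E p.1 p.2 = T) with hP
      have hPc : P.card = n' := res_count hOinj hEK hEE hT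
      have hset : {b | tr H τ b (k + 1) K = T} = ⋃ p ∈ P, ({b | tr H τ b k K = p.1} ∩
          {b | min (N - 1) ⌊(N : ℝ) * (b (z, k) : ℝ)⌋₊ = p.2}) := by
        ext b
        simp only [Set.mem_ofPred_eq, Set.mem_iUnion, Set.mem_inter_iff]
        rw [hK, tr_cl hg b hv, ← hK, ← hE, ← hE', ← hO, ← hN, hidx b]
        constructor
        · intro h
          refine ⟨(tr H τ b k K, min (N - 1) ⌊(N : ℝ) * (b (z, k) : ℝ)⌋₊), ?_, rfl, rfl⟩
          rw [hP, Finset.mem_filter, Finset.mem_product]
          refine ⟨⟨tr_mem hg b k K hKC hcls, ?_⟩, h⟩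
          rw [Finset.mem_range]
          have := min_le_left (N - 1) ⌊(N : ℝ) * (b (z, k) : ℝ)⌋₊
          omega
        · rintro ⟨p, hp, h1, h2⟩
          rw [hP, Finset.mem_filter] at hp
          rw [h1, h2]
          exact hp.2
      rw [hset, measure_biUnion_finset]
      · have hterm : ∀ p ∈ P, QQ ({b | tr H τ b k K = p.1} ∩
            {b | min (N - 1) ⌊(N : ℝ) * (b (z, k) : ℝ)⌋₊ = p.2}) =
              (n' : ℝ≥0∞)⁻¹ * (N : ℝ≥0∞)⁻¹ := by
          intro p hp
          rw [hP, Finset.mem_filter, Finset.mem_product] at hp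
          have hms : MeasurableSet {x : I | min (N - 1) ⌊(N : ℝ) * (x : ℝ)⌋₊ = p.2} := by
            have : Measurable fun x : I => min (N - 1) ⌊(N : ℝ) * (x : ℝ)⌋₊ :=
              measurable_const.min (measurable_const.mul measurable_subtype_coe).nat_floor
            exact this (MeasurableSet.of_discrete (s := {p.2}))
          have hpm : Measurable (fun b : ℕ × ℕ → I => b (z, k)) := measurable_pi_apply (z, k)
          rw [QQ_indep (K ×ˢ range k) (K ×ˢ {k}) ?_ _ _ (tr_meas H τ k K p.1) ?_ ?_ ?_,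
            ih K hKC hcls p.1 hp.1.1]
          · congr 1
            have h1 : QQ {b | min (N - 1) ⌊(N : ℝ) * (b (z, k) : ℝ)⌋₊ = p.2} =
                (QQ.map (fun b => b (z, k))) {x | min (N - 1) ⌊(N : ℝ) * (x : ℝ)⌋₊ = p.2} := by
              rw [Measure.map_apply hpm hms]
              rfl
            rw [h1]
            have h2 : QQ.map (fun b => b (z, k)) = (volume : Measure I) :=
              Measure.infinitePi_map_eval (fun _ : ℕ × ℕ => (volume : Measure I)) (z, k)
            rw [h2]
            exact vol_floor N p.2 (Finset.mem_range.1 hp.1.2)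
          · rw [Finset.disjoint_left]
            rintro ⟨a, c⟩ h1 h2
            rw [Finset.mem_product] at h1 h2
            have h3 := Finset.mem_range.1 h1.2
            have h4 := Finset.mem_singleton.1 h2.2
            simp only at h3 h4
            omega
          · exact hpm hms
          · intro b b' hbb
            have := tr_dep hg b b' k K hKC hcls (fun w hw j hj => hbb (w, j)
              (Finset.mem_product.2 ⟨hw, Finset.mem_range.2 hj⟩))
            simp only [Set.mem_ofPred_eq, this]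
          · intro b b' hbb
            have := hbb (z, k) (Finset.mem_product.2 ⟨hz, Finset.mem_singleton_self _⟩)
            simp only [Set.mem_ofPred_eq, this]
        rw [Finset.sum_congr rfl hterm, Finset.sum_const, hPc, nsmul_eq_mul, ← mul_assoc,
          ENNReal.mul_inv_cancel (by exact_mod_cast hn'pos.ne') (ENNReal.natCast_ne_top _), one_mul]
      · intro p hp q hq hpq
        rw [Function.onFun, Set.disjoint_left]
        rintro b ⟨h1, h2⟩ ⟨h3, h4⟩
        exact hpq (Prod.ext (h1.symm.trans h3) (h2.symm.trans h4))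
      · intro p hp
        refine (tr_meas H τ k K p.1).inter ?_
        have : Measurable fun b : ℕ × ℕ → I => min (N - 1) ⌊(N : ℝ) * (b (z, k) : ℝ)⌋₊ :=
          measurable_const.min (measurable_const.mul
            (measurable_subtype_coe.comp (measurable_pi_apply _))).nat_floor
        exact this (MeasurableSet.of_discrete (s := {p.2}))
    · intro K1 K2 hC1 hC2 h1 h2 hd hP1 hP2 T hT
      have q1 : ∀ e ∈ ed (H (k + 1)) K1, ∀ v ∈ e, v ∈ (K1 : Set ℕ) :=
        fun e he v hv => ed_mem he v hv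
      have q2 : ∀ e ∈ ed (H (k + 1)) K2, ∀ v ∈ e, v ∉ (K1 : Set ℕ) :=
        fun e he v hv hv1 => Finset.disjoint_left.1 hd hv1 (ed_mem he v hv)
      rw [ed_union h1 h2] at hT ⊢
      rw [trees_union_card q1 q2]
      have hTe := (mem_trees.1 hT).1
      have hTT : (T ∩ ed (H (k + 1)) K1) ∪ (T ∩ ed (H (k + 1)) K2) = T := by
        rw [← Finset.inter_union_distrib_left, Finset.inter_eq_left.2 hTe]
      have hT12 := (mem_trees_union q1 q2 (Finset.inter_subset_right (s₁ := T))
        (Finset.inter_subset_right (s₁ := T))).1 (hTT.symm ▸ hT)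
      have hdisj : Disjoint (ed (H (k + 1)) K1) (ed (H (k + 1)) K2) := by
        rw [Finset.disjoint_left]
        intro e he1 he2
        induction e using Sym2.ind with
        | _ a b => exact q2 _ he2 a (Sym2.mem_mk_left _ _) (q1 _ he1 a (Sym2.mem_mk_left _ _))
      have hset : {b | tr H τ b (k + 1) (K1 ∪ K2) = T} =
          {b | tr H τ b (k + 1) K1 = T ∩ ed (H (k + 1)) K1} ∩
            {b | tr H τ b (k + 1) K2 = T ∩ ed (H (k + 1)) K2} := by
        ext b
        simp only [Set.mem_ofPred_eq, Set.mem_inter_iff]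
        rw [tr_union h1 h2]
        constructor
        · intro h
          have s1 : tr H τ b (k + 1) K1 ⊆ ed (H (k + 1)) K1 := fun e he => (mem_tr.1 he).1
          have s2 : tr H τ b (k + 1) K2 ⊆ ed (H (k + 1)) K2 := fun e he => (mem_tr.1 he).1
          rw [← h]
          constructor
          · ext e
            simp only [Finset.mem_inter, Finset.mem_union]
            constructor
            · intro he
              exact ⟨Or.inl he, s1 he⟩
            · rintro ⟨he | he, he'⟩
              · exact he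
              · exact absurd (s2 he) (Finset.disjoint_left.1 hdisj he')
          · ext e
            simp only [Finset.mem_inter, Finset.mem_union]
            constructor
            · intro he
              exact ⟨Or.inr he, s2 he⟩
            · rintro ⟨he | he, he'⟩
              · exact absurd he' (Finset.disjoint_left.1 hdisj (s1 he))
              · exact he
        · rintro ⟨e1, e2⟩
          rw [e1, e2, hTT]
      rw [hset, QQ_indep (K1 ×ˢ range (k + 1)) (K2 ×ˢ range (k + 1)) ?_ _ _
        (tr_meas H τ (k + 1) K1 _) (tr_meas H τ (k + 1) K2 _) ?_ ?_, hP1 _ hT12.1, hP2 _ hT12.2]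
      · push_cast
        rw [ENNReal.mul_inv]
        · left
          exact_mod_cast (trees_pos _).ne'
        · left
          exact ENNReal.natCast_ne_top _
      · rw [Finset.disjoint_left]
        rintro ⟨a, c⟩ g1 g2
        rw [Finset.mem_product] at g1 g2
        exact Finset.disjoint_left.1 hd g1.1 g2.1
      · intro b b' hbb
        have := tr_dep hg b b' (k + 1) K1 hC1 h1 (fun w hw j hj => hbb (w, j)
          (Finset.mem_product.2 ⟨hw, Finset.mem_range.2 hj⟩))
        simp only [Set.mem_ofPred_eq, this]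
      · intro b b' hbb
        have := tr_dep hg b b' (k + 1) K2 hC2 h2 (fun w hw j hj => hbb (w, j)
          (Finset.mem_product.2 ⟨hw, Finset.mem_range.2 hj⟩))
        simp only [Set.mem_ofPred_eq, this]

end Pool.Agent.NH99.WU
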