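import Pool.Agent.NH99.WU_Exh1
import Pool.Agent.NH99.WU_Tree3

/-!
# The random clusters exhaust the graph
-/

set_option autoImplicit false
set_option linter.unusedSectionVars false

namespace Pool.Agent.NH99.WU

open Finset Pool.Agent.TH968.UST MeasureTheory Filter Topology
open scoped unitInterval ENNReal

theorem vol_cov (α β : ℝ≥0∞) :
    (volume : Measure I) {x | ENNReal.ofReal (x : ℝ) < α ∧ ¬ ENNReal.ofReal (x : ℝ) < β} ≤ α - β := by
  by_cases hαβ : α ≤ β
  · have : {x : I | ENNReal.ofReal (x : ℝ) < α ∧ ¬ ENNReal.ofReal (x : ℝ) < β} = ∅ := by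
      ext x
      simp only [Set.mem_ofPred_eq, Set.mem_empty_iff_false, iff_false]
      rintro ⟨h1, h2⟩
      exact h2 (h1.trans_le hαβ)
    rw [this, measure_empty]
    exact bot_le
  · push Not at hαβ
    have hβ : β ≠ ⊤ := ne_top_of_lt hαβ
    by_cases hα : α = ⊤
    · rw [hα, ENNReal.top_sub hβ]
      exact le_top
    · rw [unitInterval.volume_apply]
      have hsub : Subtype.val '' {x : I | ENNReal.ofReal (x : ℝ) < α ∧
          ¬ ENNReal.ofReal (x : ℝ) < β} ⊆ Set.Ico β.toReal α.toReal := by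
        rintro y ⟨x, ⟨h1, h2⟩, rfl⟩
        push Not at h2
        constructor
        · exact ENNReal.toReal_le_of_le_ofReal x.2.1 h2
        · exact (ENNReal.ofReal_lt_iff_lt_toReal x.2.1 hα).1 h1
      refine (measure_mono hsub).trans ?_
      rw [Real.volume_Ico, ENNReal.ofReal_sub _ ENNReal.toReal_nonneg, ENNReal.ofReal_toReal hα,
        ENNReal.ofReal_toReal hβ]

theorem vol_unc (s : ℝ≥0∞) :
    (volume : Measure I) {x | ¬ ENNReal.ofReal (x : ℝ) < s} ≤
      ENNReal.ofReal (Real.exp (-s.toReal)) := by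
  rw [unitInterval.volume_apply]
  have hsub : Subtype.val '' {x : I | ¬ ENNReal.ofReal (x : ℝ) < s} ⊆ Set.Icc s.toReal 1 := by
    rintro y ⟨x, h2, rfl⟩
    have h2' : s ≤ ENNReal.ofReal (x : ℝ) := not_lt.1 h2
    exact ⟨ENNReal.toReal_le_of_le_ofReal x.2.1 h2', x.2.2⟩
  refine (measure_mono hsub).trans ?_
  rw [Real.volume_Icc]
  refine ENNReal.ofReal_le_ofReal ?_
  have := Real.add_one_le_exp (-s.toReal)
  linarith

variable {G : SimpleGraph ℕ} {t : ℕ → ℕ}

theorem cov_meas' (G : SimpleGraph ℕ) (t : ℕ → ℕ) (k c u : ℕ) :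
    MeasurableSet {a : ℕ × ℕ → I | cov G t a k c u} := by
  have : Measurable fun a : ℕ × ℕ → I => (G, a) := measurable_const.prodMk measurable_id
  exact this (cov_meas t k c u)

theorem QQ_eval (p : ℕ × ℕ) {s : Set I} (hs : MeasurableSet s) :
    QQ {a | a p ∈ s} = (volume : Measure I) s := by
  have hpm : Measurable (fun b : ℕ × ℕ → I => b p) := measurable_pi_apply p
  have h1 : QQ {a | a p ∈ s} = (QQ.map (fun b => b p)) s := by
    rw [Measure.map_apply hpm hs]
    rfl
  rw [h1]
  have h2 : QQ.map (fun b => b p) = (volume : Measure I) :=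
    Measure.infinitePi_map_eval (fun _ : ℕ × ℕ => (volume : Measure I)) p
  rw [h2]

theorem ofReal_lt_meas (s : ℝ≥0∞) : MeasurableSet {x : I | ENNReal.ofReal (x : ℝ) < s} :=
  measurableSet_lt (ENNReal.measurable_ofReal.comp measurable_subtype_coe) measurable_const

/-- a vertex is covered with high probability -/
theorem unc_prob {u : ℕ} (k : ℕ) (ht : t k ≠ 0) (hu : ∑' c, vis G c (t k) u = t k) :
    QQ {a | ∀ c, ¬ cov G t a k c u} ≤ ENNReal.ofReal (Real.exp (-(k : ℝ) / 2)) := by
  classical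
  have ht0 : ((t k : ℕ) : ℝ≥0∞) ≠ 0 := by exact_mod_cast ht
  have htt : ((t k : ℕ) : ℝ≥0∞) ≠ ⊤ := ENNReal.natCast_ne_top _
  set f : ℕ → ℝ≥0∞ := fun c => vis G c (t k) u / t k with hf
  have hsum : ∑' c, f c = 1 := by
    rw [hf]
    simp only [div_eq_mul_inv]
    rw [ENNReal.tsum_mul_right, hu, ENNReal.mul_inv_cancel ht0 htt]
  have hf1 : ∀ c, f c ≤ 1 := fun c => hsum ▸ ENNReal.le_tsum c
  have hft : ∀ c, f c ≠ ⊤ := fun c => ne_top_of_le_ne_top ENNReal.one_ne_top (hf1 c)
  obtain ⟨S, hS⟩ : ∃ S : Finset ℕ, (2 : ℝ≥0∞)⁻¹ < ∑ c ∈ S, f c := by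
    rw [ENNReal.tsum_eq_iSup_sum] at hsum
    have h2 : (2 : ℝ≥0∞)⁻¹ < 1 := by
      rw [ENNReal.inv_lt_one]
      exact ENNReal.one_lt_two
    rw [← hsum] at h2
    exact lt_iSup_iff.1 h2
  have hsub : {a : ℕ × ℕ → I | ∀ c, ¬ cov G t a k c u} ⊆
      Set.pi ((S.image fun c => (c, k + 1) : Finset (ℕ × ℕ)) : Set (ℕ × ℕ))
        (fun p => {x : I | ¬ ENNReal.ofReal (x : ℝ) < k * f p.1}) := by
    intro a ha p hp
    obtain ⟨c, _, rfl⟩ := Finset.mem_image.1 (Finset.mem_coe.1 hp)
    exact ha c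
  refine (measure_mono hsub).trans ?_
  have hpi : QQ (Set.pi ((S.image fun c => (c, k + 1) : Finset (ℕ × ℕ)) : Set (ℕ × ℕ))
      (fun p => {x : I | ¬ ENNReal.ofReal (x : ℝ) < k * f p.1})) =
      ∏ p ∈ (S.image fun c => (c, k + 1) : Finset (ℕ × ℕ)),
        (volume : Measure I) {x : I | ¬ ENNReal.ofReal (x : ℝ) < k * f p.1} := by
    unfold QQ
    exact Measure.infinitePi_pi _ (fun p _ => (ofReal_lt_meas _).compl)
  rw [hpi, Finset.prod_image (fun c _ d _ h => by simpa using h)]
  calc ∏ c ∈ S, (volume : Measure I) {x : I | ¬ ENNReal.ofReal (x : ℝ) < k * f c}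
      ≤ ∏ c ∈ S, ENNReal.ofReal (Real.exp (-((k : ℝ≥0∞) * f c).toReal)) :=
        Finset.prod_le_prod' fun c _ => vol_unc _
    _ = ENNReal.ofReal (∏ c ∈ S, Real.exp (-((k : ℝ≥0∞) * f c).toReal)) :=
        (ENNReal.ofReal_prod_of_nonneg fun c _ => (Real.exp_pos _).le).symm
    _ ≤ ENNReal.ofReal (Real.exp (-(k : ℝ) / 2)) := by
        refine ENNReal.ofReal_le_ofReal ?_
        rw [← Real.exp_sum, Real.exp_le_exp, Finset.sum_neg_distrib]
        have h1 : ∑ c ∈ S, ((k : ℝ≥0∞) * f c).toReal = (k : ℝ) * (∑ c ∈ S, f c).toReal := by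
          rw [ENNReal.toReal_sum (fun c _ => hft c), Finset.mul_sum]
          refine Finset.sum_congr rfl fun c _ => ?_
          rw [ENNReal.toReal_mul, ENNReal.toReal_natCast]
        have hSt : ∑ c ∈ S, f c ≠ ⊤ := by
          rw [ENNReal.sum_ne_top]
          exact fun c _ => hft c
        have h2 : (1 : ℝ) / 2 ≤ (∑ c ∈ S, f c).toReal := by
          have := ENNReal.toReal_mono hSt hS.le
          simpa using this
        rw [h1]
        have hk : (0 : ℝ) ≤ k := Nat.cast_nonneg _
        nlinarith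

/-- neighbours are in the same cluster with high probability -/
theorem H0_prob {u v : ℕ} (huv : G.Adj u v) (k : ℕ) (ht : t k ≠ 0)
    (hu : ∑' c, vis G c (t k) u = t k) (hv : ∑' c, vis G c (t k) v = t k) :
    QQ {a | ¬ (H0 G t a k).Adj u v} ≤
      k * dl G (t k) u v + ENNReal.ofReal (Real.exp (-(k : ℝ) / 2)) := by
  have ht0 : ((t k : ℕ) : ℝ≥0∞) ≠ 0 := by exact_mod_cast ht
  have htt : ((t k : ℕ) : ℝ≥0∞) ≠ ⊤ := ENNReal.natCast_ne_top _
  have hsub : {a : ℕ × ℕ → I | ¬ (H0 G t a k).Adj u v} ⊆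
      (⋃ c, ({a | cov G t a k c u ∧ ¬ cov G t a k c v} ∪
        {a | cov G t a k c v ∧ ¬ cov G t a k c u})) ∪ {a | ∀ c, ¬ cov G t a k c u} := by
    intro a ha
    by_cases h1 : ∀ c, ¬ cov G t a k c u
    · exact Or.inr h1
    · left
      push Not at h1
      rw [Set.mem_iUnion]
      by_contra hc
      push Not at hc
      apply ha
      refine ⟨huv, h1, fun c => ?_⟩
      have h2 := hc c
      simp only [Set.mem_union, Set.mem_ofPred_eq] at h2
      tauto
  have hb : ∀ {x y : ℕ} (c : ℕ), QQ {a | cov G t a k c x ∧ ¬ cov G t a k c y} ≤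
      k * ((vis G c (t k) x - vis G c (t k) y) / t k) := by
    intro x y c
    have h1 : {a : ℕ × ℕ → I | cov G t a k c x ∧ ¬ cov G t a k c y} =
        {a | a (c, k + 1) ∈ {z : I | ENNReal.ofReal (z : ℝ) < k * (vis G c (t k) x / t k) ∧
          ¬ ENNReal.ofReal (z : ℝ) < k * (vis G c (t k) y / t k)}} := rfl
    have hms : MeasurableSet {z : I | ENNReal.ofReal (z : ℝ) < k * (vis G c (t k) x / t k) ∧
          ¬ ENNReal.ofReal (z : ℝ) < k * (vis G c (t k) y / t k)} :=
      (ofReal_lt_meas _).inter (ofReal_lt_meas _).compl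
    rw [h1, QQ_eval _ hms]
    refine (vol_cov _ _).trans (le_of_eq ?_)
    rw [← ENNReal.mul_sub (fun _ _ => ENNReal.natCast_ne_top _),
      ENNReal.sub_div (fun _ _ => ht0)]
  calc QQ {a | ¬ (H0 G t a k).Adj u v}
      ≤ QQ (⋃ c, ({a | cov G t a k c u ∧ ¬ cov G t a k c v} ∪
        {a | cov G t a k c v ∧ ¬ cov G t a k c u})) + QQ {a | ∀ c, ¬ cov G t a k c u} :=
        (measure_mono hsub).trans (measure_union_le _ _)
    _ ≤ k * dl G (t k) u v + ENNReal.ofReal (Real.exp (-(k : ℝ) / 2)) := by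
        refine add_le_add ?_ (unc_prob k ht hu)
        refine (measure_iUnion_le _).trans ?_
        unfold dl
        rw [div_eq_mul_inv, ← ENNReal.tsum_mul_right, ← ENNReal.tsum_mul_left]
        refine ENNReal.tsum_le_tsum fun c => ?_
        refine (measure_union_le _ _).trans ?_
        refine (add_le_add (hb c) (hb c)).trans (le_of_eq ?_)
        rw [div_eq_mul_inv, div_eq_mul_inv, add_mul, mul_add]

/-- the quantity which controls the probability that the edges at `x` are cut -/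
noncomputable def qq (G : SimpleGraph ℕ) (t : ℕ → ℕ) (x : ℕ) : ℝ≥0∞ :=
  ∑' k : ℕ, (k : ℝ≥0∞) * min 1 (dS G (t k) x)

theorem exp_sum : ∑' k : ℕ, ENNReal.ofReal (Real.exp (-(k : ℝ) / 2)) ≠ ⊤ := by
  have h1 : ∀ k : ℕ, Real.exp (-(k : ℝ) / 2) = (Real.exp (-(1 / 2 : ℝ))) ^ k := by
    intro k
    rw [← Real.exp_nat_mul]
    congr 1
    ring
  have h2 : Summable fun k : ℕ => Real.exp (-(k : ℝ) / 2) := by
    simp only [h1]
    apply summable_geometric_of_lt_one (Real.exp_pos _).le
    rw [Real.exp_lt_one_iff]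
    norm_num
  rw [← ENNReal.ofReal_tsum_of_nonneg (fun k => (Real.exp_pos _).le) h2]
  exact ENNReal.ofReal_ne_top

/-- the clusters exhaust the component -/
theorem exhaust {x0 : ℕ} (hl : LocFin G x0) (ht : ∀ k, t k ≠ 0)
    (hq : ∀ u, G.Reachable x0 u → qq G t u ≠ ⊤) :
    ∀ᵐ a ∂QQ, ∀ u v, G.Reachable x0 u → G.Adj u v → ∃ k, (HH G t a k).Adj u v := by
  classical
  have key : ∀ u v, G.Reachable x0 u → G.Adj u v →
      ∀ᵐ a ∂QQ, ∃ k, (HH G t a k).Adj u v := by
    intro u v hu huv
    have hv : G.Reachable x0 v := hu.trans huv.reachable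
    have hn : ∀ w, G.Reachable x0 w → ∃ z, G.Adj w z := by
      intro w hw
      by_cases hwx : w = u
      · exact ⟨v, hwx ▸ huv⟩
      · obtain ⟨p⟩ := hw.symm.trans hu
        cases p with
        | nil => exact absurd rfl hwx
        | cons h _ => exact ⟨_, h⟩
    have hbd : ∀ k : ℕ, QQ {a | ¬ (H0 G t a k).Adj u v} ≤
        (if k = 0 then 1 else 0) + (k * min 1 (dS G (t k) u) +
          ENNReal.ofReal (Real.exp (-(k : ℝ) / 2))) := by
      intro k
      by_cases hk : k = 0
      · rw [if_pos hk]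
        exact prob_le_one.trans le_self_add
      · rw [if_neg hk, zero_add]
        have h1 := H0_prob huv k (ht k) (vis_total hl hn _ u hu) (vis_total hl hn _ v hv)
        have hk1 : (1 : ℝ≥0∞) ≤ k := by
          have : 1 ≤ k := by omega
          exact_mod_cast this
        have hdl : dl G (t k) u v ≤ dS G (t k) u := by
          unfold dS
          have := ENNReal.le_tsum (f := fun w => if G.Adj u w then dl G (t k) u w else 0) v
          simpa [huv] using this
        rcases le_total 1 (dS G (t k) u) with h | h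
        · rw [min_eq_left h, mul_one]
          exact (prob_le_one.trans hk1).trans le_self_add
        · rw [min_eq_right h]
          refine h1.trans ?_
          gcongr
    have hsum : ∑' k, QQ {a | ¬ (H0 G t a k).Adj u v} ≠ ⊤ := by
      refine ne_top_of_le_ne_top ?_ (ENNReal.tsum_le_tsum hbd)
      rw [ENNReal.tsum_add, ENNReal.tsum_add]
      refine ENNReal.add_ne_top.2 ⟨?_, ENNReal.add_ne_top.2 ⟨hq u hu, exp_sum⟩⟩
      rw [tsum_ite_eq]
      exact ENNReal.one_ne_top
    filter_upwards [ae_eventually_notMem hsum] with a ha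
    obtain ⟨k, hk⟩ := eventually_atTop.1 ha
    refine ⟨k, fun m hm => ?_⟩
    have := hk m hm
    simp only [not_not] at this
    exact this
  rw [ae_all_iff]
  intro u
  rw [ae_all_iff]
  intro v
  by_cases hu : G.Reachable x0 u
  · by_cases huv : G.Adj u v
    · filter_upwards [key u v hu huv] with a ha _ _
      exact ha
    · exact Eventually.of_forall fun a _ h => absurd h huv
  · exact Eventually.of_forall fun a h => absurd h hu

/-- the ties are almost surely distinct -/
theorem ties_inj : ∀ᵐ a ∂QQ, ∀ u v : ℕ, a (u, 0) = a (v, 0) → u = v := by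
  rw [ae_all_iff]
  intro u
  rw [ae_all_iff]
  intro v
  by_cases huv : u = v
  · exact Eventually.of_forall fun a _ => huv
  · have hne : ((u, 0) : ℕ × ℕ) ≠ (v, 0) := fun h => huv (by simpa using h)
    have hm : Measurable fun a : ℕ × ℕ → I => (a (u, 0), a (v, 0)) :=
      (measurable_pi_apply _).prodMk (measurable_pi_apply _)
    have hlaw : QQ.map (fun a => (a (u, 0), a (v, 0))) =
        (volume : Measure I).prod (volume : Measure I) :=
      Measure.infinitePi_map_eval_prod (P := fun _ : ℕ × ℕ => (volume : Measure I)) hne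
    have hd : MeasurableSet {p : I × I | p.1 = p.2} := measurableSet_eq_fun measurable_fst measurable_snd
    have hz : ((volume : Measure I).prod (volume : Measure I)) {p : I × I | p.1 = p.2} = 0 := by
      rw [Measure.measure_prod_null hd]
      refine Eventually.of_forall fun x => ?_
      have : Prod.mk x ⁻¹' {p : I × I | p.1 = p.2} = {x} := by
        ext y
        simp [eq_comm]
      show (volume : Measure I) (Prod.mk x ⁻¹' {p : I × I | p.1 = p.2}) = 0
      rw [this]
      simp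
    rw [← hlaw, Measure.map_apply hm hd] at hz
    have h2 : ∀ᵐ a ∂QQ, a ∉ (fun a : ℕ × ℕ → I => (a (u, 0), a (v, 0))) ⁻¹' {p : I × I | p.1 = p.2} :=
      measure_eq_zero_iff_ae_notMem.1 hz
    filter_upwards [h2] with a ha h
    exact absurd h ha

end Pool.Agent.NH99.WU
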