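import Pool.Agent.NH99.WU_Exh2

/-!
# Splitting the labels
-/

set_option autoImplicit false
set_option linter.unusedSectionVars false

namespace Pool.Agent.NH99.WU

open MeasureTheory ProbabilityTheory
open scoped unitInterval ENNReal

/-- one uniform label can be turned into two independent sequences of uniform labels -/
theorem exists_split : ∃ D : I → Bool × ℕ → I, Measurable D ∧
    (volume : Measure I).map D = Measure.infinitePi fun _ : Bool × ℕ => (volume : Measure I) :=
  Measure.exists_measurable_map_eq _

/-- the splitting map -/
noncomputable def DD : I → Bool × ℕ → I := exists_split.choose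

theorem DD_meas : Measurable DD := exists_split.choose_spec.1

theorem DD_law : (volume : Measure I).map DD =
    Measure.infinitePi fun _ : Bool × ℕ => (volume : Measure I) := exists_split.choose_spec.2

/-- the labels for the clusters and for the seeds -/
noncomputable def lab (c : Bool) (U : ℕ → I) : ℕ × ℕ → I := fun p => DD (U p.1) (c, p.2)

theorem lab_meas (c : Bool) : Measurable (lab c) := by
  rw [measurable_pi_iff]
  intro p
  exact (measurable_pi_apply (c, p.2)).comp (DD_meas.comp (measurable_pi_apply p.1))

theorem lab_law : unifLabels.map (fun U => (lab false U, lab true U)) = QQ.prod QQ := by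
  -- the labels of all vertices
  have h1 : unifLabels.map (fun U v => DD (U v)) =
      Measure.infinitePi fun _ : ℕ => Measure.infinitePi fun _ : Bool × ℕ =>
        (volume : Measure I) := by
    unfold unifLabels
    rw [Measure.infinitePi_map_pi (μ := fun _ : ℕ => (volume : Measure I))
      (f := fun _ => DD) (fun _ => DD_meas)]
    simp only [DD_law]
  have hm1 : Measurable (fun (U : ℕ → I) v => DD (U v)) := by
    rw [measurable_pi_iff]
    intro v
    exact DD_meas.comp (measurable_pi_apply v)
  -- as one family
  have h2 : (Measure.infinitePi fun _ : ℕ => Measure.infinitePi fun _ : Bool × ℕ =>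
      (volume : Measure I)).map (fun w (p : ℕ × (Bool × ℕ)) => w p.1 p.2) =
      Measure.infinitePi fun _ : ℕ × (Bool × ℕ) => (volume : Measure I) := by
    have := Measure.infinitePi_map_curry_symm (ι := ℕ) (κ := Bool × ℕ)
      (fun _ _ => (volume : Measure I))
    exact this
  have hm2 : Measurable (fun (w : ℕ → (Bool × ℕ → I)) (p : ℕ × (Bool × ℕ)) => w p.1 p.2) := by
    rw [measurable_pi_iff]
    intro p
    exact (measurable_pi_apply p.2).comp (measurable_pi_apply p.1)
  -- reindex
  let e : Bool × (ℕ × ℕ) → ℕ × (Bool × ℕ) := fun q => (q.2.1, (q.1, q.2.2))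
  have he : Function.Injective e := by
    rintro ⟨c, v, k⟩ ⟨c', v', k'⟩ h
    simp only [e, Prod.mk.injEq] at h
    obtain ⟨rfl, rfl, rfl⟩ := h
    rfl
  have h3 : (Measure.infinitePi fun _ : ℕ × (Bool × ℕ) => (volume : Measure I)).map
      (fun w q => w (e q)) = Measure.infinitePi fun _ : Bool × (ℕ × ℕ) => (volume : Measure I) :=
    Measure.map_infinitePi_infinitePi_of_inj
      (P := fun _ : ℕ × (Bool × ℕ) => (volume : Measure I)) he
  have hm3 : Measurable (fun (w : ℕ × (Bool × ℕ) → I) (q : Bool × (ℕ × ℕ)) => w (e q)) := by
    rw [measurable_pi_iff]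
    intro q
    exact measurable_pi_apply (e q)
  have h4 : (Measure.infinitePi fun _ : Bool × (ℕ × ℕ) => (volume : Measure I)).map
      (fun w (c : Bool) (p : ℕ × ℕ) => w (c, p)) =
      Measure.infinitePi fun _ : Bool => Measure.infinitePi fun _ : ℕ × ℕ =>
        (volume : Measure I) := by
    have := Measure.infinitePi_map_curry (ι := Bool) (κ := ℕ × ℕ)
      (fun _ _ => (volume : Measure I))
    exact this
  have hm4 : Measurable (fun (w : Bool × (ℕ × ℕ) → I) (c : Bool) (p : ℕ × ℕ) => w (c, p)) := by
    rw [measurable_pi_iff]
    intro c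
    rw [measurable_pi_iff]
    intro p
    exact measurable_pi_apply (c, p)
  have h5 : (Measure.infinitePi fun _ : Bool => Measure.infinitePi fun _ : ℕ × ℕ =>
        (volume : Measure I)).map (fun w => (w false, w true)) = QQ.prod QQ :=
    Measure.infinitePi_map_eval_prod
      (P := fun _ : Bool => Measure.infinitePi fun _ : ℕ × ℕ => (volume : Measure I))
      (by simp)
  have hm5 : Measurable (fun w : Bool → (ℕ × ℕ → I) => (w false, w true)) :=
    (measurable_pi_apply false).prodMk (measurable_pi_apply true)
  rw [← h5, ← h4, ← h3, ← h2, ← h1]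
  rw [Measure.map_map hm5 hm4, Measure.map_map (hm5.comp hm4) hm3,
    Measure.map_map ((hm5.comp hm4).comp hm3) hm2,
    Measure.map_map (((hm5.comp hm4).comp hm3).comp hm2) hm1]
  rfl

instance : IsProbabilityMeasure unifLabels := by unfold unifLabels; infer_instance

end Pool.Agent.NH99.WU
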