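import Pool.Agent.NH99.WU_Psi
import Pool.Agent.NH99.WU_Lab

/-!
# The factor map
-/

set_option autoImplicit false
set_option linter.unusedSectionVars false

namespace Pool.Agent.NH99.WU

open Finset Pool.Agent.TH968.UST Pool.Agent.TH830.UST MeasureTheory Filter Topology
open scoped unitInterval ENNReal

/-- the factor map -/
noncomputable def Phi (t : ℕ → ℕ) (G : SimpleGraph ℕ) (U : ℕ → I) : Set (Sym2 ℕ) :=
  Psi G t (lab false U) (lab true U)

theorem Phi_meas (t : ℕ → ℕ) (e : Sym2 ℕ) :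
    MeasurableSet {p : SimpleGraph ℕ × (ℕ → I) | e ∈ Phi t p.1 p.2} := by
  have hm : Measurable fun p : SimpleGraph ℕ × (ℕ → I) =>
      (p.1, (lab false p.2, lab true p.2)) :=
    measurable_fst.prodMk (((lab_meas false).comp measurable_snd).prodMk
      ((lab_meas true).comp measurable_snd))
  exact hm (Psi_meas t e)

theorem Phi_factor (t : ℕ → ℕ) : GraphFactor (Phi t) where
  meas := measurable_set_iff.2 fun e => measurableSet_setOfPred.1 (Phi_meas t e)
  sub G U := Psi_sub G t _ _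
  equivariant G G' x x' φ U U' h hU u v hu hv := by
    have ha : ∀ c : Bool, ∀ w, G.Reachable x w → ∀ k, lab c U' (φ w, k) = lab c U (w, k) := by
      intro c w hw k
      unfold lab
      simp only [hU w hw]
    have hE := eqv_HH (t := t) h (ha false) (lab true U) (lab true U') (ha true)
    constructor
    · rintro ⟨k0, hk0⟩
      exact ⟨k0, fun k hk => (hE.TT_eq k u hu v hv).1 (hk0 k hk)⟩
    · rintro ⟨k0, hk0⟩
      exact ⟨k0, fun k hk => (hE.TT_eq k u hu v hv).2 (hk0 k hk)⟩

/-- the law of the factor -/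
theorem Phi_law {G : SimpleGraph ℕ} {x0 : ℕ} {t : ℕ → ℕ} (hl : LocFin G x0)
    (hr : RecurrentAt G x0) (ht : ∀ k, t k ≠ 0) (hq : ∀ u, G.Reachable x0 u → qq G t u ≠ ⊤)
    (F A : Finset (Sym2 ℕ)) (hF : (F : Set (Sym2 ℕ)) ⊆ compEdges G x0) :
    ∀ V : ℕ → Finset ℕ, Monotone V → (∀ v, G.Reachable x0 v ↔ ∃ n, v ∈ V n) →
      Tendsto (fun n => ustProb (wired (V n)) (touch G (V n)) (F : Set (Sym2 ℕ))
        (A : Set (Sym2 ℕ))) atTop
        (𝓝 (unifLabels.real {U | Phi t G U ∩ (F : Set (Sym2 ℕ)) = (A : Set (Sym2 ℕ))})) := by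
  obtain ⟨ℓ, h1, h2⟩ := lim_exists hl hr F A hF
  have hℓ0 : 0 ≤ ℓ := by
    -- along the standard exhaustion
    classical
    let V0 : ℕ → Finset ℕ := fun n => (Finset.range n).filter (fun v => G.Reachable x0 v)
    have hV0 : Monotone V0 := fun m n h => Finset.filter_subset_filter _ (Finset.range_mono h)
    have hV0c : ∀ v, G.Reachable x0 v ↔ ∃ n, v ∈ V0 n := by
      intro v
      constructor
      · intro h
        exact ⟨v + 1, Finset.mem_filter.2 ⟨Finset.mem_range.2 (Nat.lt_succ_self v), h⟩⟩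
      · rintro ⟨n, hn⟩
        exact (Finset.mem_filter.1 hn).2
    refine ge_of_tendsto' (h1 V0 hV0 hV0c) fun n => ?_
    unfold ustProb
    positivity
  have hkey : unifLabels {U | Phi t G U ∩ (F : Set (Sym2 ℕ)) = (A : Set (Sym2 ℕ))} =
      ENNReal.ofReal ℓ := by
    have hms : MeasurableSet {p : (ℕ × ℕ → I) × (ℕ × ℕ → I) |
        Psi G t p.1 p.2 ∩ (F : Set (Sym2 ℕ)) = (A : Set (Sym2 ℕ))} := by
      refine cyl_meas (X := fun p : (ℕ × ℕ → I) × (ℕ × ℕ → I) => Psi G t p.1 p.2) ?_ _ _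
      intro e
      have hm : Measurable fun p : (ℕ × ℕ → I) × (ℕ × ℕ → I) => (G, p) :=
        measurable_const.prodMk measurable_id
      exact hm (Psi_meas t e)
    have hmU : Measurable fun U : ℕ → I => (lab false U, lab true U) :=
      (lab_meas false).prodMk (lab_meas true)
    have e1 : unifLabels {U | Phi t G U ∩ (F : Set (Sym2 ℕ)) = (A : Set (Sym2 ℕ))} =
        (QQ.prod QQ) {p : (ℕ × ℕ → I) × (ℕ × ℕ → I) |
          Psi G t p.1 p.2 ∩ (F : Set (Sym2 ℕ)) = (A : Set (Sym2 ℕ))} := by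
      rw [← lab_law, Measure.map_apply hmU hms]
      rfl
    rw [e1, Measure.prod_apply hms]
    have e2 : ∀ᵐ a ∂QQ, QQ (Prod.mk a ⁻¹' {p : (ℕ × ℕ → I) × (ℕ × ℕ → I) |
          Psi G t p.1 p.2 ∩ (F : Set (Sym2 ℕ)) = (A : Set (Sym2 ℕ))}) = ENNReal.ofReal ℓ := by
      filter_upwards [ties_inj, exhaust hl ht hq] with a ha hex
      exact psi_law hl ha hex F A hF ℓ h2
    rw [lintegral_congr_ae e2]
    simp
  intro V hV hVc
  have : unifLabels.real {U | Phi t G U ∩ (F : Set (Sym2 ℕ)) = (A : Set (Sym2 ℕ))} = ℓ := by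
    rw [measureReal_def, hkey, ENNReal.toReal_ofReal hℓ0]
  rw [this]
  exact h1 V hV hVc

theorem compEdges_touch {G : SimpleGraph ℕ} {x0 : ℕ} (B : Finset ℕ)
    (hB : ∀ v ∈ B, G.Reachable x0 v) : touch G B ⊆ compEdges G x0 := by
  rintro e ⟨he, v, hv, hve⟩
  refine ⟨he, ?_⟩
  intro w hw
  obtain ⟨u, rfl⟩ := Sym2.mem_iff_exists.1 hve
  rcases Sym2.mem_iff.1 hw with rfl | rfl
  · exact hB _ hv
  · exact (hB _ hv).trans (SimpleGraph.Adj.reachable he)

/-- the law of the factor is the law of the wired uniform spanning forest -/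
theorem Phi_wusf {G : SimpleGraph ℕ} {x0 : ℕ} {t : ℕ → ℕ} (hl : LocFin G x0)
    (hr : RecurrentAt G x0) (ht : ∀ k, t k ≠ 0) (hq : ∀ u, G.Reachable x0 u → qq G t u ≠ ⊤) :
    IsWUSF G x0 (unifLabels.map fun U => Phi t G U ∩ compEdges G x0) := by
  classical
  have hme : ∀ e, MeasurableSet {U : ℕ → I | e ∈ Phi t G U} := by
    intro e
    have hm : Measurable fun U : ℕ → I => (G, U) := measurable_const.prodMk measurable_id
    exact hm (Phi_meas t e)
  have hmap : Measurable fun U : ℕ → I => Phi t G U ∩ compEdges G x0 := by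
    refine measurable_set_iff.2 fun e => measurableSet_setOfPred.1 ?_
    by_cases he : e ∈ compEdges G x0
    · simpa [he] using hme e
    · simp [he]
  have hms : ∀ F A : Set (Sym2 ℕ), MeasurableSet {S : Set (Sym2 ℕ) | S ∩ F = A} := by
    intro F A
    refine cyl_meas (X := fun S : Set (Sym2 ℕ) => S) ?_ F A
    intro e
    exact measurableSet_setOfPred.2 (measurable_set_mem e)
  refine ⟨Measure.isProbabilityMeasure_map hmap.aemeasurable, ?_, ?_⟩
  · have hsub : MeasurableSet {S : Set (Sym2 ℕ) | S ⊆ compEdges G x0} := by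
      have : {S : Set (Sym2 ℕ) | S ⊆ compEdges G x0} =
          {S : Set (Sym2 ℕ) | S ∩ (compEdges G x0)ᶜ = ∅} := by
        ext S
        simp only [Set.mem_ofPred_eq]
        rw [← Set.disjoint_iff_inter_eq_empty, Set.disjoint_compl_right_iff_subset]
      rw [this]
      exact hms _ _
    rw [ae_map_iff hmap.aemeasurable hsub]
    exact Eventually.of_forall fun U => Set.inter_subset_right
  · intro V hV F A
    set F' : Finset (Sym2 ℕ) := F.filter (fun e => e ∈ compEdges G x0) with hF'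
    have hF'c : (F' : Set (Sym2 ℕ)) = compEdges G x0 ∩ F := by
      ext e
      simp [hF', and_comm]
    have h1 := Phi_law hl hr ht hq F' A (by
      rw [hF'c]
      exact Set.inter_subset_left) V hV.mono hV.cover
    have h2 : (unifLabels.map fun U => Phi t G U ∩ compEdges G x0).real
        {S | S ∩ (F : Set (Sym2 ℕ)) = (A : Set (Sym2 ℕ))} =
        unifLabels.real {U | Phi t G U ∩ (F' : Set (Sym2 ℕ)) = (A : Set (Sym2 ℕ))} := by
      rw [measureReal_def, measureReal_def, Measure.map_apply hmap (hms _ _), hF'c]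
      congr 2
      ext U
      simp only [Set.mem_preimage, Set.mem_ofPred_eq, Set.inter_assoc]
    rw [h2]
    refine h1.congr fun n => ?_
    have h3 : ∀ T : Set (Sym2 ℕ), T ⊆ touch G (V n) →
        T ∩ (F' : Set (Sym2 ℕ)) = T ∩ (F : Set (Sym2 ℕ)) := by
      intro T hT
      rw [hF'c, ← Set.inter_assoc, Set.inter_eq_left.2
        (hT.trans (compEdges_touch (V n) (fun v hv => (hV.cover v).2 ⟨n, hv⟩)))]
    unfold ustProb
    congr 3
    ext T
    simp only [Set.mem_ofPred_eq]
    refine and_congr_right fun hT => ?_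
    rw [h3 T hT.1]

end Pool.Agent.NH99.WU
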