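import Pool.Agent.NH99.WU_Vis

/-!
# Invariance under isomorphisms of components, and measurability
-/

set_option autoImplicit false
set_option linter.unusedSectionVars false

namespace Pool.Agent.NH99.WU

open Finset Pool.Agent.TH968.UST Filter Topology MeasureTheory
open scoped ENNReal

variable {G G' : SimpleGraph ℕ} {x x' : ℕ} {φ : ℕ → ℕ}

theorem tsum_comp (S S' : Set ℕ) (hinj : ∀ u ∈ S, ∀ v ∈ S, φ u = φ v → u = v)
    (hS : ∀ w, w ∈ S' ↔ ∃ u, u ∈ S ∧ φ u = w) (f f' : ℕ → ℝ≥0∞) (hf : ∀ u, u ∉ S → f u = 0)
    (hf' : ∀ w, w ∉ S' → f' w = 0) (hff : ∀ u ∈ S, f' (φ u) = f u) : ∑' w, f' w = ∑' u, f u := by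
  have h1 : ∑' u, f u = ∑' u : S, f u := by
    rw [tsum_subtype_eq_of_support_subset]
    intro u hu
    by_contra h
    exact hu (hf u h)
  have h2 : ∑' w, f' w = ∑' w : S', f' w := by
    rw [tsum_subtype_eq_of_support_subset]
    intro u hu
    by_contra h
    exact hu (hf' u h)
  have h3 : S' = φ '' S := by
    ext w
    rw [hS w]
    rfl
  rw [h1, h2, h3, tsum_image f' (fun u hu v hv h => hinj u hu v hv h)]
  exact tsum_congr fun u => hff u u.2

namespace CompIso

theorem reach (h : CompIso G G' x x' φ) {u : ℕ} (hu : G.Reachable x u) : G'.Reachable x' (φ u) :=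
  (h.surj _).2 ⟨u, hu, rfl⟩

theorem reroot (h : CompIso G G' x x' φ) {y : ℕ} (hy : G.Reachable x y) :
    CompIso G G' y (φ y) φ where
  root := rfl
  inj u v hu hv := h.inj u v (hy.trans hu) (hy.trans hv)
  adj u v hu hv := h.adj u v (hy.trans hu) (hy.trans hv)
  surj w := by
    have hy' := h.reach hy
    constructor
    · intro hw
      obtain ⟨u, hu, rfl⟩ := (h.surj w).1 (hy'.trans hw)
      exact ⟨u, hy.symm.trans hu, rfl⟩
    · rintro ⟨u, hu, rfl⟩
      exact hy'.symm.trans (h.reach (hy.trans hu))

theorem avg_iso (h : CompIso G G' x x' φ) {f f' : ℕ → ℝ≥0∞}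
    (hf : ∀ u, G.Reachable x u → f' (φ u) = f u) {v : ℕ} (hv : G.Reachable x v) :
    avg G' f' (φ v) = avg G f v := by
  classical
  have key : ∀ g g' : ℕ → ℝ≥0∞, (∀ u, G.Reachable x u → g' (φ u) = g u) →
      ∑' w, (if G'.Adj (φ v) w then g' w else 0) = ∑' w, (if G.Adj v w then g w else 0) := by
    intro g g' hg
    refine tsum_comp (φ := φ) {u | G.Reachable x u} {u | G'.Reachable x' u}
      (fun u hu v hv e => h.inj u v hu hv e) (fun w => h.surj w) _ _ ?_ ?_ ?_
    · intro u hu
      rw [if_neg]
      intro h'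
      exact hu (hv.trans h'.reachable)
    · intro u hu
      rw [if_neg]
      intro h'
      exact hu ((h.reach hv).trans h'.reachable)
    · intro u hu
      have hu' : G.Reachable x u := hu
      simp only [← h.adj v u hv hu', hg u hu']
  unfold avg
  rw [key f f' hf, key (fun _ => 1) (fun _ => 1) (fun _ _ => rfl)]

theorem vis_iso (h : CompIso G G' x x' φ) {c : ℕ} (hc : G.Reachable x c) :
    ∀ t v, G.Reachable x v → vis G' (φ c) t (φ v) = vis G c t v
  | 0, v => fun _ => rfl
  | t + 1, v => by
    intro hv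
    simp only [vis]
    rw [h.avg_iso (fun u hu => vis_iso h hc t u hu) hv]
    congr 1
    by_cases hvc : v = c
    · rw [if_pos hvc, if_pos (by rw [hvc])]
    · rw [if_neg hvc, if_neg (fun h' => hvc (h.inj v c hv hc h'))]

end CompIso

theorem vis_ne_zero (c : ℕ) : ∀ t v, vis G c t v ≠ 0 → G.Reachable c v
  | 0, v => by
    intro h
    exact absurd rfl h
  | t + 1, v => by
    intro h
    by_cases hvc : v = c
    · rw [hvc]
    · simp only [vis, if_neg hvc, zero_add] at h
      obtain ⟨w, hw, hw'⟩ := avg_ne_zero h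
      exact (vis_ne_zero c t w hw').trans hw.symm.reachable

theorem vis_supp {c : ℕ} (hl : LocFin G c) : ∀ t, {v | vis G c t v ≠ 0}.Finite
  | 0 => by
    have : {v | vis G c 0 v ≠ 0} = ∅ := by
      ext v
      simp [vis]
    rw [this]
    exact Set.finite_empty
  | t + 1 => by
    have h1 : (⋃ w ∈ {v | vis G c t v ≠ 0}, {v | G.Adj w v}).Finite :=
      (vis_supp hl t).biUnion fun w hw => hl w (vis_ne_zero c t w hw)
    refine ((Set.finite_singleton c).union h1).subset ?_
    intro v hv
    by_cases hvc : v = c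
    · exact Or.inl hvc
    · simp only [vis, Set.mem_ofPred_eq, if_neg hvc, zero_add] at hv
      obtain ⟨w, hw, hw'⟩ := avg_ne_zero hv
      refine Or.inr ?_
      simp only [Set.mem_iUnion]
      exact ⟨w, hw', hw.symm⟩

theorem CompIso.dl_iso (h : CompIso G G' x x' φ) (t : ℕ) {u v : ℕ} (hu : G.Reachable x u)
    (hv : G.Reachable x v) : dl G' t (φ u) (φ v) = dl G t u v := by
  unfold dl
  congr 1
  refine tsum_comp (φ := φ) {u | G.Reachable x u} {u | G'.Reachable x' u}
      (fun u hu v hv e => h.inj u v hu hv e) (fun w => h.surj w) _ _ ?_ ?_ ?_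
  · intro c hc
    have h1 : vis G c t u = 0 := by
      by_contra h0
      exact hc (hu.trans (vis_ne_zero c t u h0).symm)
    have h2 : vis G c t v = 0 := by
      by_contra h0
      exact hc (hv.trans (vis_ne_zero c t v h0).symm)
    rw [h1, h2]
    simp
  · intro c hc
    have h1 : vis G' c t (φ u) = 0 := by
      by_contra h0
      exact hc ((h.reach hu).trans (vis_ne_zero c t _ h0).symm)
    have h2 : vis G' c t (φ v) = 0 := by
      by_contra h0
      exact hc ((h.reach hv).trans (vis_ne_zero c t _ h0).symm)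
    rw [h1, h2]
    simp
  · intro c hc
    simp only [h.vis_iso hc t u hu, h.vis_iso hc t v hv]

theorem CompIso.dS_iso (h : CompIso G G' x x' φ) (t : ℕ) {u : ℕ} (hu : G.Reachable x u) :
    dS G' t (φ u) = dS G t u := by
  classical
  unfold dS
  refine tsum_comp (φ := φ) {u | G.Reachable x u} {u | G'.Reachable x' u}
      (fun u hu v hv e => h.inj u v hu hv e) (fun w => h.surj w) _ _ ?_ ?_ ?_
  · intro v hv
    rw [if_neg]
    intro h'
    exact hv (hu.trans h'.reachable)
  · intro v hv
    rw [if_neg]
    intro h'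
    exact hv ((h.reach hu).trans h'.reachable)
  · intro v hv
    have hv' : G.Reachable x v := hv
    simp only [← h.adj u v hu hv', h.dl_iso t hu hv']

/-! ### measurability -/

theorem meas_adj (u v : ℕ) : MeasurableSet {G : SimpleGraph ℕ | G.Adj u v} := by
  have h : Measurable fun G : SimpleGraph ℕ => G.Adj u v := by fun_prop
  exact measurableSet_setOfPred.2 h

theorem avg_meas {f : SimpleGraph ℕ → ℕ → ℝ≥0∞} (hf : ∀ w, Measurable fun G => f G w) (v : ℕ) :
    Measurable fun G => avg G (f G) v := by
  classical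
  unfold avg
  refine Measurable.div ?_ ?_
  · exact Measurable.tsum fun w => Measurable.ite (meas_adj v w) (hf w) measurable_const
  · exact Measurable.tsum fun w => Measurable.ite (meas_adj v w) measurable_const
      measurable_const

theorem vis_meas (c : ℕ) : ∀ t x, Measurable fun G => vis G c t x
  | 0, x => measurable_const
  | t + 1, x => by
    simp only [vis]
    exact measurable_const.add (avg_meas (fun w => vis_meas c t w) x)

theorem dl_meas (t x v : ℕ) : Measurable fun G => dl G t x v := by
  unfold dl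
  refine Measurable.div ?_ measurable_const
  refine Measurable.tsum fun c => ?_
  exact ((vis_meas c t x).sub (vis_meas c t v)).add ((vis_meas c t v).sub (vis_meas c t x))

theorem dS_meas (t x : ℕ) : Measurable fun G => dS G t x := by
  classical
  unfold dS
  exact Measurable.tsum fun v => Measurable.ite (meas_adj x v) (dl_meas t x v)
    measurable_const

end Pool.Agent.NH99.WU
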