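import Pool.Agent.NH99.WU_Stmt
import Pool.Agent.TH830.J73
import Pool.Agent.TH830.J74

/-!
# Free and wired uniform spanning trees: comparison
-/

set_option autoImplicit false
set_option linter.unusedSectionVars false

namespace Pool.Agent.NH99.WU

open Finset Pool.Agent.TH968.UST Pool.Agent.TH830.UST
open Pool.Agent.TH830.J74 (av card_pos' av_mono notMem_of_rel)
open Pool.Agent.TH830.J73 (K1 K2 RM dsq_mk dsq_nonneg energy_nonneg)

section Gen

variable {V : Type*} [DecidableEq V]

theorem dom_le (r r' : Setoid V) (hr : r' ≤ r) (E E' : Finset (Sym2 V)) (hE : E' ⊆ E)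
    (g : Finset (Sym2 V) → ℝ) (hg : ∀ S T, S ⊆ T → g S ≤ g T) :
    av r E (fun T => g (T ∩ E')) ≤ av r' E' g := by
  have h := Pool.Agent.TH830.J74.dom
    (fun r r' hr E E' hE e he => RM r r' hr E E' hE e he) r r' hr E E' hE g hg
  unfold av
  rwa [div_le_div_iff₀ (card_pos' r E) (card_pos' r' E')]

/-- loops do not matter -/
theorem trees_loops (r : Setoid V) (E E' : Finset (Sym2 V)) (hE : E ⊆ E')
    (hl : ∀ a b, s(a, b) ∈ E' → s(a, b) ∉ E → r a b) : trees r E' = trees r E := by
  ext T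
  constructor
  · intro hT
    have hT' := mem_trees.1 hT
    refine mem_trees.2 ⟨?_, fun a b hab => hT'.2.1 a b (hE hab), hT'.2.2⟩
    intro e he
    induction e using Sym2.ind with
    | _ a b =>
      by_contra hn
      have := hl a b (hT'.1 he) hn
      exact hT'.2.2 a b (by simpa using he) (crel this)
  · intro hT
    have hT' := mem_trees.1 hT
    refine mem_trees.2 ⟨hT'.1.trans hE, ?_, hT'.2.2⟩
    intro a b hab
    by_cases h : s(a, b) ∈ E
    · exact hT'.2.1 a b h
    · exact crel (hl a b hab h)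

/-- comparison of the probabilities of cylinder events through the edge probabilities -/
theorem cyl_diff (r r' : Setoid V) (E E' F A : Finset (Sym2 V))
    (hd : ∀ g : Finset (Sym2 V) → ℝ, (∀ S T, S ⊆ T → g S ≤ g T) →
      av r E (fun T => g (T ∩ F)) ≤ av r' E' (fun T => g (T ∩ F))) :
    |av r' E' (fun T => if T ∩ F = A then 1 else 0) - av r E (fun T => if T ∩ F = A then 1 else 0)|
      ≤ ∑ e ∈ F, (av r' E' (fun T => if e ∈ T then 1 else 0) -
          av r E (fun T => if e ∈ T then 1 else 0)) := by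
  have hlin : ∀ (r : Setoid V) (E : Finset (Sym2 V)) (f g : Finset (Sym2 V) → ℝ),
      av r E (fun T => f T + g T) = av r E f + av r E g := by
    intro r E f g
    unfold av
    rw [Finset.sum_add_distrib, add_div]
  have hlin' : ∀ (r : Setoid V) (E : Finset (Sym2 V)) (f g : Finset (Sym2 V) → ℝ),
      av r E (fun T => f T - g T) = av r E f - av r E g := by
    intro r E f g
    unfold av
    rw [Finset.sum_sub_distrib, sub_div]
  have hcard : ∀ (r : Setoid V) (E : Finset (Sym2 V)),
      av r E (fun T => ((T ∩ F).card : ℝ)) = ∑ e ∈ F, av r E (fun T => if e ∈ T then 1 else 0) := by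
    intro r E
    unfold av
    rw [← Finset.sum_div, Finset.sum_comm]
    congr 1
    refine Finset.sum_congr rfl fun T _ => ?_
    rw [Finset.sum_boole]
    have : T ∩ F = F.filter (fun x => x ∈ T) := by
      rw [Finset.inter_comm, Finset.filter_mem_eq_inter]
    simp only [this]
  have key : ∀ S T : Finset (Sym2 V), S ⊆ T → S = T ∨ (S.card : ℝ) + 1 ≤ (T.card : ℝ) := by
    intro S T h
    by_cases hST : S = T
    · exact Or.inl hST
    · right
      have := Finset.card_lt_card (Finset.ssubset_iff_subset_ne.2 ⟨h, hST⟩)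
      exact_mod_cast this
  have h1 := hd (fun S => (S.card : ℝ) + if S = A then 1 else 0) (by
    intro S T h
    rcases key S T h with rfl | h'
    · exact le_rfl
    · split_ifs <;> linarith)
  have h2 := hd (fun S => (S.card : ℝ) - if S = A then 1 else 0) (by
    intro S T h
    rcases key S T h with rfl | h'
    · exact le_rfl
    · split_ifs <;> linarith)
  rw [hlin, hlin] at h1
  rw [hlin', hlin'] at h2
  rw [Finset.sum_sub_distrib, ← hcard, ← hcard, abs_le]
  constructor <;> linarith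

theorem av_mem (r : Setoid V) (E : Finset (Sym2 V)) (e : Sym2 V) :
    av r E (fun T => if e ∈ T then (1 : ℝ) else 0) =
      (((trees r E).filter (fun T => e ∈ T)).card : ℝ) / ((trees r E).card : ℝ) := by
  unfold av
  rw [Finset.sum_boole]

theorem av_mem_le_one (r : Setoid V) (E : Finset (Sym2 V)) (e : Sym2 V) :
    av r E (fun T => if e ∈ T then (1 : ℝ) else 0) ≤ 1 := by
  rw [av_mem, div_le_one (card_pos' r E)]
  exact_mod_cast Finset.card_filter_le _ _

/-- an elementary inequality for products -/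
theorem dsq_mul_le (φ ψ : V → ℝ) (t : ℝ) (ht : 0 < t) (hφ : ∀ a, 0 ≤ φ a ∧ φ a ≤ 1)
    (hψ : ∀ a, 0 ≤ ψ a ∧ ψ a ≤ 1) (e : Sym2 V) :
    dsq (fun v => φ v * ψ v) e ≤ (1 + t) * dsq φ e + (1 + 1 / t) * dsq ψ e := by
  induction e using Sym2.ind with
  | _ a b =>
    rw [dsq_mk, dsq_mk, dsq_mk]
    have h1 : φ a * ψ a - φ b * ψ b = ψ a * (φ a - φ b) + φ b * (ψ a - ψ b) := by ring
    rw [h1]
    set p := ψ a * (φ a - φ b) with hp
    set q := φ b * (ψ a - ψ b) with hq
    have h2 : (p + q) ^ 2 ≤ (1 + t) * p ^ 2 + (1 + 1 / t) * q ^ 2 := by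
      have : 0 ≤ (t * p - q) ^ 2 / t := by positivity
      have h3 : (t * p - q) ^ 2 / t = t * p ^ 2 - 2 * p * q + 1 / t * q ^ 2 := by
        field_simp
        ring
      nlinarith
    have h3 : p ^ 2 ≤ (φ a - φ b) ^ 2 := by
      rw [hp, mul_pow]
      have : ψ a ^ 2 ≤ 1 := by
        have := hψ a
        nlinarith
      nlinarith [sq_nonneg (φ a - φ b)]
    have h4 : q ^ 2 ≤ (ψ a - ψ b) ^ 2 := by
      rw [hq, mul_pow]
      have : φ b ^ 2 ≤ 1 := by
        have := hφ b
        nlinarith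
      nlinarith [sq_nonneg (ψ a - ψ b)]
    have h5 : 0 < 1 / t := by positivity
    nlinarith

/-- the free and the wired edge probabilities are close if there is a cutoff function of small
energy -/
theorem edge_diff (r : Setoid V) (E E' : Finset (Sym2 V)) (x y : V) (hxy : x ≠ y)
    (he : s(x, y) ∈ E) (he' : s(x, y) ∈ E') (ψ : V → ℝ) (hψ : ∀ a, 0 ≤ ψ a ∧ ψ a ≤ 1)
    (hψx : ψ x = 1) (hr : ∀ a b, r a b → a = b ∨ (ψ a = 0 ∧ ψ b = 0))
    (hE : ∀ a b, s(a, b) ∈ E' → s(a, b) ∉ E → ψ a = 0 ∧ ψ b = 0)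
    (t : ℝ) (ht : 0 < t) (hen : energy E' ψ ≤ t ^ 2) :
    av ⊥ E (fun T => if s(x, y) ∈ T then (1 : ℝ) else 0) -
      av r E' (fun T => if s(x, y) ∈ T then (1 : ℝ) else 0) ≤ 2 * t + t ^ 2 := by
  obtain ⟨φ, -, hφ, hφx, hφy, hφe⟩ := K2 ⊥ E x y he (fun h => hxy h)
  have hk := K1 r E' x y he' (fun v => φ v * ψ v) (by
    intro a b hab
    rcases hr a b hab with h | ⟨h1, h2⟩
    · rw [h]
    · simp only [h1, h2, mul_zero])
  simp only [hφx, hφy, hψx, mul_one, zero_mul, sub_zero, one_pow, one_mul] at hk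
  rw [av_mem, av_mem]
  set M : ℝ := (((trees (⊥ : Setoid V) E).filter (fun T => s(x, y) ∈ T)).card : ℝ) with hM
  set N : ℝ := ((trees (⊥ : Setoid V) E).card : ℝ) with hN
  set M' : ℝ := (((trees r E').filter (fun T => s(x, y) ∈ T)).card : ℝ) with hM'
  set N' : ℝ := ((trees r E').card : ℝ) with hN'
  have hN0 : 0 < N := card_pos' _ _
  have hN'0 : 0 < N' := card_pos' _ _
  have hM0 : 0 < M := by
    have h0 : 0 ≤ M := Nat.cast_nonneg _
    rcases h0.eq_or_lt with h | h
    · rw [← h, zero_mul] at hφe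
      exact absurd hφe.symm hN0.ne'
    · exact h
  set s : ℝ := energy E φ with hs
  have hs1 : 1 ≤ s := by
    have : dsq φ s(x, y) ≤ s := Finset.single_le_sum (fun f _ => dsq_nonneg φ f) he
    rwa [dsq_mk, hφx, hφy, sub_zero, one_pow] at this
  have hMN : M / N = 1 / s := by
    rw [div_eq_div_iff hN0.ne' (by linarith : s ≠ 0)]
    linarith
  -- the energy of the product
  have hprod : energy E' (fun v => φ v * ψ v) ≤ (1 + t) * s + (1 + 1 / t) * t ^ 2 := by
    have h1 : energy E' (fun v => φ v * ψ v) ≤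
        ∑ e ∈ E', ((1 + t) * (if e ∈ E then dsq φ e else 0) + (1 + 1 / t) * dsq ψ e) := by
      refine Finset.sum_le_sum fun e he => ?_
      by_cases h : e ∈ E
      · rw [if_pos h]
        exact dsq_mul_le φ ψ t ht hφ hψ e
      · rw [if_neg h]
        induction e using Sym2.ind with
        | _ a b =>
          obtain ⟨h1, h2⟩ := hE a b he h
          rw [dsq_mk, dsq_mk, h1, h2]
          simp
    rw [Finset.sum_add_distrib, ← Finset.mul_sum, ← Finset.mul_sum] at h1
    have h2 : ∑ e ∈ E', (if e ∈ E then dsq φ e else 0) ≤ s := by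
      rw [← Finset.sum_filter]
      refine Finset.sum_le_sum_of_subset_of_nonneg ?_ fun f _ _ => dsq_nonneg φ f
      intro e he
      exact (Finset.mem_filter.1 he).2
    have h3 : ∑ e ∈ E', dsq ψ e ≤ t ^ 2 := hen
    have h4 : 0 < 1 / t := by positivity
    nlinarith
  have hexp : (1 + 1 / t) * t ^ 2 = t ^ 2 + t := by
    field_simp
  rw [hexp] at hprod
  set Q : ℝ := (1 + t) * s + (t ^ 2 + t) with hQ
  have hQ0 : 0 < Q := by
    have : 0 < (1 + t) * s := by positivity
    positivity
  have hM'0 : 0 ≤ M' := Nat.cast_nonneg _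
  have hw : 1 / Q ≤ M' / N' := by
    rw [div_le_div_iff₀ hQ0 hN'0]
    have := mul_le_mul_of_nonneg_left hprod hM'0
    linarith
  rw [hMN]
  have hfin : 1 / s - 1 / Q ≤ 2 * t + t ^ 2 := by
    have hs0 : 0 < s := by linarith
    rw [div_sub_div _ _ hs0.ne' hQ0.ne', div_le_iff₀ (by positivity)]
    have hQs : s ≤ Q := by
      rw [hQ]; nlinarith
    have hQ1 : 1 ≤ Q := hs1.trans hQs
    have e1 : 1 * Q - s * 1 = t * s + (t ^ 2 + t) := by rw [hQ]; ring
    rw [e1]
    have h5 : 1 ≤ s * Q := by nlinarith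
    have h6 : s ≤ s * Q := by nlinarith
    nlinarith [mul_pos ht ht]
  linarith

end Gen

end Pool.Agent.NH99.WU
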