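import Pool.Agent.NH99.WU_Lim1

/-!
# Recurrent graphs: cutoff functions of small energy
-/

set_option autoImplicit false
set_option linter.unusedSectionVars false

namespace Pool.Agent.NH99.WU

open Finset Pool.Agent.TH968.UST Pool.Agent.TH830.UST
open scoped ENNReal
open Pool.Agent.TH830.J73 (dsq_mk dsq_nonneg)

section Walk

variable {G : SimpleGraph ℕ}

theorem avg_mono {f g : ℕ → ℝ≥0∞} (h : ∀ w, f w ≤ g w) (v : ℕ) : avg G f v ≤ avg G g v := by
  unfold avg
  refine ENNReal.div_le_div_right (ENNReal.tsum_le_tsum fun w => ?_) _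
  split_ifs
  · exact h w
  · exact le_rfl

theorem avg_congr {f g : ℕ → ℝ≥0∞} {v : ℕ} (h : ∀ w, G.Adj v w → f w = g w) :
    avg G f v = avg G g v := by
  unfold avg
  congr 1
  refine tsum_congr fun w => ?_
  split_ifs with h'
  · exact h w h'
  · rfl

theorem avg_le_one {f : ℕ → ℝ≥0∞} (h : ∀ w, f w ≤ 1) (v : ℕ) : avg G f v ≤ 1 := by
  unfold avg
  refine ENNReal.div_le_of_le_mul ?_
  rw [one_mul]
  refine ENNReal.tsum_le_tsum fun w => ?_
  split_ifs
  · exact h w
  · exact le_rfl

theorem avg_ne_zero {f : ℕ → ℝ≥0∞} {v : ℕ} (h : avg G f v ≠ 0) : ∃ w, G.Adj v w ∧ f w ≠ 0 := by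
  classical
  by_contra hc
  push Not at hc
  apply h
  unfold avg
  have : ∑' w, (if G.Adj v w then f w else 0) = 0 := by
    rw [ENNReal.tsum_eq_zero]
    intro w
    split_ifs with h'
    · exact hc w h'
    · rfl
  rw [this, ENNReal.zero_div]

theorem avg_eq {v : ℕ} (hf : {w | G.Adj v w}.Finite) (f : ℕ → ℝ≥0∞) :
    avg G f v = (∑ w ∈ hf.toFinset, f w) / (hf.toFinset.card : ℝ≥0∞) := by
  classical
  unfold avg
  have key : ∀ g : ℕ → ℝ≥0∞, ∑' w, (if G.Adj v w then g w else 0) = ∑ w ∈ hf.toFinset, g w := by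
    intro g
    rw [tsum_eq_sum (s := hf.toFinset)]
    · refine Finset.sum_congr rfl fun w hw => ?_
      rw [if_pos (by simpa using hw)]
    · intro w hw
      rw [if_neg (by simpa using hw)]
  rw [key, key]
  simp

theorem hit_self (o n : ℕ) : hit G o n o = 1 := by
  cases n <;> simp [hit]

theorem hit_le_one (o : ℕ) : ∀ n v, hit G o n v ≤ 1
  | 0, v => by
    simp only [hit]
    split_ifs <;> simp
  | n + 1, v => by
    simp only [hit]
    split_ifs
    · exact le_rfl
    · exact avg_le_one (hit_le_one o n) v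

theorem hit_succ_ge (o : ℕ) : ∀ n v, hit G o n v ≤ hit G o (n + 1) v
  | 0, v => by
    simp only [hit]
    split_ifs
    · exact le_rfl
    · exact bot_le
  | n + 1, v => by
    simp only [hit]
    split_ifs
    · exact le_rfl
    · exact avg_mono (hit_succ_ge o n) v

theorem hit_mono (o v : ℕ) : Monotone fun n => hit G o n v :=
  monotone_nat_of_le_succ fun n => hit_succ_ge o n v

theorem hit_ne_top (o n v : ℕ) : hit G o n v ≠ ⊤ :=
  ne_top_of_le_ne_top ENNReal.one_ne_top (hit_le_one o n v)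

theorem hit_ne_zero (o : ℕ) : ∀ n v, hit G o n v ≠ 0 → G.Reachable o v
  | 0, v => by
    simp only [hit]
    split_ifs with h
    · intro _
      rw [h]
    · intro h'
      exact absurd rfl h'
  | n + 1, v => by
    simp only [hit]
    split_ifs with h
    · intro _
      rw [h]
    · intro h'
      obtain ⟨w, hw, hw'⟩ := avg_ne_zero h'
      exact (hit_ne_zero o n w hw').trans hw.symm.reachable

theorem hit_supp {x : ℕ} (hl : LocFin G x) : ∀ n, {v | hit G x n v ≠ 0}.Finite
  | 0 => by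
    refine (Set.finite_singleton x).subset ?_
    intro v hv
    simp only [hit, Set.mem_ofPred_eq] at hv
    split_ifs at hv with h
    · exact h
    · exact absurd rfl hv
  | n + 1 => by
    have h1 : (⋃ w ∈ {v | hit G x n v ≠ 0}, {v | G.Adj w v}).Finite :=
      (hit_supp hl n).biUnion fun w hw => hl w (hit_ne_zero x n w hw)
    refine ((Set.finite_singleton x).union h1).subset ?_
    intro v hv
    simp only [hit, Set.mem_ofPred_eq] at hv
    split_ifs at hv with h
    · exact Or.inl h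
    · obtain ⟨w, hw, hw'⟩ := avg_ne_zero hv
      refine Or.inr ?_
      simp only [Set.mem_iUnion]
      exact ⟨w, hw', hw.symm⟩

/-- the energy of a function of finite support -/
theorem energy_cut (E : Finset (Sym2 ℕ)) (hE : (E : Set (Sym2 ℕ)) ⊆ G.edgeSet) (ψ : ℕ → ℝ)
    (D : Finset ℕ) (hD : ∀ v, v ∉ D → ψ v = 0) (nb : ℕ → Finset ℕ)
    (hnb : ∀ v ∈ D, ∀ w, w ∈ nb v ↔ G.Adj v w)
    (hall : ∀ v ∈ D, ∀ w, G.Adj v w → s(v, w) ∈ E) :
    energy E ψ = ∑ v ∈ D, ∑ w ∈ nb v, ψ v * (ψ v - ψ w) := by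
  classical
  rw [Finset.sum_sigma']
  rw [← Finset.sum_fiberwise_of_maps_to (s := D.sigma nb) (t := E)
    (g := fun p : (_ : ℕ) × ℕ => s(p.1, p.2))]
  · unfold energy
    refine Finset.sum_congr rfl fun e he => ?_
    induction e using Sym2.ind with
    | _ a b =>
      have hab : G.Adj a b := hE he
      have hne : a ≠ b := hab.ne
      have hfil : (D.sigma nb).filter (fun p : (_ : ℕ) × ℕ => s(p.1, p.2) = s(a, b)) =
          ({⟨a, b⟩, ⟨b, a⟩} : Finset ((_ : ℕ) × ℕ)).filter (fun p => p.1 ∈ D) := by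
        ext ⟨u, v⟩
        simp only [Finset.mem_filter, Finset.mem_sigma, Finset.mem_insert, Finset.mem_singleton,
          Sigma.mk.injEq, heq_eq_eq, Sym2.eq_iff]
        constructor
        · rintro ⟨⟨h1, -⟩, h2⟩
          exact ⟨h2, h1⟩
        · rintro ⟨⟨rfl, rfl⟩ | ⟨rfl, rfl⟩, h1⟩
          · exact ⟨⟨h1, (hnb _ h1 _).2 hab⟩, Or.inl ⟨rfl, rfl⟩⟩
          · exact ⟨⟨h1, (hnb _ h1 _).2 hab.symm⟩, Or.inr ⟨rfl, rfl⟩⟩
      rw [hfil, Finset.sum_filter, Finset.sum_pair (by
        intro h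
        simp only [Sigma.mk.injEq, heq_eq_eq] at h
        exact hne h.1), dsq_mk]
      have ha : (if a ∈ D then ψ a * (ψ a - ψ b) else 0) = ψ a * (ψ a - ψ b) := by
        split_ifs with h
        · rfl
        · rw [hD a h, zero_mul]
      have hb : (if b ∈ D then ψ b * (ψ b - ψ a) else 0) = ψ b * (ψ b - ψ a) := by
        split_ifs with h
        · rfl
        · rw [hD b h, zero_mul]
      simp only
      rw [ha, hb]
      ring
  · intro p hp
    obtain ⟨h1, h2⟩ := Finset.mem_sigma.1 hp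
    exact hall _ h1 _ ((hnb _ h1 _).1 h2)

/-- the energy of the hitting probabilities -/
theorem energy_hit {x : ℕ} (hl : LocFin G x) (n : ℕ) (E : Finset (Sym2 ℕ))
    (hE : (E : Set (Sym2 ℕ)) ⊆ G.edgeSet)
    (hall : ∀ v, hit G x n v ≠ 0 → ∀ w, G.Adj v w → s(v, w) ∈ E) :
    energy E (fun v => (hit G x n v).toReal) ≤
      ((hl x (SimpleGraph.Reachable.refl x)).toFinset.card : ℝ) *
        (1 - (avg G (hit G x n) x).toReal) := by
  classical
  set ψ : ℕ → ℝ := fun v => (hit G x n v).toReal with hψ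
  set D : Finset ℕ := (hit_supp hl n).toFinset with hDdef
  have hDm : ∀ v, v ∈ D ↔ hit G x n v ≠ 0 := by
    intro v
    rw [hDdef, Set.Finite.mem_toFinset]
    rfl
  have hDr : ∀ v, v ∈ D → G.Reachable x v := fun v hv => hit_ne_zero x n v ((hDm v).1 hv)
  let nb : ℕ → Finset ℕ := fun v => if h : G.Reachable x v then (hl v h).toFinset else ∅
  have hnb' : ∀ v (h : G.Reachable x v), nb v = (hl v h).toFinset := by
    intro v h
    simp only [nb]
    rw [dif_pos h]
  have hnb : ∀ v ∈ D, ∀ w, w ∈ nb v ↔ G.Adj v w := by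
    intro v hv w
    rw [hnb' v (hDr v hv), Set.Finite.mem_toFinset]
    rfl
  rw [energy_cut E hE ψ D (by
    intro v hv
    have : hit G x n v = 0 := by
      by_contra h
      exact hv ((hDm v).2 h)
    simp [hψ, this]) nb hnb (fun v hv w hw => hall v ((hDm v).1 hv) w hw)]
  -- the sum over neighbours
  have hsum : ∀ v (h : G.Reachable x v), ∑ w ∈ nb v, ψ w =
      ((nb v).card : ℝ) * (avg G (hit G x n) v).toReal := by
    intro v h
    rw [hnb' v h, avg_eq (hl v h), ENNReal.toReal_div, ENNReal.toReal_sum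
      (fun w _ => hit_ne_top x n w), ENNReal.toReal_natCast]
    by_cases h0 : (hl v h).toFinset.card = 0
    · rw [Finset.card_eq_zero] at h0
      rw [h0]
      simp
    · have : ((hl v h).toFinset.card : ℝ) ≠ 0 := by exact_mod_cast h0
      field_simp
      rfl
  have hterm : ∀ v ∈ D, ∑ w ∈ nb v, ψ v * (ψ v - ψ w) =
      ((nb v).card : ℝ) * (ψ v * (ψ v - (avg G (hit G x n) v).toReal)) := by
    intro v hv
    rw [← Finset.mul_sum, Finset.sum_sub_distrib, hsum v (hDr v hv), Finset.sum_const,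
      nsmul_eq_mul]
    ring
  rw [Finset.sum_congr rfl hterm]
  have hxD : x ∈ D := (hDm x).2 (by rw [hit_self]; exact one_ne_zero)
  rw [← Finset.add_sum_erase D _ hxD]
  have hψx : ψ x = 1 := by
    simp [hψ, hit_self]
  have hrest : ∑ v ∈ D.erase x, ((nb v).card : ℝ) * (ψ v * (ψ v - (avg G (hit G x n) v).toReal)) ≤
      0 := by
    refine Finset.sum_nonpos fun v hv => ?_
    obtain ⟨hvx, hvD⟩ := Finset.mem_erase.1 hv
    have h1 : hit G x n v ≤ avg G (hit G x n) v := by
      have := hit_succ_ge (G := G) x n v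
      rw [hit, if_neg hvx] at this
      exact this
    have h2 : ψ v ≤ (avg G (hit G x n) v).toReal :=
      ENNReal.toReal_mono (ne_top_of_le_ne_top ENNReal.one_ne_top
        (avg_le_one (hit_le_one x n) v)) h1
    have h3 : 0 ≤ ψ v := ENNReal.toReal_nonneg
    have h4 : ψ v * (ψ v - (avg G (hit G x n) v).toReal) ≤ 0 :=
      mul_nonpos_of_nonneg_of_nonpos h3 (by linarith)
    exact mul_nonpos_of_nonneg_of_nonpos (Nat.cast_nonneg _) h4
  rw [hψx, one_mul, hnb' x (SimpleGraph.Reachable.refl x)]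
  linarith

/-- in a recurrent graph there are cutoff functions of arbitrarily small energy -/
theorem exists_cutoff {x : ℕ} (hl : LocFin G x) (hr : RecurrentAt G x) (hx : ∃ w, G.Adj x w)
    (δ : ℝ) (hδ : 0 < δ) :
    ∃ (ψ : ℕ → ℝ) (D : Finset ℕ), (∀ v, 0 ≤ ψ v ∧ ψ v ≤ 1) ∧ ψ x = 1 ∧
      (∀ v, v ∉ D → ψ v = 0) ∧ (∀ v ∈ D, G.Reachable x v) ∧
      ∀ E : Finset (Sym2 ℕ), (E : Set (Sym2 ℕ)) ⊆ G.edgeSet →
        (∀ v ∈ D, ∀ w, G.Adj v w → s(v, w) ∈ E) → energy E ψ ≤ δ := by
  set d : ℝ := ((hl x (SimpleGraph.Reachable.refl x)).toFinset.card : ℝ) with hd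
  have hd0 : 0 ≤ d := Nat.cast_nonneg _
  have hrec := hr x (SimpleGraph.Reachable.refl x) hx
  have hlt : ENNReal.ofReal (1 - δ / (d + 1)) < ⨆ n, avg G (hit G x n) x := by
    rw [hrec, ENNReal.ofReal_lt_one]
    have : 0 < δ / (d + 1) := by positivity
    linarith
  obtain ⟨n, hn⟩ := lt_iSup_iff.1 hlt
  refine ⟨fun v => (hit G x n v).toReal, (hit_supp hl n).toFinset, ?_, ?_, ?_, ?_, ?_⟩
  · intro v
    refine ⟨ENNReal.toReal_nonneg, ?_⟩
    have := ENNReal.toReal_mono ENNReal.one_ne_top (hit_le_one (G := G) x n v)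
    simpa using this
  · simp [hit_self]
  · intro v hv
    have : hit G x n v = 0 := by
      by_contra h
      exact hv (by rw [Set.Finite.mem_toFinset]; exact h)
    simp [this]
  · intro v hv
    rw [Set.Finite.mem_toFinset] at hv
    exact hit_ne_zero x n v hv
  · intro E hE hall
    refine (energy_hit hl n E hE (fun v hv w hw => hall v (by
      rw [Set.Finite.mem_toFinset]; exact hv) w hw)).trans ?_
    have h1 : avg G (hit G x n) x ≠ ⊤ :=
      ne_top_of_le_ne_top ENNReal.one_ne_top (avg_le_one (hit_le_one x n) x)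
    have h2 : 1 - δ / (d + 1) < (avg G (hit G x n) x).toReal := by
      rcases le_or_gt 0 (1 - δ / (d + 1)) with h0 | h0
      · exact (ENNReal.ofReal_lt_iff_lt_toReal h0 h1).1 hn
      · exact h0.trans_le ENNReal.toReal_nonneg
    have h3 : 1 - (avg G (hit G x n) x).toReal ≤ δ / (d + 1) := by linarith
    calc d * (1 - (avg G (hit G x n) x).toReal) ≤ d * (δ / (d + 1)) :=
          mul_le_mul_of_nonneg_left h3 hd0
      _ = δ * (d / (d + 1)) := by ring
      _ ≤ δ * 1 := by
          refine mul_le_mul_of_nonneg_left ?_ hδ.le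
          rw [div_le_one (by positivity)]
          linarith
      _ = δ := mul_one _

end Walk

end Pool.Agent.NH99.WU
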