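import Pool.Agent.NH99.WU_Lim2

/-!
# On recurrent graphs the free and the wired uniform spanning forests agree
-/

set_option autoImplicit false
set_option linter.unusedSectionVars false

namespace Pool.Agent.NH99.WU

open Finset Pool.Agent.TH968.UST Pool.Agent.TH830.UST Filter Topology
open scoped ENNReal
open Pool.Agent.TH830.J74 (av card_pos' av_mono notMem_of_rel)

variable {G : SimpleGraph ℕ}

theorem ustProb_eq (r : Setoid ℕ) (E F A : Finset (Sym2 ℕ)) :
    ustProb r (E : Set (Sym2 ℕ)) (F : Set (Sym2 ℕ)) (A : Set (Sym2 ℕ)) =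
      av r E (fun T => if T ∩ F = A then 1 else 0) := by
  classical
  unfold ustProb av
  have h1 : {T : Set (Sym2 ℕ) | IsSpan r (E : Set (Sym2 ℕ)) T} =
      (fun T : Finset (Sym2 ℕ) => (T : Set (Sym2 ℕ))) '' (trees r E : Set (Finset (Sym2 ℕ))) := by
    ext T
    constructor
    · intro hT
      have hTE : T ⊆ (E : Set (Sym2 ℕ)) := hT.1
      have hfin : T.Finite := E.finite_toSet.subset hTE
      refine ⟨hfin.toFinset, ?_, hfin.coe_toFinset⟩
      rw [Finset.mem_coe]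
      unfold trees
      rw [Finset.mem_filter, Finset.mem_powerset, hfin.coe_toFinset]
      refine ⟨?_, hT⟩
      intro e he
      exact hTE (hfin.mem_toFinset.1 he)
    · rintro ⟨T', hT', rfl⟩
      rw [Finset.mem_coe] at hT'
      unfold trees at hT'
      exact (Finset.mem_filter.1 hT').2
  have h2 : {T : Set (Sym2 ℕ) | IsSpan r (E : Set (Sym2 ℕ)) T ∧ T ∩ (F : Set (Sym2 ℕ)) =
      (A : Set (Sym2 ℕ))} =
      (fun T : Finset (Sym2 ℕ) => (T : Set (Sym2 ℕ))) ''
        (((trees r E).filter (fun T => T ∩ F = A) : Finset (Finset (Sym2 ℕ))) :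
          Set (Finset (Sym2 ℕ))) := by
    ext T
    constructor
    · rintro ⟨hT, hTA⟩
      have : T ∈ {T : Set (Sym2 ℕ) | IsSpan r (E : Set (Sym2 ℕ)) T} := hT
      rw [h1] at this
      obtain ⟨T', hT', rfl⟩ := this
      refine ⟨T', ?_, rfl⟩
      rw [Finset.mem_coe, Finset.mem_filter]
      refine ⟨hT', ?_⟩
      apply Finset.coe_injective
      rw [Finset.coe_inter]
      exact hTA
    · rintro ⟨T', hT', rfl⟩
      rw [Finset.mem_coe, Finset.mem_filter] at hT'
      refine ⟨?_, ?_⟩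
      · have : (T' : Set (Sym2 ℕ)) ∈ (fun T : Finset (Sym2 ℕ) => (T : Set (Sym2 ℕ))) ''
            (trees r E : Set (Finset (Sym2 ℕ))) := ⟨T', hT'.1, rfl⟩
        rw [← h1] at this
        exact this
      · show (T' : Set (Sym2 ℕ)) ∩ F = A
        rw [← Finset.coe_inter, hT'.2]
  rw [h1, h2, Set.ncard_image_of_injective _ Finset.coe_injective,
    Set.ncard_image_of_injective _ Finset.coe_injective, Set.ncard_coe_finset,
    Set.ncard_coe_finset, Finset.sum_boole]

theorem touch_fin {x : ℕ} (hl : LocFin G x) (B : Finset ℕ) (hB : ∀ v ∈ B, G.Reachable x v) :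
    (touch G B).Finite := by
  have h : (⋃ v ∈ (B : Set ℕ), (fun w => s(v, w)) '' {w | G.Adj v w}).Finite :=
    B.finite_toSet.biUnion fun v hv => (hl v (hB v hv)).image _
  refine h.subset ?_
  rintro e ⟨he, v, hv, hve⟩
  obtain ⟨w, rfl⟩ := Sym2.mem_iff_exists.1 hve
  simp only [Set.mem_iUnion]
  exact ⟨v, hv, w, he, rfl⟩

/-- the free and the wired edge probabilities are close -/
theorem edge_close {x0 : ℕ} (hl : LocFin G x0) (hr : RecurrentAt G x0) (e : Sym2 ℕ)
    (he : e ∈ compEdges G x0) (t : ℝ) (ht : 0 < t) :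
    ∃ D : Finset ℕ, (∀ v ∈ D, G.Reachable x0 v) ∧ ∀ (E E' : Finset (Sym2 ℕ)) (r : Setoid ℕ),
      e ∈ E → e ∈ E' → (E' : Set (Sym2 ℕ)) ⊆ G.edgeSet →
      (∀ v ∈ D, ∀ w, G.Adj v w → s(v, w) ∈ E) → (∀ v ∈ D, ∀ w, G.Adj v w → s(v, w) ∈ E') →
      (∀ a b, r a b → a = b ∨ (a ∉ D ∧ b ∉ D)) →
      av ⊥ E (fun T => if e ∈ T then (1 : ℝ) else 0) -
        av r E' (fun T => if e ∈ T then (1 : ℝ) else 0) ≤ 2 * t + t ^ 2 := by
  induction e using Sym2.ind with
  | _ x y =>
    have hxy : G.Adj x y := he.1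
    have hx : G.Reachable x0 x := he.2 x (Sym2.mem_mk_left _ _)
    have hlx : LocFin G x := fun v hv => hl v (hx.trans hv)
    have hrx : RecurrentAt G x := fun o ho => hr o (hx.trans ho)
    obtain ⟨ψ, D, h1, h2, h3, h4, h5⟩ := exists_cutoff hlx hrx ⟨y, hxy⟩ (t ^ 2) (by positivity)
    refine ⟨D, fun v hv => hx.trans (h4 v hv), ?_⟩
    intro E E' r he he' hE' hDE hDE' hrD
    refine edge_diff r E E' x y hxy.ne he he' ψ h1 h2 ?_ ?_ t ht (h5 E' hE' hDE')
    · intro a b hab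
      rcases hrD a b hab with h | ⟨ha, hb⟩
      · exact Or.inl h
      · exact Or.inr ⟨h3 a ha, h3 b hb⟩
    · intro a b hab hn
      have hadj : G.Adj a b := hE' hab
      constructor
      · apply h3
        intro ha
        exact hn (hDE a ha b hadj)
      · apply h3
        intro hb
        apply hn
        rw [Sym2.eq_swap]
        exact hDE b hb a hadj.symm

theorem close {x0 : ℕ} (hl : LocFin G x0) (hr : RecurrentAt G x0) (F A : Finset (Sym2 ℕ))
    (hF : (F : Set (Sym2 ℕ)) ⊆ compEdges G x0) (ε : ℝ) (hε : 0 < ε) :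
    ∃ (E0 : Finset (Sym2 ℕ)) (B0 : Finset ℕ), (E0 : Set (Sym2 ℕ)) ⊆ compEdges G x0 ∧
      (∀ v ∈ B0, G.Reachable x0 v) ∧ ∀ E : Finset (Sym2 ℕ), (E : Set (Sym2 ℕ)) ⊆ compEdges G x0 →
        E0 ⊆ E → ∀ B : Finset ℕ, (∀ v ∈ B, G.Reachable x0 v) → B0 ⊆ B →
          |av ⊥ E (fun T => if T ∩ F = A then 1 else 0) -
            ustProb (wired B) (touch G B) (F : Set (Sym2 ℕ)) (A : Set (Sym2 ℕ))| ≤ ε := by
  classical
  obtain ⟨t, ht, htε⟩ : ∃ t : ℝ, 0 < t ∧ (F.card : ℝ) * (2 * t + t ^ 2) ≤ ε := by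
    refine ⟨min 1 (ε / (3 * ((F.card : ℝ) + 1))), by positivity, ?_⟩
    set t := min 1 (ε / (3 * ((F.card : ℝ) + 1))) with ht
    have h0 : 0 < t := by positivity
    have h1 : t ≤ 1 := min_le_left _ _
    have h2 : t ≤ ε / (3 * ((F.card : ℝ) + 1)) := min_le_right _ _
    have h3 : 2 * t + t ^ 2 ≤ 3 * t := by nlinarith
    have hc : (0 : ℝ) ≤ F.card := Nat.cast_nonneg _
    calc (F.card : ℝ) * (2 * t + t ^ 2) ≤ (F.card : ℝ) * (3 * t) :=
          mul_le_mul_of_nonneg_left h3 hc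
      _ ≤ ((F.card : ℝ) + 1) * (3 * t) := by nlinarith
      _ ≤ ((F.card : ℝ) + 1) * (3 * (ε / (3 * ((F.card : ℝ) + 1)))) := by
          refine mul_le_mul_of_nonneg_left (by linarith) (by positivity)
      _ = ε := by field_simp
  have hch : ∀ e : Sym2 ℕ, ∃ D : Finset ℕ, e ∈ F → (∀ v ∈ D, G.Reachable x0 v) ∧
      ∀ (E E' : Finset (Sym2 ℕ)) (r : Setoid ℕ),
      e ∈ E → e ∈ E' → (E' : Set (Sym2 ℕ)) ⊆ G.edgeSet →
      (∀ v ∈ D, ∀ w, G.Adj v w → s(v, w) ∈ E) → (∀ v ∈ D, ∀ w, G.Adj v w → s(v, w) ∈ E') →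
      (∀ a b, r a b → a = b ∨ (a ∉ D ∧ b ∉ D)) →
      av ⊥ E (fun T => if e ∈ T then (1 : ℝ) else 0) -
        av r E' (fun T => if e ∈ T then (1 : ℝ) else 0) ≤ 2 * t + t ^ 2 := by
    intro e
    by_cases he : e ∈ F
    · obtain ⟨D, hD⟩ := edge_close hl hr e (hF he) t ht
      exact ⟨D, fun _ => hD⟩
    · exact ⟨∅, fun h => absurd h he⟩
  choose D hD using hch
  set B1 : Finset ℕ := F.biUnion D with hB1
  have hB1r : ∀ v ∈ B1, G.Reachable x0 v := by
    intro v hv
    obtain ⟨e, he, hve⟩ := Finset.mem_biUnion.1 hv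
    exact (hD e he).1 v hve
  -- the vertices of a finite set of edges
  let vt : Finset (Sym2 ℕ) → Finset ℕ := fun S => S.biUnion fun e => e.toFinset
  have hvt : ∀ (S : Finset (Sym2 ℕ)) (v : ℕ), v ∈ vt S ↔ ∃ e ∈ S, v ∈ e := by
    intro S v
    simp [vt]
  have hvtr : ∀ S : Finset (Sym2 ℕ), (S : Set (Sym2 ℕ)) ⊆ compEdges G x0 →
      ∀ v ∈ vt S, G.Reachable x0 v := by
    intro S hS v hv
    obtain ⟨e, he, hve⟩ := (hvt S v).1 hv
    exact (hS he).2 v hve
  have htouch : ∀ B : Finset ℕ, (∀ v ∈ B, G.Reachable x0 v) → touch G B ⊆ compEdges G x0 := by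
    rintro B hB e ⟨he, v, hv, hve⟩
    refine ⟨he, ?_⟩
    intro w hw
    obtain ⟨u, rfl⟩ := Sym2.mem_iff_exists.1 hve
    rcases Sym2.mem_iff.1 hw with rfl | rfl
    · exact hB _ hv
    · exact (hB _ hv).trans (SimpleGraph.Adj.reachable he)
  refine ⟨F ∪ (touch_fin hl B1 hB1r).toFinset, B1 ∪ vt F, ?_, ?_, ?_⟩
  · rw [Finset.coe_union, Set.Finite.coe_toFinset]
    exact Set.union_subset hF (htouch B1 hB1r)
  · intro v hv
    rcases Finset.mem_union.1 hv with h | h
    · exact hB1r v h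
    · exact hvtr F hF v h
  · intro E hEc hE0 B hBr hB0
    set E' : Finset (Sym2 ℕ) := (touch_fin hl B hBr).toFinset with hE'
    have hE'c : (E' : Set (Sym2 ℕ)) = touch G B := Set.Finite.coe_toFinset _
    rw [← hE'c, ustProb_eq]
    have hFE : F ⊆ E := Finset.subset_union_left.trans hE0
    have hFE' : F ⊆ E' := by
      intro e he
      rw [hE', Set.Finite.mem_toFinset]
      refine ⟨(hF he).1, ?_⟩
      induction e using Sym2.ind with
      | _ a b =>
        exact ⟨a, hB0 (Finset.mem_union_right _ ((hvt F a).2 ⟨_, he, Sym2.mem_mk_left _ _⟩)),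
          Sym2.mem_mk_left _ _⟩
    have hE'G : (E' : Set (Sym2 ℕ)) ⊆ G.edgeSet := by
      rw [hE'c]
      exact fun e he => he.1
    refine (cyl_diff (wired B) ⊥ E' E F A ?_).trans ?_
    · intro g hg
      set B2 : Finset ℕ := B ∪ vt E with hB2
      have hB2r : ∀ v ∈ B2, G.Reachable x0 v := by
        intro v hv
        rcases Finset.mem_union.1 hv with h | h
        · exact hBr v h
        · exact hvtr E hEc v h
      set E2 : Finset (Sym2 ℕ) := (touch_fin hl B2 hB2r).toFinset with hE2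
      have hE2m : ∀ e, e ∈ E2 ↔ e ∈ touch G B2 := fun e => by
        rw [hE2, Set.Finite.mem_toFinset]
      have hE'm : ∀ e, e ∈ E' ↔ e ∈ touch G B := fun e => by
        rw [hE', Set.Finite.mem_toFinset]
      have hEE2 : E ⊆ E2 := by
        intro e he
        rw [hE2m]
        refine ⟨(hEc he).1, ?_⟩
        induction e using Sym2.ind with
        | _ a b =>
          exact ⟨a, Finset.mem_union_right _ ((hvt E a).2 ⟨_, he, Sym2.mem_mk_left _ _⟩),
            Sym2.mem_mk_left _ _⟩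
      have hE'E2 : E' ⊆ E2 := by
        intro e he
        rw [hE2m]
        obtain ⟨h1, v, hv, hve⟩ := (hE'm e).1 he
        exact ⟨h1, v, Finset.mem_union_left _ hv, hve⟩
      have htr : trees (wired B) E2 = trees (wired B) E' := by
        refine trees_loops (wired B) E' E2 hE'E2 ?_
        intro a b h1 h2
        have hadj : s(a, b) ∈ G.edgeSet := ((hE2m _).1 h1).1
        right
        constructor
        · intro ha
          exact h2 ((hE'm _).2 ⟨hadj, a, ha, Sym2.mem_mk_left _ _⟩)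
        · intro hb
          exact h2 ((hE'm _).2 ⟨hadj, b, hb, Sym2.mem_mk_right _ _⟩)
      have h1 : av (wired B) E' (fun T => g (T ∩ F)) = av (wired B) E2 (fun T => g (T ∩ F)) := by
        unfold av
        rw [htr]
      rw [h1]
      have h2 := dom_le (wired B) ⊥ bot_le E2 E hEE2 (fun T => g (T ∩ F))
        (fun S T h => hg _ _ (Finset.inter_subset_inter_right h))
      refine le_trans (le_of_eq ?_) h2
      unfold av
      congr 1
      refine Finset.sum_congr rfl fun T _ => ?_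
      have h3 : T ∩ E ∩ F = T ∩ F := by rw [Finset.inter_assoc, Finset.inter_eq_right.2 hFE]
      simp only [h3]
    · refine le_trans (Finset.sum_le_card_nsmul F _ (2 * t + t ^ 2) ?_) (by
        rw [nsmul_eq_mul]; exact htε)
      intro e he
      refine (hD e he).2 E E' (wired B) (hFE he) (hFE' he) hE'G ?_ ?_ ?_
      · intro v hv w hw
        apply hE0
        refine Finset.mem_union_right _ ?_
        rw [Set.Finite.mem_toFinset]
        exact ⟨hw, v, Finset.mem_biUnion.2 ⟨e, he, hv⟩, Sym2.mem_mk_left _ _⟩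
      · intro v hv w hw
        rw [hE', Set.Finite.mem_toFinset]
        exact ⟨hw, v, hB0 (Finset.mem_union_left _ (Finset.mem_biUnion.2 ⟨e, he, hv⟩)),
          Sym2.mem_mk_left _ _⟩
      · intro a b hab
        rcases hab with h | ⟨ha, hb⟩
        · exact Or.inl h
        · refine Or.inr ⟨fun h => ha ?_, fun h => hb ?_⟩
          · exact hB0 (Finset.mem_union_left _ (Finset.mem_biUnion.2 ⟨e, he, h⟩))
          · exact hB0 (Finset.mem_union_left _ (Finset.mem_biUnion.2 ⟨e, he, h⟩))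

/-- the common limit -/
theorem lim_exists {x0 : ℕ} (hl : LocFin G x0) (hr : RecurrentAt G x0) (F A : Finset (Sym2 ℕ))
    (hF : (F : Set (Sym2 ℕ)) ⊆ compEdges G x0) :
    ∃ ℓ : ℝ, (∀ V : ℕ → Finset ℕ, Monotone V → (∀ v, G.Reachable x0 v ↔ ∃ n, v ∈ V n) →
        Tendsto (fun n => ustProb (wired (V n)) (touch G (V n)) (F : Set (Sym2 ℕ))
          (A : Set (Sym2 ℕ))) atTop (𝓝 ℓ)) ∧
      ∀ E : ℕ → Finset (Sym2 ℕ), Monotone E → (∀ n, (E n : Set (Sym2 ℕ)) ⊆ compEdges G x0) →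
        (∀ e ∈ compEdges G x0, ∃ n, e ∈ E n) →
        Tendsto (fun n => av ⊥ (E n) (fun T => if T ∩ F = A then 1 else 0)) atTop (𝓝 ℓ) := by
  classical
  -- monotone sequences of finsets eventually contain a finite set
  have hev : ∀ {α : Type} [DecidableEq α] (S : ℕ → Finset α) (_ : Monotone S) (s0 : Finset α)
      (_ : ∀ a ∈ s0, ∃ n, a ∈ S n), ∃ N, ∀ n ≥ N, s0 ⊆ S n := by
    intro α _ S hS s0
    induction s0 using Finset.induction_on with
    | empty => exact fun _ => ⟨0, fun n _ => Finset.empty_subset _⟩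
    | insert a s _ ih =>
      intro h
      obtain ⟨N, hN⟩ := ih (fun b hb => h b (Finset.mem_insert_of_mem hb))
      obtain ⟨m, hm⟩ := h a (Finset.mem_insert_self _ _)
      refine ⟨max N m, fun n hn => Finset.insert_subset ?_ ?_⟩
      · exact hS (le_trans (le_max_right _ _) hn) hm
      · exact hN n (le_trans (le_max_left _ _) hn)
  let Ec : ℕ → Finset (Sym2 ℕ) := fun n =>
    (Finset.range n).sym2.filter (fun e => e ∈ compEdges G x0)
  have hEcm : Monotone Ec := by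
    intro m n h
    refine Finset.filter_subset_filter _ (Finset.sym2_mono (Finset.range_mono h))
  have hEcs : ∀ n, (Ec n : Set (Sym2 ℕ)) ⊆ compEdges G x0 := by
    intro n e he
    exact (Finset.mem_filter.1 (Finset.mem_coe.1 he)).2
  have hEcc : ∀ e ∈ compEdges G x0, ∃ n, e ∈ Ec n := by
    intro e he
    induction e using Sym2.ind with
    | _ a b =>
      refine ⟨max a b + 1, Finset.mem_filter.2 ⟨?_, he⟩⟩
      rw [Finset.mk_mem_sym2_iff, Finset.mem_range, Finset.mem_range]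
      omega
  set u : ℕ → ℝ := fun n => av ⊥ (Ec n) (fun T => if T ∩ F = A then 1 else 0) with hu
  have hcauchy : CauchySeq u := by
    rw [Metric.cauchySeq_iff']
    intro ε hε
    obtain ⟨E0, B0, hE0, hB0, h⟩ := close hl hr F A hF (ε / 3) (by positivity)
    obtain ⟨N, hN⟩ := hev Ec hEcm E0 (fun e he => hEcc e (hE0 he))
    refine ⟨N, fun n hn => ?_⟩
    have h1 := h (Ec n) (hEcs n) (hN n hn) B0 hB0 (Finset.Subset.refl _)
    have h2 := h (Ec N) (hEcs N) (hN N le_rfl) B0 hB0 (Finset.Subset.refl _)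
    rw [Real.dist_eq]
    rw [abs_le] at h1 h2
    rw [abs_lt]
    constructor <;> linarith [h1.1, h1.2, h2.1, h2.2]
  obtain ⟨ℓ, hℓ⟩ := cauchySeq_tendsto_of_complete hcauchy
  have hℓ' : ∀ ε > 0, ∃ B0 : Finset ℕ, ∃ E0 : Finset (Sym2 ℕ), (∀ v ∈ B0, G.Reachable x0 v) ∧
      (E0 : Set (Sym2 ℕ)) ⊆ compEdges G x0 ∧
      (∀ B : Finset ℕ, (∀ v ∈ B, G.Reachable x0 v) → B0 ⊆ B →
        |ustProb (wired B) (touch G B) (F : Set (Sym2 ℕ)) (A : Set (Sym2 ℕ)) - ℓ| ≤ ε) ∧
      (∀ E : Finset (Sym2 ℕ), (E : Set (Sym2 ℕ)) ⊆ compEdges G x0 → E0 ⊆ E →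
        |av ⊥ E (fun T => if T ∩ F = A then 1 else 0) - ℓ| ≤ 2 * ε) := by
    intro ε hε
    obtain ⟨E0, B0, hE0, hB0, h⟩ := close hl hr F A hF ε hε
    obtain ⟨N, hN⟩ := hev Ec hEcm E0 (fun e he => hEcc e (hE0 he))
    have key : ∀ B : Finset ℕ, (∀ v ∈ B, G.Reachable x0 v) → B0 ⊆ B →
        |ustProb (wired B) (touch G B) (F : Set (Sym2 ℕ)) (A : Set (Sym2 ℕ)) - ℓ| ≤ ε := by
      intro B hB hBB
      rw [abs_sub_comm]
      have ht : Tendsto (fun n => |u n -
          ustProb (wired B) (touch G B) (F : Set (Sym2 ℕ)) (A : Set (Sym2 ℕ))|) atTop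
          (𝓝 |ℓ - ustProb (wired B) (touch G B) (F : Set (Sym2 ℕ)) (A : Set (Sym2 ℕ))|) :=
        (hℓ.sub_const _).abs
      refine le_of_tendsto ht ?_
      filter_upwards [eventually_ge_atTop N] with n hn
      exact h (Ec n) (hEcs n) (hN n hn) B hB hBB
    refine ⟨B0, E0, hB0, hE0, key, ?_⟩
    intro E hE hEE
    have h1 := h E hE hEE B0 hB0 (Finset.Subset.refl _)
    have h2 := key B0 hB0 (Finset.Subset.refl _)
    rw [abs_le] at h1 h2 ⊢
    constructor <;> linarith [h1.1, h1.2, h2.1, h2.2]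
  refine ⟨ℓ, ?_, ?_⟩
  · intro V hV hVc
    rw [Metric.tendsto_atTop]
    intro ε hε
    obtain ⟨B0, E0, hB0, hE0, h1, h2⟩ := hℓ' (ε / 2) (by positivity)
    obtain ⟨N, hN⟩ := hev V hV B0 (fun v hv => (hVc v).1 (hB0 v hv))
    refine ⟨N, fun n hn => ?_⟩
    rw [Real.dist_eq]
    have := h1 (V n) (fun v hv => (hVc v).2 ⟨n, hv⟩) (hN n hn)
    linarith
  · intro E hE hEc hEcov
    rw [Metric.tendsto_atTop]
    intro ε hε
    obtain ⟨B0, E0, hB0, hE0, h1, h2⟩ := hℓ' (ε / 4) (by positivity)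
    obtain ⟨N, hN⟩ := hev E hE E0 (fun e he => hEcov e (hE0 he))
    refine ⟨N, fun n hn => ?_⟩
    rw [Real.dist_eq]
    have := h2 (E n) (hEc n) (hN n hn)
    linarith

end Pool.Agent.NH99.WU
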