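import Pool.Agent.NH99.WU_Exh2

/-!
# Choice of the parameters and the mass transport principle
-/

set_option autoImplicit false
set_option linter.unusedSectionVars false

namespace Pool.Agent.NH99.WU

open Finset Pool.Agent.TH968.UST MeasureTheory Filter Topology
open scoped unitInterval ENNReal

theorem dS_meas2 (n : ℕ) : Measurable fun p : SimpleGraph ℕ × ℕ => dS p.1 n p.2 :=
  measurable_from_prod_countable_left fun x => dS_meas n x

theorem choose_t (P : Measure (SimpleGraph ℕ × ℕ)) [IsProbabilityMeasure P]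
    (hl : ∀ᵐ p ∂P, LocFin p.1 p.2) (hr : ∀ᵐ p ∂P, RecurrentAt p.1 p.2) :
    ∃ t : ℕ → ℕ, (∀ k, t k ≠ 0) ∧ ∀ᵐ p ∂P, qq p.1 t p.2 ≠ ⊤ := by
  have hlim : Tendsto (fun n : ℕ => ∫⁻ p, min 1 (dS p.1 n p.2) ∂P) atTop (𝓝 0) := by
    have h0 : ∫⁻ _ : SimpleGraph ℕ × ℕ, (0 : ℝ≥0∞) ∂P = 0 := by simp
    rw [← h0]
    refine tendsto_lintegral_of_dominated_convergence (fun _ => 1) ?_ ?_ ?_ ?_
    · exact fun n => measurable_const.min (dS_meas2 n)
    · exact fun n => Eventually.of_forall fun p => min_le_left _ _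
    · simp
    · filter_upwards [hl, hr] with p h1 h2
      have h3 := dS_tendsto h1 h2 (SimpleGraph.Reachable.refl p.2)
      rw [ENNReal.tendsto_nhds_zero] at h3 ⊢
      intro ε hε
      filter_upwards [h3 ε hε] with n hn
      exact (min_le_right _ _).trans hn
  have hch : ∀ k : ℕ, ∃ n : ℕ, n ≠ 0 ∧ ∫⁻ p, min 1 (dS p.1 n p.2) ∂P ≤
      (2⁻¹ : ℝ≥0∞) ^ k / (k + 1) := by
    intro k
    have hpos : (0 : ℝ≥0∞) < (2⁻¹ : ℝ≥0∞) ^ k / (k + 1) := by
      refine ENNReal.div_pos ?_ ?_
      · exact (ENNReal.pow_pos (by simp) k).ne'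
      · exact ENNReal.add_ne_top.2 ⟨ENNReal.natCast_ne_top _, ENNReal.one_ne_top⟩
    have h1 := ENNReal.tendsto_nhds_zero.1 hlim _ hpos
    obtain ⟨n, hn1, hn2⟩ := (h1.and (eventually_ne_atTop 0)).exists
    exact ⟨n, hn2, hn1⟩
  choose t ht0 ht using hch
  refine ⟨t, ht0, ?_⟩
  have hint : ∫⁻ p, qq p.1 t p.2 ∂P ≤ 2 := by
    unfold qq
    rw [lintegral_tsum]
    · have h2 : ∀ k : ℕ, ∫⁻ p, (k : ℝ≥0∞) * min 1 (dS p.1 (t k) p.2) ∂P ≤ (2⁻¹ : ℝ≥0∞) ^ k := by
        intro k
        rw [lintegral_const_mul _ (measurable_const.min (dS_meas2 (t k)))]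
        calc (k : ℝ≥0∞) * ∫⁻ p, min 1 (dS p.1 (t k) p.2) ∂P
            ≤ (k + 1) * ((2⁻¹ : ℝ≥0∞) ^ k / (k + 1)) := mul_le_mul' le_self_add (ht k)
          _ = (2⁻¹ : ℝ≥0∞) ^ k := by
              refine ENNReal.mul_div_cancel ?_ ?_
              · simp
              · exact ENNReal.add_ne_top.2 ⟨ENNReal.natCast_ne_top _, ENNReal.one_ne_top⟩
      refine (ENNReal.tsum_le_tsum h2).trans ?_
      rw [ENNReal.tsum_geometric]
      rw [ENNReal.one_sub_inv_two, inv_inv]
    · intro k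
      exact (measurable_const.mul (measurable_const.min (dS_meas2 (t k)))).aemeasurable
  have hmeas : Measurable fun p : SimpleGraph ℕ × ℕ => qq p.1 t p.2 := by
    unfold qq
    exact Measurable.tsum fun k => measurable_const.mul (measurable_const.min (dS_meas2 (t k)))
  have := ae_lt_top hmeas (ne_top_of_le_ne_top (by simp) hint)
  filter_upwards [this] with p hp
  exact hp.ne

theorem qq_meas (t : ℕ → ℕ) (x : ℕ) : Measurable fun G => qq G t x := by
  unfold qq
  exact Measurable.tsum fun k => measurable_const.mul (measurable_const.min (dS_meas (t k) x))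

theorem reroot_ae (P : Measure (SimpleGraph ℕ × ℕ)) (hu : Unimodular P) (t : ℕ → ℕ)
    (h : ∀ᵐ p ∂P, qq p.1 t p.2 ≠ ⊤) :
    ∀ᵐ p ∂P, ∀ u, p.1.Reachable p.2 u → qq p.1 t u ≠ ⊤ := by
  classical
  let f : SimpleGraph ℕ → ℕ → ℕ → ℝ≥0∞ := fun G _ y => if qq G t y = ⊤ then 1 else 0
  have hfm : ∀ y, Measurable fun G : SimpleGraph ℕ => if qq G t y = ⊤ then (1 : ℝ≥0∞) else 0 :=
    fun y => Measurable.ite (qq_meas t y (MeasurableSet.singleton ⊤)) measurable_const
      measurable_const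
  have hf : IsTransport f := by
    refine ⟨fun x y => hfm y, ?_⟩
    intro G G' x x' φ hφ y hy
    have : qq G' t (φ y) = qq G t y := by
      unfold qq
      refine tsum_congr fun k => ?_
      rw [hφ.dS_iso (t k) hy]
    simp only [f, this]
  have hmt := hu f hf
  have hreach : ∀ x y : ℕ, MeasurableSet {G : SimpleGraph ℕ | G.Reachable x y} := fun x y =>
    meas_reach (Ω := SimpleGraph ℕ) (H := fun G => G) (fun u v => meas_adj u v) x y
  have hR : ∫⁻ p, (∑' x, if p.1.Reachable p.2 x then f p.1 x p.2 else 0) ∂P = 0 := by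
    rw [← lintegral_zero (μ := P)]
    refine lintegral_congr_ae ?_
    filter_upwards [h] with p hp
    rw [ENNReal.tsum_eq_zero]
    intro x
    simp only [f, if_neg hp]
    simp
  rw [hR] at hmt
  have hL : Measurable fun p : SimpleGraph ℕ × ℕ =>
      ∑' x, if p.1.Reachable p.2 x then f p.1 p.2 x else 0 := by
    refine measurable_from_prod_countable_left fun r => ?_
    refine Measurable.tsum fun x => ?_
    exact Measurable.ite (hreach r x) (hfm x) measurable_const
  rw [lintegral_eq_zero_iff hL] at hmt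
  filter_upwards [hmt] with p hp u hpu
  simp only [Pi.zero_apply, ENNReal.tsum_eq_zero] at hp
  have := hp u
  rw [if_pos hpu] at this
  intro hc
  simp only [f, if_pos hc] at this
  exact one_ne_zero this

end Pool.Agent.NH99.WU
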