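import Pool.Agent.NH99.WU_Mtp
import Pool.Agent.NH99.WU_Lim3

/-!
# The limit of the forests and its law
-/

set_option autoImplicit false
set_option linter.unusedSectionVars false

namespace Pool.Agent.NH99.WU

open Finset Pool.Agent.TH968.UST Pool.Agent.TH830.UST MeasureTheory Filter Topology
open scoped unitInterval ENNReal
open Pool.Agent.TH830.J74 (av card_pos')

/-- the edges which are eventually in the forests -/
noncomputable def Psi (G : SimpleGraph ℕ) (t : ℕ → ℕ) (a b : ℕ × ℕ → I) : Set (Sym2 ℕ) :=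
  {e | ∃ k0, ∀ k, k0 ≤ k → e ∈ TT (HH G t a) (fun v => a (v, 0)) b k}

theorem Psi_sub (G : SimpleGraph ℕ) (t : ℕ → ℕ) (a b : ℕ × ℕ → I) : Psi G t a b ⊆ G.edgeSet := by
  rintro e ⟨k0, hk0⟩
  have h1 := TT_sub _ _ _ _ (hk0 k0 le_rfl)
  exact SimpleGraph.edgeSet_mono ((HH_le (t := t) (a := a) k0).trans (H0_le k0)) h1

theorem Psi_meas (t : ℕ → ℕ) (e : Sym2 ℕ) : MeasurableSet
    {p : SimpleGraph ℕ × ((ℕ × ℕ → I) × (ℕ × ℕ → I)) | e ∈ Psi p.1 t p.2.1 p.2.2} := by
  have h1 : ∀ k, MeasurableSet {p : SimpleGraph ℕ × ((ℕ × ℕ → I) × (ℕ × ℕ → I)) |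
      e ∈ TT (HH p.1 t p.2.1) (fun v => p.2.1 (v, 0)) p.2.2 k} := by
    intro k
    refine TT_meas (H := fun p : SimpleGraph ℕ × ((ℕ × ℕ → I) × (ℕ × ℕ → I)) => HH p.1 t p.2.1)
      (τ := fun p v => p.2.1 (v, 0)) (b := fun p => p.2.2) ?_ ?_ ?_ k e
    · intro k u v
      have hm : Measurable fun p : SimpleGraph ℕ × ((ℕ × ℕ → I) × (ℕ × ℕ → I)) =>
          (p.1, p.2.1) := measurable_fst.prodMk (measurable_fst.comp measurable_snd)
      exact hm (HH_meas t k u v)
    · intro v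
      exact (measurable_pi_apply (v, 0)).comp (measurable_fst.comp measurable_snd)
    · intro p
      exact (measurable_pi_apply p).comp (measurable_snd.comp measurable_snd)
  have : {p : SimpleGraph ℕ × ((ℕ × ℕ → I) × (ℕ × ℕ → I)) | e ∈ Psi p.1 t p.2.1 p.2.2} =
      ⋃ k0, ⋂ k, ⋂ (_ : k0 ≤ k), {p : SimpleGraph ℕ × ((ℕ × ℕ → I) × (ℕ × ℕ → I)) |
        e ∈ TT (HH p.1 t p.2.1) (fun v => p.2.1 (v, 0)) p.2.2 k} := by
    ext p
    simp only [Set.mem_iUnion, Set.mem_iInter]
    exact Iff.rfl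
  rw [this]
  exact MeasurableSet.iUnion fun k0 => MeasurableSet.iInter fun k => MeasurableSet.iInter
    fun _ => h1 k

/-- measurability of cylinder events -/
theorem cyl_meas {Ω : Type*} [MeasurableSpace Ω] {X : Ω → Set (Sym2 ℕ)}
    (hX : ∀ e, MeasurableSet {ω | e ∈ X ω}) (F A : Set (Sym2 ℕ)) :
    MeasurableSet {ω | X ω ∩ F = A} := by
  have : {ω | X ω ∩ F = A} = ⋂ e, {ω | (e ∈ X ω ∧ e ∈ F) ↔ e ∈ A} := by
    ext ω
    simp only [Set.mem_ofPred_eq, Set.mem_iInter, Set.ext_iff, Set.mem_inter_iff]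
  rw [this]
  refine MeasurableSet.iInter fun e => ?_
  by_cases hF : e ∈ F
  · by_cases hA : e ∈ A
    · simpa [hF, hA] using hX e
    · have h2 : {ω | (e ∈ X ω ∧ e ∈ F) ↔ e ∈ A} = {ω | e ∈ X ω}ᶜ := by
        ext ω
        simp [hF, hA]
      rw [h2]
      exact (hX e).compl
  · simp [hF]

theorem finset_eventually {α : Type*} [DecidableEq α] (S : ℕ → Finset α) (hS : Monotone S)
    (s0 : Finset α) : (∀ a ∈ s0, ∃ n, a ∈ S n) → ∃ N, ∀ n ≥ N, s0 ⊆ S n := by
  induction s0 using Finset.induction_on with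
  | empty => exact fun _ => ⟨0, fun n _ => Finset.empty_subset _⟩
  | insert a s _ ih =>
    intro h
    obtain ⟨N, hN⟩ := ih (fun b hb => h b (Finset.mem_insert_of_mem hb))
    obtain ⟨m, hm⟩ := h a (Finset.mem_insert_self _ _)
    refine ⟨max N m, fun n hn => Finset.insert_subset ?_ ?_⟩
    · exact hS (le_trans (le_max_right _ _) hn) hm
    · exact hN n (le_trans (le_max_left _ _) hn)

variable {G : SimpleGraph ℕ} {t : ℕ → ℕ}

/-- the law of the limit given the clusters -/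
theorem psi_law {x0 : ℕ} (hl : LocFin G x0) {a : ℕ × ℕ → I}
    (ha : ∀ u v, a (u, 0) = a (v, 0) → u = v)
    (hex : ∀ u v, G.Reachable x0 u → G.Adj u v → ∃ k, (HH G t a k).Adj u v)
    (F A : Finset (Sym2 ℕ)) (hF : (F : Set (Sym2 ℕ)) ⊆ compEdges G x0) (ℓ : ℝ)
    (hℓ : ∀ E : ℕ → Finset (Sym2 ℕ), Monotone E → (∀ n, (E n : Set (Sym2 ℕ)) ⊆ compEdges G x0) →
        (∀ e ∈ compEdges G x0, ∃ n, e ∈ E n) →
        Tendsto (fun n => av ⊥ (E n) (fun T => if T ∩ F = A then 1 else 0)) atTop (𝓝 ℓ)) :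
    QQ {b | Psi G t a b ∩ (F : Set (Sym2 ℕ)) = (A : Set (Sym2 ℕ))} = ENNReal.ofReal ℓ := by
  classical
  set H := HH G t a with hH
  set τ : ℕ → I := fun v => a (v, 0) with hτ
  set C : Set ℕ := {u | G.Reachable x0 u} with hC
  have hg : Good H τ C := good_HH hl ha
  have hx0 : x0 ∈ C := SimpleGraph.Reachable.refl x0
  let K : ℕ → Finset ℕ := fun k => cl (H k) x0
  let E : ℕ → Finset (Sym2 ℕ) := fun k => ed (H k) (K k)
  have hKm : Monotone K := by
    intro k k' hk v hv
    rw [mem_cl (hg.fin k x0 hx0)] at hv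
    rw [mem_cl (hg.fin k' x0 hx0)]
    exact hv.mono (hg.mono hk)
  have hEm : Monotone E := by
    intro k k' hk e he
    rw [mem_ed'] at he ⊢
    exact ⟨SimpleGraph.edgeSet_mono (hg.mono hk) he.1, fun v hv => hKm hk (he.2 v hv)⟩
  have hEc : ∀ n, (E n : Set (Sym2 ℕ)) ⊆ compEdges G x0 := by
    intro n e he
    have he' := mem_ed'.1 (Finset.mem_coe.1 he)
    refine ⟨SimpleGraph.edgeSet_mono ((HH_le n).trans (H0_le n)) he'.1, ?_⟩
    intro v hv
    exact cl_sub hg hx0 v (he'.2 v hv)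
  have hreach : ∀ u, G.Reachable x0 u → ∃ k, (H k).Reachable x0 u := by
    have key : ∀ {x y : ℕ}, G.Reachable x y → G.Reachable x0 x → (∃ k, (H k).Reachable x0 x) →
        ∃ k, (H k).Reachable x0 y := by
      rintro x y ⟨p⟩
      induction p with
      | nil => exact fun _ h => h
      | cons h' _ ih =>
        rintro hx ⟨k, hk⟩
        obtain ⟨m, hm⟩ := hex _ _ hx h'
        refine ih (hx.trans h'.reachable) ⟨max k m, ?_⟩
        have h1 : (H (max k m)).Adj _ _ := hg.mono (le_max_right k m) hm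
        exact (hk.mono (hg.mono (le_max_left k m))).trans h1.reachable
    intro u hu
    exact key hu (SimpleGraph.Reachable.refl _) ⟨0, SimpleGraph.Reachable.refl _⟩
  have hcov : ∀ e ∈ compEdges G x0, ∃ n, e ∈ E n := by
    intro e he
    induction e using Sym2.ind with
    | _ u v =>
      have hu : G.Reachable x0 u := he.2 u (Sym2.mem_mk_left _ _)
      obtain ⟨k, hk⟩ := hreach u hu
      obtain ⟨m, hm⟩ := hex u v hu he.1
      refine ⟨max k m, ?_⟩
      have h1 : (H (max k m)).Adj u v := hg.mono (le_max_right k m) hm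
      have h2 : (H (max k m)).Reachable x0 u := hk.mono (hg.mono (le_max_left k m))
      exact mem_ed.2 ⟨⟨(mem_cl (hg.fin _ x0 hx0)).2 h2,
        (mem_cl (hg.fin _ x0 hx0)).2 (h2.trans h1.reachable)⟩, h1⟩
  have hlim := hℓ E hEm hEc hcov
  obtain ⟨N, hN⟩ := finset_eventually E hEm F (fun e he => hcov e (hF he))
  -- the law of the forest `k`
  have hlaw : ∀ k, N ≤ k → QQ {b | TT H τ b k ∩ (F : Set (Sym2 ℕ)) = (A : Set (Sym2 ℕ))} =
      ENNReal.ofReal (av ⊥ (E k) (fun T => if T ∩ F = A then 1 else 0)) := by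
    intro k hk
    have hKC : ∀ w ∈ K k, w ∈ C := cl_sub hg hx0
    have hcls : Cls (H k) (K k) := cls_cl hg hx0
    set P := (trees (⊥ : Setoid ℕ) (E k)).filter (fun T => T ∩ F = A) with hP
    have hset : {b | TT H τ b k ∩ (F : Set (Sym2 ℕ)) = (A : Set (Sym2 ℕ))} =
        ⋃ T ∈ P, {b | tr H τ b k (K k) = T} := by
      ext b
      simp only [Set.mem_ofPred_eq, Set.mem_iUnion, exists_prop]
      have htr : ∀ T : Finset (Sym2 ℕ), tr H τ b k (K k) = T →
          (TT H τ b k ∩ (F : Set (Sym2 ℕ)) = (A : Set (Sym2 ℕ)) ↔ T ∩ F = A) := by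
        rintro T rfl
        rw [← Finset.coe_inj, Finset.coe_inter]
        have : TT H τ b k ∩ (F : Set (Sym2 ℕ)) = (tr H τ b k (K k) : Set (Sym2 ℕ)) ∩ F := by
          ext e
          simp only [Set.mem_inter_iff, Finset.mem_coe, mem_tr]
          constructor
          · rintro ⟨h1, h2⟩
            exact ⟨⟨hN k hk h2, h1⟩, h2⟩
          · rintro ⟨⟨_, h1⟩, h2⟩
            exact ⟨h1, h2⟩
        rw [this]
      constructor
      · intro h
        refine ⟨tr H τ b k (K k), ?_, rfl⟩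
        rw [hP, Finset.mem_filter]
        exact ⟨tr_mem hg b k _ hKC hcls, (htr _ rfl).1 h⟩
      · rintro ⟨T, hT, h⟩
        exact (htr T h).2 (Finset.mem_filter.1 hT).2
    rw [hset, measure_biUnion_finset]
    · have h1 : ∀ T ∈ P, QQ {b | tr H τ b k (K k) = T} =
          ((trees (⊥ : Setoid ℕ) (E k)).card : ℝ≥0∞)⁻¹ := fun T hT =>
        tr_unif hg k (K k) hKC hcls T (Finset.mem_filter.1 hT).1
      rw [Finset.sum_congr rfl h1, Finset.sum_const, nsmul_eq_mul]
      unfold av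
      rw [Finset.sum_boole, ← hP, ENNReal.ofReal_div_of_pos (card_pos' _ _),
        ENNReal.ofReal_natCast, ENNReal.ofReal_natCast, div_eq_mul_inv]
    · intro T _ T' _ hTT
      rw [Function.onFun, Set.disjoint_left]
      intro b h1 h2
      exact hTT (h1.symm.trans h2)
    · intro T _
      exact tr_meas H τ k (K k) T
  -- convergence
  have hTm : ∀ k e, MeasurableSet {b : ℕ × ℕ → I | e ∈ TT H τ b k} := fun k e =>
    TT_meas (Ω := ℕ × ℕ → I) (H := fun _ => H) (τ := fun _ => τ) (b := fun b => b)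
      (fun _ _ _ => MeasurableSet.const _) (fun _ => measurable_const)
      (fun p => measurable_pi_apply p) k e
  have hconv : Tendsto (fun k => QQ {b | TT H τ b k ∩ (F : Set (Sym2 ℕ)) = (A : Set (Sym2 ℕ))})
      atTop (𝓝 (QQ {b | Psi G t a b ∩ (F : Set (Sym2 ℕ)) = (A : Set (Sym2 ℕ))})) := by
    refine tendsto_measure_of_tendsto_indicator_of_isFiniteMeasure atTop QQ
      (fun k => cyl_meas (hTm k) _ _) ?_
    intro b
    -- every edge of `F` stabilises
    have hstab : ∀ e ∈ F, ∃ M, ∀ k ≥ M, (e ∈ TT H τ b k ↔ e ∈ Psi G t a b) := by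
      intro e he
      have hmono : ∀ k, N ≤ k → e ∈ TT H τ b (k + 1) → e ∈ TT H τ b k := by
        intro k hk hek
        have h1 := mem_ed'.1 (hN k hk he)
        exact TT_anti hg b k e h1.1 (fun v hv => cl_sub hg hx0 v (h1.2 v hv)) hek
      by_cases hall : ∀ k ≥ N, e ∈ TT H τ b k
      · refine ⟨N, fun k hk => ⟨fun _ => ⟨N, hall⟩, fun _ => hall k hk⟩⟩
      · push Not at hall
        obtain ⟨M, hM, hMe⟩ := hall
        have hnot : ∀ k ≥ M, e ∉ TT H τ b k := by
          intro k hk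
          induction k, hk using Nat.le_induction with
          | base => exact hMe
          | succ k hk ih =>
            intro h
            exact ih (hmono k (hM.trans hk) h)
        refine ⟨M, fun k hk => ⟨fun h => absurd h (hnot k hk), ?_⟩⟩
        rintro ⟨k0, hk0⟩
        exact absurd (hk0 (max k0 M) (le_max_left _ _)) (hnot _ (le_max_right _ _))
    have hall : ∃ M, ∀ k ≥ M, ∀ e ∈ F, (e ∈ TT H τ b k ↔ e ∈ Psi G t a b) := by
      have : ∀ e, ∃ M, e ∈ F → ∀ k ≥ M, (e ∈ TT H τ b k ↔ e ∈ Psi G t a b) := by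
        intro e
        by_cases he : e ∈ F
        · obtain ⟨M, hM⟩ := hstab e he
          exact ⟨M, fun _ => hM⟩
        · exact ⟨0, fun h => absurd h he⟩
      choose M hM using this
      refine ⟨F.sup M, fun k hk e he => hM e he k ((Finset.le_sup (f := M) he).trans hk)⟩
    obtain ⟨M, hM⟩ := hall
    filter_upwards [eventually_ge_atTop M] with k hk
    have : TT H τ b k ∩ (F : Set (Sym2 ℕ)) = Psi G t a b ∩ (F : Set (Sym2 ℕ)) := by
      ext e
      simp only [Set.mem_inter_iff, Finset.mem_coe]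
      exact and_congr_left fun he => hM k hk e he
    simp only [this]
  have hconv2 : Tendsto (fun k => QQ {b | TT H τ b k ∩ (F : Set (Sym2 ℕ)) =
      (A : Set (Sym2 ℕ))}) atTop (𝓝 (ENNReal.ofReal ℓ)) := by
    refine ((ENNReal.continuous_ofReal.tendsto ℓ).comp hlim).congr' ?_
    filter_upwards [eventually_ge_atTop N] with k hk
    exact (hlaw k hk).symm
  exact tendsto_nhds_unique hconv hconv2

end Pool.Agent.NH99.WU
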