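import Pool.Agent.NH99.WU_Fin

/-!
# The wired uniform spanning tree of a recurrent unimodular random rooted graph is a graph factor
# of i.i.d.

Full affirmative answer to Q1 of `MP_688e31_pr`.

Idea of the proof.  From one part of the labels one constructs, as a graph factor, an increasing
sequence of subgraphs with finite components which exhausts the graph: on a recurrent graph the
time averages of the law of simple random walk started at two neighbours are asymptotically
equal, so that clustering by these averages cuts an edge with small probability; the mass
transport principle transfers the summability from the root to all vertices.  By the Feder and
Mihail domination and Hall's theorem there is an exactly measure preserving monotone coupling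
between the uniform spanning trees of a finite graph and of a subgraph; with the second part of
the labels one samples from these couplings along the exhaustion, and the forests decrease on
every finite set of edges.  The limit is the free uniform spanning forest, which on a recurrent
graph is the wired one (this is proved here as well, with the hitting probabilities as cutoff
functions).
-/

set_option autoImplicit false

namespace Pool.Agent.Results.MP_688e31_pr.WiredTreeFactor

open MeasureTheory Pool.Agent.NH99.WU
open scoped unitInterval

/-- Let `P` be the law of a unimodular random rooted graph (the connected component of the root
`p.2` in the graph `p.1` on `ℕ`) which is almost surely locally finite and recurrent.  Then the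
wired uniform spanning tree is a graph factor of i.i.d.: there is a measurable map `Φ` from graphs
with vertex labels in `[0,1]` to sets of edges, equivariant under all isomorphisms, such that for
almost every realisation of the graph the set `Φ G U`, for i.i.d. uniform vertex labels `U`, has
the law of the wired uniform spanning forest of the component of the root. -/
theorem result (P : Measure (SimpleGraph ℕ × ℕ)) [IsProbabilityMeasure P]
    (hfin : ∀ᵐ p ∂P, LocFin p.1 p.2) (huni : Unimodular P)
    (hrec : ∀ᵐ p ∂P, RecurrentAt p.1 p.2) :
    ∃ Φ : SimpleGraph ℕ → (ℕ → I) → Set (Sym2 ℕ), GraphFactor Φ ∧
      ∀ᵐ p ∂P, IsWUSF p.1 p.2 (unifLabels.map fun U => Φ p.1 U ∩ compEdges p.1 p.2) := by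
  obtain ⟨t, ht, hq⟩ := choose_t P hfin hrec
  refine ⟨Phi t, Phi_factor t, ?_⟩
  filter_upwards [hfin, hrec, reroot_ae P huni t hq] with p h1 h2 h3
  exact Phi_wusf h1 h2 ht h3

end Pool.Agent.Results.MP_688e31_pr.WiredTreeFactor
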