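import Pool.Agent.TH968.UST.Defs

/-!
# Random rooted graphs, unimodularity, graph factors of i.i.d. and the wired uniform spanning
# forest: definitions for `MP_688e31_pr`

A random rooted graph is given by a probability measure on `SimpleGraph ℕ × ℕ`: the random
rooted graph is the connected component of the root `p.2` in the graph `p.1`.  Every random
rooted graph that is connected, locally finite and has countably many vertices is obtained in
this way.
-/

set_option autoImplicit false

namespace Pool.Agent.NH99.WU

open MeasureTheory Filter Topology
open scoped ENNReal unitInterval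
open Pool.Agent.TH968.UST

/-- `φ` is a graph isomorphism from the connected component of `x` in `G` onto the connected
component of `x'` in `G'` and maps `x` to `x'` (only the values of `φ` on the component of `x`
matter). -/
structure CompIso (G G' : SimpleGraph ℕ) (x x' : ℕ) (φ : ℕ → ℕ) : Prop where
  root : φ x = x'
  inj : ∀ u v, G.Reachable x u → G.Reachable x v → φ u = φ v → u = v
  adj : ∀ u v, G.Reachable x u → G.Reachable x v → (G.Adj u v ↔ G'.Adj (φ u) (φ v))
  surj : ∀ w, G'.Reachable x' w ↔ ∃ u, G.Reachable x u ∧ φ u = w

/-- A non-negative measurable function of doubly rooted graphs which is invariant under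
isomorphisms: `f G x y` is a function of the connected component of `x` in `G` with the two
roots `x`, `y`. -/
structure IsTransport (f : SimpleGraph ℕ → ℕ → ℕ → ℝ≥0∞) : Prop where
  meas : ∀ x y, Measurable fun G => f G x y
  inv : ∀ (G G' : SimpleGraph ℕ) (x x' : ℕ) (φ : ℕ → ℕ), CompIso G G' x x' φ →
    ∀ y, G.Reachable x y → f G x y = f G' x' (φ y)

open Classical in
/-- The mass transport principle for the random rooted graph with law `P`. -/
def Unimodular (P : Measure (SimpleGraph ℕ × ℕ)) : Prop :=
  ∀ f : SimpleGraph ℕ → ℕ → ℕ → ℝ≥0∞, IsTransport f →
    ∫⁻ p, (∑' x, if p.1.Reachable p.2 x then f p.1 p.2 x else 0) ∂P =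
      ∫⁻ p, (∑' x, if p.1.Reachable p.2 x then f p.1 x p.2 else 0) ∂P

/-- The connected component of `x` in `G` is locally finite. -/
def LocFin (G : SimpleGraph ℕ) (x : ℕ) : Prop :=
  ∀ v, G.Reachable x v → {w | G.Adj v w}.Finite

/-- The connected component of `x` in `G` is recurrent: simple random walk started at any of its
vertices `o` returns to `o` almost surely (`avg G (hit G o n) o` is the probability that it
returns within `n + 1` steps; the one-vertex graph counts as recurrent). -/
def RecurrentAt (G : SimpleGraph ℕ) (x : ℕ) : Prop :=
  ∀ o, G.Reachable x o → (∃ w, G.Adj o w) → ⨆ n, avg G (hit G o n) o = 1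

/-- The edges of the connected component of `x` in `G`. -/
def compEdges (G : SimpleGraph ℕ) (x : ℕ) : Set (Sym2 ℕ) :=
  {e | e ∈ G.edgeSet ∧ ∀ v ∈ e, G.Reachable x v}

/-- `V 0 ⊆ V 1 ⊆ ...` is an exhaustion of the connected component of `x` in `G` by finite
connected sets of vertices. -/
structure Exhaustion (G : SimpleGraph ℕ) (x : ℕ) (V : ℕ → Finset ℕ) : Prop where
  mono : Monotone V
  conn : ∀ n, (G.induce (V n : Set ℕ)).Connected
  cover : ∀ v, G.Reachable x v ↔ ∃ n, v ∈ V n

/-- `ν` is the law of the wired uniform spanning forest of the connected component of `x` in `G`: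
a probability measure carried by the sets of edges of the component, and the weak limit, along
every exhaustion `V` of the component by finite connected sets, of the uniform spanning tree of
the graph obtained by identifying all vertices outside `V n` into one vertex. (`touch G (V n)` is
the set of edges with at least one endpoint in `V n`, that is all edges which are not loops in the
wired graph, and `ustProb (wired (V n)) (touch G (V n)) F A` is the probability that the tree
meets the finite set `F` in `A`.) -/
structure IsWUSF (G : SimpleGraph ℕ) (x : ℕ) (ν : Measure (Set (Sym2 ℕ))) : Prop where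
  prob : IsProbabilityMeasure ν
  carried : ∀ᵐ S ∂ν, S ⊆ compEdges G x
  lim : ∀ V : ℕ → Finset ℕ, Exhaustion G x V → ∀ F A : Finset (Sym2 ℕ),
    Tendsto (fun n => ustProb (wired (V n)) (touch G (V n)) (F : Set (Sym2 ℕ))
      (A : Set (Sym2 ℕ))) atTop
      (𝓝 (ν.real {S | S ∩ (F : Set (Sym2 ℕ)) = (A : Set (Sym2 ℕ))}))

/-- The law of i.i.d. labels on the vertices, uniform on `[0,1]`. -/
noncomputable def unifLabels : Measure (ℕ → I) := Measure.infinitePi fun _ => volume

/-- `Φ` is a measurable, isomorphism-equivariant map from graphs with labelled vertices to sets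
of edges (which does not depend on a root): on the component of `x`, the set `Φ G U` only depends
on the component and its labels, and it is mapped to the corresponding set of edges by every
isomorphism of components which respects the labels. -/
structure GraphFactor (Φ : SimpleGraph ℕ → (ℕ → I) → Set (Sym2 ℕ)) : Prop where
  meas : Measurable fun p : SimpleGraph ℕ × (ℕ → I) => Φ p.1 p.2
  sub : ∀ G U, Φ G U ⊆ G.edgeSet
  equivariant : ∀ (G G' : SimpleGraph ℕ) (x x' : ℕ) (φ : ℕ → ℕ) (U U' : ℕ → I),
    CompIso G G' x x' φ → (∀ u, G.Reachable x u → U' (φ u) = U u) →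
      ∀ u v, G.Reachable x u → G.Reachable x v →
        (s(u, v) ∈ Φ G U ↔ s(φ u, φ v) ∈ Φ G' U')

end Pool.Agent.NH99.WU
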