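import Pool.Agent.TH830.UBase

/-!
# Spanning trees: relabelling and disjoint unions
-/

set_option autoImplicit false
set_option linter.unusedSectionVars false

namespace Pool.Agent.NH99.WU

open Finset Pool.Agent.TH968.UST Pool.Agent.TH830.UST

variable {V W : Type*}

/-- connection through a map which is injective on the vertices of the edges -/
theorem conn_im (p : V → W) (K : Set V) (hp : Set.InjOn p K) (T : Set (Sym2 V))
    (hT : ∀ e ∈ T, ∀ v ∈ e, v ∈ K) {x y : V} (hx : x ∈ K) (hy : y ∈ K) :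
    Conn ⊥ (Sym2.map p '' T) (p x) (p y) ↔ Conn ⊥ T x y := by
  classical
  have : Nonempty V := ⟨x⟩
  set q : W → V := Function.invFunOn p K with hqdef
  have hq : ∀ x ∈ K, q (p x) = x := fun x hx => hp.leftInvOn_invFunOn hx
  constructor
  · intro h
    have key : ∀ a b : W, Conn ⊥ (Sym2.map p '' T) a b → Conn ⊥ T (q a) (q b) := by
      intro a b h
      induction h with
      | rel a b h =>
        rcases h with h | h
        · have h1 : a = b := h
          rw [h1]
          exact crefl _ _ _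
        · obtain ⟨e, he, he2⟩ := h
          induction e using Sym2.ind with
          | _ u v =>
            have hu : u ∈ K := hT _ he u (Sym2.mem_mk_left _ _)
            have hv : v ∈ K := hT _ he v (Sym2.mem_mk_right _ _)
            rw [Sym2.map_mk] at he2
            rcases Sym2.eq_iff.1 he2 with ⟨h1, h2⟩ | ⟨h1, h2⟩
            · have h1' : p u = a := h1
              have h2' : p v = b := h2
              rw [← h1', ← h2', hq u hu, hq v hv]
              exact cedge he
            · have h1' : p u = b := h1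
              have h2' : p v = a := h2
              rw [← h1', ← h2', hq u hu, hq v hv]
              exact csymm (cedge he)
      | refl a => exact crefl _ _ _
      | symm a b _ ih => exact csymm ih
      | trans a b c _ _ h1 h2 => exact ctrans h1 h2
    have h1 := key _ _ h
    rwa [hq x hx, hq y hy] at h1
  · intro h
    have key : ∀ a b : V, Conn ⊥ T a b → Conn ⊥ (Sym2.map p '' T) (p a) (p b) := by
      intro a b h
      induction h with
      | rel a b h =>
        rcases h with h | h
        · have h1 : a = b := h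
          rw [h1]
          exact crefl _ _ _
        · exact cedge ⟨s(a, b), h, rfl⟩
      | refl a => exact crefl _ _ _
      | symm a b _ ih => exact csymm ih
      | trans a b c _ _ h1 h2 => exact ctrans h1 h2
    exact key _ _ h

theorem injOn_map {p : V → W} {K : Set V} (hp : Set.InjOn p K) :
    Set.InjOn (Sym2.map p) {e : Sym2 V | ∀ v ∈ e, v ∈ K} := by
  intro e he f hf h
  induction e using Sym2.ind with
  | _ a b =>
    induction f using Sym2.ind with
    | _ c d =>
      have ha : a ∈ K := he a (Sym2.mem_mk_left _ _)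
      have hb : b ∈ K := he b (Sym2.mem_mk_right _ _)
      have hc : c ∈ K := hf c (Sym2.mem_mk_left _ _)
      have hd : d ∈ K := hf d (Sym2.mem_mk_right _ _)
      rw [Sym2.map_mk, Sym2.map_mk] at h
      rcases Sym2.eq_iff.1 h with ⟨h1, h2⟩ | ⟨h1, h2⟩
      · rw [hp ha hc h1, hp hb hd h2]
      · rw [hp ha hd h1, hp hb hc h2]
        exact Sym2.eq_swap

variable [DecidableEq V] [DecidableEq W]

/-- trees through a map which is injective on the vertices of the edges -/
theorem mem_trees_im (p : V → W) (K : Set V) (hp : Set.InjOn p K) (E T : Finset (Sym2 V))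
    (hE : ∀ e ∈ E, ∀ v ∈ e, v ∈ K) (hTE : T ⊆ E) :
    T.image (Sym2.map p) ∈ trees ⊥ (E.image (Sym2.map p)) ↔ T ∈ trees ⊥ E := by
  have hTK : ∀ e ∈ (T : Set (Sym2 V)), ∀ v ∈ e, v ∈ K := fun e he => hE e (hTE he)
  rw [mem_trees, mem_trees]
  have h0 : T.image (Sym2.map p) ⊆ E.image (Sym2.map p) := Finset.image_subset_image hTE
  simp only [h0, hTE, true_and]
  refine and_congr ?_ ?_
  · rw [Finset.coe_image]
    constructor
    · intro h a b hab
      rw [← conn_im p K hp _ hTK (hE _ hab a (Sym2.mem_mk_left _ _))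
        (hE _ hab b (Sym2.mem_mk_right _ _))]
      exact h (p a) (p b) (Finset.mem_image.2 ⟨s(a, b), hab, rfl⟩)
    · intro h a b hab
      obtain ⟨e, he, he2⟩ := Finset.mem_image.1 hab
      induction e using Sym2.ind with
      | _ u v =>
        have hu : u ∈ K := hE _ he u (Sym2.mem_mk_left _ _)
        have hv : v ∈ K := hE _ he v (Sym2.mem_mk_right _ _)
        rw [Sym2.map_mk] at he2
        rcases Sym2.eq_iff.1 he2 with ⟨h1, h2⟩ | ⟨h1, h2⟩
        · have h1' : p u = a := h1
          have h2' : p v = b := h2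
          rw [← h1', ← h2', conn_im p K hp _ hTK hu hv]
          exact h u v he
        · have h1' : p u = b := h1
          have h2' : p v = a := h2
          rw [← h1', ← h2']
          apply csymm
          rw [conn_im p K hp _ hTK hu hv]
          exact h u v he
  · have himg : ∀ u v : V, s(u, v) ∈ T → ((T.image (Sym2.map p) : Finset (Sym2 W)) : Set (Sym2 W)) \
          {s(p u, p v)} = Sym2.map p '' ((T : Set (Sym2 V)) \ {s(u, v)}) := by
      intro u v huv
      ext f
      simp only [Set.mem_sdiff, Finset.mem_coe, Finset.mem_image, Set.mem_singleton_iff,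
        Set.mem_image]
      constructor
      · rintro ⟨⟨e, he, rfl⟩, hne⟩
        refine ⟨e, ⟨he, ?_⟩, rfl⟩
        rintro rfl
        exact hne (by rw [Sym2.map_mk])
      · rintro ⟨e, ⟨he, hne⟩, rfl⟩
        refine ⟨⟨e, he, rfl⟩, ?_⟩
        intro h
        rw [← Sym2.map_mk] at h
        exact hne (injOn_map hp (hTK e he) (hTK _ huv) h)
    have hdK : ∀ u v : V, ∀ e ∈ ((T : Set (Sym2 V)) \ {s(u, v)}), ∀ v ∈ e, v ∈ K :=
      fun u v e he => hTK e he.1
    constructor
    · intro h a b hab hc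
      have hab' : s(a, b) ∈ T := hab
      refine h (p a) (p b) (Finset.mem_coe.2 (Finset.mem_image.2 ⟨s(a, b), hab', rfl⟩)) ?_
      rw [himg a b hab', conn_im p K hp _ (hdK a b) (hTK _ hab a (Sym2.mem_mk_left _ _))
        (hTK _ hab b (Sym2.mem_mk_right _ _))]
      exact hc
    · intro h a b hab
      obtain ⟨e, he, he2⟩ := Finset.mem_image.1 (Finset.mem_coe.1 hab)
      induction e using Sym2.ind with
      | _ u v =>
        have hu : u ∈ K := hTK _ he u (Sym2.mem_mk_left _ _)
        have hv : v ∈ K := hTK _ he v (Sym2.mem_mk_right _ _)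
        rw [Sym2.map_mk] at he2
        rcases Sym2.eq_iff.1 he2 with ⟨h1, h2⟩ | ⟨h1, h2⟩
        · have h1' : p u = a := h1
          have h2' : p v = b := h2
          rw [← h1', ← h2', himg u v he, conn_im p K hp _ (hdK u v) hu hv]
          exact h u v he
        · have h1' : p u = b := h1
          have h2' : p v = a := h2
          rw [← h1', ← h2']
          intro hcon
          have hcon2 := csymm hcon
          rw [show s(p v, p u) = s(p u, p v) from Sym2.eq_swap, himg u v he,
            conn_im p K hp _ (hdK u v) hu hv] at hcon2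
          exact h u v he hcon2

/-- the trees of the image are the images of the trees -/
theorem trees_im (p : V → W) (K : Set V) (hp : Set.InjOn p K) (E : Finset (Sym2 V))
    (hE : ∀ e ∈ E, ∀ v ∈ e, v ∈ K) :
    trees ⊥ (E.image (Sym2.map p)) = (trees ⊥ E).image (fun T => T.image (Sym2.map p)) := by
  ext S
  rw [Finset.mem_image]
  constructor
  · intro hS
    have hSE := (mem_trees.1 hS).1
    obtain ⟨T, hT, rfl⟩ := Finset.subset_image_iff.1 hSE
    exact ⟨T, (mem_trees_im p K hp E T hE hT).1 hS, rfl⟩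
  · rintro ⟨T, hT, rfl⟩
    exact (mem_trees_im p K hp E T hE (mem_trees.1 hT).1).2 hT

theorem trees_im_card (p : V → W) (K : Set V) (hp : Set.InjOn p K) (E : Finset (Sym2 V))
    (hE : ∀ e ∈ E, ∀ v ∈ e, v ∈ K) :
    (trees ⊥ (E.image (Sym2.map p))).card = (trees (⊥ : Setoid V) E).card := by
  rw [trees_im p K hp E hE, Finset.card_image_of_injOn]
  intro T hT T' hT' h
  have h1 : T ⊆ E := (mem_trees.1 hT).1
  have h1' : T' ⊆ E := (mem_trees.1 hT').1
  have h2 : Set.InjOn (Sym2.map p) (E : Set (Sym2 V)) :=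
    (injOn_map hp).mono (fun e he => hE e he)
  simp only at h
  apply Finset.coe_injective
  have h3 : Sym2.map p '' (T : Set (Sym2 V)) = Sym2.map p '' (T' : Set (Sym2 V)) := by
    rw [← Finset.coe_image, ← Finset.coe_image, h]
  exact (h2.image_eq_image_iff (Finset.coe_subset.2 h1) (Finset.coe_subset.2 h1')).1 h3

/-- connections stay inside a closed set of vertices -/
theorem conn_closed {T1 T2 : Set (Sym2 V)} {K : Set V} (h1 : ∀ e ∈ T1, ∀ v ∈ e, v ∈ K)
    (h2 : ∀ e ∈ T2, ∀ v ∈ e, v ∉ K) {a b : V} (h : Conn ⊥ (T1 ∪ T2) a b) :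
    (a ∈ K ↔ b ∈ K) ∧ (a ∈ K → Conn ⊥ T1 a b) ∧ (a ∉ K → Conn ⊥ T2 a b) := by
  induction h with
  | rel a b h =>
    rcases h with h | h
    · have h' : a = b := h
      subst h'
      exact ⟨Iff.rfl, fun _ => crefl _ _ _, fun _ => crefl _ _ _⟩
    · rcases h with h | h
      · have ha := h1 _ h a (Sym2.mem_mk_left _ _)
        have hb := h1 _ h b (Sym2.mem_mk_right _ _)
        exact ⟨⟨fun _ => hb, fun _ => ha⟩, fun _ => cedge h, fun h' => absurd ha h'⟩
      · have ha := h2 _ h a (Sym2.mem_mk_left _ _)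
        have hb := h2 _ h b (Sym2.mem_mk_right _ _)
        exact ⟨⟨fun h' => absurd h' ha, fun h' => absurd h' hb⟩, fun h' => absurd h' ha,
          fun _ => cedge h⟩
  | refl a => exact ⟨Iff.rfl, fun _ => crefl _ _ _, fun _ => crefl _ _ _⟩
  | symm a b _ ih =>
    exact ⟨ih.1.symm, fun h => csymm (ih.2.1 (ih.1.2 h)),
      fun h => csymm (ih.2.2 (fun h' => h (ih.1.1 h')))⟩
  | trans a b c _ _ ih1 ih2 =>
    exact ⟨ih1.1.trans ih2.1, fun h => ctrans (ih1.2.1 h) (ih2.2.1 (ih1.1.1 h)),
      fun h => ctrans (ih1.2.2 h) (ih2.2.2 (fun h' => h (ih1.1.2 h')))⟩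

/-- trees of a disjoint union -/
theorem mem_trees_union {E1 E2 T1 T2 : Finset (Sym2 V)} {K : Set V}
    (h1 : ∀ e ∈ E1, ∀ v ∈ e, v ∈ K) (h2 : ∀ e ∈ E2, ∀ v ∈ e, v ∉ K) (hT1 : T1 ⊆ E1)
    (hT2 : T2 ⊆ E2) :
    T1 ∪ T2 ∈ trees ⊥ (E1 ∪ E2) ↔ T1 ∈ trees ⊥ E1 ∧ T2 ∈ trees ⊥ E2 := by
  have k1 : ∀ e ∈ (T1 : Set (Sym2 V)), ∀ v ∈ e, v ∈ K := fun e he => h1 e (hT1 he)
  have k2 : ∀ e ∈ (T2 : Set (Sym2 V)), ∀ v ∈ e, v ∉ K := fun e he => h2 e (hT2 he)
  have hd1 : ∀ a b : V, s(a, b) ∈ (T1 : Set (Sym2 V)) → ((T1 : Set (Sym2 V)) ∪ T2) \ {s(a, b)} =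
      ((T1 : Set (Sym2 V)) \ {s(a, b)}) ∪ T2 := by
    intro a b hab
    have : s(a, b) ∉ (T2 : Set (Sym2 V)) := fun h =>
      k2 _ h a (Sym2.mem_mk_left _ _) (k1 _ hab a (Sym2.mem_mk_left _ _))
    rw [Set.union_sdiff_distrib, Set.sdiff_singleton_eq_self this]
  have hd2 : ∀ a b : V, s(a, b) ∈ (T2 : Set (Sym2 V)) → ((T1 : Set (Sym2 V)) ∪ T2) \ {s(a, b)} =
      (T1 : Set (Sym2 V)) ∪ ((T2 : Set (Sym2 V)) \ {s(a, b)}) := by
    intro a b hab
    have : s(a, b) ∉ (T1 : Set (Sym2 V)) := fun h =>
      k2 _ hab a (Sym2.mem_mk_left _ _) (k1 _ h a (Sym2.mem_mk_left _ _))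
    rw [Set.union_sdiff_distrib, Set.sdiff_singleton_eq_self this]
  rw [mem_trees, mem_trees, mem_trees, Finset.coe_union]
  constructor
  · rintro ⟨-, hc, hi⟩
    refine ⟨⟨hT1, ?_, ?_⟩, ⟨hT2, ?_, ?_⟩⟩
    · intro a b hab
      exact (conn_closed k1 k2 (hc a b (Finset.mem_union_left _ hab))).2.1
        (h1 _ hab a (Sym2.mem_mk_left _ _))
    · intro a b hab hcon
      refine hi a b (Or.inl hab) ?_
      rw [hd1 a b hab]
      exact cmono Set.subset_union_left hcon
    · intro a b hab
      exact (conn_closed k1 k2 (hc a b (Finset.mem_union_right _ hab))).2.2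
        (h2 _ hab a (Sym2.mem_mk_left _ _))
    · intro a b hab hcon
      refine hi a b (Or.inr hab) ?_
      rw [hd2 a b hab]
      exact cmono Set.subset_union_right hcon
  · rintro ⟨⟨-, hc1, hi1⟩, -, hc2, hi2⟩
    refine ⟨Finset.union_subset_union hT1 hT2, ?_, ?_⟩
    · intro a b hab
      rcases Finset.mem_union.1 hab with hab | hab
      · exact cmono Set.subset_union_left (hc1 a b hab)
      · exact cmono Set.subset_union_right (hc2 a b hab)
    · intro a b hab hcon
      rcases hab with hab | hab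
      · rw [hd1 a b hab] at hcon
        exact hi1 a b hab ((conn_closed (fun e he => k1 e he.1) k2 hcon).2.1
          (k1 _ hab a (Sym2.mem_mk_left _ _)))
      · rw [hd2 a b hab] at hcon
        exact hi2 a b hab ((conn_closed k1 (fun e he => k2 e he.1) hcon).2.2
          (k2 _ hab a (Sym2.mem_mk_left _ _)))

/-- the number of trees of a disjoint union -/
theorem trees_union_card {E1 E2 : Finset (Sym2 V)} {K : Set V}
    (h1 : ∀ e ∈ E1, ∀ v ∈ e, v ∈ K) (h2 : ∀ e ∈ E2, ∀ v ∈ e, v ∉ K) :
    (trees (⊥ : Setoid V) (E1 ∪ E2)).card = (trees ⊥ E1).card * (trees ⊥ E2).card := by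
  have hdisj : Disjoint E1 E2 := by
    rw [Finset.disjoint_left]
    intro e he1 he2
    induction e using Sym2.ind with
    | _ a b => exact h2 _ he2 a (Sym2.mem_mk_left _ _) (h1 _ he1 a (Sym2.mem_mk_left _ _))
  rw [← Finset.card_product]
  refine Finset.card_bij' (fun T _ => (T ∩ E1, T ∩ E2)) (fun p _ => p.1 ∪ p.2) ?_ ?_ ?_ ?_
  · intro T hT
    have hTE := (mem_trees.1 hT).1
    have hT' : (T ∩ E1) ∪ (T ∩ E2) = T := by
      rw [← Finset.inter_union_distrib_left, Finset.inter_eq_left.2 hTE]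
    have := (mem_trees_union h1 h2 (Finset.inter_subset_right (s₁ := T))
      (Finset.inter_subset_right (s₁ := T))).1 (hT'.symm ▸ hT)
    exact Finset.mem_product.2 this
  · intro p hp
    obtain ⟨hp1, hp2⟩ := Finset.mem_product.1 hp
    exact (mem_trees_union h1 h2 (mem_trees.1 hp1).1 (mem_trees.1 hp2).1).2 ⟨hp1, hp2⟩
  · intro T hT
    have hTE := (mem_trees.1 hT).1
    simp only
    rw [← Finset.inter_union_distrib_left, Finset.inter_eq_left.2 hTE]
  · intro p hp
    obtain ⟨hp1, hp2⟩ := Finset.mem_product.1 hp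
    have q1 := (mem_trees.1 hp1).1
    have q2 := (mem_trees.1 hp2).1
    ext x
    · simp only [Finset.mem_inter, Finset.mem_union]
      constructor
      · rintro ⟨h | h, h'⟩
        · exact h
        · exact absurd h' (Finset.disjoint_right.1 hdisj (q2 h))
      · intro h
        exact ⟨Or.inl h, q1 h⟩
    · simp only [Finset.mem_inter, Finset.mem_union]
      constructor
      · rintro ⟨h | h, h'⟩
        · exact absurd h' (Finset.disjoint_left.1 hdisj (q1 h))
        · exact h
      · intro h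
        exact ⟨Or.inr h, q2 h⟩

end Pool.Agent.NH99.WU
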