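import Pool.Agent.NH99.WU_Coup
import Pool.Agent.NH99.WU_Tr

/-!
# The recursive construction of the trees
-/

set_option autoImplicit false
set_option linter.unusedSectionVars false

namespace Pool.Agent.NH99.WU

open Finset Pool.Agent.TH968.UST Pool.Agent.TH830.UST
open scoped unitInterval

open Classical in
/-- the edges of `H` inside `K` -/
noncomputable def ed (H : SimpleGraph ℕ) (K : Finset ℕ) : Finset (Sym2 ℕ) :=
  K.sym2.filter (fun e => e ∈ H.edgeSet)

open Classical in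
/-- the order of the labels of `K` -/
noncomputable def ord (τ : ℕ → I) (K : Finset ℕ) : Finset (ℕ × ℕ) :=
  (K ×ˢ K).filter (fun p => τ p.1 < τ p.2)

/-- the rank -/
def rk (O : Finset (ℕ × ℕ)) (v : ℕ) : ℕ := (O.filter (fun p => p.2 = v)).card

open Classical in
/-- the chosen coupling -/
noncomputable def kap (N N' S : Finset (Sym2 ℕ)) (j : ℕ) : Finset (Sym2 ℕ) :=
  if h : N' ⊆ N then (coup N N' h).choose S j else ∅

/-- one step, for one component -/
noncomputable def res (O : Finset (ℕ × ℕ)) (E' E S : Finset (Sym2 ℕ)) (j : ℕ) :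
    Finset (Sym2 ℕ) :=
  E.filter (fun e => Sym2.map (rk O) e ∈ kap (E.image (Sym2.map (rk O)))
    (E'.image (Sym2.map (rk O))) (S.image (Sym2.map (rk O))) j)

/-- the random index -/
noncomputable def idx (O : Finset (ℕ × ℕ)) (K : Finset ℕ) (N : ℕ) (b : ℕ → I) : ℕ :=
  ∑ v ∈ K, if rk O v = 0 then min (N - 1) ⌊(N : ℝ) * (b v : ℝ)⌋₊ else 0

open Classical in
/-- the component of `v` (empty if it is infinite) -/
noncomputable def cl (H : SimpleGraph ℕ) (v : ℕ) : Finset ℕ :=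
  if h : {w | H.Reachable v w}.Finite then h.toFinset else ∅

open Classical in
/-- the new tree on `K` -/
noncomputable def pc (H H' : SimpleGraph ℕ) (τ : ℕ → I) (b : ℕ → I) (T : Set (Sym2 ℕ))
    (K : Finset ℕ) : Finset (Sym2 ℕ) :=
  res (ord τ K) (ed H K) (ed H' K) ((ed H K).filter (fun e => e ∈ T))
    (idx (ord τ K) K (trees ⊥ (ed H' K)).card b)

/-- the forests -/
noncomputable def TT (H : ℕ → SimpleGraph ℕ) (τ : ℕ → I) (b : ℕ × ℕ → I) : ℕ → Set (Sym2 ℕ)
  | 0 => ∅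
  | k + 1 => {e | ∃ v : ℕ, e ∈ pc (H k) (H (k + 1)) τ (fun w => b (w, k)) (TT H τ b k)
      (cl (H (k + 1)) v)}

theorem TT_zero (H : ℕ → SimpleGraph ℕ) (τ : ℕ → I) (b : ℕ × ℕ → I) : TT H τ b 0 = ∅ := rfl

theorem mem_TT_succ (H : ℕ → SimpleGraph ℕ) (τ : ℕ → I) (b : ℕ × ℕ → I) (k : ℕ) (e : Sym2 ℕ) :
    e ∈ TT H τ b (k + 1) ↔ ∃ v : ℕ, e ∈ pc (H k) (H (k + 1)) τ (fun w => b (w, k))
      (TT H τ b k) (cl (H (k + 1)) v) := Iff.rfl

theorem mem_ed {H : SimpleGraph ℕ} {K : Finset ℕ} {u v : ℕ} :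
    s(u, v) ∈ ed H K ↔ (u ∈ K ∧ v ∈ K) ∧ H.Adj u v := by
  classical
  unfold ed
  rw [Finset.mem_filter, Finset.mk_mem_sym2_iff]
  rfl

theorem ed_mem {H : SimpleGraph ℕ} {K : Finset ℕ} {e : Sym2 ℕ} (he : e ∈ ed H K) :
    ∀ v ∈ e, v ∈ K := by
  induction e using Sym2.ind with
  | _ a b =>
    intro v hv
    have := mem_ed.1 he
    rcases Sym2.mem_iff.1 hv with rfl | rfl
    · exact this.1.1
    · exact this.1.2

theorem ed_edge {H : SimpleGraph ℕ} {K : Finset ℕ} {e : Sym2 ℕ} (he : e ∈ ed H K) :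
    e ∈ H.edgeSet := by
  induction e using Sym2.ind with
  | _ a b => exact (mem_ed.1 he).2

theorem mem_ed' {H : SimpleGraph ℕ} {K : Finset ℕ} {e : Sym2 ℕ} :
    e ∈ ed H K ↔ e ∈ H.edgeSet ∧ ∀ v ∈ e, v ∈ K := by
  constructor
  · intro h
    exact ⟨ed_edge h, ed_mem h⟩
  · intro h
    induction e using Sym2.ind with
    | _ a b => exact mem_ed.2 ⟨⟨h.2 a (Sym2.mem_mk_left _ _), h.2 b (Sym2.mem_mk_right _ _)⟩, h.1⟩

theorem ed_mono {H H' : SimpleGraph ℕ} (h : H ≤ H') (K : Finset ℕ) : ed H K ⊆ ed H' K := by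
  intro e he
  rw [mem_ed'] at he ⊢
  exact ⟨SimpleGraph.edgeSet_mono h he.1, he.2⟩

theorem rk_inj {τ : ℕ → I} {K : Finset ℕ} (hτ : ∀ u ∈ K, ∀ v ∈ K, τ u = τ v → u = v) :
    Set.InjOn (rk (ord τ K)) (K : Set ℕ) := by
  classical
  have key : ∀ u ∈ K, ∀ v ∈ K, τ u < τ v → rk (ord τ K) u < rk (ord τ K) v := by
    intro u hu v hv huv
    unfold rk
    have hcard : ∀ w ∈ K, ((ord τ K).filter (fun p => p.2 = w)).card =
        (K.filter (fun z => τ z < τ w)).card := by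
      intro w hw
      refine Finset.card_bij (fun p _ => p.1) ?_ ?_ ?_
      · intro p hp
        simp only [ord, Finset.mem_filter, Finset.mem_product] at hp
        rw [Finset.mem_filter]
        exact ⟨hp.1.1.1, hp.2 ▸ hp.1.2⟩
      · intro p hp q hq h
        simp only [Finset.mem_filter] at hp hq
        exact Prod.ext h (hp.2.trans hq.2.symm)
      · intro z hz
        rw [Finset.mem_filter] at hz
        refine ⟨(z, w), ?_, rfl⟩
        simp only [ord, Finset.mem_filter, Finset.mem_product]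
        exact ⟨⟨⟨hz.1, hw⟩, hz.2⟩, trivial⟩
    rw [hcard u hu, hcard v hv]
    apply Finset.card_lt_card
    refine Finset.ssubset_iff_subset_ne.2 ⟨?_, ?_⟩
    · intro z hz
      rw [Finset.mem_filter] at hz ⊢
      exact ⟨hz.1, hz.2.trans huv⟩
    · intro h
      have : u ∈ K.filter (fun z => τ z < τ v) := Finset.mem_filter.2 ⟨hu, huv⟩
      rw [← h, Finset.mem_filter] at this
      exact lt_irrefl _ this.2
  intro u hu v hv h
  rcases lt_trichotomy (τ u) (τ v) with h' | h' | h'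
  · exact absurd h (key u hu v hv h').ne
  · exact hτ u hu v hv h'
  · exact absurd h (key v hv u hu h').ne'

theorem rk_zero {τ : ℕ → I} {K : Finset ℕ} (hK : K.Nonempty) :
    ∃ v ∈ K, rk (ord τ K) v = 0 := by
  classical
  obtain ⟨v, hv, hmin⟩ := Finset.exists_min_image K τ hK
  refine ⟨v, hv, ?_⟩
  unfold rk
  rw [Finset.card_eq_zero, Finset.filter_eq_empty_iff]
  rintro ⟨a, c⟩ hp rfl
  simp only [ord, Finset.mem_filter, Finset.mem_product] at hp
  exact absurd hp.2 (not_lt.2 (hmin a hp.1.1))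

theorem kap_spec {N N' : Finset (Sym2 ℕ)} (h : N' ⊆ N) :
    (∀ S ∈ trees ⊥ N', ∀ j < (trees (⊥ : Setoid ℕ) N).card,
      kap N N' S j ∈ trees ⊥ N ∧ kap N N' S j ∩ N' ⊆ S) ∧
      ∀ T ∈ trees (⊥ : Setoid ℕ) N, (((trees ⊥ N') ×ˢ range (trees (⊥ : Setoid ℕ) N).card).filter
        (fun p => kap N N' p.1 p.2 = T)).card = (trees (⊥ : Setoid ℕ) N').card := by
  have hk : ∀ S j, kap N N' S j = (coup N N' h).choose S j := by
    intro S j
    unfold kap
    rw [dif_pos h]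
  simp only [hk]
  exact (coup N N' h).choose_spec

theorem trees_pos (E : Finset (Sym2 ℕ)) : 0 < (trees (⊥ : Setoid ℕ) E).card :=
  Finset.card_pos.2 (trees_nonempty ⊥ E)

/-- the properties of one step -/
theorem res_spec {O : Finset (ℕ × ℕ)} {K : Finset ℕ} (hO : Set.InjOn (rk O) (K : Set ℕ))
    {E' E : Finset (Sym2 ℕ)} (hE : ∀ e ∈ E, ∀ v ∈ e, v ∈ K) (hEE : E' ⊆ E) {S : Finset (Sym2 ℕ)}
    (hS : S ∈ trees ⊥ E') {j : ℕ} (hj : j < (trees (⊥ : Setoid ℕ) E).card) :
    (res O E' E S j).image (Sym2.map (rk O)) = kap (E.image (Sym2.map (rk O)))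
      (E'.image (Sym2.map (rk O))) (S.image (Sym2.map (rk O))) j ∧
    res O E' E S j ∈ trees ⊥ E ∧ res O E' E S j ∩ E' ⊆ S := by
  set m := Sym2.map (rk O) with hm
  have hE' : ∀ e ∈ E', ∀ v ∈ e, v ∈ K := fun e he => hE e (hEE he)
  have hS' : S.image m ∈ trees ⊥ (E'.image m) :=
    (mem_trees_im (rk O) K hO E' S hE' (mem_trees.1 hS).1).2 hS
  have hj' : j < (trees (⊥ : Setoid ℕ) (E.image m)).card := by
    rw [hm, trees_im_card (rk O) K hO E hE]; exact hj
  have hsub : E'.image m ⊆ E.image m := Finset.image_subset_image hEE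
  obtain ⟨h1, h2⟩ := (kap_spec hsub).1 _ hS' j hj'
  have himg : (res O E' E S j).image m = kap (E.image m) (E'.image m) (S.image m) j := by
    ext f
    rw [Finset.mem_image]
    constructor
    · rintro ⟨e, he, rfl⟩
      exact (Finset.mem_filter.1 he).2
    · intro hf
      obtain ⟨e, he, rfl⟩ := Finset.mem_image.1 ((mem_trees.1 h1).1 hf)
      exact ⟨e, Finset.mem_filter.2 ⟨he, hf⟩, rfl⟩
  refine ⟨himg, ?_, ?_⟩
  · refine (mem_trees_im (rk O) K hO E (res O E' E S j) hE (Finset.filter_subset _ _)).1 ?_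
    rw [← hm, himg]
    exact h1
  · intro e he
    obtain ⟨he1, he2⟩ := Finset.mem_inter.1 he
    have h3 : m e ∈ kap (E.image m) (E'.image m) (S.image m) j := (Finset.mem_filter.1 he1).2
    have h4 : m e ∈ S.image m := h2 (Finset.mem_inter.2 ⟨h3, Finset.mem_image_of_mem _ he2⟩)
    obtain ⟨e', he', h5⟩ := Finset.mem_image.1 h4
    have h6 : e' = e := injOn_map hO (fun v hv => hE' e' ((mem_trees.1 hS).1 he') v hv)
      (fun v hv => hE' e he2 v hv) h5
    rw [← h6]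
    exact he'

theorem idx_eq {O : Finset (ℕ × ℕ)} {K : Finset ℕ} (hO : Set.InjOn (rk O) (K : Set ℕ))
    {v : ℕ} (hv : v ∈ K) (hv0 : rk O v = 0) (N : ℕ) (b : ℕ → I) :
    idx O K N b = min (N - 1) ⌊(N : ℝ) * (b v : ℝ)⌋₊ := by
  unfold idx
  rw [Finset.sum_eq_single v]
  · rw [if_pos hv0]
  · intro w hw hwv
    rw [if_neg]
    intro h
    exact hwv (hO hw hv (h.trans hv0.symm))
  · intro h
    exact absurd hv h

theorem mem_cl {H : SimpleGraph ℕ} {v w : ℕ} (h : {w | H.Reachable v w}.Finite) :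
    w ∈ cl H v ↔ H.Reachable v w := by
  unfold cl
  rw [dif_pos h, Set.Finite.mem_toFinset]
  rfl

/-- the assumptions on the part `C` of the graph -/
structure Good (H : ℕ → SimpleGraph ℕ) (τ : ℕ → I) (C : Set ℕ) : Prop where
  mono : Monotone H
  zero : H 0 = ⊥
  closed : ∀ k u v, u ∈ C → (H k).Adj u v → v ∈ C
  fin : ∀ k, ∀ v ∈ C, {w | (H k).Reachable v w}.Finite
  inj : ∀ u ∈ C, ∀ v ∈ C, τ u = τ v → u = v

/-- closed finite sets of vertices -/
def Cls (H : SimpleGraph ℕ) (K : Finset ℕ) : Prop := ∀ u ∈ K, ∀ v, H.Adj u v → v ∈ K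

theorem Cls.mono {H H' : SimpleGraph ℕ} (h : H ≤ H') {K : Finset ℕ} (hK : Cls H' K) : Cls H K :=
  fun u hu v huv => hK u hu v (h huv)

theorem Cls.reach {H : SimpleGraph ℕ} {K : Finset ℕ} (hK : Cls H K) {u v : ℕ} (hu : u ∈ K)
    (h : H.Reachable u v) : v ∈ K := by
  obtain ⟨p⟩ := h
  induction p with
  | nil => exact hu
  | cons h' _ ih => exact ih (hK _ hu _ h')

variable {H : ℕ → SimpleGraph ℕ} {τ : ℕ → I} {C : Set ℕ}

theorem Good.reach (hg : Good H τ C) {k u v : ℕ} (hu : u ∈ C) (h : (H k).Reachable u v) :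
    v ∈ C := by
  obtain ⟨p⟩ := h
  induction p with
  | nil => exact hu
  | cons h' _ ih => exact ih (hg.closed k _ _ hu h')

theorem cls_cl (hg : Good H τ C) {k v : ℕ} (hv : v ∈ C) : Cls (H k) (cl (H k) v) := by
  intro u hu w huw
  rw [mem_cl (hg.fin k v hv)] at hu ⊢
  exact hu.trans huw.reachable

theorem cl_sub (hg : Good H τ C) {k v : ℕ} (hv : v ∈ C) : ∀ w ∈ cl (H k) v, w ∈ C := by
  intro w hw
  rw [mem_cl (hg.fin k v hv)] at hw
  exact hg.reach hv hw

theorem self_cl (hg : Good H τ C) {k v : ℕ} (hv : v ∈ C) : v ∈ cl (H k) v := by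
  rw [mem_cl (hg.fin k v hv)]

theorem cl_eq (hg : Good H τ C) {k u v : ℕ} (hu : u ∈ C) (h : (H k).Reachable u v) :
    cl (H k) u = cl (H k) v := by
  have hv : v ∈ C := hg.reach hu h
  ext w
  rw [mem_cl (hg.fin k u hu), mem_cl (hg.fin k v hv)]
  exact ⟨fun h' => h.symm.trans h', fun h' => h.trans h'⟩

/-- induction over closed finite sets -/
theorem closed_induction (hg : Good H τ C) (k : ℕ) (P : Finset ℕ → Prop) (h0 : P ∅)
    (hcl : ∀ v ∈ C, P (cl (H k) v))
    (hun : ∀ K1 K2 : Finset ℕ, (∀ v ∈ K1, v ∈ C) → (∀ v ∈ K2, v ∈ C) → Cls (H k) K1 →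
      Cls (H k) K2 → Disjoint K1 K2 → P K1 → P K2 → P (K1 ∪ K2)) :
    ∀ K : Finset ℕ, (∀ v ∈ K, v ∈ C) → Cls (H k) K → P K := by
  intro K
  induction K using Finset.strongInduction with
  | H K ih =>
    intro hKC hK
    rcases K.eq_empty_or_nonempty with rfl | ⟨v, hv⟩
    · exact h0
    · have hvC := hKC v hv
      have hsub : cl (H k) v ⊆ K := by
        intro w hw
        rw [mem_cl (hg.fin k v hvC)] at hw
        exact hK.reach hv hw
      have hcls : Cls (H k) (K \ cl (H k) v) := by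
        intro u hu w huw
        rw [Finset.mem_sdiff] at hu ⊢
        refine ⟨hK u hu.1 w huw, fun hw => hu.2 ?_⟩
        exact cls_cl hg hvC w hw u huw.symm
      have h1 : P (K \ cl (H k) v) := by
        apply ih
        · refine Finset.ssubset_iff_subset_ne.2 ⟨Finset.sdiff_subset, ?_⟩
          intro h
          have : v ∈ K \ cl (H k) v := h.symm ▸ hv
          exact (Finset.mem_sdiff.1 this).2 (self_cl hg hvC)
        · intro w hw
          exact hKC w (Finset.mem_sdiff.1 hw).1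
        · exact hcls
      have h2 := hun (cl (H k) v) (K \ cl (H k) v) (cl_sub hg hvC)
        (fun w hw => hKC w (Finset.mem_sdiff.1 hw).1) (cls_cl hg hvC) hcls
        Finset.disjoint_sdiff (hcl v hvC) h1
      rwa [Finset.union_sdiff_of_subset hsub] at h2

open Classical in
/-- the forest inside `K` -/
noncomputable def tr (H : ℕ → SimpleGraph ℕ) (τ : ℕ → I) (b : ℕ × ℕ → I) (k : ℕ)
    (K : Finset ℕ) : Finset (Sym2 ℕ) :=
  (ed (H k) K).filter (fun e => e ∈ TT H τ b k)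

theorem mem_tr {b : ℕ × ℕ → I} {k : ℕ} {K : Finset ℕ} {e : Sym2 ℕ} :
    e ∈ tr H τ b k K ↔ e ∈ ed (H k) K ∧ e ∈ TT H τ b k := by
  classical
  unfold tr
  rw [Finset.mem_filter]

theorem ed_empty (H : SimpleGraph ℕ) : ed H ∅ = ∅ := by
  ext e
  induction e using Sym2.ind with
  | _ a b' =>
    rw [mem_ed]
    simp

theorem tr_empty (b : ℕ × ℕ → I) (k : ℕ) : tr H τ b k ∅ = ∅ := by
  ext e
  rw [mem_tr, ed_empty]
  simp

theorem tr_zero (b : ℕ × ℕ → I) (K : Finset ℕ) : tr H τ b 0 K = ∅ := by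
  ext e
  rw [mem_tr, TT_zero]
  simp

theorem empty_mem_trees : (∅ : Finset (Sym2 ℕ)) ∈ trees (⊥ : Setoid ℕ) ∅ := by
  obtain ⟨T, hT⟩ := trees_nonempty (⊥ : Setoid ℕ) (∅ : Finset (Sym2 ℕ))
  have : T = ∅ := Finset.subset_empty.1 (mem_trees.1 hT).1
  rwa [this] at hT

theorem ed_union {H : SimpleGraph ℕ} {K1 K2 : Finset ℕ} (h1 : Cls H K1) (h2 : Cls H K2)
    : ed H (K1 ∪ K2) = ed H K1 ∪ ed H K2 := by
  ext e
  induction e using Sym2.ind with
  | _ a b =>
    rw [Finset.mem_union, mem_ed, mem_ed, mem_ed, Finset.mem_union, Finset.mem_union]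
    constructor
    · rintro ⟨⟨ha | ha, hb⟩, hab⟩
      · exact Or.inl ⟨⟨ha, h1 a ha b hab⟩, hab⟩
      · exact Or.inr ⟨⟨ha, h2 a ha b hab⟩, hab⟩
    · rintro (⟨⟨ha, hb⟩, hab⟩ | ⟨⟨ha, hb⟩, hab⟩)
      · exact ⟨⟨Or.inl ha, Or.inl hb⟩, hab⟩
      · exact ⟨⟨Or.inr ha, Or.inr hb⟩, hab⟩

theorem tr_union {b : ℕ × ℕ → I} {k : ℕ} {K1 K2 : Finset ℕ} (h1 : Cls (H k) K1)
    (h2 : Cls (H k) K2) : tr H τ b k (K1 ∪ K2) = tr H τ b k K1 ∪ tr H τ b k K2 := by
  unfold tr
  rw [ed_union h1 h2, Finset.filter_union]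

/-- the forest in a component, by the recursion -/
theorem tr_cl (hg : Good H τ C) (b : ℕ × ℕ → I) {k v : ℕ} (hv : v ∈ C) :
    tr H τ b (k + 1) (cl (H (k + 1)) v) =
      res (ord τ (cl (H (k + 1)) v)) (ed (H k) (cl (H (k + 1)) v))
        (ed (H (k + 1)) (cl (H (k + 1)) v)) (tr H τ b k (cl (H (k + 1)) v))
        (idx (ord τ (cl (H (k + 1)) v)) (cl (H (k + 1)) v)
          (trees ⊥ (ed (H (k + 1)) (cl (H (k + 1)) v))).card (fun w => b (w, k))) := by
  classical
  have key : tr H τ b (k + 1) (cl (H (k + 1)) v) =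
      pc (H k) (H (k + 1)) τ (fun w => b (w, k)) (TT H τ b k) (cl (H (k + 1)) v) := by
    ext e
    rw [mem_tr, mem_TT_succ]
    constructor
    · rintro ⟨he, w, hw⟩
      have hwe : e ∈ ed (H (k + 1)) (cl (H (k + 1)) w) := by
        unfold pc res at hw
        exact (Finset.mem_filter.1 hw).1
      induction e using Sym2.ind with
      | _ a b' =>
        have ha1 : a ∈ cl (H (k + 1)) v := (mem_ed.1 he).1.1
        have ha2 : a ∈ cl (H (k + 1)) w := (mem_ed.1 hwe).1.1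
        have hfin : {z | (H (k + 1)).Reachable w z}.Finite := by
          by_contra h
          unfold cl at ha2
          rw [dif_neg h] at ha2
          exact absurd ha2 (Finset.notMem_empty _)
        rw [mem_cl hfin] at ha2
        rw [mem_cl (hg.fin _ v hv)] at ha1
        have hvw : (H (k + 1)).Reachable v w := ha1.trans ha2.symm
        rwa [cl_eq hg hv hvw]
    · intro he
      refine ⟨?_, v, he⟩
      unfold pc res at he
      exact (Finset.mem_filter.1 he).1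
  rw [key]
  unfold pc tr
  congr

theorem idx_lt (hg : Good H τ C) {k v : ℕ} (hv : v ∈ C) (b : ℕ → I) :
    idx (ord τ (cl (H k) v)) (cl (H k) v)
      (trees (⊥ : Setoid ℕ) (ed (H k) (cl (H k) v))).card b <
        (trees (⊥ : Setoid ℕ) (ed (H k) (cl (H k) v))).card := by
  have hinj : ∀ u ∈ cl (H k) v, ∀ w ∈ cl (H k) v, τ u = τ w → u = w := fun u hu w hw =>
    hg.inj u (cl_sub hg hv u hu) w (cl_sub hg hv w hw)
  obtain ⟨z, hz, hz0⟩ := rk_zero (τ := τ) ⟨v, self_cl hg (k := k) hv⟩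
  rw [idx_eq (rk_inj hinj) hz hz0]
  have := trees_pos (ed (H k) (cl (H k) v))
  have h2 := min_le_left ((trees (⊥ : Setoid ℕ) (ed (H k) (cl (H k) v))).card - 1)
    ⌊((trees (⊥ : Setoid ℕ) (ed (H k) (cl (H k) v))).card : ℝ) * (b z : ℝ)⌋₊
  omega

/-- the forest is a maximal spanning forest -/
theorem tr_mem (hg : Good H τ C) (b : ℕ × ℕ → I) : ∀ (k : ℕ) (K : Finset ℕ), (∀ v ∈ K, v ∈ C) →
    Cls (H k) K → tr H τ b k K ∈ trees ⊥ (ed (H k) K) := by
  intro k
  induction k with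
  | zero =>
    intro K _ _
    have h0 : ed (H 0) K = ∅ := by
      ext e
      induction e using Sym2.ind with
      | _ a b' =>
        rw [mem_ed, hg.zero]
        simp
    rw [h0, tr_zero]
    exact empty_mem_trees
  | succ k ih =>
    refine closed_induction hg (k + 1) (fun K => tr H τ b (k + 1) K ∈ trees ⊥ (ed (H (k + 1)) K))
      ?_ ?_ ?_
    · rw [ed_empty, tr_empty]
      exact empty_mem_trees
    · intro v hv
      rw [tr_cl hg b hv]
      have hinj : ∀ u ∈ cl (H (k + 1)) v, ∀ w ∈ cl (H (k + 1)) v, τ u = τ w → u = w :=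
        fun u hu w hw => hg.inj u (cl_sub hg hv u hu) w (cl_sub hg hv w hw)
      have hle : H k ≤ H (k + 1) := hg.mono (Nat.le_succ k)
      exact (res_spec (rk_inj hinj) (fun e he => ed_mem he) (ed_mono hle _)
        (ih _ (cl_sub hg hv) ((cls_cl hg hv).mono hle)) (idx_lt hg hv _)).2.1
    · intro K1 K2 hC1 hC2 h1 h2 hd hP1 hP2
      rw [ed_union h1 h2, tr_union h1 h2]
      exact (mem_trees_union (K := (K1 : Set ℕ)) (fun e he v hv => ed_mem he v hv)
        (fun e he v hv hv1 => Finset.disjoint_left.1 hd hv1 (ed_mem he v hv))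
        (fun e he => (mem_tr.1 he).1) (fun e he => (mem_tr.1 he).1)).2 ⟨hP1, hP2⟩

/-- the forests decrease on the edges of the previous graph -/
theorem TT_anti (hg : Good H τ C) (b : ℕ × ℕ → I) (k : ℕ) (e : Sym2 ℕ) (he : e ∈ (H k).edgeSet)
    (heC : ∀ v ∈ e, v ∈ C) (h : e ∈ TT H τ b (k + 1)) : e ∈ TT H τ b k := by
  induction e using Sym2.ind with
  | _ x y =>
    have hle : H k ≤ H (k + 1) := hg.mono (Nat.le_succ k)
    have hx : x ∈ C := heC x (Sym2.mem_mk_left _ _)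
    have hxy : (H k).Adj x y := he
    have hinj : ∀ u ∈ cl (H (k + 1)) x, ∀ w ∈ cl (H (k + 1)) x, τ u = τ w → u = w :=
        fun u hu w hw => hg.inj u (cl_sub hg hx u hu) w (cl_sub hg hx w hw)
    have hyK : y ∈ cl (H (k + 1)) x := by
      rw [mem_cl (hg.fin _ x hx)]
      exact (hle hxy).reachable
    have h1 : s(x, y) ∈ tr H τ b (k + 1) (cl (H (k + 1)) x) := by
      rw [mem_tr]
      exact ⟨mem_ed.2 ⟨⟨self_cl hg hx, hyK⟩, hle hxy⟩, h⟩
    rw [tr_cl hg b hx] at h1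
    have h2 := (res_spec (rk_inj hinj) (fun e he => ed_mem he) (ed_mono hle _)
        (tr_mem hg b k _ (cl_sub hg hx) ((cls_cl hg hx).mono hle))
        (idx_lt hg hx (fun w => b (w, k)))).2.2
    have h3 := h2 (Finset.mem_inter.2 ⟨h1, mem_ed.2 ⟨⟨self_cl hg hx, hyK⟩, hxy⟩⟩)
    exact (mem_tr.1 h3).2

/-- the forests are contained in the graphs -/
theorem TT_sub (H : ℕ → SimpleGraph ℕ) (τ : ℕ → I) (b : ℕ × ℕ → I) (k : ℕ) :
    TT H τ b k ⊆ (H k).edgeSet := by
  intro e he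
  cases k with
  | zero =>
    rw [TT_zero] at he
    exact absurd he (Set.notMem_empty _)
  | succ k =>
    rw [mem_TT_succ] at he
    obtain ⟨v, hv⟩ := he
    unfold pc res at hv
    exact ed_edge (Finset.mem_filter.1 hv).1

/-- locality of the forests in the seeds -/
theorem tr_dep (hg : Good H τ C) (b b' : ℕ × ℕ → I) : ∀ (k : ℕ) (K : Finset ℕ),
    (∀ v ∈ K, v ∈ C) → Cls (H k) K → (∀ v ∈ K, ∀ j < k, b (v, j) = b' (v, j)) →
      tr H τ b k K = tr H τ b' k K := by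
  intro k
  induction k with
  | zero =>
    intro K _ _ _
    rw [tr_zero, tr_zero]
  | succ k ih =>
    refine closed_induction hg (k + 1) (fun K => (∀ v ∈ K, ∀ j < k + 1, b (v, j) = b' (v, j)) →
      tr H τ b (k + 1) K = tr H τ b' (k + 1) K) ?_ ?_ ?_
    · intro _
      rw [tr_empty, tr_empty]
    · intro v hv hb
      have hle : H k ≤ H (k + 1) := hg.mono (Nat.le_succ k)
      rw [tr_cl hg b hv, tr_cl hg b' hv,
        ih _ (cl_sub hg hv) ((cls_cl hg hv).mono hle) (fun w hw j hj => hb w hw j (by omega))]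
      congr 1
      unfold idx
      refine Finset.sum_congr rfl fun w hw => ?_
      simp only [hb w hw k (by omega)]
    · intro K1 K2 hC1 hC2 h1 h2 hd hP1 hP2 hb
      rw [tr_union h1 h2, tr_union h1 h2,
        hP1 (fun v hv => hb v (Finset.mem_union_left _ hv)),
        hP2 (fun v hv => hb v (Finset.mem_union_right _ hv))]

end Pool.Agent.NH99.WU
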