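import Pool.Agent.NH99.WU_Lim2

/-!
# Expected numbers of visits of simple random walk
-/

set_option autoImplicit false
set_option linter.unusedSectionVars false

namespace Pool.Agent.NH99.WU

open Finset Pool.Agent.TH968.UST Filter Topology MeasureTheory
open scoped ENNReal

/-- expected number of visits to `c` before time `t` of simple random walk started at `x` -/
noncomputable def vis (G : SimpleGraph ℕ) (c : ℕ) : ℕ → ℕ → ℝ≥0∞
  | 0, _ => 0
  | t + 1, x => (if x = c then 1 else 0) + avg G (vis G c t) x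

variable {G : SimpleGraph ℕ}

theorem vis_succ_ge (c : ℕ) : ∀ t x, vis G c t x ≤ vis G c (t + 1) x
  | 0, x => by
    simp only [vis]
    exact bot_le
  | t + 1, x => by
    simp only [vis]
    exact add_le_add le_rfl (avg_mono (vis_succ_ge c t) x)

theorem vis_mono (c x : ℕ) : Monotone fun t => vis G c t x :=
  monotone_nat_of_le_succ fun t => vis_succ_ge c t x

theorem avg_tsum (f : ℕ → ℕ → ℝ≥0∞) (v : ℕ) :
    avg G (fun w => ∑' c, f c w) v = ∑' c, avg G (f c) v := by
  classical
  unfold avg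
  simp only [div_eq_mul_inv]
  rw [ENNReal.tsum_mul_right]
  congr 1
  rw [ENNReal.tsum_comm]
  refine tsum_congr fun w => ?_
  split_ifs
  · rfl
  · simp

theorem avg_mul (f : ℕ → ℝ≥0∞) (k : ℝ≥0∞) (v : ℕ) :
    avg G (fun w => f w * k) v = avg G f v * k := by
  classical
  unfold avg
  have h : ∑' w, (if G.Adj v w then f w * k else 0) = (∑' w, (if G.Adj v w then f w else 0)) * k := by
    rw [← ENNReal.tsum_mul_right]
    refine tsum_congr fun w => ?_
    split_ifs
    · rfl
    · simp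
  rw [h, ENNReal.mul_div_right_comm]

theorem avg_const {v : ℕ} (hf : {w | G.Adj v w}.Finite) (hn : ∃ w, G.Adj v w) (k : ℝ≥0∞) :
    avg G (fun _ => k) v = k := by
  rw [avg_eq hf, Finset.sum_const, nsmul_eq_mul, ENNReal.mul_div_right_comm, ENNReal.div_self,
    one_mul]
  · obtain ⟨w, hw⟩ := hn
    have : w ∈ hf.toFinset := by rw [Set.Finite.mem_toFinset]; exact hw
    have := Finset.card_pos.2 ⟨w, this⟩
    exact_mod_cast this.ne'
  · exact ENNReal.natCast_ne_top _

/-- total number of visits -/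
theorem vis_total {x0 : ℕ} (hl : LocFin G x0) (hn : ∀ v, G.Reachable x0 v → ∃ w, G.Adj v w) :
    ∀ t x, G.Reachable x0 x → ∑' c, vis G c t x = t
  | 0, x => by
    intro _
    simp [vis]
  | t + 1, x => by
    intro hx
    simp only [vis]
    rw [ENNReal.tsum_add, ← avg_tsum]
    have h1 : avg G (fun w => ∑' c, vis G c t w) x = avg G (fun _ => (t : ℝ≥0∞)) x := by
      refine avg_congr fun w hw => ?_
      exact vis_total hl hn t w (hx.trans hw.reachable)
    rw [h1, avg_const (hl x hx) (hn x hx)]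
    have h2 : ∑' c, (if x = c then (1 : ℝ≥0∞) else 0) = 1 := by
      rw [tsum_eq_single x]
      · simp
      · intro c hc
        rw [if_neg (Ne.symm hc)]
    rw [h2]
    push_cast
    ring

/-- strong Markov property -/
theorem vis_ge (c v : ℕ) : ∀ m t x, hit G v m x * vis G c (t - m) v ≤ vis G c t x
  | 0, t, x => by
    simp only [hit, Nat.sub_zero]
    split_ifs with h
    · rw [h, one_mul]
    · rw [zero_mul]
      exact bot_le
  | m + 1, t, x => by
    simp only [hit]
    split_ifs with h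
    · rw [h, one_mul]
      exact vis_mono c v (Nat.sub_le _ _)
    · cases t with
      | zero => simp [vis]
      | succ s =>
        rw [Nat.add_sub_add_right, ← avg_mul]
        calc avg G (fun w => hit G v m w * vis G c (s - m) v) x ≤ avg G (vis G c s) x :=
              avg_mono (fun w => vis_ge c v m s w) x
          _ ≤ vis G c (s + 1) x := by
              rw [vis]
              exact le_add_self

theorem vis_diff {x0 : ℕ} (hl : LocFin G x0) (hn : ∀ v, G.Reachable x0 v → ∃ w, G.Adj v w)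
    {x v : ℕ} (hv : G.Reachable x0 v) (t m : ℕ) (ε : ℝ≥0∞)
    (hm : 1 ≤ hit G v m x + ε) :
    ∑' c, (vis G c t v - vis G c t x) ≤ ε * t + m := by
  set h := hit G v m x with hh
  have hh1 : h ≤ 1 := hit_le_one v m x
  have hle : ∀ c, h * vis G c (t - m) v ≤ vis G c t v := fun c =>
    calc h * vis G c (t - m) v ≤ 1 * vis G c (t - m) v := mul_le_mul_left hh1 _
      _ ≤ vis G c t v := by rw [one_mul]; exact vis_mono c v (Nat.sub_le _ _)
  calc ∑' c, (vis G c t v - vis G c t x) ≤ ∑' c, (vis G c t v - h * vis G c (t - m) v) :=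
        ENNReal.tsum_le_tsum fun c => tsub_le_tsub_left (vis_ge c v m t x) _
    _ = (∑' c, vis G c t v) - ∑' c, h * vis G c (t - m) v := by
        refine ENNReal.tsum_sub ?_ hle
        rw [ENNReal.tsum_mul_left, vis_total hl hn _ v hv]
        exact ENNReal.mul_ne_top (ne_top_of_le_ne_top ENNReal.one_ne_top hh1)
          (ENNReal.natCast_ne_top _)
    _ = (t : ℝ≥0∞) - h * ((t - m : ℕ) : ℝ≥0∞) := by
        rw [ENNReal.tsum_mul_left, vis_total hl hn _ v hv, vis_total hl hn _ v hv]
    _ ≤ ε * t + m := by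
        rw [tsub_le_iff_right]
        have h1 : (t : ℝ≥0∞) ≤ (h + ε) * t := by
          calc (t : ℝ≥0∞) = 1 * t := (one_mul _).symm
            _ ≤ (h + ε) * t := mul_le_mul_left hm _
        have h2 : (t : ℝ≥0∞) ≤ ((t - m : ℕ) : ℝ≥0∞) + m := by
          have : t ≤ (t - m) + m := by omega
          exact_mod_cast this
        calc (t : ℝ≥0∞) ≤ (h + ε) * t := h1
          _ = h * t + ε * t := add_mul _ _ _
          _ ≤ h * (((t - m : ℕ) : ℝ≥0∞) + m) + ε * t := by gcongr
          _ = ε * t + h * m + h * ((t - m : ℕ) : ℝ≥0∞) := by ring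
          _ ≤ ε * t + 1 * m + h * ((t - m : ℕ) : ℝ≥0∞) := by gcongr
          _ = ε * t + m + h * ((t - m : ℕ) : ℝ≥0∞) := by rw [one_mul]

/-- normalised distance between the occupation measures from `x` and from `v` -/
noncomputable def dl (G : SimpleGraph ℕ) (t x v : ℕ) : ℝ≥0∞ :=
  (∑' c, ((vis G c t x - vis G c t v) + (vis G c t v - vis G c t x))) / t

open Classical in
/-- sum over the neighbours of `x` -/
noncomputable def dS (G : SimpleGraph ℕ) (t x : ℕ) : ℝ≥0∞ :=
  ∑' v, if G.Adj x v then dl G t x v else 0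

/-- recurrence: neighbours are hit -/
theorem hit_nb {x0 : ℕ} (hl : LocFin G x0) (hr : RecurrentAt G x0) {x v : ℕ}
    (hv : G.Reachable x0 v) (hxv : G.Adj v x) : ⨆ m, hit G v m x = 1 := by
  classical
  refine le_antisymm (iSup_le fun m => hit_le_one v m x) ?_
  by_contra hlt
  push Not at hlt
  have hrec := hr v hv ⟨x, hxv⟩
  have hf := hl v hv
  set q := ⨆ m, hit G v m x with hq
  set S := hf.toFinset with hS
  have hxS : x ∈ S := by rw [hS, Set.Finite.mem_toFinset]; exact hxv
  have hbd : ∀ n, avg G (hit G v n) v ≤ (q + ((S.erase x).card : ℝ≥0∞)) / (S.card : ℝ≥0∞) := by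
    intro n
    rw [avg_eq hf]
    refine ENNReal.div_le_div_right ?_ _
    rw [← Finset.add_sum_erase S _ hxS]
    refine add_le_add (le_iSup (fun m => hit G v m x) n) ?_
    calc ∑ w ∈ S.erase x, hit G v n w ≤ ∑ w ∈ S.erase x, (1 : ℝ≥0∞) :=
          Finset.sum_le_sum fun w _ => hit_le_one v n w
      _ = ((S.erase x).card : ℝ≥0∞) := by simp
  have h1 : (1 : ℝ≥0∞) ≤ (q + ((S.erase x).card : ℝ≥0∞)) / (S.card : ℝ≥0∞) := by
    rw [← hrec]
    exact iSup_le hbd
  have hSc : (S.card : ℝ≥0∞) = 1 + ((S.erase x).card : ℝ≥0∞) := by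
    rw [← Finset.card_erase_add_one hxS]
    push_cast
    ring
  have hS0 : (S.card : ℝ≥0∞) ≠ 0 := by
    rw [hSc]; exact (add_pos_of_pos_of_nonneg one_pos bot_le).ne'
  have h2 := mul_le_mul_left h1 (S.card : ℝ≥0∞)
  rw [one_mul, ENNReal.div_mul_cancel hS0 (ENNReal.natCast_ne_top _), hSc] at h2
  have h3 : (1 : ℝ≥0∞) ≤ q := (ENNReal.add_le_add_iff_right (ENNReal.natCast_ne_top _)).1 h2
  exact absurd hlt (not_lt.2 h3)

theorem dl_tendsto {x0 : ℕ} (hl : LocFin G x0) (hr : RecurrentAt G x0) {x v : ℕ}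
    (hx : G.Reachable x0 x) (hxv : G.Adj x v) : Tendsto (fun t => dl G t x v) atTop (𝓝 0) := by
  have hv : G.Reachable x0 v := hx.trans hxv.reachable
  have hn : ∀ w, G.Reachable x0 w → ∃ u, G.Adj w u := by
    intro w hw
    by_cases hwx : w = x
    · exact ⟨v, hwx ▸ hxv⟩
    · obtain ⟨p⟩ := hw.symm.trans hx
      cases p with
      | nil => exact absurd rfl hwx
      | cons h _ => exact ⟨_, h⟩
  rw [ENNReal.tendsto_nhds_zero]
  intro ε hε
  -- choose `m`
  have hsmall : ∀ {a b : ℕ}, G.Reachable x0 a → G.Adj a b →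
      ∃ m, 1 ≤ hit G a m b + ε / 4 := by
    intro a b ha hab
    have h := hit_nb hl hr ha hab
    by_contra hc
    push Not at hc
    have hlt : ⨆ m, hit G a m b + ε / 4 ≤ 1 := iSup_le fun m => (hc m).le
    rw [← ENNReal.iSup_add, h] at hlt
    have hε4 : ε / 4 = 0 := by
      by_contra h4
      have : (1 : ℝ≥0∞) < 1 + ε / 4 := ENNReal.lt_add_right ENNReal.one_ne_top h4
      exact absurd hlt (not_le.2 this)
    rw [ENNReal.div_eq_zero_iff] at hε4
    rcases hε4 with h | h
    · exact hε.ne' h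
    · exact absurd h (by norm_num)
  obtain ⟨m1, hm1⟩ := hsmall hv hxv.symm
  obtain ⟨m2, hm2⟩ := hsmall hx hxv
  have hbd : ∀ t : ℕ, t ≠ 0 → dl G t x v ≤ ε / 2 + ((m1 + m2 : ℕ) : ℝ≥0∞) / t := by
    intro t ht
    unfold dl
    rw [ENNReal.tsum_add]
    have h1 := vis_diff hl hn hv t m1 (ε / 4) hm1
    have h2 := vis_diff hl hn hx t m2 (ε / 4) hm2
    have ht0 : (t : ℝ≥0∞) ≠ 0 := by exact_mod_cast ht
    have htt : (t : ℝ≥0∞) ≠ ⊤ := ENNReal.natCast_ne_top _
    calc (∑' c, (vis G c t x - vis G c t v) + ∑' c, (vis G c t v - vis G c t x)) / t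
        ≤ ((ε / 4 * t + m2) + (ε / 4 * t + m1)) / t := by
          refine ENNReal.div_le_div_right (add_le_add h2 h1) _
      _ = ((ε / 4 + ε / 4) * t + ((m1 + m2 : ℕ) : ℝ≥0∞)) / t := by
          congr 1
          push_cast
          ring
      _ = (ε / 4 + ε / 4) + ((m1 + m2 : ℕ) : ℝ≥0∞) / t := by
          rw [ENNReal.add_div, ENNReal.mul_div_cancel_right ht0 htt]
      _ ≤ ε / 2 + ((m1 + m2 : ℕ) : ℝ≥0∞) / t := by
          refine add_le_add (le_of_eq ?_) le_rfl
          rw [← two_mul, ← mul_div_assoc, mul_comm, show (4 : ℝ≥0∞) = 2 * 2 by norm_num]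
          rw [ENNReal.mul_div_mul_right _ _ (by norm_num) (by norm_num)]
  have hlim : Tendsto (fun t : ℕ => ((m1 + m2 : ℕ) : ℝ≥0∞) / t) atTop (𝓝 0) := by
    refine ENNReal.Tendsto.const_div ENNReal.tendsto_nat_nhds_top (Or.inr (ENNReal.natCast_ne_top _)) |>.trans ?_
    simp
  have hε2 : 0 < ε / 2 := ENNReal.half_pos hε.ne'
  filter_upwards [eventually_ne_atTop 0, (ENNReal.tendsto_nhds_zero.1 hlim) (ε / 2) hε2] with t ht h2
  calc dl G t x v ≤ ε / 2 + ((m1 + m2 : ℕ) : ℝ≥0∞) / t := hbd t ht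
    _ ≤ ε / 2 + ε / 2 := add_le_add le_rfl h2
    _ = ε := ENNReal.add_halves ε

theorem dS_tendsto {x0 : ℕ} (hl : LocFin G x0) (hr : RecurrentAt G x0) {x : ℕ}
    (hx : G.Reachable x0 x) : Tendsto (fun t => dS G t x) atTop (𝓝 0) := by
  classical
  have hf := hl x hx
  have key : ∀ t, dS G t x = ∑ v ∈ hf.toFinset, dl G t x v := by
    intro t
    unfold dS
    rw [tsum_eq_sum (s := hf.toFinset)]
    · refine Finset.sum_congr rfl fun w hw => ?_
      rw [if_pos (by simpa using hw)]
    · intro w hw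
      rw [if_neg (by simpa using hw)]
  simp only [key]
  have : Tendsto (fun t => ∑ v ∈ hf.toFinset, dl G t x v) atTop (𝓝 (∑ v ∈ hf.toFinset, 0)) := by
    refine tendsto_finsetSum _ fun v hv => ?_
    exact dl_tendsto hl hr hx (by simpa using hv)
  simpa using this

end Pool.Agent.NH99.WU
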